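import Mathlib

set_option autoImplicit false
open MeasureTheory Set Filter Topology

namespace Pool.Agent.Lib_helper42

/-- Stopping time construction: the union of the selected dyadic intervals of generation `≤ N`. -/
noncomputable def stopSet (τ : ℝ) (U : Set ℝ) : ℕ → ℝ → ℝ → Set ℝ
  | 0, a, b => by
      classical
      exact if ENNReal.ofReal (τ * (b - a)) < volume (U ∩ Ico a b) then Ico a b else ∅
  | N + 1, a, b => by
      classical
      exact if ENNReal.ofReal (τ * (b - a)) < volume (U ∩ Ico a b) then Ico a b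
        else stopSet τ U N a ((a + b) / 2) ∪ stopSet τ U N ((a + b) / 2) b

lemma stopSet_of_lt {τ : ℝ} {U : Set ℝ} {N : ℕ} {a b : ℝ}
    (h : ENNReal.ofReal (τ * (b - a)) < volume (U ∩ Ico a b)) : stopSet τ U N a b = Ico a b := by
  cases N <;> simp [stopSet, h]

lemma stopSet_zero_of_not {τ : ℝ} {U : Set ℝ} {a b : ℝ}
    (h : ¬ ENNReal.ofReal (τ * (b - a)) < volume (U ∩ Ico a b)) : stopSet τ U 0 a b = ∅ := by
  simp [stopSet, h]

lemma stopSet_succ_of_not {τ : ℝ} {U : Set ℝ} {N : ℕ} {a b : ℝ}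
    (h : ¬ ENNReal.ofReal (τ * (b - a)) < volume (U ∩ Ico a b)) :
    stopSet τ U (N + 1) a b = stopSet τ U N a ((a + b) / 2) ∪ stopSet τ U N ((a + b) / 2) b := by
  rw [stopSet]
  simp [h]

lemma stopSet_subset (τ : ℝ) (U : Set ℝ) (N : ℕ) : ∀ a b : ℝ, a ≤ b → stopSet τ U N a b ⊆ Ico a b := by
  induction N with
  | zero =>
    intro a b _
    by_cases h : ENNReal.ofReal (τ * (b - a)) < volume (U ∩ Ico a b)
    · rw [stopSet_of_lt h]
    · rw [stopSet_zero_of_not h]; exact empty_subset _
  | succ N ih =>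
    intro a b hab
    by_cases h : ENNReal.ofReal (τ * (b - a)) < volume (U ∩ Ico a b)
    · rw [stopSet_of_lt h]
    · rw [stopSet_succ_of_not h]
      refine union_subset ((ih _ _ (by linarith)).trans ?_) ((ih _ _ (by linarith)).trans ?_)
      · exact Ico_subset_Ico le_rfl (by linarith)
      · exact Ico_subset_Ico (by linarith) le_rfl

lemma measurableSet_stopSet (τ : ℝ) (U : Set ℝ) (N : ℕ) : ∀ a b : ℝ, MeasurableSet (stopSet τ U N a b) := by
  induction N with
  | zero =>
    intro a b
    by_cases h : ENNReal.ofReal (τ * (b - a)) < volume (U ∩ Ico a b)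
    · rw [stopSet_of_lt h]; exact measurableSet_Ico
    · rw [stopSet_zero_of_not h]; exact MeasurableSet.empty
  | succ N ih =>
    intro a b
    by_cases h : ENNReal.ofReal (τ * (b - a)) < volume (U ∩ Ico a b)
    · rw [stopSet_of_lt h]; exact measurableSet_Ico
    · rw [stopSet_succ_of_not h]; exact (ih _ _).union (ih _ _)

lemma stopSet_mono (τ : ℝ) (U : Set ℝ) (N : ℕ) : ∀ a b : ℝ,
    stopSet τ U N a b ⊆ stopSet τ U (N + 1) a b := by
  induction N with
  | zero =>
    intro a b
    by_cases h : ENNReal.ofReal (τ * (b - a)) < volume (U ∩ Ico a b)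
    · rw [stopSet_of_lt h, stopSet_of_lt h]
    · rw [stopSet_zero_of_not h]; exact empty_subset _
  | succ N ih =>
    intro a b
    by_cases h : ENNReal.ofReal (τ * (b - a)) < volume (U ∩ Ico a b)
    · rw [stopSet_of_lt h, stopSet_of_lt h]
    · rw [stopSet_succ_of_not h, stopSet_succ_of_not h]
      exact union_subset_union (ih _ _) (ih _ _)

/-- density estimate on the stopping set, for an additive lower bound -/
lemma stopSet_density (τ : ℝ) (U : Set ℝ) (hU : MeasurableSet U) (N : ℕ) : ∀ a b : ℝ, a ≤ b →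
    ENNReal.ofReal τ * volume (stopSet τ U N a b) ≤ volume (U ∩ stopSet τ U N a b) := by
  induction N with
  | zero =>
    intro a b hab
    by_cases h : ENNReal.ofReal (τ * (b - a)) < volume (U ∩ Ico a b)
    · rw [stopSet_of_lt h, Real.volume_Ico, ← ENNReal.ofReal_mul' (by linarith)]
      exact h.le
    · rw [stopSet_zero_of_not h]; simp
  | succ N ih =>
    intro a b hab
    by_cases h : ENNReal.ofReal (τ * (b - a)) < volume (U ∩ Ico a b)
    · rw [stopSet_of_lt h, Real.volume_Ico, ← ENNReal.ofReal_mul' (by linarith)]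
      exact h.le
    · rw [stopSet_succ_of_not h]
      have h1 := ih a ((a + b) / 2) (by linarith)
      have h2 := ih ((a + b) / 2) b (by linarith)
      have s1 := stopSet_subset τ U N a ((a + b) / 2) (by linarith)
      have s2 := stopSet_subset τ U N ((a + b) / 2) b (by linarith)
      have hd : Disjoint (Ico a ((a + b) / 2)) (Ico ((a + b) / 2) b) := by
        rw [Set.disjoint_left]
        intro x hx hx'
        exact absurd hx.2 (not_lt.2 hx'.1)
      have hdisj : Disjoint (stopSet τ U N a ((a + b) / 2)) (stopSet τ U N ((a + b) / 2) b) :=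
        hd.mono s1 s2
      rw [measure_union hdisj (measurableSet_stopSet _ _ _ _ _), mul_add, inter_union_distrib_left,
        measure_union (hdisj.mono inter_subset_right inter_subset_right)
          (hU.inter (measurableSet_stopSet _ _ _ _ _))]
      exact add_le_add h1 h2

/-- The measure estimate on the stopping set. -/
lemma stopSet_measure (τ : ℝ) (U : Set ℝ) (hU : MeasurableSet U) (ν : Measure ℝ) (c : ENNReal)
    (hc : ∀ a b : ℝ, a < b → volume (U ∩ Ico a b) ≤ ENNReal.ofReal (2 * τ * (b - a)) →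
      ν (U ∩ Ico a b) ≤ c * ν (Ico a b)) (N : ℕ) :
    ∀ a b : ℝ, a < b → volume (U ∩ Ico a b) ≤ ENNReal.ofReal (2 * τ * (b - a)) →
    ν (U ∩ stopSet τ U N a b) ≤ c * ν (stopSet τ U N a b) := by
  induction N with
  | zero =>
    intro a b hab hd
    by_cases h : ENNReal.ofReal (τ * (b - a)) < volume (U ∩ Ico a b)
    · rw [stopSet_of_lt h]; exact hc a b hab hd
    · rw [stopSet_zero_of_not h]; simp
  | succ N ih =>
    intro a b hab hd
    by_cases h : ENNReal.ofReal (τ * (b - a)) < volume (U ∩ Ico a b)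
    · rw [stopSet_of_lt h]; exact hc a b hab hd
    · rw [stopSet_succ_of_not h]
      rw [not_lt] at h
      have e1 : 2 * τ * ((a + b) / 2 - a) = τ * (b - a) := by ring
      have e2 : 2 * τ * (b - (a + b) / 2) = τ * (b - a) := by ring
      have h1 := ih a ((a + b) / 2) (by linarith) (by
        rw [e1]
        refine (measure_mono ?_).trans h
        exact inter_subset_inter_right _ (Ico_subset_Ico le_rfl (by linarith)))
      have h2 := ih ((a + b) / 2) b (by linarith) (by
        rw [e2]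
        refine (measure_mono ?_).trans h
        exact inter_subset_inter_right _ (Ico_subset_Ico (by linarith) le_rfl))
      have s1 := stopSet_subset τ U N a ((a + b) / 2) (by linarith)
      have s2 := stopSet_subset τ U N ((a + b) / 2) b (by linarith)
      have hdd : Disjoint (Ico a ((a + b) / 2)) (Ico ((a + b) / 2) b) := by
        rw [Set.disjoint_left]
        intro x hx hx'
        exact absurd hx.2 (not_lt.2 hx'.1)
      have hdisj : Disjoint (stopSet τ U N a ((a + b) / 2)) (stopSet τ U N ((a + b) / 2) b) :=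
        hdd.mono s1 s2
      rw [measure_union hdisj (measurableSet_stopSet _ _ _ _ _), mul_add, inter_union_distrib_left,
        measure_union (hdisj.mono inter_subset_right inter_subset_right)
          (hU.inter (measurableSet_stopSet _ _ _ _ _))]
      exact add_le_add h1 h2

/-- a point outside the stopping set lies in a small interval of small density -/
lemma exists_of_notMem_stopSet (τ : ℝ) (U : Set ℝ) (N : ℕ) : ∀ a b x : ℝ, x ∈ Ico a b →
    x ∉ stopSet τ U N a b → ∃ c d : ℝ, x ∈ Ico c d ∧ d - c = (b - a) / 2 ^ N ∧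
      volume (U ∩ Ico c d) ≤ ENNReal.ofReal (τ * (d - c)) := by
  induction N with
  | zero =>
    intro a b x hx hn
    by_cases h : ENNReal.ofReal (τ * (b - a)) < volume (U ∩ Ico a b)
    · rw [stopSet_of_lt h] at hn
      exact absurd hx hn
    · exact ⟨a, b, hx, by simp, not_lt.1 h⟩
  | succ N ih =>
    intro a b x hx hn
    by_cases h : ENNReal.ofReal (τ * (b - a)) < volume (U ∩ Ico a b)
    · rw [stopSet_of_lt h] at hn
      exact absurd hx hn
    · rw [stopSet_succ_of_not h, mem_union, not_or] at hn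
      by_cases hxm : x < (a + b) / 2
      · obtain ⟨c, d, h1, h2, h3⟩ := ih a ((a + b) / 2) x ⟨hx.1, hxm⟩ hn.1
        refine ⟨c, d, h1, ?_, h3⟩
        rw [h2, pow_succ]
        field_simp
        ring
      · obtain ⟨c, d, h1, h2, h3⟩ := ih ((a + b) / 2) b x ⟨not_lt.1 hxm, hx.2⟩ hn.2
        refine ⟨c, d, h1, ?_, h3⟩
        rw [h2, pow_succ]
        field_simp
        ring

/-- For open `U` the stopping sets exhaust `U ∩ Ico a b`. -/
lemma subset_iUnion_stopSet (τ : ℝ) (hτ1 : τ < 1) (U : Set ℝ) (hU : IsOpen U) (a b : ℝ) :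
    U ∩ Ico a b ⊆ ⋃ N, stopSet τ U N a b := by
  rintro x ⟨hxU, hx⟩
  by_contra hcon
  simp only [mem_iUnion, not_exists] at hcon
  obtain ⟨r, hr, hball⟩ := Metric.isOpen_iff.1 hU x hxU
  have hab : 0 < b - a := by have := hx.1; have := hx.2; linarith
  obtain ⟨N, hN⟩ := exists_pow_lt_of_lt_one (show 0 < r / (b - a) by positivity) (by norm_num : (1 / 2 : ℝ) < 1)
  obtain ⟨c, d, h1, h2, h3⟩ := exists_of_notMem_stopSet τ U N a b x hx (hcon N)
  have hlen : d - c < r := by
    rw [h2]
    rw [lt_div_iff₀ hab] at hN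
    calc (b - a) / 2 ^ N = (1 / 2) ^ N * (b - a) := by
          rw [one_div, inv_pow]; field_simp
      _ < r := hN
  have hsub : Ico c d ⊆ U := by
    intro y hy
    apply hball
    rw [Metric.mem_ball, Real.dist_eq, abs_lt]
    constructor <;> linarith [hy.1, hy.2, h1.1, h1.2]
  rw [inter_eq_self_of_subset_right hsub, Real.volume_Ico] at h3
  have hcd : 0 < d - c := by linarith [h1.1, h1.2]
  rw [ENNReal.ofReal_le_ofReal_iff' ] at h3
  rcases h3 with h3 | h3
  · nlinarith
  · linarith

/-- Geometric decay for open sets. -/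
lemma decay_open (ν : Measure ℝ) (α β : ℝ) (hα0 : 0 < α) (hα1 : α ≤ 1) (hβ0 : 0 ≤ β)
    (h : ∀ a b : ℝ, a < b → ∀ E : Set ℝ, MeasurableSet E → E ⊆ Ico a b →
      volume E ≤ ENNReal.ofReal (α * (b - a)) → ν E ≤ ENNReal.ofReal β * ν (Ico a b)) (k : ℕ) :
    ∀ (U : Set ℝ), IsOpen U → ∀ a b : ℝ, a < b →
      volume (U ∩ Ico a b) ≤ ENNReal.ofReal ((α / 2) ^ k * (b - a)) →
      ν (U ∩ Ico a b) ≤ ENNReal.ofReal (β ^ k) * ν (Ico a b) := by
  induction k with
  | zero =>
    intro U _ a b _ _
    simp only [pow_zero, ENNReal.ofReal_one, one_mul]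
    exact measure_mono inter_subset_right
  | succ k ih =>
    intro U hU a b hab hvol
    set τ : ℝ := (α / 2) ^ k / 2 with hτ
    have hτ0 : 0 < τ := by positivity
    have hτ1 : τ < 1 := by
      have : (α / 2) ^ k ≤ 1 := pow_le_one₀ (by positivity) (by linarith)
      rw [hτ]; linarith
    have h2τ : 2 * τ = (α / 2) ^ k := by rw [hτ]; ring
    set W : ℕ → Set ℝ := fun N => stopSet τ U N a b with hW
    have hmono : Monotone W := monotone_nat_of_le_succ (fun N => stopSet_mono τ U N a b)
    have hcov : U ∩ Ico a b ⊆ ⋃ N, W N := subset_iUnion_stopSet τ hτ1 U hU a b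
    have hWsub : ∀ N, W N ⊆ Ico a b := fun N => stopSet_subset τ U N a b hab.le
    have hUsub : (⋃ N, W N) ⊆ Ico a b := iUnion_subset hWsub
    have hvol2 : volume (U ∩ Ico a b) ≤ ENNReal.ofReal (2 * τ * (b - a)) := by
      refine hvol.trans (ENNReal.ofReal_le_ofReal ?_)
      rw [h2τ, pow_succ]
      have h3 : (α / 2) ^ k * (α / 2) ≤ (α / 2) ^ k := by
        have : 0 < (α / 2) ^ k := by positivity
        nlinarith
      have : 0 < b - a := by linarith
      nlinarith
    -- volume of the union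
    have hWvol : ∀ N, volume (W N) ≤ ENNReal.ofReal (α * (b - a)) := by
      intro N
      have h1 := stopSet_density τ U hU.measurableSet N a b hab.le
      have h2 : ENNReal.ofReal τ * volume (W N) ≤ ENNReal.ofReal ((α / 2) ^ (k + 1) * (b - a)) :=
        (h1.trans (measure_mono (inter_subset_inter_right _ (hWsub N)))).trans hvol
      have h3 : (α / 2) ^ (k + 1) * (b - a) = τ * (α * (b - a)) := by
        rw [hτ, pow_succ]; ring
      rw [h3, ENNReal.ofReal_mul hτ0.le] at h2
      exact (ENNReal.mul_le_mul_iff_right (by simpa using hτ0) ENNReal.ofReal_ne_top).1 h2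
    have hWUvol : volume (⋃ N, W N) ≤ ENNReal.ofReal (α * (b - a)) := by
      rw [hmono.measure_iUnion]
      exact iSup_le hWvol
    have hWm : MeasurableSet (⋃ N, W N) := MeasurableSet.iUnion (fun N => measurableSet_stopSet _ _ _ _ _)
    have hν1 : ν (⋃ N, W N) ≤ ENNReal.ofReal β * ν (Ico a b) := h a b hab _ hWm hUsub hWUvol
    have hν2 : ∀ N, ν (U ∩ W N) ≤ ENNReal.ofReal (β ^ k) * ν (⋃ N, W N) := by
      intro N
      have := stopSet_measure τ U hU.measurableSet ν (ENNReal.ofReal (β ^ k)) (by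
        intro c d hcd hd
        apply ih U hU c d hcd
        rwa [h2τ] at hd) N a b hab hvol2
      exact this.trans (by gcongr; exact subset_iUnion W N)
    calc ν (U ∩ Ico a b) ≤ ν (⋃ N, U ∩ W N) := by
          refine measure_mono ?_
          rw [← inter_iUnion]
          intro x hx
          exact ⟨hx.1, hcov hx⟩
      _ = ⨆ N, ν (U ∩ W N) := by
          refine Monotone.measure_iUnion ?_
          intro m n hmn
          exact inter_subset_inter_right _ (hmono hmn)
      _ ≤ ENNReal.ofReal (β ^ k) * ν (⋃ N, W N) := iSup_le hν2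
      _ ≤ ENNReal.ofReal (β ^ k) * (ENNReal.ofReal β * ν (Ico a b)) := by gcongr
      _ = ENNReal.ofReal (β ^ (k + 1)) * ν (Ico a b) := by
          rw [← mul_assoc, ← ENNReal.ofReal_mul (by positivity), pow_succ]

/-- Geometric decay for measurable sets. -/
lemma decay_measurable (ν : Measure ℝ) (α β : ℝ) (hα0 : 0 < α) (hα1 : α ≤ 1) (hβ0 : 0 ≤ β)
    (h : ∀ a b : ℝ, a < b → ∀ E : Set ℝ, MeasurableSet E → E ⊆ Ico a b →
      volume E ≤ ENNReal.ofReal (α * (b - a)) → ν E ≤ ENNReal.ofReal β * ν (Ico a b)) (k : ℕ)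
    (E : Set ℝ) (a b : ℝ) (hab : a < b) (hE : E ⊆ Ico a b)
    (hvol : volume E < ENNReal.ofReal ((α / 2) ^ k * (b - a))) :
    ν E ≤ ENNReal.ofReal (β ^ k) * ν (Ico a b) := by
  obtain ⟨U, hEU, hU, hUv⟩ := Set.exists_isOpen_lt_of_lt E _ hvol
  refine (measure_mono (subset_inter hEU hE)).trans ?_
  exact decay_open ν α β hα0 hα1 hβ0 h k U hU a b hab ((measure_mono inter_subset_left).trans hUv.le)

/-- The quantitative `A_∞` condition from the qualitative one. -/
theorem ainfty_of_portion (ν : Measure ℝ) (hfin : ∀ a b : ℝ, ν (Ico a b) ≠ ⊤)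
    (α β : ℝ) (hα0 : 0 < α) (hα1 : α ≤ 1) (hβ0 : 0 < β) (hβ1 : β < 1)
    (h : ∀ a b : ℝ, a < b → ∀ E : Set ℝ, MeasurableSet E → E ⊆ Ico a b →
      volume E ≤ ENNReal.ofReal (α * (b - a)) → ν E ≤ ENNReal.ofReal β * ν (Ico a b)) :
    ∃ C : ℝ, 0 < C ∧ ∃ δ : ℝ, 0 < δ ∧ ∀ a b : ℝ, a < b → ∀ E : Set ℝ, MeasurableSet E → E ⊆ Ico a b →
      (ν E).toReal ≤ C * ((volume E).toReal / (b - a)) ^ δ * (ν (Ico a b)).toReal := by
  set θ : ℝ := α / 2 with hθ
  have hθ0 : 0 < θ := by positivity
  have hθ1 : θ < 1 := by rw [hθ]; linarith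
  have hlogθ : Real.log θ < 0 := Real.log_neg hθ0 hθ1
  have hlogβ : Real.log β < 0 := Real.log_neg hβ0 hβ1
  set δ : ℝ := Real.log β / Real.log θ with hδ
  have hδ0 : 0 < δ := div_pos_of_neg_of_neg hlogβ hlogθ
  have hθδ : θ ^ δ = β := by
    rw [Real.rpow_def_of_pos hθ0, hδ, mul_div_cancel₀ _ hlogθ.ne, Real.exp_log hβ0]
  refine ⟨(β ^ 2)⁻¹, by positivity, δ, hδ0, ?_⟩
  intro a b hab E hEm hE
  have hba : 0 < b - a := by linarith
  have hEvol : volume E ≤ ENNReal.ofReal (b - a) := by
    refine (measure_mono hE).trans ?_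
    rw [Real.volume_Ico]
  have hEfin : volume E ≠ ⊤ := ne_top_of_le_ne_top ENNReal.ofReal_ne_top hEvol
  have hνE : ν E ≤ ν (Ico a b) := measure_mono hE
  set r : ℝ := (volume E).toReal / (b - a) with hr
  have hr0 : 0 ≤ r := by positivity
  have hr1 : r ≤ 1 := by
    rw [hr, div_le_one hba]
    exact ENNReal.toReal_le_of_le_ofReal hba.le hEvol
  have key : ∀ k : ℕ, r < θ ^ k → (ν E).toReal ≤ β ^ k * (ν (Ico a b)).toReal := by
    intro k hk
    have hv : volume E < ENNReal.ofReal (θ ^ k * (b - a)) := by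
      rw [hr, div_lt_iff₀ hba] at hk
      rw [← ENNReal.ofReal_toReal hEfin]
      exact (ENNReal.ofReal_lt_ofReal_iff (by positivity)).2 hk
    have := decay_measurable ν α β hα0 hα1 hβ0.le h k E a b hab hE hv
    have h2 := ENNReal.toReal_mono (ENNReal.mul_ne_top ENNReal.ofReal_ne_top (hfin a b)) this
    rwa [ENNReal.toReal_mul, ENNReal.toReal_ofReal (by positivity)] at h2
  rcases hr0.eq_or_lt with h0 | hrpos
  · -- null sets
    rw [← h0, Real.zero_rpow hδ0.ne', mul_zero, zero_mul]
    have ht : Tendsto (fun k : ℕ => β ^ k * (ν (Ico a b)).toReal) atTop (𝓝 (0 * (ν (Ico a b)).toReal)) :=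
      (tendsto_pow_atTop_nhds_zero_of_lt_one hβ0.le hβ1).mul_const _
    rw [zero_mul] at ht
    exact ge_of_tendsto' ht (fun k => key k (by rw [← h0]; positivity))
  · obtain ⟨k, hk1, hk2⟩ := exists_nat_pow_near_of_lt_one hrpos hr1 hθ0 hθ1
    -- lower bound for `r ^ δ`
    have hlow : β ^ (k + 1) ≤ r ^ δ := by
      have h1 : (θ ^ (k + 1)) ^ δ ≤ r ^ δ := Real.rpow_le_rpow (by positivity) hk1.le hδ0.le
      rwa [← Real.rpow_natCast, ← Real.rpow_mul hθ0.le, mul_comm, Real.rpow_mul hθ0.le, hθδ,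
        Real.rpow_natCast] at h1
    have hup : (ν E).toReal ≤ (β ^ 2)⁻¹ * β ^ (k + 1) * (ν (Ico a b)).toReal := by
      have h3 : 0 ≤ (ν (Ico a b)).toReal := ENNReal.toReal_nonneg
      cases k with
      | zero =>
        have h1 : (ν E).toReal ≤ (ν (Ico a b)).toReal := ENNReal.toReal_mono (hfin a b) hνE
        have h2 : 1 ≤ (β ^ 2)⁻¹ * β ^ (0 + 1) := by
          have : (β ^ 2)⁻¹ * β ^ (0 + 1) = β⁻¹ := by rw [zero_add, pow_one]; field_simp
          rw [this]
          exact (one_le_inv₀ hβ0).2 hβ1.le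
        nlinarith
      | succ j =>
        have hlt : r < θ ^ j := by
          refine hk2.trans_lt ?_
          rw [pow_succ]
          have : 0 < θ ^ j := by positivity
          nlinarith
        have h1 := key j hlt
        have h2 : (β ^ 2)⁻¹ * β ^ (j + 1 + 1) = β ^ j := by
          field_simp
          ring
        rw [h2]
        exact h1
    refine hup.trans ?_
    gcongr

end Pool.Agent.Lib_helper42
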