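import Mathlib

set_option autoImplicit false
open MeasureTheory Set Filter Topology Complex
open scoped Real ComplexConjugate

namespace Pool.Agent.Lib_helper42

lemma norm_sin_le_exp (z : ℂ) : ‖Complex.sin z‖ ≤ Real.exp |z.im| := by
  have h1 : Complex.sin z = (Complex.exp (-z * I) - Complex.exp (z * I)) * I / 2 := rfl
  rw [h1, norm_div, norm_mul, Complex.norm_I, mul_one]
  have h2 : ‖Complex.exp (-z * I)‖ ≤ Real.exp |z.im| := by
    rw [Complex.norm_exp]
    apply Real.exp_le_exp.2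
    simp
    exact le_abs_self _
  have h3 : ‖Complex.exp (z * I)‖ ≤ Real.exp |z.im| := by
    rw [Complex.norm_exp]
    apply Real.exp_le_exp.2
    simp
    exact neg_le_abs _
  have h4 : ‖(2 : ℂ)‖ = 2 := by simp
  rw [h4, div_le_iff₀ (by norm_num)]
  refine (norm_sub_le _ _).trans ?_
  linarith

/-- the cardinal sine as an entire function -/
noncomputable def snc (z : ℂ) : ℂ := dslope Complex.sin 0 z

lemma differentiable_snc : Differentiable ℂ snc := by
  rw [← differentiableOn_univ]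
  exact (Complex.differentiableOn_dslope (univ_mem)).2 Complex.differentiable_sin.differentiableOn

lemma snc_of_ne {z : ℂ} (hz : z ≠ 0) : snc z = Complex.sin z / z := by
  unfold snc
  rw [dslope_of_ne _ hz, slope_def_field]
  simp

lemma snc_zero : snc 0 = 1 := by
  unfold snc
  rw [dslope_same]
  simp

/-- `‖snc z‖ ^ 2 * (1 + ‖z‖ ^ 2)` is bounded by a constant times `exp (2 |Im z|)` -/
lemma exists_snc_bound : ∃ C : ℝ, 0 < C ∧ ∀ z : ℂ, ‖snc z‖ ^ 2 * (1 + ‖z‖ ^ 2) ≤ C * Real.exp (2 * |z.im|) := by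
  obtain ⟨B, hB⟩ := (isCompact_closedBall (0 : ℂ) 1).exists_bound_of_continuousOn
    differentiable_snc.continuous.continuousOn
  refine ⟨2 * B ^ 2 + 2, by positivity, ?_⟩
  intro z
  have hexp : 1 ≤ Real.exp (2 * |z.im|) := Real.one_le_exp (by positivity)
  by_cases hz : ‖z‖ ≤ 1
  · have h1 := hB z (by simpa using hz)
    have h2 : ‖snc z‖ ^ 2 ≤ B ^ 2 := by gcongr
    have h3 : 1 + ‖z‖ ^ 2 ≤ 2 := by nlinarith [norm_nonneg z]
    calc ‖snc z‖ ^ 2 * (1 + ‖z‖ ^ 2) ≤ B ^ 2 * 2 := by gcongr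
      _ ≤ (2 * B ^ 2 + 2) * 1 := by nlinarith
      _ ≤ _ := by gcongr
  · rw [not_le] at hz
    have hz0 : z ≠ 0 := by
      rintro rfl
      simp at hz
      linarith
    have h1 : ‖snc z‖ ≤ Real.exp |z.im| / ‖z‖ := by
      rw [snc_of_ne hz0, norm_div]
      gcongr
      exact norm_sin_le_exp z
    have h2 : 1 + ‖z‖ ^ 2 ≤ 2 * ‖z‖ ^ 2 := by nlinarith
    have hzp : 0 < ‖z‖ := by linarith
    calc ‖snc z‖ ^ 2 * (1 + ‖z‖ ^ 2) ≤ (Real.exp |z.im| / ‖z‖) ^ 2 * (2 * ‖z‖ ^ 2) := by gcongr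
      _ = 2 * Real.exp |z.im| ^ 2 := by field_simp
      _ = 2 * Real.exp (2 * |z.im|) := by rw [← Real.exp_nat_mul]; norm_num
      _ ≤ _ := by
        have : 0 ≤ B ^ 2 := by positivity
        have h3 := Real.exp_pos (2 * |z.im|)
        nlinarith

lemma exists_snc4_bound : ∃ C : ℝ, 0 < C ∧ ∀ z : ℂ, ‖snc z ^ 4‖ ≤ C * Real.exp (4 * |z.im|) / (1 + z.re ^ 2) ^ 2 := by
  obtain ⟨C, hC, h⟩ := exists_snc_bound
  refine ⟨C ^ 2, by positivity, ?_⟩
  intro z
  have h1 := h z
  rw [norm_pow, le_div_iff₀ (by positivity)]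
  have h2 : z.re ^ 2 ≤ ‖z‖ ^ 2 := by
    rw [← sq_abs z.re]
    gcongr
    exact Complex.abs_re_le_norm z
  calc ‖snc z‖ ^ 4 * (1 + z.re ^ 2) ^ 2 ≤ ‖snc z‖ ^ 4 * (1 + ‖z‖ ^ 2) ^ 2 := by gcongr
    _ = (‖snc z‖ ^ 2 * (1 + ‖z‖ ^ 2)) ^ 2 := by ring
    _ ≤ (C * Real.exp (2 * |z.im|)) ^ 2 := by gcongr
    _ = C ^ 2 * Real.exp (4 * |z.im|) := by
      rw [mul_pow, ← Real.exp_nat_mul]
      congr 2
      push_cast
      ring

lemma snc_ofReal (x : ℝ) : ∃ r : ℝ, snc x = r := by
  by_cases hx : x = 0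
  · subst hx
    exact ⟨1, by rw [ofReal_zero, snc_zero]; simp⟩
  · refine ⟨Real.sin x / x, ?_⟩
    rw [snc_of_ne (by exact_mod_cast hx)]
    push_cast
    rfl

lemma integrable_snc4 : Integrable (fun x : ℝ => snc x ^ 4) := by
  obtain ⟨C, hC, h⟩ := exists_snc4_bound
  refine (integrable_inv_one_add_sq.const_mul C).mono' ?_ (Eventually.of_forall (fun x => ?_))
  · have := differentiable_snc.continuous
    exact ((this.comp Complex.continuous_ofReal).pow 4).aestronglyMeasurable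
  · refine (h x).trans ?_
    simp only [ofReal_im, abs_zero, mul_zero, Real.exp_zero, mul_one, ofReal_re]
    rw [div_eq_mul_inv]
    gcongr
    nlinarith [sq_nonneg x]

lemma integral_snc4_pos : ∃ r : ℝ, 0 < r ∧ ∫ x : ℝ, snc x ^ 4 = (r : ℂ) := by
  choose f hf using snc_ofReal
  have hfc : Continuous f := by
    have h1 : Continuous (fun x : ℝ => snc x) := differentiable_snc.continuous.comp Complex.continuous_ofReal
    have h2 : (fun x : ℝ => (snc x).re) = f := by
      funext x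
      rw [hf x, ofReal_re]
    rw [← h2]
    exact Complex.continuous_re.comp h1
  have hint : Integrable (fun x => f x ^ 4) := by
    have := integrable_snc4.re
    refine this.congr (Eventually.of_forall (fun x => ?_))
    simp only
    rw [hf x]
    simp only [RCLike.re_to_complex]
    rw [← Complex.ofReal_pow, ofReal_re]
  refine ⟨∫ x, f x ^ 4, ?_, ?_⟩
  · rw [integral_pos_iff_support_of_nonneg (fun x => by positivity) hint]
    have hopen : IsOpen (Function.support (fun x => f x ^ 4)) := (hfc.pow 4).isOpen_support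
    refine hopen.measure_pos volume ⟨0, ?_⟩
    rw [Function.mem_support]
    have : (f 0 : ℂ) = 1 := by rw [← hf 0, ofReal_zero, snc_zero]
    have h1 : f 0 = 1 := by exact_mod_cast this
    rw [h1]
    norm_num
  · rw [← integral_complex_ofReal]
    congr 1
    funext x
    rw [hf x]
    push_cast
    ring

/-- The Jackson kernel. -/
lemma exists_jackson : ∃ J : ℂ → ℂ, Differentiable ℂ J ∧
    (∃ C : ℝ, 0 < C ∧ ∀ z : ℂ, ‖J z‖ ≤ C * Real.exp (4 * |z.im|) / (1 + z.re ^ 2) ^ 2) ∧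
    (∫ x : ℝ, J x = 1) ∧ (∃ L : ℝ, 0 < L ∧ ∀ x y : ℝ, ‖J x - J y‖ ≤ L * |x - y|) := by
  obtain ⟨C, hC, h⟩ := exists_snc4_bound
  obtain ⟨r, hr, hint⟩ := integral_snc4_pos
  have hd : Differentiable ℂ (fun z => ((r⁻¹ : ℝ) : ℂ) * snc z ^ 4) :=
    (differentiable_snc.pow 4).const_mul _
  have hb : ∀ z : ℂ, ‖((r⁻¹ : ℝ) : ℂ) * snc z ^ 4‖ ≤ (r⁻¹ * C) * Real.exp (4 * |z.im|) / (1 + z.re ^ 2) ^ 2 := by
    intro z
    rw [norm_mul, Complex.norm_real, Real.norm_of_nonneg (by positivity), mul_assoc, mul_div_assoc]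
    gcongr
    exact h z
  refine ⟨fun z => ((r⁻¹ : ℝ) : ℂ) * snc z ^ 4, hd, ⟨r⁻¹ * C, by positivity, hb⟩, ?_, ?_⟩
  · rw [MeasureTheory.integral_const_mul, hint, ← Complex.ofReal_mul, inv_mul_cancel₀ hr.ne']
    simp
  · set B : ℝ := (r⁻¹ * C) * Real.exp 4 with hBdef
    refine ⟨B, by positivity, ?_⟩
    have hder : ∀ x : ℝ, ‖deriv (fun z => ((r⁻¹ : ℝ) : ℂ) * snc z ^ 4) x‖ ≤ B := by
      intro x
      have := Complex.norm_deriv_le_of_forall_mem_sphere_norm_le (c := (x : ℂ)) (R := 1) (C := B)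
        (f := fun z => ((r⁻¹ : ℝ) : ℂ) * snc z ^ 4) (by norm_num) hd.diffContOnCl (by
          intro z hz
          refine (hb z).trans ?_
          have him : |z.im| ≤ 1 := by
            have h1 : |(z - x).im| ≤ ‖z - x‖ := Complex.abs_im_le_norm _
            rw [mem_sphere_iff_norm] at hz
            rw [hz] at h1
            simpa using h1
          rw [div_le_iff₀ (by positivity), hBdef]
          have h1 : Real.exp (4 * |z.im|) ≤ Real.exp 4 := Real.exp_le_exp.2 (by linarith)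
          have h2 : 1 ≤ (1 + z.re ^ 2) ^ 2 := by nlinarith [sq_nonneg z.re, sq_nonneg (z.re ^ 2)]
          calc r⁻¹ * C * Real.exp (4 * |z.im|) ≤ r⁻¹ * C * Real.exp 4 * 1 := by
                rw [mul_one]; gcongr
            _ ≤ r⁻¹ * C * Real.exp 4 * (1 + z.re ^ 2) ^ 2 := by gcongr)
      simpa using this
    intro x y
    have hda : ∀ t : ℝ, HasDerivAt (fun s : ℝ => ((r⁻¹ : ℝ) : ℂ) * snc s ^ 4)
        (deriv (fun z => ((r⁻¹ : ℝ) : ℂ) * snc z ^ 4) t) t := by
      intro t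
      exact (hd.differentiableAt.hasDerivAt).comp_ofReal
    have := Convex.norm_image_sub_le_of_norm_hasDerivWithin_le (s := univ)
      (f := fun s : ℝ => ((r⁻¹ : ℝ) : ℂ) * snc s ^ 4) (fun t _ => (hda t).hasDerivWithinAt)
      (fun t _ => hder t) convex_univ (mem_univ y) (mem_univ x)
    simpa [Real.norm_eq_abs] using this

/-- The Jackson kernel. -/
noncomputable def J : ℂ → ℂ := Classical.choose exists_jackson

lemma J_diff : Differentiable ℂ J := (Classical.choose_spec exists_jackson).1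

lemma J_integral : ∫ x : ℝ, J x = 1 := (Classical.choose_spec exists_jackson).2.2.1

/-- The constant in the bound of the Jackson kernel. -/
noncomputable def CJ : ℝ := Classical.choose (Classical.choose_spec exists_jackson).2.1

lemma CJ_pos : 0 < CJ := (Classical.choose_spec (Classical.choose_spec exists_jackson).2.1).1

lemma J_bound (z : ℂ) : ‖J z‖ ≤ CJ * Real.exp (4 * |z.im|) / (1 + z.re ^ 2) ^ 2 :=
  (Classical.choose_spec (Classical.choose_spec exists_jackson).2.1).2 z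

/-- The Lipschitz constant of the Jackson kernel on the real line. -/
noncomputable def LJ : ℝ := Classical.choose (Classical.choose_spec exists_jackson).2.2.2

lemma LJ_pos : 0 < LJ := (Classical.choose_spec (Classical.choose_spec exists_jackson).2.2.2).1

lemma J_lip (x y : ℝ) : ‖J x - J y‖ ≤ LJ * |x - y| :=
  (Classical.choose_spec (Classical.choose_spec exists_jackson).2.2.2).2 x y

end Pool.Agent.Lib_helper42
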