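import Mathlib

set_option autoImplicit false
open MeasureTheory Set Filter Topology Complex
open scoped Real ComplexConjugate

namespace Pool.Agent.Lib_helper42

/-- Bounded analytic functions on the upper half plane, continuous up to the real line. -/
structure AnaUp (f : ℂ → ℂ) : Prop where
  cont : ContinuousOn f {z : ℂ | 0 ≤ z.im}
  diff : DifferentiableOn ℂ f {z : ℂ | 0 < z.im}
  bdd : ∃ M : ℝ, ∀ z : ℂ, 0 ≤ z.im → ‖f z‖ ≤ M

lemma isOpen_upper : IsOpen {z : ℂ | 0 < z.im} := isOpen_lt continuous_const Complex.continuous_im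

lemma isClosed_closedUpper : IsClosed {z : ℂ | 0 ≤ z.im} := isClosed_le continuous_const Complex.continuous_im

lemma continuous_real_of_closedUpper {f : ℂ → ℂ} (h : ContinuousOn f {z : ℂ | 0 ≤ z.im}) :
    Continuous (fun x : ℝ => f x) := by
  rw [← continuousOn_univ]
  exact h.comp Complex.continuous_ofReal.continuousOn (fun x _ => by simp)

lemma continuous_line {f : ℂ → ℂ} (h : ContinuousOn f {z : ℂ | 0 ≤ z.im}) (T : ℝ) (hT : 0 ≤ T) :
    Continuous (fun x : ℝ => f (x + T * I)) := by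
  rw [← continuousOn_univ]
  exact h.comp (by fun_prop) (fun x _ => by simpa using hT)

/-- decay from large `z` and continuity -/
lemma exists_global_bound {F : ℂ → ℂ} (hc : ContinuousOn F {z : ℂ | 0 ≤ z.im}) (A R : ℝ)
    (hA : ∀ z : ℂ, 0 ≤ z.im → R ≤ ‖z‖ → ‖F z‖ ≤ A / ‖z‖ ^ 2) :
    ∃ C : ℝ, 0 ≤ C ∧ ∀ z : ℂ, 0 ≤ z.im → ‖F z‖ ≤ C / (1 + ‖z‖ ^ 2) := by
  set R' : ℝ := max R 1 with hR'
  have hK : IsCompact ({z : ℂ | 0 ≤ z.im} ∩ Metric.closedBall 0 R') :=
    (isCompact_closedBall 0 R').inter_left isClosed_closedUpper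
  obtain ⟨B, hB⟩ := hK.exists_bound_of_continuousOn (hc.mono inter_subset_left)
  have hR1 : 1 ≤ R' := le_max_right _ _
  refine ⟨|B| * (1 + R' ^ 2) + 2 * |A|, by positivity, ?_⟩
  intro z hz
  rw [le_div_iff₀ (by positivity)]
  by_cases hzR : ‖z‖ ≤ R'
  · have h1 := hB z ⟨hz, by simpa using hzR⟩
    have h2 : ‖F z‖ ≤ |B| := h1.trans (le_abs_self B)
    have h3 : 1 + ‖z‖ ^ 2 ≤ 1 + R' ^ 2 := by gcongr
    calc ‖F z‖ * (1 + ‖z‖ ^ 2) ≤ |B| * (1 + R' ^ 2) := by gcongr
      _ ≤ _ := by have := abs_nonneg A; linarith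
  · rw [not_le] at hzR
    have hz1 : 1 ≤ ‖z‖ := hR1.trans hzR.le
    have h1 := hA z hz ((le_max_left _ _).trans hzR.le)
    have h2 : ‖F z‖ ≤ |A| / ‖z‖ ^ 2 := h1.trans (by gcongr; exact le_abs_self A)
    have h3 : 1 + ‖z‖ ^ 2 ≤ 2 * ‖z‖ ^ 2 := by nlinarith
    calc ‖F z‖ * (1 + ‖z‖ ^ 2) ≤ |A| / ‖z‖ ^ 2 * (2 * ‖z‖ ^ 2) := by gcongr
      _ = 2 * |A| := by field_simp
      _ ≤ _ := by
        have : 0 ≤ |B| * (1 + R' ^ 2) := by positivity
        linarith

/-- Cauchy's theorem for the upper half plane. -/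
lemma integral_eq_zero_of_decay {F : ℂ → ℂ} (hc : ContinuousOn F {z : ℂ | 0 ≤ z.im})
    (hd : DifferentiableOn ℂ F {z : ℂ | 0 < z.im}) (A R₀ : ℝ)
    (hA : ∀ z : ℂ, 0 ≤ z.im → R₀ ≤ ‖z‖ → ‖F z‖ ≤ A / ‖z‖ ^ 2) :
    Integrable (fun x : ℝ => F x) ∧ ∫ x : ℝ, F x = 0 := by
  obtain ⟨C, hC0, hC⟩ := exists_global_bound hc A R₀ hA
  have hcont := continuous_real_of_closedUpper hc
  have hbound : ∀ x : ℝ, ‖F x‖ ≤ C * (1 + x ^ 2)⁻¹ := by
    intro x
    have := hC x (by simp)
    rwa [Complex.norm_real, Real.norm_eq_abs, sq_abs, div_eq_mul_inv] at this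
  have hint : Integrable (fun x : ℝ => F x) :=
    (integrable_inv_one_add_sq.const_mul C).mono' hcont.aestronglyMeasurable
      (Eventually.of_forall hbound)
  refine ⟨hint, ?_⟩
  have hlim : Tendsto (fun R : ℝ => ∫ x in (-R)..R, F x) atTop (𝓝 (∫ x : ℝ, F x)) :=
    intervalIntegral_tendsto_integral hint tendsto_neg_atTop_atBot tendsto_id
  have hzero : Tendsto (fun R : ℝ => ∫ x in (-R)..R, F x) atTop (𝓝 0) := by
    have hest : ∀ᶠ R : ℝ in atTop, ‖∫ x in (-R)..R, F x‖ ≤ 4 * C / R := by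
      filter_upwards [eventually_gt_atTop 0] with R hR
      have hrect := Complex.integral_boundary_rect_eq_zero_of_continuousOn_of_differentiableOn F
        (-R : ℂ) (R + R * I) (hc.mono (by
          intro z hz
          have := hz.2
          simp only [mem_preimage, neg_im, ofReal_im, neg_zero, add_im, mul_im, ofReal_re, I_im,
            mul_one, I_re, mul_zero, add_zero, zero_add] at this
          rw [uIcc_of_le hR.le] at this
          exact this.1)) (hd.mono (by
          intro z hz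
          have := hz.2
          simp only [mem_preimage, neg_im, ofReal_im, neg_zero, add_im, mul_im, ofReal_re, I_im,
            mul_one, I_re, mul_zero, add_zero, zero_add, min_eq_left hR.le, max_eq_right hR.le] at this
          exact this.1))
      simp only [neg_im, ofReal_im, neg_zero, add_im, mul_im, ofReal_re, I_im,
            mul_one, I_re, mul_zero, add_zero, zero_add, neg_re, add_re, mul_re, sub_self,
            ofReal_zero, zero_mul] at hrect
      have h1 : ‖∫ x : ℝ in (-R)..R, F (x + R * I)‖ ≤ C / R ^ 2 * |R - -R| := by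
        refine intervalIntegral.norm_integral_le_of_norm_le_const (fun x _ => ?_)
        refine (hC _ (by simp [hR.le])).trans ?_
        gcongr
        have : |((x : ℂ) + R * I).im| ≤ ‖(x : ℂ) + R * I‖ := Complex.abs_im_le_norm _
        simp only [add_im, ofReal_im, mul_im, ofReal_re, I_im, mul_one, I_re, mul_zero, add_zero,
          zero_add, abs_of_pos hR] at this
        nlinarith [norm_nonneg ((x : ℂ) + R * I)]
      have h2 : ‖∫ y : ℝ in (0:ℝ)..R, F (R + y * I)‖ ≤ C / R ^ 2 * |R - 0| := by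
        refine intervalIntegral.norm_integral_le_of_norm_le_const (fun y hy => ?_)
        rw [uIoc_of_le hR.le] at hy
        refine (hC _ (by simp [hy.1.le])).trans ?_
        gcongr
        have : |((R : ℂ) + y * I).re| ≤ ‖(R : ℂ) + y * I‖ := Complex.abs_re_le_norm _
        simp only [add_re, ofReal_re, mul_re, ofReal_im, I_im, mul_one, I_re, mul_zero, sub_self,
          add_zero, abs_of_pos hR] at this
        nlinarith [norm_nonneg ((R : ℂ) + y * I)]
      have h3 : ‖∫ y : ℝ in (0:ℝ)..R, F (((-R : ℝ) : ℂ) + y * I)‖ ≤ C / R ^ 2 * |R - 0| := by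
        refine intervalIntegral.norm_integral_le_of_norm_le_const (fun y hy => ?_)
        rw [uIoc_of_le hR.le] at hy
        refine (hC _ (by simp [hy.1.le])).trans ?_
        gcongr
        have : |(((-R : ℝ) : ℂ) + y * I).re| ≤ ‖((-R : ℝ) : ℂ) + y * I‖ := Complex.abs_re_le_norm _
        simp only [add_re, ofReal_re, mul_re, ofReal_im, I_im, mul_one, I_re, mul_zero, sub_self,
          add_zero, abs_neg, abs_of_pos hR] at this
        nlinarith [norm_nonneg ((((-R : ℝ) : ℂ)) + y * I)]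
      have heq : (∫ x : ℝ in (-R)..R, F x) = (∫ x : ℝ in (-R)..R, F (x + R * I))
          - I • (∫ y : ℝ in (0:ℝ)..R, F (R + y * I)) + I • ∫ y : ℝ in (0:ℝ)..R, F (((-R : ℝ) : ℂ) + y * I) := by
        linear_combination (exp := 1) hrect
      rw [heq]
      refine (norm_add_le _ _).trans ?_
      refine (add_le_add_left (norm_sub_le _ _) _).trans ?_
      rw [norm_smul, norm_smul, Complex.norm_I, one_mul, one_mul]
      rw [show |R - -R| = 2 * R by rw [abs_of_pos (by linarith)]; ring] at h1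
      rw [show |R - 0| = R by rw [abs_of_pos (by linarith)]; ring] at h2 h3
      have e1 : C / R ^ 2 * (2 * R) = 2 * C / R := by field_simp
      have e2 : C / R ^ 2 * R = C / R := by field_simp
      rw [e1] at h1
      rw [e2] at h2 h3
      have : 4 * C / R = 2 * C / R + C / R + C / R := by ring
      rw [this]
      linarith
    refine squeeze_zero_norm' hest ?_
    exact tendsto_const_nhds.div_atTop tendsto_id
  exact tendsto_nhds_unique hlim hzero


/-- Poisson formula for bounded analytic functions. -/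
lemma AnaUp.poisson {f : ℂ → ℂ} (hf : AnaUp f) {w : ℂ} (hw : 0 < w.im) :
    Integrable (fun x : ℝ => f x * (1 / (x - w) - 1 / (x - conj w))) ∧
    ∫ x : ℝ, f x * (1 / (x - w) - 1 / (x - conj w)) = 2 * π * I * f w := by
  obtain ⟨M, hM⟩ := hf.bdd
  have hM0 : 0 ≤ M := (norm_nonneg _).trans (hM 0 (by simp))
  have hwn : {z : ℂ | 0 ≤ z.im} ∈ 𝓝 w := mem_of_superset (isOpen_upper.mem_nhds hw) (fun z (hz : 0 < z.im) => hz.le)
  have hwn' : {z : ℂ | 0 < z.im} ∈ 𝓝 w := isOpen_upper.mem_nhds hw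
  have hne : ∀ z : ℂ, 0 ≤ z.im → z - conj w ≠ 0 := by
    intro z hz h
    have := congrArg Complex.im h
    simp at this
    linarith
  have hnew : ∀ x : ℝ, (x : ℂ) - w ≠ 0 := by
    intro x h
    have := congrArg Complex.im h
    simp at this
    linarith
  set F : ℂ → ℂ := fun z => dslope f w z * ((w - conj w) / (z - conj w)) with hF
  have hFc : ContinuousOn F {z : ℂ | 0 ≤ z.im} := by
    refine ((continuousOn_dslope hwn).2 ⟨hf.cont, hf.diff.differentiableAt hwn'⟩).mul ?_
    refine continuousOn_const.div (by fun_prop) (fun z hz => hne z hz)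
  have hFd : DifferentiableOn ℂ F {z : ℂ | 0 < z.im} := by
    refine ((Complex.differentiableOn_dslope hwn').2 hf.diff).mul ?_
    refine (differentiableOn_const _).div (by fun_prop) (fun z hz => hne z (le_of_lt hz))
  have hbd : ∀ z : ℂ, 0 ≤ z.im → 2 * ‖w‖ + 1 ≤ ‖z‖ → ‖F z‖ ≤ (4 * M * (2 * ‖w - conj w‖)) / ‖z‖ ^ 2 := by
    intro z hz hzR
    have hw0 := norm_nonneg w
    have hz0 : 0 < ‖z‖ := by linarith
    have hzw : ‖z‖ / 2 ≤ ‖z - w‖ := by
      have := norm_sub_norm_le z w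
      linarith
    have hzw' : ‖z‖ / 2 ≤ ‖z - conj w‖ := by
      have := norm_sub_norm_le z (conj w)
      rw [Complex.norm_conj] at this
      linarith
    have hne' : z ≠ w := by
      rintro rfl
      simp at hzw
      linarith
    have h1 : ‖dslope f w z‖ ≤ 4 * M / ‖z‖ := by
      rw [dslope_of_ne _ hne', slope_def_field, norm_div, div_le_div_iff₀ (by linarith) hz0]
      have : ‖f z - f w‖ ≤ 2 * M := (norm_sub_le _ _).trans (by linarith [hM z hz, hM w hw.le])
      calc ‖f z - f w‖ * ‖z‖ ≤ 2 * M * (2 * ‖z - w‖) := by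
            apply mul_le_mul this (by linarith) (norm_nonneg _) (by positivity)
        _ = 4 * M * ‖z - w‖ := by ring
    have h2 : ‖(w - conj w) / (z - conj w)‖ ≤ 2 * ‖w - conj w‖ / ‖z‖ := by
      rw [norm_div, div_le_div_iff₀ (by linarith) hz0]
      have := norm_nonneg (w - conj w)
      nlinarith
    calc ‖F z‖ = ‖dslope f w z‖ * ‖(w - conj w) / (z - conj w)‖ := by rw [hF]; exact norm_mul _ _
      _ ≤ (4 * M / ‖z‖) * (2 * ‖w - conj w‖ / ‖z‖) := by gcongr
      _ = _ := by field_simp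
  obtain ⟨hFi, hF0⟩ := integral_eq_zero_of_decay hFc hFd _ _ hbd
  -- the explicit kernel
  have hker : ∀ x : ℝ, (1 / ((x : ℂ) - w) - 1 / (x - conj w)) = (2 * I) * (((w.im⁻¹ * (1 + ((x - w.re) / w.im) ^ 2)⁻¹ : ℝ)) : ℂ) := by
    intro x
    have h1 := hnew x
    have h2 := hne x (by simp)
    have h3 : ((x : ℂ) - w) * (x - conj w) = (((x - w.re) ^ 2 + w.im ^ 2 : ℝ) : ℂ) := by
      apply Complex.ext
      · rw [Complex.ofReal_re]; simp; ring
      · rw [Complex.ofReal_im]; simp; ring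
    have h4 : ((x - w.re) ^ 2 + w.im ^ 2 : ℝ) ≠ 0 := by positivity
    have h5 : w - conj w = (2 * I) * (w.im : ℂ) := by
      apply Complex.ext
      · simp
      · simp; ring
    have h6 : (1 / ((x : ℂ) - w) - 1 / (x - conj w)) = (w - conj w) / (((x : ℂ) - w) * (x - conj w)) := by
      field_simp
      ring
    rw [h6, h3, h5]
    have h7 : (w.im⁻¹ * (1 + ((x - w.re) / w.im) ^ 2)⁻¹ : ℝ) = w.im / ((x - w.re) ^ 2 + w.im ^ 2) := by
      field_simp
      ring
    rw [h7]
    push_cast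
    ring
  have hkint : Integrable (fun x : ℝ => (w.im⁻¹ * (1 + ((x - w.re) / w.im) ^ 2)⁻¹ : ℝ)) := by
    have h1 : Integrable (fun x : ℝ => (1 + ((x - w.re) / w.im) ^ 2)⁻¹) := by
      have := (integrable_inv_one_add_sq.comp_div (R := w.im) hw.ne')
      exact this.comp_sub_right w.re
    exact h1.const_mul _
  have hkval : ∫ x : ℝ, (w.im⁻¹ * (1 + ((x - w.re) / w.im) ^ 2)⁻¹ : ℝ) = π := by
    rw [MeasureTheory.integral_const_mul]
    rw [MeasureTheory.integral_sub_right_eq_self (fun x : ℝ => (1 + (x / w.im) ^ 2)⁻¹) w.re]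
    rw [MeasureTheory.Measure.integral_comp_div (fun x : ℝ => (1 + x ^ 2)⁻¹) w.im,
      integral_univ_inv_one_add_sq, abs_of_pos hw, smul_eq_mul, ← mul_assoc,
      inv_mul_cancel₀ hw.ne', one_mul]
  have hfun : (fun x : ℝ => f x * (1 / (x - w) - 1 / (x - conj w)))
      = fun x : ℝ => F x + f w * ((2 * I) * (((w.im⁻¹ * (1 + ((x - w.re) / w.im) ^ 2)⁻¹ : ℝ)) : ℂ)) := by
    funext x
    rw [← hker]
    have h1 := hnew x
    have h2 := hne x (by simp)
    have hxw : (x : ℂ) ≠ w := sub_ne_zero.1 h1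
    rw [hF]
    simp only
    rw [dslope_of_ne _ hxw, slope_def_field]
    field_simp
    ring
  have hkc : Integrable (fun x : ℝ => f w * ((2 * I) * (((w.im⁻¹ * (1 + ((x - w.re) / w.im) ^ 2)⁻¹ : ℝ)) : ℂ))) :=
    ((hkint.ofReal).const_mul _).const_mul _
  rw [hfun]
  refine ⟨hFi.add hkc, ?_⟩
  rw [integral_add hFi hkc, hF0, zero_add, MeasureTheory.integral_const_mul,
    MeasureTheory.integral_const_mul, integral_complex_ofReal, hkval]
  ring

/-- kernel with both poles in the lower half plane -/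
lemma AnaUp.integral_lower {f : ℂ → ℂ} (hf : AnaUp f) {v₁ v₂ : ℂ} (h₁ : v₁.im < 0) (h₂ : v₂.im < 0) :
    Integrable (fun x : ℝ => f x * (1 / (x - v₁) - 1 / (x - v₂))) ∧
    ∫ x : ℝ, f x * (1 / (x - v₁) - 1 / (x - v₂)) = 0 := by
  obtain ⟨M, hM⟩ := hf.bdd
  have hM0 : 0 ≤ M := (norm_nonneg _).trans (hM 0 (by simp))
  have hne : ∀ v : ℂ, v.im < 0 → ∀ z : ℂ, 0 ≤ z.im → z - v ≠ 0 := by
    intro v hv z hz h
    have := congrArg Complex.im h
    simp at this
    linarith
  refine integral_eq_zero_of_decay (F := fun z => f z * (1 / (z - v₁) - 1 / (z - v₂))) ?_ ?_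
    (4 * M * ‖v₁ - v₂‖) (2 * ‖v₁‖ + 2 * ‖v₂‖ + 1) ?_
  · refine hf.cont.mul ?_
    exact (continuousOn_const.div (by fun_prop) (fun z hz => hne v₁ h₁ z hz)).sub
      (continuousOn_const.div (by fun_prop) (fun z hz => hne v₂ h₂ z hz))
  · refine hf.diff.mul ?_
    exact ((differentiableOn_const _).div (by fun_prop) (fun z hz => hne v₁ h₁ z (le_of_lt hz))).sub
      ((differentiableOn_const _).div (by fun_prop) (fun z hz => hne v₂ h₂ z (le_of_lt hz)))
  · intro z hz hzR
    have a1 := norm_nonneg v₁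
    have a2 := norm_nonneg v₂
    have hz0 : 0 < ‖z‖ := by linarith
    have hz1 : ‖z‖ / 2 ≤ ‖z - v₁‖ := by
      have := norm_sub_norm_le z v₁
      linarith
    have hz2 : ‖z‖ / 2 ≤ ‖z - v₂‖ := by
      have := norm_sub_norm_le z v₂
      linarith
    have n1 := hne v₁ h₁ z hz
    have n2 := hne v₂ h₂ z hz
    have e : (1 / (z - v₁) - 1 / (z - v₂)) = (v₁ - v₂) / ((z - v₁) * (z - v₂)) := by
      field_simp
      ring
    rw [e, norm_mul, norm_div, norm_mul]
    have h3 : ‖v₁ - v₂‖ / (‖z - v₁‖ * ‖z - v₂‖) ≤ ‖v₁ - v₂‖ / (‖z‖ / 2 * (‖z‖ / 2)) := by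
      gcongr
    calc ‖f z‖ * (‖v₁ - v₂‖ / (‖z - v₁‖ * ‖z - v₂‖)) ≤ M * (‖v₁ - v₂‖ / (‖z‖ / 2 * (‖z‖ / 2))) := by
          gcongr
          exact hM z hz
      _ = _ := by field_simp; ring

/-- The regularised kernel. -/
noncomputable def kreg (ε x y : ℝ) : ℝ := (x - y) / ((x - y) ^ 2 + ε ^ 2) + y / (1 + y ^ 2)

lemma AnaUp.integral_kreg {f : ℂ → ℂ} (hf : AnaUp f) (x : ℝ) {ε : ℝ} (hε : 0 < ε) :
    Integrable (fun y : ℝ => (kreg ε x y : ℂ) * f y) ∧
    ∫ y : ℝ, (kreg ε x y : ℂ) * f y = π * I * (f I - f (x + ε * I)) := by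
  have hw : 0 < ((x : ℂ) + ε * I).im := by simpa using hε
  have hI : 0 < (I : ℂ).im := by simp
  obtain ⟨i1, e1⟩ := hf.poisson hw
  obtain ⟨i2, e2⟩ := hf.poisson hI
  have hv1 : (conj ((x : ℂ) + ε * I)).im < 0 := by simpa using hε
  have hv2 : (conj (I : ℂ)).im < 0 := by simp
  obtain ⟨i3, e3⟩ := hf.integral_lower hv1 hv2
  have hfun : (fun y : ℝ => (kreg ε x y : ℂ) * f y) = fun y : ℝ =>
      (-1 / 2 : ℂ) * (f y * (1 / (y - ((x : ℂ) + ε * I)) - 1 / (y - conj ((x : ℂ) + ε * I))))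
      + (1 / 2 : ℂ) * (f y * (1 / (y - I) - 1 / (y - conj I)))
      - f y * (1 / (y - conj ((x : ℂ) + ε * I)) - 1 / (y - conj I)) := by
    funext y
    have n1 : (y : ℂ) - (x + ε * I) ≠ 0 := by
      intro h
      have := congrArg Complex.im h
      simp at this
      linarith
    have n2 : (y : ℂ) - conj ((x : ℂ) + ε * I) ≠ 0 := by
      intro h
      have := congrArg Complex.im h
      simp at this
      linarith
    have n3 : (y : ℂ) - I ≠ 0 := by
      intro h
      have := congrArg Complex.im h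
      simp at this
    have n4 : (y : ℂ) - conj I ≠ 0 := by
      intro h
      have := congrArg Complex.im h
      simp at this
    have k1 : (((x - y) / ((x - y) ^ 2 + ε ^ 2) : ℝ) : ℂ)
        = (-1 / 2 : ℂ) * (1 / (y - ((x : ℂ) + ε * I)) + 1 / (y - conj ((x : ℂ) + ε * I))) := by
      have h3 : ((y : ℂ) - (x + ε * I)) * (y - conj ((x : ℂ) + ε * I)) = (((x - y) ^ 2 + ε ^ 2 : ℝ) : ℂ) := by
        apply Complex.ext
        · rw [Complex.ofReal_re]; simp; ring
        · rw [Complex.ofReal_im]; simp; ring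
      have h4 : (((x - y) ^ 2 + ε ^ 2 : ℝ) : ℂ) ≠ 0 := by rw [← h3]; exact mul_ne_zero n1 n2
      have h5 : (1 / (y - ((x : ℂ) + ε * I)) + 1 / (y - conj ((x : ℂ) + ε * I)))
          = ((y - conj ((x : ℂ) + ε * I)) + (y - (x + ε * I))) / ((y - (x + ε * I)) * (y - conj ((x : ℂ) + ε * I))) := by
        field_simp
      rw [h5, h3, Complex.ofReal_div]
      have h6 : ((y - conj ((x : ℂ) + ε * I)) + (y - (x + ε * I))) = ((2 * (y - x) : ℝ) : ℂ) := by
        apply Complex.ext
        · simp; ring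
        · simp
      rw [h6]
      push_cast
      ring
    have k2 : ((y / (1 + y ^ 2) : ℝ) : ℂ) = (1 / 2 : ℂ) * (1 / (y - I) + 1 / (y - conj I)) := by
      have h3 : ((y : ℂ) - I) * (y - conj I) = ((1 + y ^ 2 : ℝ) : ℂ) := by
        apply Complex.ext
        · rw [Complex.ofReal_re]; simp; ring
        · rw [Complex.ofReal_im]; simp
      have h5 : (1 / ((y : ℂ) - I) + 1 / (y - conj I)) = ((y - conj I) + (y - I)) / ((y - I) * (y - conj I)) := by
        field_simp
      rw [h5, h3, Complex.ofReal_div]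
      have h6 : (((y : ℂ) - conj I) + (y - I)) = ((2 * y : ℝ) : ℂ) := by
        apply Complex.ext
        · simp; ring
        · simp
      rw [h6]
      push_cast
      ring
    rw [kreg, Complex.ofReal_add, k1, k2]
    ring
  have j1 := i1.const_mul (-1 / 2 : ℂ)
  have j2 := i2.const_mul (1 / 2 : ℂ)
  rw [hfun]
  refine ⟨(j1.add j2).sub i3, ?_⟩
  have s1 := integral_sub (j1.add j2) i3
  simp only [Pi.add_apply] at s1
  rw [s1, integral_add j1 j2, MeasureTheory.integral_const_mul,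
    MeasureTheory.integral_const_mul, e1, e2, e3]
  ring

end Pool.Agent.Lib_helper42
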