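import Mathlib
import Pool.Agent.Lib_helper42.HalfPlane

set_option autoImplicit false
open MeasureTheory Set Filter Topology Complex
open scoped Real ComplexConjugate

namespace Pool.Agent.Lib_helper42

/-- The renormalised kernel of the Hilbert transform (without the factor `1/π`). -/
noncomputable def kpv (x y : ℝ) : ℝ := 1 / (x - y) + y / (1 + y ^ 2)

/-- truncated integral -/
noncomputable def pvTrunc (f : ℝ → ℂ) (x ε : ℝ) : ℂ := ∫ y in {y : ℝ | ε < |x - y|}, (kpv x y : ℂ) * f y

lemma measurableSet_far (x ε : ℝ) : MeasurableSet {y : ℝ | ε < |x - y|} :=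
  measurableSet_lt measurable_const (by fun_prop)

lemma measurable_kpv (x : ℝ) : Measurable (fun y => kpv x y) := by
  unfold kpv
  fun_prop

lemma abs_kpv_le {x y ε : ℝ} (hε : 0 < ε) (h : ε < |x - y|) :
    |kpv x y| ≤ ((1 + x ^ 2) / ε + |x|) * (1 + y ^ 2)⁻¹ := by
  have hne : x - y ≠ 0 := by
    intro h0
    rw [h0, abs_zero] at h
    linarith
  have hy : (1 + y ^ 2) ≠ 0 := by positivity
  have e : kpv x y = ((1 + x ^ 2) / (x - y) - x) * (1 + y ^ 2)⁻¹ := by
    unfold kpv
    field_simp
    ring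
  rw [e, abs_mul, abs_of_pos (show (0 : ℝ) < (1 + y ^ 2)⁻¹ by positivity)]
  gcongr
  refine (abs_sub _ _).trans ?_
  gcongr
  rw [abs_div, abs_of_pos (show (0 : ℝ) < 1 + x ^ 2 by positivity)]
  gcongr

lemma integrableOn_kpv {f : ℝ → ℂ} (hf : AEStronglyMeasurable f volume) {M : ℝ} (hM : ∀ y, ‖f y‖ ≤ M)
    (x : ℝ) {ε : ℝ} (hε : 0 < ε) :
    IntegrableOn (fun y => (kpv x y : ℂ) * f y) {y : ℝ | ε < |x - y|} := by
  have hM0 : 0 ≤ M := (norm_nonneg _).trans (hM 0)
  have h1 : Integrable (fun y : ℝ => (((1 + x ^ 2) / ε + |x|) * M) * (1 + y ^ 2)⁻¹) :=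
    integrable_inv_one_add_sq.const_mul _
  refine Integrable.mono' h1.integrableOn ?_ ?_
  · refine AEStronglyMeasurable.mul ?_ hf.restrict
    exact (Complex.measurable_ofReal.comp (measurable_kpv x)).aestronglyMeasurable
  · rw [ae_restrict_iff' (measurableSet_far x ε)]
    refine Eventually.of_forall (fun y hy => ?_)
    rw [norm_mul, Complex.norm_real, Real.norm_eq_abs]
    calc |kpv x y| * ‖f y‖ ≤ (((1 + x ^ 2) / ε + |x|) * (1 + y ^ 2)⁻¹) * M := by
          gcongr
          · exact abs_kpv_le hε hy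
          · exact hM y
      _ = _ := by ring

/-- The difference kernel at unit scale. -/
noncomputable def dker (v : ℝ) : ℝ := (if 1 < |v| then 1 / v else 0) - v / (v ^ 2 + 1)

lemma measurable_dker : Measurable dker := by
  unfold dker
  refine Measurable.sub ?_ (by fun_prop)
  exact Measurable.ite (measurableSet_lt measurable_const (by fun_prop)) (by fun_prop) measurable_const

lemma abs_dker_le (v : ℝ) : |dker v| ≤ (1 + v ^ 2)⁻¹ := by
  unfold dker
  split_ifs with h
  · have hv : v ≠ 0 := by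
      rintro rfl
      simp at h
      linarith
    have e : 1 / v - v / (v ^ 2 + 1) = v⁻¹ * (1 + v ^ 2)⁻¹ := by
      field_simp
      ring
    rw [e, abs_mul, abs_of_pos (show (0 : ℝ) < (1 + v ^ 2)⁻¹ by positivity), abs_inv]
    have : |v|⁻¹ ≤ 1 := inv_le_one_of_one_le₀ h.le
    have h2 : (0 : ℝ) < (1 + v ^ 2)⁻¹ := by positivity
    nlinarith
  · rw [not_lt] at h
    rw [zero_sub, abs_neg, abs_div, abs_of_pos (show (0 : ℝ) < v ^ 2 + 1 by positivity),
      div_eq_mul_inv, add_comm (v ^ 2) 1]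
    have h2 : (0 : ℝ) < (1 + v ^ 2)⁻¹ := by positivity
    nlinarith

lemma integrable_dker : Integrable dker :=
  integrable_inv_one_add_sq.mono' measurable_dker.aestronglyMeasurable
    (Eventually.of_forall (fun v => by rw [Real.norm_eq_abs]; exact abs_dker_le v))

lemma integral_dker : ∫ v, dker v = 0 := by
  have h1 : ∀ v, dker (-v) = - dker v := by
    intro v
    unfold dker
    rw [abs_neg]
    split_ifs with h
    · rw [neg_sq, one_div, inv_neg]
      ring
    · rw [neg_sq]
      ring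
  have h2 := integral_neg_eq_self dker (volume : Measure ℝ)
  simp only [h1, MeasureTheory.integral_neg] at h2
  linarith

lemma tendsto_dker {f : ℝ → ℂ} (hf : Continuous f) {M : ℝ} (hM : ∀ y, ‖f y‖ ≤ M) (x : ℝ) :
    Tendsto (fun ε : ℝ => ∫ v, (dker v : ℂ) * f (x - ε * v)) (𝓝[>] 0) (𝓝 0) := by
  have hlim : ∫ v, (dker v : ℂ) * f x = 0 := by
    rw [MeasureTheory.integral_mul_const, integral_complex_ofReal, integral_dker]
    simp
  rw [← hlim]
  refine tendsto_integral_filter_of_dominated_convergence (fun v => (1 + v ^ 2)⁻¹ * M) ?_ ?_ ?_ ?_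
  · refine Eventually.of_forall (fun ε => ?_)
    exact ((Complex.measurable_ofReal.comp measurable_dker).aestronglyMeasurable).mul
      (hf.comp (by fun_prop)).aestronglyMeasurable
  · refine Eventually.of_forall (fun ε => Eventually.of_forall (fun v => ?_))
    rw [norm_mul, Complex.norm_real, Real.norm_eq_abs]
    have hM0 : 0 ≤ M := (norm_nonneg _).trans (hM 0)
    exact mul_le_mul (abs_dker_le v) (hM _) (norm_nonneg _) (by positivity)
  · exact integrable_inv_one_add_sq.mul_const M
  · refine Eventually.of_forall (fun v => ?_)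
    refine tendsto_const_nhds.mul ?_
    have : Tendsto (fun ε : ℝ => x - ε * v) (𝓝[>] 0) (𝓝 (x - 0 * v)) :=
      ((continuous_const.sub (continuous_id.mul continuous_const)).tendsto 0).mono_left nhdsWithin_le_nhds
    rw [zero_mul, sub_zero] at this
    exact (hf.tendsto x).comp this

/-- substitution -/
lemma integral_dker_scale (f : ℝ → ℂ) (x : ℝ) {ε : ℝ} (hε : 0 < ε) :
    ∫ y, ((ε⁻¹ * dker ((x - y) / ε) : ℝ) : ℂ) * f y = ∫ v, (dker v : ℂ) * f (x - ε * v) := by
  set g : ℝ → ℂ := fun y => ((ε⁻¹ * dker ((x - y) / ε) : ℝ) : ℂ) * f y with hg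
  have h1 : ∫ y, g y = ∫ u, g (x - u) := (integral_sub_left_eq_self g volume x).symm
  have h2 : ∫ v, g (x - ε * v) = |ε⁻¹| • ∫ u, g (x - u) :=
    Measure.integral_comp_mul_left (fun u => g (x - u)) ε
  rw [abs_of_pos (inv_pos.2 hε)] at h2
  have h3 : ∫ u, g (x - u) = ε • ∫ v, g (x - ε * v) := by
    rw [h2, smul_smul, mul_inv_cancel₀ hε.ne', one_smul]
  rw [h1, h3, ← MeasureTheory.integral_smul]
  congr 1
  funext v
  rw [hg]
  simp only
  have : (x - (x - ε * v)) / ε = v := by field_simp; ring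
  rw [this, Complex.real_smul]
  push_cast
  have hε' : (ε : ℂ) ≠ 0 := by exact_mod_cast hε.ne'
  field_simp

/-- comparison of truncated and regularised integrals -/
lemma tendsto_trunc_sub_reg {f : ℝ → ℂ} (hf : Continuous f) {M : ℝ} (hM : ∀ y, ‖f y‖ ≤ M) (x : ℝ)
    (hreg : ∀ ε : ℝ, 0 < ε → Integrable (fun y : ℝ => (kreg ε x y : ℂ) * f y)) :
    Tendsto (fun ε : ℝ => pvTrunc f x ε - ∫ y, (kreg ε x y : ℂ) * f y) (𝓝[>] 0) (𝓝 0) := by
  have hM0 : 0 ≤ M := (norm_nonneg _).trans (hM 0)
  have hsmall : Tendsto (fun ε : ℝ => ∫ y in Icc (x - ε) (x + ε), ((y / (1 + y ^ 2) : ℝ) : ℂ) * f y)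
      (𝓝[>] 0) (𝓝 0) := by
    have h1 : Tendsto (fun ε : ℝ => M * (2 * ε)) (𝓝[>] 0) (𝓝 0) := by
      have : Tendsto (fun ε : ℝ => M * (2 * ε)) (𝓝 0) (𝓝 (M * (2 * 0))) := by
        exact (continuous_const.mul (continuous_const.mul continuous_id)).tendsto 0
      rw [mul_zero, mul_zero] at this
      exact this.mono_left nhdsWithin_le_nhds
    refine squeeze_zero_norm' ?_ h1
    filter_upwards [self_mem_nhdsWithin] with ε hε
    have hε' : (0 : ℝ) < ε := hε
    have h2 : ‖∫ y in Icc (x - ε) (x + ε), ((y / (1 + y ^ 2) : ℝ) : ℂ) * f y‖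
        ≤ M * (volume (Icc (x - ε) (x + ε))).toReal := by
      refine norm_setIntegral_le_of_norm_le_const (by simp) (fun y _ => ?_)
      rw [norm_mul, Complex.norm_real, Real.norm_eq_abs, abs_div,
        abs_of_pos (show (0 : ℝ) < 1 + y ^ 2 by positivity)]
      have : |y| / (1 + y ^ 2) ≤ 1 := by
        rw [div_le_one (by positivity)]
        nlinarith [sq_abs y, abs_nonneg y, sq_nonneg (|y| - 1)]
      calc |y| / (1 + y ^ 2) * ‖f y‖ ≤ 1 * M := mul_le_mul this (hM y) (norm_nonneg _) (by norm_num)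
        _ = M := one_mul M
    rw [Real.volume_Icc, ENNReal.toReal_ofReal (by linarith)] at h2
    calc _ ≤ M * (x + ε - (x - ε)) := h2
      _ = M * (2 * ε) := by ring
  have hmain := (tendsto_dker hf hM x).sub hsmall
  rw [sub_zero] at hmain
  refine hmain.congr' ?_
  filter_upwards [self_mem_nhdsWithin] with ε hε
  have hε' : (0 : ℝ) < ε := hε
  rw [← integral_dker_scale f x hε', pvTrunc, ← integral_indicator (measurableSet_far x ε),
    ← integral_indicator measurableSet_Icc]
  have i1 : Integrable ({y : ℝ | ε < |x - y|}.indicator (fun y => (kpv x y : ℂ) * f y)) :=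
    (integrable_indicator_iff (measurableSet_far x ε)).2
      (integrableOn_kpv hf.aestronglyMeasurable hM x hε')
  have i2 := hreg ε hε'
  have i3 : Integrable ((Icc (x - ε) (x + ε)).indicator (fun y => ((y / (1 + y ^ 2) : ℝ) : ℂ) * f y)) := by
    refine (integrable_indicator_iff measurableSet_Icc).2 ?_
    refine ContinuousOn.integrableOn_Icc ?_
    refine Continuous.continuousOn ?_
    refine (Complex.continuous_ofReal.comp ?_).mul hf
    exact continuous_id.div (by fun_prop) (fun y => by positivity)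
  have hpt : ∀ y, ((ε⁻¹ * dker ((x - y) / ε) : ℝ) : ℂ) * f y
      - (Icc (x - ε) (x + ε)).indicator (fun y => ((y / (1 + y ^ 2) : ℝ) : ℂ) * f y) y
      = {y : ℝ | ε < |x - y|}.indicator (fun y => (kpv x y : ℂ) * f y) y - (kreg ε x y : ℂ) * f y := by
    intro y
    have hiff : (1 < |(x - y) / ε|) ↔ ε < |x - y| := by
      rw [abs_div, abs_of_pos hε', lt_div_iff₀ hε', one_mul]
    have hmem : y ∈ Icc (x - ε) (x + ε) ↔ ¬ (ε < |x - y|) := by
      rw [not_lt, abs_le, mem_Icc]
      constructor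
      · rintro ⟨h1, h2⟩; constructor <;> linarith
      · rintro ⟨h1, h2⟩; constructor <;> linarith
    have hk : ((x - y) / ε) / (((x - y) / ε) ^ 2 + 1) = ε * ((x - y) / ((x - y) ^ 2 + ε ^ 2)) := by
      field_simp
    by_cases h : ε < |x - y|
    · have hm : y ∈ {y : ℝ | ε < |x - y|} := h
      rw [indicator_of_notMem (by rw [hmem]; simpa using h), indicator_of_mem hm, sub_zero, ← sub_mul]
      congr 1
      rw [← Complex.ofReal_sub]
      congr 1
      unfold dker kpv kreg
      rw [if_pos (hiff.2 h), hk]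
      have hne : x - y ≠ 0 := by
        intro h0
        rw [h0, abs_zero] at h
        linarith
      field_simp
      ring
    · have hm : y ∉ {y : ℝ | ε < |x - y|} := h
      rw [indicator_of_mem (hmem.2 h), indicator_of_notMem hm, zero_sub, ← sub_mul, ← neg_mul]
      congr 1
      rw [← Complex.ofReal_sub, ← Complex.ofReal_neg]
      congr 1
      unfold dker kreg
      rw [if_neg (fun h' => h (hiff.1 h')), hk]
      field_simp
      ring
  have i4 : Integrable (fun y => ((ε⁻¹ * dker ((x - y) / ε) : ℝ) : ℂ) * f y) := by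
    have : (fun y => ((ε⁻¹ * dker ((x - y) / ε) : ℝ) : ℂ) * f y) = fun y =>
        ({y : ℝ | ε < |x - y|}.indicator (fun y => (kpv x y : ℂ) * f y) y - (kreg ε x y : ℂ) * f y)
        + (Icc (x - ε) (x + ε)).indicator (fun y => ((y / (1 + y ^ 2) : ℝ) : ℂ) * f y) y := by
      funext y
      rw [← hpt y]
      ring
    rw [this]
    exact (i1.sub i2).add i3
  rw [← integral_sub i4 i3, ← integral_sub i1 i2]
  exact integral_congr_ae (Eventually.of_forall hpt)


/-- The principal value integral of a bounded analytic function (upper half plane). -/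
lemma AnaUp.tendsto_pv {f : ℂ → ℂ} (hf : AnaUp f) (x : ℝ) :
    Tendsto (fun ε => pvTrunc (fun y : ℝ => f y) x ε) (𝓝[>] 0) (𝓝 (π * I * (f I - f x))) := by
  obtain ⟨M, hM⟩ := hf.bdd
  have h1 := tendsto_trunc_sub_reg (continuous_real_of_closedUpper hf.cont) (M := M)
    (fun y => hM y (by simp)) x (fun ε hε => (hf.integral_kreg x hε).1)
  have h2 : Tendsto (fun ε : ℝ => ∫ y : ℝ, (kreg ε x y : ℂ) * f y) (𝓝[>] 0) (𝓝 (π * I * (f I - f x))) := by
    have h3 : Tendsto (fun ε : ℝ => (π : ℂ) * I * (f I - f (x + ε * I))) (𝓝[>] 0) (𝓝 (π * I * (f I - f x))) := by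
      refine Tendsto.mul tendsto_const_nhds (Tendsto.sub tendsto_const_nhds ?_)
      have hc : ContinuousWithinAt f {z : ℂ | 0 ≤ z.im} (x : ℂ) := hf.cont (x : ℂ) (by simp)
      refine hc.tendsto.comp ?_
      rw [tendsto_nhdsWithin_iff]
      constructor
      · have : Tendsto (fun ε : ℝ => (x : ℂ) + ε * I) (𝓝 0) (𝓝 ((x : ℂ) + (0 : ℝ) * I)) := by
          exact (by fun_prop : Continuous (fun ε : ℝ => (x : ℂ) + ε * I)).tendsto 0
        simp only [ofReal_zero, zero_mul, add_zero] at this
        exact this.mono_left nhdsWithin_le_nhds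
      · filter_upwards [self_mem_nhdsWithin] with ε hε
        have hε' : (0 : ℝ) < ε := hε
        simpa using hε'.le
    refine h3.congr' ?_
    filter_upwards [self_mem_nhdsWithin] with ε hε
    exact (hf.integral_kreg x hε).2.symm
  have h3 := h1.add h2
  simpa using h3

/-- Bounded analytic functions on the lower half plane, continuous up to the real line. -/
def AnaDn (g : ℂ → ℂ) : Prop := AnaUp (fun z => conj (g (conj z)))

lemma AnaDn.tendsto_pv {g : ℂ → ℂ} (hg : AnaDn g) (x : ℝ) :
    Tendsto (fun ε => pvTrunc (fun y : ℝ => g y) x ε) (𝓝[>] 0) (𝓝 (π * I * (g x - g (-I)))) := by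
  have h := AnaUp.tendsto_pv hg x
  have h2 := (Complex.continuous_conj.tendsto _).comp h
  have e : (starRingEnd ℂ) (π * I * ((fun z => conj (g (conj z))) I - (fun z => conj (g (conj z))) (x : ℂ)))
      = π * I * (g x - g (-I)) := by
    simp
    ring
  rw [e] at h2
  refine h2.congr (fun ε => ?_)
  simp only [Function.comp, pvTrunc]
  rw [← integral_conj]
  congr 1
  funext y
  simp

end Pool.Agent.Lib_helper42
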