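import Mathlib
import Pool.Agent.Lib_helper42.PV

set_option autoImplicit false
open MeasureTheory Set Filter Topology Complex
open scoped Real ComplexConjugate

namespace Pool.Agent.Lib_helper42

/-- Smallness with decay and Hölder exponent `1/8`. -/
structure Sm (ε₀ : ℝ) (E : ℝ → ℂ) : Prop where
  dec : ∀ x, ‖E x‖ ≤ ε₀ / (1 + x ^ 2)
  hol : ∀ x y, ‖E x - E y‖ ≤ ε₀ * |x - y| ^ (1 / 8 : ℝ)

lemma Sm.nonneg {ε₀ : ℝ} {E : ℝ → ℂ} (h : Sm ε₀ E) : 0 ≤ ε₀ := by
  have := (norm_nonneg _).trans (h.dec 0)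
  simpa using this

lemma Sm.continuous {ε₀ : ℝ} {E : ℝ → ℂ} (h : Sm ε₀ E) : Continuous E := by
  rw [continuous_iff_continuousAt]
  intro x
  rw [ContinuousAt, tendsto_iff_norm_sub_tendsto_zero]
  have h1 : Tendsto (fun y : ℝ => ε₀ * |y - x| ^ (1 / 8 : ℝ)) (𝓝 x) (𝓝 (ε₀ * |x - x| ^ (1 / 8 : ℝ))) := by
    have hc : Continuous (fun y : ℝ => ε₀ * |y - x| ^ (1 / 8 : ℝ)) :=
      continuous_const.mul ((continuous_abs.comp (continuous_id.sub continuous_const)).rpow_const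
        (fun _ => Or.inr (by norm_num)))
    exact hc.tendsto x
  rw [sub_self, abs_zero, Real.zero_rpow (by norm_num), mul_zero] at h1
  exact squeeze_zero (fun _ => norm_nonneg _) (fun y => h.hol y x) h1

lemma Sm.dec' {ε₀ : ℝ} {E : ℝ → ℂ} (h : Sm ε₀ E) (x : ℝ) : ‖E x‖ ≤ ε₀ * (1 + x ^ 2)⁻¹ := by
  rw [← div_eq_mul_inv]; exact h.dec x

lemma Sm.integrable {ε₀ : ℝ} {E : ℝ → ℂ} (h : Sm ε₀ E) : Integrable E :=
  (integrable_inv_one_add_sq.const_mul ε₀).mono' h.continuous.aestronglyMeasurable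
    (Eventually.of_forall h.dec')

lemma Sm.bound {ε₀ : ℝ} {E : ℝ → ℂ} (h : Sm ε₀ E) (x : ℝ) : ‖E x‖ ≤ ε₀ := by
  refine (h.dec x).trans (div_le_self h.nonneg ?_)
  nlinarith [sq_nonneg x]

lemma Sm.integral_norm_le {ε₀ : ℝ} {E : ℝ → ℂ} (h : Sm ε₀ E) : ∫ x, ‖E x‖ ≤ ε₀ * π := by
  rw [← integral_univ_inv_one_add_sq, ← MeasureTheory.integral_const_mul]
  exact integral_mono h.integrable.norm (integrable_inv_one_add_sq.const_mul ε₀) h.dec'

lemma Sm.add {ε₁ ε₂ : ℝ} {E₁ E₂ : ℝ → ℂ} (h₁ : Sm ε₁ E₁) (h₂ : Sm ε₂ E₂) :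
    Sm (ε₁ + ε₂) (fun x => E₁ x + E₂ x) := by
  refine ⟨fun x => ?_, fun x y => ?_⟩
  · rw [add_div]
    exact (norm_add_le _ _).trans (add_le_add (h₁.dec x) (h₂.dec x))
  · rw [add_mul, add_sub_add_comm]
    exact (norm_add_le _ _).trans (add_le_add (h₁.hol x y) (h₂.hol x y))

lemma Sm.mono {ε₁ ε₂ : ℝ} {E : ℝ → ℂ} (h : Sm ε₁ E) (hle : ε₁ ≤ ε₂) : Sm ε₂ E := by
  refine ⟨fun x => (h.dec x).trans (by gcongr), fun x y => (h.hol x y).trans (by gcongr)⟩

lemma Sm.neg {ε₁ : ℝ} {E : ℝ → ℂ} (h : Sm ε₁ E) : Sm ε₁ (fun x => - E x) := by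
  refine ⟨fun x => by rw [norm_neg]; exact h.dec x, fun x y => ?_⟩
  rw [neg_sub_neg, norm_sub_rev]
  exact h.hol x y

lemma Sm.zero : Sm 0 (fun _ => 0) := by
  refine ⟨fun x => by simp, fun x y => by simp⟩

/-- pointwise limits -/
lemma Sm.of_tendsto {ε₀ : ℝ} {E : ℕ → ℝ → ℂ} {E' : ℝ → ℂ} (h : ∀ n, Sm ε₀ (E n))
    (hlim : ∀ x, Tendsto (fun n => E n x) atTop (𝓝 (E' x))) : Sm ε₀ E' := by
  refine ⟨fun x => ?_, fun x y => ?_⟩
  · exact le_of_tendsto' (hlim x).norm (fun n => (h n).dec x)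
  · exact le_of_tendsto' ((hlim x).sub (hlim y)).norm (fun n => (h n).hol x y)

lemma abs_skernel_le {ε u : ℝ} (hu : 0 < u) : |u / (u ^ 2 + ε ^ 2)| ≤ 1 / u := by
  rw [abs_div, abs_of_pos hu, abs_of_pos (show 0 < u ^ 2 + ε ^ 2 by positivity),
    div_le_div_iff₀ (by positivity) hu]
  nlinarith [sq_nonneg ε]

/-- the folded bound -/
noncomputable def foldBound (ε₀ : ℝ) (E : ℝ → ℂ) (x u : ℝ) : ℝ :=
  (Ioc (0 : ℝ) 1).indicator (fun u => 2 * ε₀ * u ^ (-7 / 8 : ℝ)) u + (‖E (x - u)‖ + ‖E (x + u)‖)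

lemma integrableOn_foldBound {ε₀ : ℝ} {E : ℝ → ℂ} (h : Sm ε₀ E) (x : ℝ) :
    IntegrableOn (foldBound ε₀ E x) (Ioi 0) := by
  unfold foldBound
  refine IntegrableOn.add ?_ (IntegrableOn.add ?_ ?_)
  · refine Integrable.integrableOn ?_
    rw [integrable_indicator_iff measurableSet_Ioc]
    have := (intervalIntegral.intervalIntegrable_rpow' (a := 0) (b := 1) (r := (-7 / 8 : ℝ)) (by norm_num)).const_mul (2 * ε₀)
    rwa [intervalIntegrable_iff_integrableOn_Ioc_of_le (by norm_num)] at this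
  · exact ((h.integrable.comp_sub_left x).norm).integrableOn
  · exact ((h.integrable.comp_add_left x).norm).integrableOn

lemma integral_foldBound_le {ε₀ : ℝ} {E : ℝ → ℂ} (h : Sm ε₀ E) (x : ℝ) :
    ∫ u in Ioi 0, foldBound ε₀ E x u ≤ 23 * ε₀ := by
  have hε := h.nonneg
  have i1 : IntegrableOn (fun u => (Ioc (0 : ℝ) 1).indicator (fun u => 2 * ε₀ * u ^ (-7 / 8 : ℝ)) u) (Ioi 0) := by
    refine Integrable.integrableOn ?_
    rw [integrable_indicator_iff measurableSet_Ioc]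
    have := (intervalIntegral.intervalIntegrable_rpow' (a := 0) (b := 1) (r := (-7 / 8 : ℝ)) (by norm_num)).const_mul (2 * ε₀)
    rwa [intervalIntegrable_iff_integrableOn_Ioc_of_le (by norm_num)] at this
  have i2 : Integrable (fun u => ‖E (x - u)‖) := (h.integrable.comp_sub_left x).norm
  have i3 : Integrable (fun u => ‖E (x + u)‖) := (h.integrable.comp_add_left x).norm
  have hsplit : ∫ u in Ioi 0, foldBound ε₀ E x u
      = (∫ u in Ioi 0, (Ioc (0 : ℝ) 1).indicator (fun u => 2 * ε₀ * u ^ (-7 / 8 : ℝ)) u)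
        + ((∫ u in Ioi 0, ‖E (x - u)‖) + ∫ u in Ioi 0, ‖E (x + u)‖) := by
    unfold foldBound
    have a1 := integral_add i1 (i2.integrableOn.add i3.integrableOn (s := Ioi 0))
    have a2 := integral_add (i2.integrableOn (s := Ioi 0)) (i3.integrableOn (s := Ioi 0))
    simp only [Pi.add_apply] at a1
    rw [a1, a2]
  rw [hsplit]
  have e1 : ∫ u in Ioi 0, (Ioc (0 : ℝ) 1).indicator (fun u => 2 * ε₀ * u ^ (-7 / 8 : ℝ)) u = 16 * ε₀ := by
    rw [setIntegral_indicator measurableSet_Ioc, inter_eq_self_of_subset_right Ioc_subset_Ioi_self,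
      ← intervalIntegral.integral_of_le (by norm_num), intervalIntegral.integral_const_mul,
      integral_rpow (Or.inl (by norm_num))]
    rw [Real.one_rpow, Real.zero_rpow (by norm_num)]
    norm_num
    ring
  have e2 : ∫ u in Ioi 0, ‖E (x - u)‖ ≤ ε₀ * π := by
    refine le_trans ?_ h.integral_norm_le
    rw [← integral_sub_left_eq_self (fun u => ‖E u‖) volume x]
    exact setIntegral_le_integral i2 (Eventually.of_forall (fun u => norm_nonneg _))
  have e3 : ∫ u in Ioi 0, ‖E (x + u)‖ ≤ ε₀ * π := by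
    refine le_trans ?_ h.integral_norm_le
    rw [← integral_add_left_eq_self (fun u => ‖E u‖) x]
    exact setIntegral_le_integral i3 (Eventually.of_forall (fun u => norm_nonneg _))
  have hπ : π ≤ 3.15 := Real.pi_lt_d2.le
  rw [e1]
  nlinarith

/-- the limit of the folded integral -/
noncomputable def foldLim (E : ℝ → ℂ) (x : ℝ) : ℂ := ∫ u in Ioi 0, ((1 / u : ℝ) : ℂ) * (E (x - u) - E (x + u))

lemma norm_fold_le {ε₀ : ℝ} {E : ℝ → ℂ} (h : Sm ε₀ E) (x : ℝ) {u : ℝ} (hu : 0 < u) :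
    1 / u * ‖E (x - u) - E (x + u)‖ ≤ foldBound ε₀ E x u := by
  have hε := h.nonneg
  unfold foldBound
  by_cases h1 : u ≤ 1
  · rw [indicator_of_mem (show u ∈ Ioc (0 : ℝ) 1 from ⟨hu, h1⟩)]
    have h2 := h.hol (x - u) (x + u)
    have e1 : |x - u - (x + u)| = 2 * u := by
      rw [show x - u - (x + u) = -(2 * u) by ring, abs_neg, abs_of_pos (by linarith)]
    rw [e1, Real.mul_rpow (by norm_num) hu.le] at h2
    have h3 : (2 : ℝ) ^ (1 / 8 : ℝ) ≤ 2 := by
      calc (2 : ℝ) ^ (1 / 8 : ℝ) ≤ (2 : ℝ) ^ (1 : ℝ) :=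
            Real.rpow_le_rpow_of_exponent_le (by norm_num) (by norm_num)
        _ = 2 := Real.rpow_one 2
    have h4 : 1 / u * u ^ (1 / 8 : ℝ) = u ^ (-7 / 8 : ℝ) := by
      rw [one_div, ← Real.rpow_neg_one u, ← Real.rpow_add hu]
      norm_num
    have h5 : 0 ≤ u ^ (1 / 8 : ℝ) := by positivity
    calc 1 / u * ‖E (x - u) - E (x + u)‖ ≤ 1 / u * (ε₀ * (2 * u ^ (1 / 8 : ℝ))) := by
          gcongr
          refine h2.trans ?_
          gcongr
      _ = 2 * ε₀ * (1 / u * u ^ (1 / 8 : ℝ)) := by ring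
      _ = 2 * ε₀ * u ^ (-7 / 8 : ℝ) := by rw [h4]
      _ ≤ _ := by
        have := norm_nonneg (E (x - u))
        have := norm_nonneg (E (x + u))
        linarith
  · rw [not_le] at h1
    rw [indicator_of_notMem (fun h' => absurd h'.2 (not_le.2 h1)), zero_add]
    have h2 : 1 / u ≤ 1 := by
      rw [div_le_one hu]; exact h1.le
    calc 1 / u * ‖E (x - u) - E (x + u)‖ ≤ 1 * ‖E (x - u) - E (x + u)‖ := by gcongr
      _ ≤ _ := by rw [one_mul]; exact norm_sub_le _ _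

lemma norm_foldLim_le {ε₀ : ℝ} {E : ℝ → ℂ} (h : Sm ε₀ E) (x : ℝ) : ‖foldLim E x‖ ≤ 23 * ε₀ := by
  refine le_trans ?_ (integral_foldBound_le h x)
  refine norm_integral_le_of_norm_le (integrableOn_foldBound h x) ?_
  rw [ae_restrict_iff' measurableSet_Ioi]
  refine Eventually.of_forall (fun u hu => ?_)
  have hu' : (0 : ℝ) < u := hu
  rw [norm_mul, Complex.norm_real, Real.norm_of_nonneg (by positivity)]
  exact norm_fold_le h x hu'

/-- folding of the regularised kernel -/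
lemma integral_skernel {ε₀ : ℝ} {E : ℝ → ℂ} (h : Sm ε₀ E) (x : ℝ) {ε : ℝ} (hε : 0 < ε) :
    Integrable (fun y : ℝ => (((x - y) / ((x - y) ^ 2 + ε ^ 2) : ℝ) : ℂ) * E y) ∧
    ∫ y : ℝ, (((x - y) / ((x - y) ^ 2 + ε ^ 2) : ℝ) : ℂ) * E y
      = ∫ u in Ioi 0, ((u / (u ^ 2 + ε ^ 2) : ℝ) : ℂ) * (E (x - u) - E (x + u)) := by
  have hb : ∀ u : ℝ, |u / (u ^ 2 + ε ^ 2)| ≤ 1 / ε := by
    intro u
    rw [abs_div, abs_of_pos (show 0 < u ^ 2 + ε ^ 2 by positivity), div_le_div_iff₀ (by positivity) hε]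
    nlinarith [sq_nonneg (|u| - ε), sq_abs u, abs_nonneg u]
  have hmeas : Measurable (fun u : ℝ => ((u / (u ^ 2 + ε ^ 2) : ℝ) : ℂ)) :=
    Complex.measurable_ofReal.comp (by fun_prop)
  have i1 : Integrable (fun y : ℝ => (((x - y) / ((x - y) ^ 2 + ε ^ 2) : ℝ) : ℂ) * E y) := by
    refine h.integrable.bdd_mul (c := 1 / ε) ?_ (Eventually.of_forall (fun y => ?_))
    · exact (hmeas.comp (measurable_const.sub measurable_id)).aestronglyMeasurable
    · rw [Complex.norm_real, Real.norm_eq_abs]; exact hb _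
  have i2 : Integrable (fun u : ℝ => ((u / (u ^ 2 + ε ^ 2) : ℝ) : ℂ) * E (x - u)) := by
    have := i1.comp_sub_left x
    simpa using this
  refine ⟨i1, ?_⟩
  have e1 : ∫ y : ℝ, (((x - y) / ((x - y) ^ 2 + ε ^ 2) : ℝ) : ℂ) * E y
      = ∫ u : ℝ, ((u / (u ^ 2 + ε ^ 2) : ℝ) : ℂ) * E (x - u) := by
    rw [← integral_sub_left_eq_self _ volume x]
    simp
  rw [e1, ← intervalIntegral.integral_Iic_add_Ioi i2.integrableOn i2.integrableOn (b := 0)]
  have e2 := integral_comp_neg_Ioi 0 (fun u : ℝ => ((u / (u ^ 2 + ε ^ 2) : ℝ) : ℂ) * E (x - u))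
  rw [neg_zero] at e2
  have i3 : Integrable (fun u : ℝ => (((-u) / ((-u) ^ 2 + ε ^ 2) : ℝ) : ℂ) * E (x - (-u))) := i2.comp_neg
  rw [← e2, ← integral_add i3.integrableOn i2.integrableOn]
  congr 1
  funext u
  rw [neg_sq, sub_neg_eq_add, neg_div]
  push_cast
  ring

/-- The principal value of a small function. -/
lemma Sm.tendsto_pv {ε₀ : ℝ} {E : ℝ → ℂ} (h : Sm ε₀ E) (x : ℝ) :
    Tendsto (fun ε => pvTrunc E x ε) (𝓝[>] 0)
      (𝓝 (foldLim E x + ∫ y : ℝ, ((y / (1 + y ^ 2) : ℝ) : ℂ) * E y)) := by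
  have i0 : Integrable (fun y : ℝ => ((y / (1 + y ^ 2) : ℝ) : ℂ) * E y) := by
    refine h.integrable.bdd_mul (c := 1) ?_ (Eventually.of_forall (fun y => ?_))
    · exact (Complex.measurable_ofReal.comp (by fun_prop)).aestronglyMeasurable
    · rw [Complex.norm_real, Real.norm_eq_abs, abs_div, abs_of_pos (show (0 : ℝ) < 1 + y ^ 2 by positivity),
        div_le_one (by positivity)]
      nlinarith [sq_abs y, abs_nonneg y, sq_nonneg (|y| - 1)]
  have hk : ∀ ε : ℝ, (fun y : ℝ => (kreg ε x y : ℂ) * E y) = fun y : ℝ =>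
      (((x - y) / ((x - y) ^ 2 + ε ^ 2) : ℝ) : ℂ) * E y + ((y / (1 + y ^ 2) : ℝ) : ℂ) * E y := by
    intro ε
    funext y
    unfold kreg
    push_cast
    ring
  have h1 := tendsto_trunc_sub_reg h.continuous h.bound x (fun ε hε => by
    rw [hk ε]
    exact (integral_skernel h x hε).1.add i0)
  have h2 : Tendsto (fun ε : ℝ => ∫ y : ℝ, (kreg ε x y : ℂ) * E y) (𝓝[>] 0)
      (𝓝 (foldLim E x + ∫ y : ℝ, ((y / (1 + y ^ 2) : ℝ) : ℂ) * E y)) := by
    have h3 : Tendsto (fun ε : ℝ => ∫ u in Ioi 0, ((u / (u ^ 2 + ε ^ 2) : ℝ) : ℂ) * (E (x - u) - E (x + u)))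
        (𝓝[>] 0) (𝓝 (foldLim E x)) := by
      refine tendsto_integral_filter_of_dominated_convergence (foldBound ε₀ E x) ?_ ?_
        (integrableOn_foldBound h x) ?_
      · refine Eventually.of_forall (fun ε => ?_)
        refine AEStronglyMeasurable.mul ?_ ?_
        · exact (Complex.measurable_ofReal.comp (by fun_prop)).aestronglyMeasurable
        · have hc := h.continuous
          exact (by fun_prop : Continuous (fun u => E (x - u) - E (x + u))).aestronglyMeasurable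
      · refine Eventually.of_forall (fun ε => ?_)
        rw [ae_restrict_iff' measurableSet_Ioi]
        refine Eventually.of_forall (fun u hu => ?_)
        have hu' : (0 : ℝ) < u := hu
        rw [norm_mul, Complex.norm_real, Real.norm_eq_abs]
        refine le_trans ?_ (norm_fold_le h x hu')
        gcongr
        exact abs_skernel_le hu'
      · rw [ae_restrict_iff' measurableSet_Ioi]
        refine Eventually.of_forall (fun u hu => ?_)
        have hu' : (0 : ℝ) < u := hu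
        refine Tendsto.mul ?_ tendsto_const_nhds
        have hc : ContinuousAt (fun ε : ℝ => ((u / (u ^ 2 + ε ^ 2) : ℝ) : ℂ)) 0 := by
          refine Complex.continuous_ofReal.continuousAt.comp ?_
          refine ContinuousAt.div (by fun_prop) (by fun_prop) (by positivity)
        have := hc.tendsto
        have e : u / (u ^ 2 + (0:ℝ) ^ 2) = 1 / u := by field_simp; simp
        rw [e] at this
        exact this.mono_left nhdsWithin_le_nhds
    have h4 := h3.add_const (∫ y : ℝ, ((y / (1 + y ^ 2) : ℝ) : ℂ) * E y)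
    refine h4.congr' ?_
    filter_upwards [self_mem_nhdsWithin] with ε hε
    have hε' : (0 : ℝ) < ε := hε
    rw [hk ε, integral_add (integral_skernel h x hε').1 i0, (integral_skernel h x hε').2]
  have h3 := h1.add h2
  simpa using h3

end Pool.Agent.Lib_helper42
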