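import Mathlib
import Pool.Agent.Lib_helper42.SmallPV
import Pool.Agent.Lib_helper42.Jackson

set_option autoImplicit false
open MeasureTheory Set Filter Topology Complex
open scoped Real ComplexConjugate

namespace Pool.Agent.Lib_helper42

/-- An increasing `C^{1,1}` diffeomorphism of the line which is the identity off `(0,1)`. -/
structure Dif (H H' : ℝ → ℝ) (c C M : ℝ) : Prop where
  c_pos : 0 < c
  lo : ∀ x, c ≤ H' x
  hi : ∀ x, H' x ≤ C
  lip : ∀ x y, |H' x - H' y| ≤ M * |x - y|
  der : ∀ x, HasDerivAt H (H' x) x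
  off : ∀ x, x ∉ Ioo (0 : ℝ) 1 → H x = x

/-- Cell functions on the upper half plane. -/
structure CellUp (P : ℂ → ℂ) (C L : ℝ) : Prop where
  cont : ContinuousOn P {z : ℂ | 0 ≤ z.im}
  diff : DifferentiableOn ℂ P {z : ℂ | 0 < z.im}
  bdd : ∀ z : ℂ, 0 ≤ z.im → ‖P z‖ ≤ C * Real.exp (-z.im)
  lip : ∀ x y : ℝ, ‖P x - P y‖ ≤ L * |x - y|

/-- Amplitudes: bounded Lipschitz functions vanishing off `(0,1)`. -/
structure Amp (G : ℝ → ℂ) (M L : ℝ) : Prop where
  bdd : ∀ x, ‖G x‖ ≤ M
  lip : ∀ x y, ‖G x - G y‖ ≤ L * |x - y|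
  off : ∀ x, x ∉ Ioo (0 : ℝ) 1 → G x = 0

lemma continuous_of_lip {α : Type*} [SeminormedAddCommGroup α] {f : ℝ → α} {L : ℝ}
    (h : ∀ x y, ‖f x - f y‖ ≤ L * |x - y|) : Continuous f := by
  have : LipschitzWith (Real.toNNReal |L|) f := by
    apply LipschitzWith.of_dist_le_mul
    intro x y
    rw [dist_eq_norm, Real.coe_toNNReal _ (abs_nonneg L), Real.dist_eq]
    exact (h x y).trans (by gcongr; exact le_abs_self L)
  exact this.continuous

section
variable {H H' : ℝ → ℝ} {c C M : ℝ}

lemma Dif.contH' (h : Dif H H' c C M) : Continuous H' := continuous_of_lip (L := M) (by simpa using h.lip)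
lemma Dif.contH (h : Dif H H' c C M) : Continuous H :=
  continuous_iff_continuousAt.2 (fun x => (h.der x).continuousAt)
lemma Dif.pos (h : Dif H H' c C M) (x : ℝ) : 0 < H' x := h.c_pos.trans_le (h.lo x)
lemma Dif.c_le_C (h : Dif H H' c C M) : c ≤ C := (h.lo 0).trans (h.hi 0)
lemma Dif.C_pos (h : Dif H H' c C M) : 0 < C := h.c_pos.trans_le h.c_le_C
lemma Dif.M_nonneg (h : Dif H H' c C M) : 0 ≤ M := by
  have := h.lip 1 0
  simp only [sub_zero, abs_one, mul_one] at this
  exact (abs_nonneg _).trans this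

lemma Dif.idd : Dif (fun x => x) (fun _ => 1) 1 1 0 :=
  ⟨one_pos, fun _ => le_rfl, fun _ => le_rfl, fun x y => by simp, fun x => hasDerivAt_id x, fun x _ => rfl⟩

lemma Dif.strictMono (h : Dif H H' c C M) : StrictMono H :=
  strictMono_of_deriv_pos (fun x => by rw [(h.der x).deriv]; exact h.pos x)

lemma Dif.sub_le (h : Dif H H' c C M) {x y : ℝ} (hxy : x ≤ y) : H y - H x ≤ C * (y - x) := by
  have := Convex.image_sub_le_mul_sub_of_deriv_le (D := univ) convex_univ
    h.contH.continuousOn (fun x _ => (h.der x).differentiableAt.differentiableWithinAt)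
    (C := C) (fun x _ => by rw [(h.der x).deriv]; exact h.hi x) x (mem_univ _) y (mem_univ _) hxy
  exact this

lemma Dif.le_sub (h : Dif H H' c C M) {x y : ℝ} (hxy : x ≤ y) : c * (y - x) ≤ H y - H x := by
  have := Convex.mul_sub_le_image_sub_of_le_deriv (D := univ) convex_univ
    h.contH.continuousOn (fun x _ => (h.der x).differentiableAt.differentiableWithinAt)
    (C := c) (fun x _ => by rw [(h.der x).deriv]; exact h.lo x) x (mem_univ _) y (mem_univ _) hxy
  exact this

lemma Dif.abs_sub_le (h : Dif H H' c C M) (x y : ℝ) : |H x - H y| ≤ C * |x - y| := by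
  rcases le_total x y with hxy | hxy
  · have h1 := h.sub_le hxy
    have h2 := h.strictMono.monotone hxy
    rw [abs_sub_comm, abs_of_nonneg (by linarith), abs_sub_comm, abs_of_nonneg (by linarith)]
    exact h1
  · have h1 := h.sub_le hxy
    have h2 := h.strictMono.monotone hxy
    rw [abs_of_nonneg (by linarith), abs_of_nonneg (by linarith)]
    exact h1

lemma Dif.le_abs_sub (h : Dif H H' c C M) (x y : ℝ) : c * |x - y| ≤ |H x - H y| := by
  rcases le_total x y with hxy | hxy
  · have h1 := h.le_sub hxy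
    have h2 := h.strictMono.monotone hxy
    rw [abs_sub_comm (H x), abs_of_nonneg (show 0 ≤ H y - H x by linarith), abs_sub_comm, abs_of_nonneg (by linarith)]
    exact h1
  · have h1 := h.le_sub hxy
    have h2 := h.strictMono.monotone hxy
    rw [abs_of_nonneg (by linarith), abs_of_nonneg (by linarith)]
    exact h1

lemma Dif.surjective (h : Dif H H' c C M) : Function.Surjective H := by
  apply h.contH.surjective
  · refine tendsto_id.congr' ?_
    filter_upwards [eventually_ge_atTop (1 : ℝ)] with x hx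
    rw [h.off x (fun hh => absurd hh.2 (not_lt.2 hx)), id]
  · refine tendsto_id.congr' ?_
    filter_upwards [eventually_le_atBot (0 : ℝ)] with x hx
    rw [h.off x (fun hh => absurd hh.1 (not_lt.2 hx)), id]

lemma Dif.mem01 (h : Dif H H' c C M) {s : ℝ} (hs : s ∈ Icc (0:ℝ) 1) : H s ∈ Icc (0:ℝ) 1 := by
  have h0 : H 0 = 0 := h.off 0 (by simp)
  have h1 : H 1 = 1 := h.off 1 (by simp)
  exact ⟨h0 ▸ h.strictMono.monotone hs.1, h1 ▸ h.strictMono.monotone hs.2⟩

/-- second order Taylor estimate -/
lemma Dif.taylor (h : Dif H H' c C M) (x s : ℝ) : |H x - H s - H' s * (x - s)| ≤ M * |x - s| ^ 2 := by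
  have key : ∀ y ∈ uIcc s x, ‖(H' y - H' s)‖ ≤ M * |x - s| := by
    intro y hy
    rw [Real.norm_eq_abs]
    refine (h.lip y s).trans (mul_le_mul_of_nonneg_left ?_ h.M_nonneg)
    exact abs_sub_left_of_mem_uIcc hy
  have h1 := (convex_uIcc s x).norm_image_sub_le_of_norm_hasDerivWithin_le
    (f := fun y => H y - H' s * y) (f' := fun y => H' y - H' s) (C := M * |x - s|)
    (fun y _ => ((h.der y).sub ((hasDerivAt_id y).const_mul (H' s) |>.congr_deriv (by simp))).hasDerivWithinAt)
    key (left_mem_uIcc) (right_mem_uIcc)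
  rw [Real.norm_eq_abs, Real.norm_eq_abs] at h1
  calc |H x - H s - H' s * (x - s)| = |H x - H' s * x - (H s - H' s * s)| := by ring_nf
    _ ≤ M * |x - s| * |x - s| := h1
    _ = _ := by ring

/-- substitution on the whole line -/
lemma Dif.subst {E : Type*} [NormedAddCommGroup E] [NormedSpace ℝ E]
    (h : Dif H H' c C M) (x₀ : ℝ) {T : ℝ} (hT : 0 < T) (φ : ℝ → E) :
    ∫ s, (H' s * T) • φ ((x₀ - H s) * T) = ∫ u, φ u := by
  have hinj : Function.Injective (fun s => (x₀ - H s) * T) := by
    intro a b hab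
    have : x₀ - H a = x₀ - H b := mul_right_cancel₀ hT.ne' hab
    exact h.strictMono.injective (by linarith)
  have hsurj : Function.Surjective (fun s => (x₀ - H s) * T) := by
    intro u
    obtain ⟨s, hs⟩ := h.surjective (x₀ - u / T)
    refine ⟨s, ?_⟩
    simp only [hs]
    field_simp
    ring
  have hd : ∀ s : ℝ, HasDerivAt (fun s => (x₀ - H s) * T) (-(H' s) * T) s := by
    intro s
    have := ((h.der s).const_sub x₀).mul_const T
    simpa using this
  have := integral_image_eq_integral_abs_deriv_smul (s := univ) (f := fun s => (x₀ - H s) * T)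
    (f' := fun s => -(H' s) * T) MeasurableSet.univ (fun s _ => (hd s).hasDerivWithinAt) hinj.injOn φ
  rw [image_univ, hsurj.range_eq, Measure.restrict_univ] at this
  rw [this]
  congr 1
  ext s
  rw [abs_mul, abs_neg, abs_of_pos (h.pos s), abs_of_pos hT]

lemma Dif.subst_integrable {E : Type*} [NormedAddCommGroup E] [NormedSpace ℝ E]
    (h : Dif H H' c C M) (x₀ : ℝ) {T : ℝ} (hT : 0 < T) (φ : ℝ → E) (hφ : Integrable φ) :
    Integrable (fun s => (H' s * T) • φ ((x₀ - H s) * T)) := by
  have hinj : Function.Injective (fun s => (x₀ - H s) * T) := by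
    intro a b hab
    have : x₀ - H a = x₀ - H b := mul_right_cancel₀ hT.ne' hab
    exact h.strictMono.injective (by linarith)
  have hd : ∀ s : ℝ, HasDerivAt (fun s => (x₀ - H s) * T) (-(H' s) * T) s := by
    intro s
    have := ((h.der s).const_sub x₀).mul_const T
    simpa using this
  have := (integrableOn_image_iff_integrableOn_abs_deriv_smul (s := univ) (f := fun s => (x₀ - H s) * T)
    (f' := fun s => -(H' s) * T) MeasurableSet.univ (fun s _ => (hd s).hasDerivWithinAt) hinj.injOn φ).1
    hφ.integrableOn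
  rw [IntegrableOn, Measure.restrict_univ] at this
  convert this using 2 with s
  rw [abs_mul, abs_neg, abs_of_pos (h.pos s), abs_of_pos hT]

end

end Pool.Agent.Lib_helper42
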