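import Mathlib
import Pool.Agent.Lib_helper42.Kop

set_option autoImplicit false
open MeasureTheory Set Filter Topology Complex
open scoped Real ComplexConjugate

namespace Pool.Agent.Lib_helper42

/-- holomorphic parameter integrals -/
lemma differentiableOn_param {U : Set ℂ} (hU : IsOpen U) {K : Set ℝ} (hK : IsCompact K)
    {F F' : ℂ → ℝ → ℂ}
    (hF : ∀ z ∈ U, ∀ s ∈ K, HasDerivAt (fun z => F z s) (F' z s) z)
    (hFc : ∀ z ∈ U, ContinuousOn (F z) K)
    (hF'c : ContinuousOn (Function.uncurry F') (U ×ˢ K)) :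
    DifferentiableOn ℂ (fun z => ∫ s in K, F z s) U := by
  intro z₀ hz₀
  apply DifferentiableAt.differentiableWithinAt
  obtain ⟨r, hr, hrU⟩ := Metric.isOpen_iff.1 hU z₀ hz₀
  have hball : Metric.closedBall z₀ (r / 2) ⊆ U :=
    (Metric.closedBall_subset_ball (by linarith)).trans hrU
  have hcomp : IsCompact (Metric.closedBall z₀ (r / 2) ×ˢ K) := (isCompact_closedBall _ _).prod hK
  obtain ⟨B, hB⟩ := hcomp.exists_bound_of_continuousOn (hF'c.mono (prod_mono hball le_rfl))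
  have hmeas : MeasurableSet K := hK.isClosed.measurableSet
  have hz₀U : ∀ᶠ z in 𝓝 z₀, z ∈ U := hU.mem_nhds hz₀
  have hfin : IsFiniteMeasure (volume.restrict K) := ⟨by
    rw [Measure.restrict_apply_univ]; exact hK.measure_lt_top⟩
  have := hasDerivAt_integral_of_dominated_loc_of_deriv_le (μ := volume.restrict K)
    (F := F) (F' := F') (x₀ := z₀) (s := Metric.closedBall z₀ (r / 2)) (bound := fun _ => B)
    (Metric.closedBall_mem_nhds z₀ (by linarith))
    (hz₀U.mono (fun z hz => (hFc z hz).aestronglyMeasurable hmeas))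
    ((hFc z₀ hz₀).integrableOn_compact hK)
    (by
      apply ContinuousOn.aestronglyMeasurable _ hmeas
      exact hF'c.comp (f := fun s => (z₀, s)) (by fun_prop) (fun s hs => ⟨hz₀, hs⟩))
    (by
      filter_upwards [ae_restrict_mem hmeas] with s hs z hz
      exact hB (z, s) ⟨hz, hs⟩)
    (integrable_const B)
    (by
      filter_upwards [ae_restrict_mem hmeas] with s hs z hz
      exact hF z (hball hz) s hs)
  exact this.2.differentiableAt

noncomputable def kW (H H' : ℝ → ℝ) (t : ℝ) (z : ℂ) (s : ℝ) : ℂ :=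
  (t : ℂ) ^ 4 * (s + (z - H s) / H' s)

noncomputable def kU (H : ℝ → ℝ) (t : ℝ) (z : ℂ) (s : ℝ) : ℂ := (z - H s) * (t : ℂ) ^ 3

noncomputable def kF (H H' : ℝ → ℝ) (P : ℂ → ℂ) (t : ℝ) (G : ℝ → ℂ) (z : ℂ) (s : ℝ) : ℂ :=
  G s * P (kW H H' t z s) * J (kU H t z s) * ((H' s * t ^ 3 : ℝ) : ℂ)

noncomputable def Kop (H H' : ℝ → ℝ) (P : ℂ → ℂ) (t : ℝ) (G : ℝ → ℂ) (z : ℂ) : ℂ :=
  ∫ s in Icc (0:ℝ) 1, kF H H' P t G z s

section
variable {H H' : ℝ → ℝ} {c C M : ℝ} {P : ℂ → ℂ} {CP LP : ℝ} {G : ℝ → ℂ} {MG LG : ℝ}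

lemma kW_im (t : ℝ) (z : ℂ) (s : ℝ) : (kW H H' t z s).im = t ^ 4 * (z.im / H' s) := by
  have h1 : ((t : ℂ) ^ 4) = ((t ^ 4 : ℝ) : ℂ) := by push_cast; rfl
  rw [kW, h1, Complex.im_ofReal_mul, Complex.add_im, Complex.div_ofReal_im, Complex.sub_im]
  simp

lemma kU_im (t : ℝ) (z : ℂ) (s : ℝ) : (kU H t z s).im = z.im * t ^ 3 := by
  have h1 : ((t : ℂ) ^ 3) = ((t ^ 3 : ℝ) : ℂ) := by push_cast; rfl
  rw [kU, h1, Complex.im_mul_ofReal, Complex.sub_im]
  simp

lemma kU_re (t : ℝ) (z : ℂ) (s : ℝ) : (kU H t z s).re = (z.re - H s) * t ^ 3 := by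
  have h1 : ((t : ℂ) ^ 3) = ((t ^ 3 : ℝ) : ℂ) := by push_cast; rfl
  rw [kU, h1, Complex.re_mul_ofReal, Complex.sub_re]
  simp

lemma CellUp.C_nonneg (h : CellUp P CP LP) : 0 ≤ CP := by
  have := (norm_nonneg _).trans (h.bdd 0 (by simp))
  simpa using this

lemma CellUp.L_nonneg (h : CellUp P CP LP) : 0 ≤ LP := by
  have := (norm_nonneg _).trans (h.lip 1 0)
  simpa using this

lemma Amp.M_nonneg (h : Amp G MG LG) : 0 ≤ MG := (norm_nonneg _).trans (h.bdd 0)

lemma Amp.L_nonneg (h : Amp G MG LG) : 0 ≤ LG := by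
  have := (norm_nonneg _).trans (h.lip 1 0)
  simpa using this

lemma Amp.cont (h : Amp G MG LG) : Continuous G := continuous_of_lip h.lip

lemma norm_kF_le (hD : Dif H H' c C M) (hP : CellUp P CP LP) (hG : Amp G MG LG) {t : ℝ}
    (ht : 8 * C ≤ t) {z : ℂ} (hz : 0 ≤ z.im) (s : ℝ) :
    ‖kF H H' P t G z s‖ ≤ MG * CP * CJ * Real.exp (-(t ^ 4 / (2 * C) * z.im)) *
      ((H' s * t ^ 3) * ((1 + ((z.re - H s) * t ^ 3) ^ 2) ^ 2)⁻¹) := by
  have hC := hD.C_pos
  have ht0 : 0 < t := by linarith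
  have hs := hD.pos s
  have hwim : 0 ≤ (kW H H' t z s).im := by rw [kW_im]; positivity
  have h1 : ‖P (kW H H' t z s)‖ ≤ CP * Real.exp (-(t ^ 4 / C * z.im)) := by
    refine (hP.bdd _ hwim).trans (mul_le_mul_of_nonneg_left ?_ hP.C_nonneg)
    rw [Real.exp_le_exp, kW_im, neg_le_neg_iff, div_mul_eq_mul_div, ← mul_div_assoc]
    exact div_le_div_of_nonneg_left (by positivity) hs (hD.hi s)
  have h2 : ‖J (kU H t z s)‖ ≤ CJ * Real.exp (4 * t ^ 3 * z.im) / (1 + ((z.re - H s) * t ^ 3) ^ 2) ^ 2 := by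
    have := J_bound (kU H t z s)
    rw [kU_im, kU_re, abs_of_nonneg (by positivity)] at this
    calc _ ≤ _ := this
      _ = _ := by ring_nf
  have h3 : Real.exp (-(t ^ 4 / C * z.im)) * Real.exp (4 * t ^ 3 * z.im) ≤ Real.exp (-(t ^ 4 / (2 * C) * z.im)) := by
    rw [← Real.exp_add, Real.exp_le_exp]
    have h4 : 4 * t ^ 3 * z.im ≤ t ^ 4 / (2 * C) * z.im := by
      apply mul_le_mul_of_nonneg_right _ hz
      rw [le_div_iff₀ (by positivity)]
      calc 4 * t ^ 3 * (2 * C) = t ^ 3 * (8 * C) := by ring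
        _ ≤ t ^ 3 * t := by gcongr
        _ = t ^ 4 := by ring
    have h5 : t ^ 4 / C * z.im = t ^ 4 / (2 * C) * z.im + t ^ 4 / (2 * C) * z.im := by
      field_simp; ring
    linarith
  have hCJ := CJ_pos
  have hMG := hG.M_nonneg
  have hCP := hP.C_nonneg
  rw [kF, norm_mul, norm_mul, norm_mul, Complex.norm_real, Real.norm_of_nonneg (show 0 ≤ H' s * t ^ 3 by positivity)]
  calc ‖G s‖ * ‖P (kW H H' t z s)‖ * ‖J (kU H t z s)‖ * (H' s * t ^ 3)
      ≤ MG * (CP * Real.exp (-(t ^ 4 / C * z.im))) *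
        (CJ * Real.exp (4 * t ^ 3 * z.im) / (1 + ((z.re - H s) * t ^ 3) ^ 2) ^ 2) * (H' s * t ^ 3) := by
          gcongr
          exact hG.bdd s
    _ = MG * CP * CJ * (Real.exp (-(t ^ 4 / C * z.im)) * Real.exp (4 * t ^ 3 * z.im)) *
      ((H' s * t ^ 3) * ((1 + ((z.re - H s) * t ^ 3) ^ 2) ^ 2)⁻¹) := by ring
    _ ≤ _ := by gcongr

lemma kW_cont (hD : Dif H H' c C M) (t : ℝ) : Continuous (fun p : ℂ × ℝ => kW H H' t p.1 p.2) := by
  unfold kW
  have h1 := hD.contH
  have h2 := hD.contH'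
  refine continuous_const.mul ((Complex.continuous_ofReal.comp continuous_snd).add
    (Continuous.div (by fun_prop) (by fun_prop) (fun p => ?_)))
  exact_mod_cast (hD.pos p.2).ne'

lemma kU_cont (hD : Dif H H' c C M) (t : ℝ) : Continuous (fun p : ℂ × ℝ => kU H t p.1 p.2) := by
  unfold kU
  have h1 := hD.contH
  fun_prop

lemma kF_contOn (hD : Dif H H' c C M) (hP : CellUp P CP LP) (hG : Amp G MG LG) {t : ℝ} (ht : 0 < t) :
    ContinuousOn (fun p : ℂ × ℝ => kF H H' P t G p.1 p.2) ({z : ℂ | 0 ≤ z.im} ×ˢ univ) := by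
  unfold kF
  have h1 := hD.contH
  have h2 := hD.contH'
  have hG' := hG.cont
  refine ((ContinuousOn.mul (by fun_prop) ?_).mul ?_).mul (by fun_prop)
  · refine hP.cont.comp (kW_cont hD t).continuousOn (fun p hp => ?_)
    rw [mem_ofPred_eq, kW_im]
    have := hD.pos p.2
    have h3 : 0 ≤ p.1.im := hp.1
    positivity
  · exact (J_diff.continuous.comp (kU_cont hD t)).continuousOn

lemma kF_hasDerivAt (hD : Dif H H' c C M) (hP : CellUp P CP LP) {t : ℝ} (ht : 0 < t) {z : ℂ} (hz : 0 < z.im) (s : ℝ) :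
    HasDerivAt (fun z => kF H H' P t G z s)
      (G s * (deriv P (kW H H' t z s) * ((t : ℂ) ^ 4 / H' s)) * J (kU H t z s) * ((H' s * t ^ 3 : ℝ) : ℂ) +
       G s * P (kW H H' t z s) * (deriv J (kU H t z s) * (t : ℂ) ^ 3) * ((H' s * t ^ 3 : ℝ) : ℂ)) z := by
  have hs := hD.pos s
  have hw : HasDerivAt (fun z => kW H H' t z s) ((t : ℂ) ^ 4 / H' s) z := by
    have h1 : HasDerivAt (fun z : ℂ => (t : ℂ) ^ 4 * (s + (z - H s) / H' s)) ((t : ℂ) ^ 4 * (1 / H' s)) z := by
      exact ((((hasDerivAt_id z).sub_const (H s : ℂ)).div_const (H' s : ℂ)).const_add (s : ℂ)).const_mul ((t : ℂ) ^ 4)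
    rw [mul_one_div] at h1
    exact h1
  have hu : HasDerivAt (fun z => kU H t z s) ((t : ℂ) ^ 3) z := by
    have h1 := ((hasDerivAt_id z).sub_const (H s : ℂ)).mul_const ((t : ℂ) ^ 3)
    rw [one_mul] at h1
    exact h1
  have hwim : 0 < (kW H H' t z s).im := by rw [kW_im]; positivity
  have hPw : HasDerivAt P (deriv P (kW H H' t z s)) (kW H H' t z s) :=
    (hP.diff.differentiableAt (isOpen_upper.mem_nhds hwim)).hasDerivAt
  have hJu : HasDerivAt J (deriv J (kU H t z s)) (kU H t z s) := (J_diff _).hasDerivAt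
  have h1 := (((hPw.comp z hw).const_mul (G s)).mul (hJu.comp z hu)).mul_const ((H' s * t ^ 3 : ℝ) : ℂ)
  have h2 := h1.congr_deriv (g' := (G s * (deriv P (kW H H' t z s) * ((t : ℂ) ^ 4 / H' s)) * J (kU H t z s) * ((H' s * t ^ 3 : ℝ) : ℂ) +
       G s * P (kW H H' t z s) * (deriv J (kU H t z s) * (t : ℂ) ^ 3) * ((H' s * t ^ 3 : ℝ) : ℂ))) (by
        simp only [Function.comp_apply]; ring)
  exact h2

lemma Kop_ana (hD : Dif H H' c C M) (hP : CellUp P CP LP) (hG : Amp G MG LG) {t : ℝ} (ht0 : 0 < t)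
    (ht : 8 * C ≤ t) : AnaUp (Kop H H' P t G) := by
  have hC := hD.C_pos
  have hCJ := CJ_pos
  have hMG := hG.M_nonneg
  have hCP := hP.C_nonneg
  have hbd : ∀ z : ℂ, 0 ≤ z.im → ∀ s : ℝ, ‖kF H H' P t G z s‖ ≤ MG * CP * CJ * (C * t ^ 3) := by
    intro z hz s
    have hs := hD.pos s
    refine (norm_kF_le hD hP hG ht hz s).trans ?_
    have h1 : Real.exp (-(t ^ 4 / (2 * C) * z.im)) ≤ 1 := by
      rw [Real.exp_le_one_iff]
      have : 0 ≤ t ^ 4 / (2 * C) * z.im := by positivity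
      linarith
    have h2 : ((1 + ((z.re - H s) * t ^ 3) ^ 2) ^ 2)⁻¹ ≤ 1 := by
      apply inv_le_one_of_one_le₀
      apply one_le_pow₀
      nlinarith [sq_nonneg ((z.re - H s) * t ^ 3)]
    calc MG * CP * CJ * Real.exp (-(t ^ 4 / (2 * C) * z.im)) *
      ((H' s * t ^ 3) * ((1 + ((z.re - H s) * t ^ 3) ^ 2) ^ 2)⁻¹) ≤ MG * CP * CJ * 1 * ((C * t ^ 3) * 1) := by
          gcongr
          exact hD.hi s
      _ = _ := by ring
  have hfin : IsFiniteMeasure (volume.restrict (Icc (0:ℝ) 1)) := ⟨by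
    rw [Measure.restrict_apply_univ]; exact isCompact_Icc.measure_lt_top⟩
  refine ⟨?_, ?_, ?_⟩
  · apply continuousOn_of_dominated (bound := fun _ => MG * CP * CJ * (C * t ^ 3))
    · intro z hz
      apply ContinuousOn.aestronglyMeasurable _ measurableSet_Icc
      exact (kF_contOn hD hP hG ht0).comp (f := fun s => (z, s)) (by fun_prop) (fun s hs => ⟨hz, mem_univ _⟩)
    · intro z hz
      exact Eventually.of_forall (hbd z hz)
    · exact integrable_const _
    · refine Eventually.of_forall (fun s => ?_)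
      exact (kF_contOn hD hP hG ht0).comp (f := fun z => (z, s)) (by fun_prop) (fun z hz => ⟨hz, mem_univ _⟩)
  · apply differentiableOn_param isOpen_upper isCompact_Icc
      (fun z hz s _ => kF_hasDerivAt hD hP ht0 hz s)
    · intro z hz
      exact (kF_contOn hD hP hG ht0).comp (f := fun s => (z, s)) (by fun_prop) (fun s hs => ⟨(show 0 ≤ z.im from le_of_lt hz), mem_univ _⟩)
    · have h1 := hD.contH
      have h2 := hD.contH'
      have hG' := hG.cont
      have hsub : MapsTo (fun p : ℂ × ℝ => kW H H' t p.1 p.2) ({z : ℂ | 0 < z.im} ×ˢ Icc 0 1) {z : ℂ | 0 < z.im} := by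
        intro p hp
        rw [mem_ofPred_eq, kW_im]
        have := hD.pos p.2
        have h3 : 0 < p.1.im := hp.1
        positivity
      have hPc : ContinuousOn (fun p : ℂ × ℝ => P (kW H H' t p.1 p.2)) ({z : ℂ | 0 < z.im} ×ˢ Icc 0 1) :=
        hP.diff.continuousOn.comp (kW_cont hD t).continuousOn hsub
      have hdP : ContinuousOn (deriv P) {z : ℂ | 0 < z.im} := (hP.diff.deriv isOpen_upper).continuousOn
      have hdPc : ContinuousOn (fun p : ℂ × ℝ => deriv P (kW H H' t p.1 p.2)) ({z : ℂ | 0 < z.im} ×ˢ Icc 0 1) :=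
        hdP.comp (kW_cont hD t).continuousOn hsub
      have hJc : Continuous (fun p : ℂ × ℝ => J (kU H t p.1 p.2)) := J_diff.continuous.comp (kU_cont hD t)
      have hdJ : Continuous (deriv J) := by
        rw [← continuousOn_univ]
        exact (J_diff.differentiableOn.deriv isOpen_univ).continuousOn
      have hdJc : Continuous (fun p : ℂ × ℝ => deriv J (kU H t p.1 p.2)) := hdJ.comp (kU_cont hD t)
      have hinv : Continuous (fun p : ℂ × ℝ => ((t : ℂ) ^ 4 / H' p.2)) := by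
        refine Continuous.div (by fun_prop) (by fun_prop) (fun p => ?_)
        exact_mod_cast (hD.pos p.2).ne'
      have hGc : Continuous (fun p : ℂ × ℝ => G p.2) := by fun_prop
      have hHc : Continuous (fun p : ℂ × ℝ => ((H' p.2 * t ^ 3 : ℝ) : ℂ)) := by fun_prop
      exact (((hGc.continuousOn.mul (hdPc.mul hinv.continuousOn)).mul hJc.continuousOn).mul hHc.continuousOn).add
        (((hGc.continuousOn.mul hPc).mul (hdJc.continuousOn.mul continuousOn_const)).mul hHc.continuousOn)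
  · refine ⟨MG * CP * CJ * (C * t ^ 3), fun z hz => ?_⟩
    refine (norm_integral_le_integral_norm _).trans ?_
    have h1 : ∫ s in Icc (0:ℝ) 1, ‖kF H H' P t G z s‖ ≤ ∫ s in Icc (0:ℝ) 1, MG * CP * CJ * (C * t ^ 3) := by
      apply integral_mono_of_nonneg (Eventually.of_forall (fun _ => norm_nonneg _)) (integrable_const _)
        (Eventually.of_forall (hbd z hz))
    refine h1.trans ?_
    simp

end

end Pool.Agent.Lib_helper42
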