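import Mathlib
import Pool.Agent.Lib_helper42.KopAna

set_option autoImplicit false
open MeasureTheory Set Filter Topology Complex
open scoped Real ComplexConjugate

namespace Pool.Agent.Lib_helper42

section
variable {H H' : ℝ → ℝ} {c C M : ℝ} {P : ℂ → ℂ} {CP LP : ℝ} {G : ℝ → ℂ} {MG LG : ℝ}

lemma inv_sq_le_inv (u : ℝ) : ((1 + u ^ 2) ^ 2)⁻¹ ≤ (1 + u ^ 2)⁻¹ := by
  apply inv_anti₀ (by positivity)
  nlinarith [sq_nonneg u, sq_nonneg (u ^ 2)]

lemma Dif.integral_kern (hD : Dif H H' c C M) (x₀ : ℝ) {T : ℝ} (hT : 0 < T) :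
    ∫ s, (H' s * T) * (1 + ((x₀ - H s) * T) ^ 2)⁻¹ = π := by
  have := hD.subst x₀ hT (fun u => (1 + u ^ 2)⁻¹)
  simp only [smul_eq_mul] at this
  rw [this, integral_univ_inv_one_add_sq]

lemma Dif.integrable_kern (hD : Dif H H' c C M) (x₀ : ℝ) {T : ℝ} (hT : 0 < T) :
    Integrable (fun s => (H' s * T) * (1 + ((x₀ - H s) * T) ^ 2)⁻¹) := by
  have := hD.subst_integrable x₀ hT (fun u => (1 + u ^ 2)⁻¹) integrable_inv_one_add_sq
  simpa only [smul_eq_mul] using this

lemma norm_Kop_le (hD : Dif H H' c C M) (hP : CellUp P CP LP) (hG : Amp G MG LG) {t : ℝ}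
    (ht : 8 * C ≤ t) {z : ℂ} (hz : 0 ≤ z.im) :
    ‖Kop H H' P t G z‖ ≤ π * CJ * CP * MG * Real.exp (-(t ^ 4 / (2 * C) * z.im)) := by
  have hC := hD.C_pos
  have hCJ := CJ_pos
  have hMG := hG.M_nonneg
  have hCP := hP.C_nonneg
  have ht0 : 0 < t := by linarith
  have ht3 : 0 < t ^ 3 := by positivity
  set B := MG * CP * CJ * Real.exp (-(t ^ 4 / (2 * C) * z.im)) with hB
  have hB0 : 0 ≤ B := by positivity
  have hint := hD.integrable_kern z.re ht3
  calc ‖Kop H H' P t G z‖ ≤ ∫ s in Icc (0:ℝ) 1, ‖kF H H' P t G z s‖ := norm_integral_le_integral_norm _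
    _ ≤ ∫ s in Icc (0:ℝ) 1, B * ((H' s * t ^ 3) * (1 + ((z.re - H s) * t ^ 3) ^ 2)⁻¹) := by
        apply integral_mono_of_nonneg (Eventually.of_forall (fun _ => norm_nonneg _))
          ((hint.const_mul B).integrableOn)
        refine Eventually.of_forall (fun s => ?_)
        refine (norm_kF_le hD hP hG ht hz s).trans ?_
        have hs := hD.pos s
        have := inv_sq_le_inv ((z.re - H s) * t ^ 3)
        show B * _ ≤ B * _
        gcongr
    _ ≤ ∫ s, B * ((H' s * t ^ 3) * (1 + ((z.re - H s) * t ^ 3) ^ 2)⁻¹) := by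
        apply setIntegral_le_integral (hint.const_mul B)
        refine Eventually.of_forall (fun s => ?_)
        have hs := hD.pos s
        show 0 ≤ B * _
        positivity
    _ = B * π := by rw [integral_const_mul, hD.integral_kern _ ht3]
    _ = _ := by rw [hB]; ring

/-- the kernel at a real point, written over the whole line -/
lemma Kop_eq_line (hG : Amp G MG LG) (t : ℝ) (z : ℂ) :
    Kop H H' P t G z = ∫ s, kF H H' P t G z s := by
  rw [Kop]
  apply setIntegral_eq_integral_of_forall_compl_eq_zero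
  intro s hs
  rw [kF, hG.off s (fun h => hs (Ioo_subset_Icc_self h))]
  simp

lemma integrable_J : Integrable (fun u : ℝ => J u) := by
  apply (integrable_inv_one_add_sq.const_mul CJ).mono'
  · exact (J_diff.continuous.comp Complex.continuous_ofReal).aestronglyMeasurable
  · refine Eventually.of_forall (fun u => ?_)
    have := J_bound (u : ℂ)
    simp only [ofReal_im, abs_zero, mul_zero, Real.exp_zero, mul_one, ofReal_re] at this
    refine this.trans ?_
    rw [div_eq_mul_inv]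
    have hCJ := CJ_pos
    have := inv_sq_le_inv u
    gcongr

lemma J_bound_real (u : ℝ) : ‖J u‖ ≤ CJ * ((1 + u ^ 2) ^ 2)⁻¹ := by
  have := J_bound (u : ℂ)
  simp only [ofReal_im, abs_zero, mul_zero, Real.exp_zero, mul_one, ofReal_re] at this
  rwa [div_eq_mul_inv] at this

/-- error at a real point -/
lemma norm_Kop_sub_le (hD : Dif H H' c C M) (hP : CellUp P CP LP) (hG : Amp G MG LG) {t : ℝ}
    (ht0 : 0 < t) (x : ℝ) :
    ‖Kop H H' P t G (H x) - G x * P ((t ^ 4 * x : ℝ))‖ ≤
      π * CJ * (LG * CP / (c * t ^ 3) + MG * LP * (M / c ^ 3) / t ^ 2) := by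
  have hc := hD.c_pos
  have hC := hD.C_pos
  have hCJ := CJ_pos
  have hMG := hG.M_nonneg
  have hLG := hG.L_nonneg
  have hCP := hP.C_nonneg
  have hLP := hP.L_nonneg
  have hM := hD.M_nonneg
  have ht3 : 0 < t ^ 3 := by positivity
  -- the kernel integrates to one
  have hone : ∫ s, J (kU H t (H x) s) * ((H' s * t ^ 3 : ℝ) : ℂ) = 1 := by
    have := hD.subst (H x) ht3 (fun u : ℝ => J u)
    rw [J_integral] at this
    rw [← this]
    congr 1
    ext s
    rw [Complex.real_smul, mul_comm, kU]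
    push_cast
    ring
  have hint1 : Integrable (fun s => J (kU H t (H x) s) * ((H' s * t ^ 3 : ℝ) : ℂ)) := by
    have := hD.subst_integrable (H x) ht3 (fun u : ℝ => J u) integrable_J
    refine this.congr (Eventually.of_forall (fun s => ?_))
    simp only [Complex.real_smul, kU]
    push_cast
    ring
  have hcont1 : Continuous (fun s : ℝ => kF H H' P t G (H x) s) := by
    rw [← continuousOn_univ]
    exact (kF_contOn hD hP hG ht0).comp (f := fun s => ((H x : ℂ), s)) (by fun_prop) (fun s hs => ⟨by simp, mem_univ _⟩)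
  have hint2 : Integrable (fun s => kF H H' P t G (H x) s) := by
    apply hcont1.integrable_of_hasCompactSupport
    apply HasCompactSupport.intro isCompact_Icc (K := Icc (0:ℝ) 1)
    intro s hs
    rw [kF, hG.off s (fun h => hs (Ioo_subset_Icc_self h))]
    simp
  have heq : Kop H H' P t G (H x) - G x * P ((t ^ 4 * x : ℝ)) =
      ∫ s, (G s * P (kW H H' t (H x) s) - G x * P ((t ^ 4 * x : ℝ))) * (J (kU H t (H x) s) * ((H' s * t ^ 3 : ℝ) : ℂ)) := by
    rw [Kop_eq_line hG]
    have : G x * P ((t ^ 4 * x : ℝ)) = ∫ s, (G x * P ((t ^ 4 * x : ℝ))) * (J (kU H t (H x) s) * ((H' s * t ^ 3 : ℝ) : ℂ)) := by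
      rw [integral_const_mul, hone, mul_one]
    rw [this, ← integral_sub hint2 (hint1.const_mul _)]
    congr 1
    ext s
    rw [kF]
    have : ∫ s, (G x * P ((t ^ 4 * x : ℝ))) * (J (kU H t (H x) s) * ((H' s * t ^ 3 : ℝ) : ℂ)) = G x * P ((t ^ 4 * x : ℝ)) := by
      rw [integral_const_mul, hone, mul_one]
    try rw [this]
    ring
  rw [heq]
  set a := LG * CP / (c * t ^ 3) with ha
  set b := MG * LP * (M / c ^ 3) / t ^ 2 with hb
  have ha0 : 0 ≤ a := by positivity
  have hb0 : 0 ≤ b := by positivity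
  -- pointwise bound
  have hpt : ∀ s : ℝ, ‖(G s * P (kW H H' t (H x) s) - G x * P ((t ^ 4 * x : ℝ))) * (J (kU H t (H x) s) * ((H' s * t ^ 3 : ℝ) : ℂ))‖
      ≤ (a + b) * CJ * ((H' s * t ^ 3) * (1 + ((H x - H s) * t ^ 3) ^ 2)⁻¹) := by
    intro s
    have hs := hD.pos s
    set u := (H x - H s) * t ^ 3 with hu
    have hkW : kW H H' t (H x) s = ((t ^ 4 * (s + (H x - H s) / H' s) : ℝ) : ℂ) := by
      rw [kW]; push_cast; ring
    have hkU : kU H t (H x) s = (u : ℂ) := by
      rw [kU, hu]; push_cast; ring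
    have hsx : |x - s| ≤ |u| / (c * t ^ 3) := by
      rw [le_div_iff₀ (by positivity), hu, abs_mul, abs_of_pos ht3]
      have := hD.le_abs_sub x s
      calc |x - s| * (c * t ^ 3) = (c * |x - s|) * t ^ 3 := by ring
        _ ≤ _ := by gcongr
    have h1 : ‖G s - G x‖ * CP ≤ a * |u| := by
      have := hG.lip s x
      rw [abs_sub_comm] at this
      calc ‖G s - G x‖ * CP ≤ (LG * (|u| / (c * t ^ 3))) * CP := by
            gcongr
            exact this.trans (by gcongr)
        _ = a * |u| := by rw [ha]; ring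
    have h2 : ‖P (kW H H' t (H x) s) - P ((t ^ 4 * x : ℝ))‖ ≤ LP * (M / c ^ 3) / t ^ 2 * u ^ 2 := by
      rw [hkW]
      refine (hP.lip _ _).trans ?_
      have h3 : |t ^ 4 * (s + (H x - H s) / H' s) - t ^ 4 * x| = t ^ 4 * (|H x - H s - H' s * (x - s)| / H' s) := by
        rw [← mul_sub, abs_mul, abs_of_pos (show 0 < t ^ 4 by positivity)]
        congr 1
        rw [← abs_of_pos hs, ← abs_div, abs_of_pos hs]
        congr 1
        field_simp
        ring
      rw [h3]
      have h4 := hD.taylor x s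
      calc LP * (t ^ 4 * (|H x - H s - H' s * (x - s)| / H' s)) ≤ LP * (t ^ 4 * (M * (|u| / (c * t ^ 3)) ^ 2 / c)) := by
            gcongr
            · exact h4.trans (by gcongr)
            · exact hD.lo s
        _ = LP * (M / c ^ 3) / t ^ 2 * |u| ^ 2 := by field_simp
        _ = _ := by rw [sq_abs]
    have h5 : ‖G s * P (kW H H' t (H x) s) - G x * P ((t ^ 4 * x : ℝ))‖ ≤ a * |u| + b * u ^ 2 := by
      have h6 : G s * P (kW H H' t (H x) s) - G x * P ((t ^ 4 * x : ℝ)) =
        (G s - G x) * P (kW H H' t (H x) s) + G x * (P (kW H H' t (H x) s) - P ((t ^ 4 * x : ℝ))) := by ring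
      rw [h6]
      refine (norm_add_le _ _).trans ?_
      rw [norm_mul, norm_mul]
      have h7 : ‖P (kW H H' t (H x) s)‖ ≤ CP := by
        have := hP.bdd (kW H H' t (H x) s) (by rw [hkW, Complex.ofReal_im])
        rw [hkW, Complex.ofReal_im, neg_zero, Real.exp_zero, mul_one] at this
        rw [hkW]
        exact this
      calc ‖G s - G x‖ * ‖P (kW H H' t (H x) s)‖ + ‖G x‖ * ‖P (kW H H' t (H x) s) - P ((t ^ 4 * x : ℝ))‖
          ≤ ‖G s - G x‖ * CP + MG * (LP * (M / c ^ 3) / t ^ 2 * u ^ 2) := by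
            gcongr
            exact hG.bdd x
        _ ≤ a * |u| + MG * (LP * (M / c ^ 3) / t ^ 2 * u ^ 2) := by gcongr
        _ = a * |u| + b * u ^ 2 := by rw [hb]; ring
    have h8 : ‖J (kU H t (H x) s)‖ ≤ CJ * ((1 + u ^ 2) ^ 2)⁻¹ := by
      rw [hkU]; exact J_bound_real u
    rw [norm_mul, norm_mul, Complex.norm_real, Real.norm_of_nonneg (show 0 ≤ H' s * t ^ 3 by positivity)]
    have h9 : a * |u| + b * u ^ 2 ≤ (a + b) * (1 + u ^ 2) := by
      have h10 : |u| ≤ 1 + u ^ 2 := by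
        rw [← sq_abs]
        nlinarith [sq_nonneg (|u| - 1), abs_nonneg u]
      nlinarith [mul_le_mul_of_nonneg_left h10 ha0]
    calc ‖G s * P (kW H H' t (H x) s) - G x * P ((t ^ 4 * x : ℝ))‖ * (‖J (kU H t (H x) s)‖ * (H' s * t ^ 3))
        ≤ ((a + b) * (1 + u ^ 2)) * ((CJ * ((1 + u ^ 2) ^ 2)⁻¹) * (H' s * t ^ 3)) := by
          gcongr
          exact h5.trans h9
      _ = (a + b) * CJ * ((H' s * t ^ 3) * (1 + u ^ 2)⁻¹) := by
          have : (1 + u ^ 2) ≠ 0 := by positivity
          field_simp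
  calc ‖∫ s, (G s * P (kW H H' t (H x) s) - G x * P ((t ^ 4 * x : ℝ))) * (J (kU H t (H x) s) * ((H' s * t ^ 3 : ℝ) : ℂ))‖
      ≤ ∫ s, (a + b) * CJ * ((H' s * t ^ 3) * (1 + ((H x - H s) * t ^ 3) ^ 2)⁻¹) :=
        norm_integral_le_of_norm_le ((hD.integrable_kern _ ht3).const_mul _) (Eventually.of_forall hpt)
    _ = (a + b) * CJ * π := by rw [integral_const_mul, hD.integral_kern _ ht3]
    _ = _ := by ring

end

end Pool.Agent.Lib_helper42
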