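import Mathlib
import Pool.Agent.Lib_helper42.KopErr

set_option autoImplicit false
open MeasureTheory Set Filter Topology Complex
open scoped Real ComplexConjugate

namespace Pool.Agent.Lib_helper42

/-- interpolation between sup bound and Lipschitz bound -/
lemma Sm.of_dec_lip {E : ℝ → ℂ} {S L ε : ℝ} (hε : 0 ≤ ε) (hdec : ∀ x, ‖E x‖ ≤ S / (1 + x ^ 2))
    (hlip : ∀ x y, ‖E x - E y‖ ≤ L * |x - y|) (h1 : S ≤ ε) (h2 : (2 * S) ^ 7 * L ≤ ε ^ 8) : Sm ε E := by
  have hS : 0 ≤ S := by simpa using (norm_nonneg _).trans (hdec 0)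
  refine ⟨fun x => (hdec x).trans (by gcongr), fun x y => ?_⟩
  have hb : ∀ x, ‖E x‖ ≤ S := fun x => (hdec x).trans (div_le_self hS (by nlinarith [sq_nonneg x]))
  have h3 : ‖E x - E y‖ ≤ 2 * S := (norm_sub_le _ _).trans (by linarith [hb x, hb y])
  have h4 := hlip x y
  set v := ‖E x - E y‖ with hv
  have hv0 : 0 ≤ v := norm_nonneg _
  have h5 : v ^ 8 ≤ ε ^ 8 * |x - y| := by
    calc v ^ 8 = v ^ 7 * v := by ring
      _ ≤ (2 * S) ^ 7 * (L * |x - y|) := by gcongr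
      _ = ((2 * S) ^ 7 * L) * |x - y| := by ring
      _ ≤ ε ^ 8 * |x - y| := by gcongr
  have h6 : (ε * |x - y| ^ (1 / 8 : ℝ)) ^ 8 = ε ^ 8 * |x - y| := by
    rw [mul_pow, ← Real.rpow_natCast (|x - y| ^ (1 / 8 : ℝ)) 8, ← Real.rpow_mul (abs_nonneg _)]
    norm_num
  rw [← h6] at h5
  exact le_of_pow_le_pow_left₀ (by norm_num) (by positivity) h5

/-- controlled growth on the real line, with unspecified constants -/
structure Tame (f : ℂ → ℂ) : Prop where
  lip : ∃ L, ∀ x y : ℝ, ‖f x - f y‖ ≤ L * |x - y|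
  dec : ∃ A, ∀ x : ℝ, ‖f x‖ ≤ A / (1 + x ^ 2) ^ 2

section
variable {H H' : ℝ → ℝ} {c C M : ℝ} {P : ℂ → ℂ} {CP LP : ℝ} {G : ℝ → ℂ} {MG LG : ℝ}

lemma kF_lip (hD : Dif H H' c C M) (hP : CellUp P CP LP) (hG : Amp G MG LG) {t : ℝ}
    (ht : 1 ≤ t) (x y : ℝ) (s : ℝ) :
    ‖kF H H' P t G x s - kF H H' P t G y s‖ ≤ (MG * C * (CP * LJ + LP * CJ / c)) * t ^ 7 * |x - y| := by
  have hc := hD.c_pos
  have hC := hD.C_pos
  have hCJ := CJ_pos
  have hLJ := LJ_pos
  have hMG := hG.M_nonneg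
  have hCP := hP.C_nonneg
  have hLP := hP.L_nonneg
  have ht0 : 0 < t := by linarith
  have hs := hD.pos s
  have hkW : ∀ x : ℝ, kW H H' t x s = ((t ^ 4 * (s + (x - H s) / H' s) : ℝ) : ℂ) := by
    intro x; rw [kW]; push_cast; ring
  have hkU : ∀ x : ℝ, kU H t x s = (((x - H s) * t ^ 3 : ℝ) : ℂ) := by
    intro x; rw [kU]; push_cast; ring
  have hJ : ∀ x : ℝ, ‖J (kU H t x s)‖ ≤ CJ := by
    intro x
    rw [hkU]
    refine (J_bound_real _).trans ?_
    have : ((1 + ((x - H s) * t ^ 3) ^ 2) ^ 2)⁻¹ ≤ 1 := by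
      apply inv_le_one_of_one_le₀
      apply one_le_pow₀
      nlinarith [sq_nonneg ((x - H s) * t ^ 3)]
    calc CJ * _ ≤ CJ * 1 := by gcongr
      _ = CJ := mul_one _
  have hPb : ∀ x : ℝ, ‖P (kW H H' t x s)‖ ≤ CP := by
    intro x
    have := hP.bdd (kW H H' t x s) (by rw [hkW, Complex.ofReal_im])
    rw [hkW, Complex.ofReal_im, neg_zero, Real.exp_zero, mul_one] at this
    rw [hkW]
    exact this
  have hP1 : ‖P (kW H H' t x s) - P (kW H H' t y s)‖ ≤ LP * (t ^ 4 / c * |x - y|) := by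
    rw [hkW, hkW]
    refine (hP.lip _ _).trans ?_
    have : t ^ 4 * (s + (x - H s) / H' s) - t ^ 4 * (s + (y - H s) / H' s) = t ^ 4 / H' s * (x - y) := by
      field_simp; ring
    rw [this, abs_mul, abs_of_pos (show 0 < t ^ 4 / H' s by positivity)]
    gcongr
    exact hD.lo s
  have hJ1 : ‖J (kU H t x s) - J (kU H t y s)‖ ≤ LJ * (t ^ 3 * |x - y|) := by
    rw [hkU, hkU]
    refine (J_lip _ _).trans ?_
    have : (x - H s) * t ^ 3 - (y - H s) * t ^ 3 = t ^ 3 * (x - y) := by ring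
    rw [this, abs_mul, abs_of_pos (show 0 < t ^ 3 by positivity)]
  have h1 : kF H H' P t G x s - kF H H' P t G y s =
      G s * ((P (kW H H' t x s) - P (kW H H' t y s)) * J (kU H t x s) +
        P (kW H H' t y s) * (J (kU H t x s) - J (kU H t y s))) * ((H' s * t ^ 3 : ℝ) : ℂ) := by
    rw [kF, kF]; ring
  rw [h1, norm_mul, norm_mul, Complex.norm_real, Real.norm_of_nonneg (show 0 ≤ H' s * t ^ 3 by positivity)]
  have h2 : ‖(P (kW H H' t x s) - P (kW H H' t y s)) * J (kU H t x s) +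
        P (kW H H' t y s) * (J (kU H t x s) - J (kU H t y s))‖ ≤ (CP * LJ + LP * CJ / c) * t ^ 4 * |x - y| := by
    refine (norm_add_le _ _).trans ?_
    rw [norm_mul, norm_mul]
    have ht34 : t ^ 3 ≤ t ^ 4 := pow_le_pow_right₀ ht (by norm_num)
    calc _ ≤ LP * (t ^ 4 / c * |x - y|) * CJ + CP * (LJ * (t ^ 3 * |x - y|)) := by
          gcongr
          · exact hJ x
          · exact hPb y
      _ ≤ LP * (t ^ 4 / c * |x - y|) * CJ + CP * (LJ * (t ^ 4 * |x - y|)) := by gcongr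
      _ = _ := by ring
  calc ‖G s‖ * _ * (H' s * t ^ 3) ≤ MG * ((CP * LJ + LP * CJ / c) * t ^ 4 * |x - y|) * (C * t ^ 3) := by
        gcongr
        · exact hG.bdd s
        · exact hD.hi s
    _ = _ := by ring

lemma Kop_lip (hD : Dif H H' c C M) (hP : CellUp P CP LP) (hG : Amp G MG LG) {t : ℝ}
    (ht : 1 ≤ t) (x y : ℝ) :
    ‖Kop H H' P t G x - Kop H H' P t G y‖ ≤ (MG * C * (CP * LJ + LP * CJ / c)) * t ^ 7 * |x - y| := by
  have ht0 : 0 < t := by linarith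
  have hcont : ∀ x : ℝ, Continuous (fun s : ℝ => kF H H' P t G x s) := by
    intro x
    rw [← continuousOn_univ]
    exact (kF_contOn hD hP hG ht0).comp (f := fun s => ((x : ℂ), s)) (by fun_prop) (fun s hs => ⟨by simp, mem_univ _⟩)
  rw [Kop, Kop, ← integral_sub ((hcont x).continuousOn.integrableOn_compact isCompact_Icc)
    ((hcont y).continuousOn.integrableOn_compact isCompact_Icc)]
  have hfin : IsFiniteMeasure (volume.restrict (Icc (0:ℝ) 1)) := ⟨by
    rw [Measure.restrict_apply_univ]; exact isCompact_Icc.measure_lt_top⟩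
  refine (norm_integral_le_of_norm_le (integrable_const _) (Eventually.of_forall (fun s => kF_lip hD hP hG ht x y s))).trans ?_
  simp

lemma Kop_far (hD : Dif H H' c C M) (hP : CellUp P CP LP) (hG : Amp G MG LG) {t : ℝ}
    (ht0 : 0 < t) (ht : 8 * C ≤ t) {x : ℝ} (hx : 2 ≤ |x|) :
    ‖Kop H H' P t G x‖ ≤ 16 * (MG * CP * CJ * C) / t ^ 9 / x ^ 4 := by
  have hC := hD.C_pos
  have hCJ := CJ_pos
  have hMG := hG.M_nonneg
  have hCP := hP.C_nonneg
  have hfin : IsFiniteMeasure (volume.restrict (Icc (0:ℝ) 1)) := ⟨by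
    rw [Measure.restrict_apply_univ]; exact isCompact_Icc.measure_lt_top⟩
  have hx0 : x ≠ 0 := by
    intro h; rw [h, abs_zero] at hx; linarith
  have key : ∀ s ∈ Icc (0:ℝ) 1, ‖kF H H' P t G x s‖ ≤ 16 * (MG * CP * CJ * C) / t ^ 9 / x ^ 4 := by
    intro s hs
    have hs' := hD.pos s
    have h1 := norm_kF_le hD hP hG ht (z := (x : ℂ)) (by simp) s
    simp only [ofReal_im, mul_zero, neg_zero, Real.exp_zero, mul_one, ofReal_re] at h1
    refine h1.trans ?_
    have h01 := hD.mem01 hs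
    have h2 : |x| / 2 ≤ |x - H s| := by
      have : |x| ≤ |x - H s| + |H s| := by
        calc |x| = |(x - H s) + H s| := by ring_nf
          _ ≤ _ := abs_add_le _ _
      have h3 : |H s| ≤ 1 := abs_le.2 ⟨by linarith [h01.1], h01.2⟩
      linarith
    have h4 : (|x| / 2 * t ^ 3) ^ 4 ≤ (1 + ((x - H s) * t ^ 3) ^ 2) ^ 2 := by
      have h5 : (|x| / 2 * t ^ 3) ^ 2 ≤ 1 + ((x - H s) * t ^ 3) ^ 2 := by
        have h6 : (|x| / 2 * t ^ 3) ^ 2 ≤ (|x - H s| * t ^ 3) ^ 2 := by gcongr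
        rw [mul_pow, mul_pow, sq_abs (x - H s)] at h6
        rw [mul_pow, mul_pow]
        linarith
      calc (|x| / 2 * t ^ 3) ^ 4 = ((|x| / 2 * t ^ 3) ^ 2) ^ 2 := by ring
        _ ≤ _ := by gcongr
    have hxpos : 0 < |x| := abs_pos.2 hx0
    calc MG * CP * CJ * (H' s * t ^ 3 * ((1 + ((x - H s) * t ^ 3) ^ 2) ^ 2)⁻¹)
        ≤ MG * CP * CJ * (C * t ^ 3 * ((|x| / 2 * t ^ 3) ^ 4)⁻¹) := by
          gcongr
          exact hD.hi s
      _ = 16 * (MG * CP * CJ * C) / t ^ 9 / |x| ^ 4 := by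
          field_simp
          ring
      _ = _ := by
          congr 1
          rw [show |x| ^ 4 = (|x| ^ 2) ^ 2 by ring, sq_abs]; ring
  rw [Kop]
  have := norm_setIntegral_le_of_norm_le_const (μ := volume) (s := Icc (0:ℝ) 1) (f := kF H H' P t G x)
    (C := 16 * (MG * CP * CJ * C) / t ^ 9 / x ^ 4) (by exact isCompact_Icc.measure_lt_top) key
  simpa using this

lemma P_real_bdd (hP : CellUp P CP LP) (x : ℝ) : ‖P x‖ ≤ CP := by
  have := hP.bdd x (by simp)
  simpa using this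

lemma Kop_dec (hD : Dif H H' c C M) (hP : CellUp P CP LP) (hG : Amp G MG LG) {t : ℝ}
    (ht0 : 0 < t) (htC : 8 * C ≤ t) : ∃ A, ∀ x : ℝ, ‖Kop H H' P t G x‖ ≤ A / (1 + x ^ 2) ^ 2 := by
  have hC := hD.C_pos
  have hCJ := CJ_pos
  have hMG := hG.M_nonneg
  have hCP := hP.C_nonneg
  obtain ⟨A, hA⟩ : ∃ A, A = π * CJ * CP * MG := ⟨_, rfl⟩
  obtain ⟨B, hB⟩ : ∃ B, B = 16 * (MG * CP * CJ * C) / t ^ 9 := ⟨_, rfl⟩
  have hA0 : 0 ≤ A := by rw [hA]; positivity
  have hB0 : 0 ≤ B := by rw [hB]; positivity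
  have hfar : ∀ x : ℝ, 2 ≤ |x| → ‖Kop H H' P t G x‖ ≤ B / x ^ 4 := fun x hx => by
    rw [hB]; exact Kop_far hD hP hG ht0 htC hx
  have hnear : ∀ x : ℝ, ‖Kop H H' P t G x‖ ≤ A := fun x => by
    have h1 := norm_Kop_le hD hP hG htC (z := (x : ℂ)) (by simp)
    simp only [ofReal_im, mul_zero, neg_zero, Real.exp_zero, mul_one] at h1
    rw [hA]; exact h1
  clear hA hB
  refine ⟨25 * A + 4 * B, fun x => ?_⟩
  rw [le_div_iff₀ (by positivity)]
  by_cases hx : 2 ≤ |x|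
  · have h1 := hfar x hx
    have hx2 : 4 ≤ x ^ 2 := by
      rw [← sq_abs]; nlinarith
    have hx4 : (1 + x ^ 2) ^ 2 ≤ 4 * x ^ 4 := by nlinarith
    have hx0 : 0 < x ^ 4 := by nlinarith
    calc ‖Kop H H' P t G x‖ * (1 + x ^ 2) ^ 2 ≤ (B / x ^ 4) * (4 * x ^ 4) := by gcongr
      _ = 4 * B := by
          rw [div_mul_eq_mul_div, div_eq_iff (ne_of_gt hx0)]; ring
      _ ≤ _ := by linarith
  · rw [not_le] at hx
    have hx5 : (1 + x ^ 2) ^ 2 ≤ 25 := by
      have : x ^ 2 ≤ 4 := by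
        rw [← sq_abs]; nlinarith [abs_nonneg x]
      nlinarith [sq_nonneg x]
    calc ‖Kop H H' P t G x‖ * (1 + x ^ 2) ^ 2 ≤ A * 25 := by
          have := hnear x
          gcongr
      _ ≤ _ := by linarith

theorem approx (hD : Dif H H' c C M) (hP : CellUp P CP LP) (hG : Amp G MG LG) {ε : ℝ} (hε : 0 < ε) :
    ∀ᶠ t : ℝ in atTop, AnaUp (Kop H H' P t G) ∧
      (∀ z : ℂ, 0 ≤ z.im → ‖Kop H H' P t G z‖ ≤ π * CJ * CP * MG * Real.exp (-(t ^ 4 / (2 * C) * z.im))) ∧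
      Sm ε (fun x : ℝ => Kop H H' P t G (H x) - G x * P ((t ^ 4 * x : ℝ))) ∧
      Tame (Kop H H' P t G) := by
  have hc := hD.c_pos
  have hC := hD.C_pos
  have hCJ := CJ_pos
  have hLJ := LJ_pos
  have hMG := hG.M_nonneg
  have hLG := hG.L_nonneg
  have hCP := hP.C_nonneg
  have hLP := hP.L_nonneg
  have hM := hD.M_nonneg
  set K₁ : ℝ := 5 * (π * CJ * (LG * CP / c + MG * LP * (M / c ^ 3))) + 16 * (MG * CP * CJ * C) with hK₁
  set K₂ : ℝ := (MG * C * (CP * LJ + LP * CJ / c)) * C + (LG * CP + MG * LP) with hK₂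
  have hK₁0 : 0 ≤ K₁ := by positivity
  have hK₂0 : 0 ≤ K₂ := by positivity
  have hlim1 : Tendsto (fun t : ℝ => K₁ / t ^ 2) atTop (𝓝 0) :=
    tendsto_const_nhds.div_atTop (tendsto_pow_atTop (by norm_num))
  have hlim2 : Tendsto (fun t : ℝ => (128 * K₁ ^ 7 * K₂) / t ^ 7) atTop (𝓝 0) :=
    tendsto_const_nhds.div_atTop (tendsto_pow_atTop (by norm_num))
  filter_upwards [eventually_ge_atTop (1 : ℝ), eventually_ge_atTop (8 * C), hlim1.eventually_lt_const hε,
    hlim2.eventually_lt_const (show (0:ℝ) < ε ^ 8 by positivity)] with t ht1 htC hs1 hs2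
  have ht0 : 0 < t := by linarith
  refine ⟨Kop_ana hD hP hG ht0 htC, fun z hz => norm_Kop_le hD hP hG htC hz, ?_, ?_, ?_⟩
  · apply Sm.of_dec_lip hε.le (S := K₁ / t ^ 2) (L := K₂ * t ^ 7)
    · intro x
      by_cases hx : 2 ≤ |x|
      · have hxn : x ∉ Ioo (0:ℝ) 1 := by
          intro h
          rw [abs_of_pos h.1] at hx
          linarith [h.2]
        rw [hG.off x hxn, hD.off x hxn, zero_mul, sub_zero]
        refine (Kop_far hD hP hG ht0 htC hx).trans ?_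
        have hx4 : 1 + x ^ 2 ≤ x ^ 4 := by
          have h4 : 4 ≤ x ^ 2 := by
            rw [← sq_abs]; nlinarith
          nlinarith
        have ht9 : t ^ 2 ≤ t ^ 9 := pow_le_pow_right₀ ht1 (by norm_num)
        have hK : 16 * (MG * CP * CJ * C) ≤ K₁ := by
          rw [hK₁]
          have : 0 ≤ 5 * (π * CJ * (LG * CP / c + MG * LP * (M / c ^ 3))) := by positivity
          linarith
        gcongr
      · rw [not_le] at hx
        refine (norm_Kop_sub_le hD hP hG ht0 x).trans ?_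
        have hx5 : 1 + x ^ 2 ≤ 5 := by
          have : x ^ 2 ≤ 4 := by
            rw [← sq_abs]; nlinarith [abs_nonneg x]
          linarith
        rw [le_div_iff₀ (by positivity)]
        have ht23 : t ^ 2 ≤ t ^ 3 := pow_le_pow_right₀ ht1 (by norm_num)
        calc π * CJ * (LG * CP / (c * t ^ 3) + MG * LP * (M / c ^ 3) / t ^ 2) * (1 + x ^ 2)
            ≤ π * CJ * (LG * CP / (c * t ^ 2) + MG * LP * (M / c ^ 3) / t ^ 2) * 5 := by gcongr
          _ = (5 * (π * CJ * (LG * CP / c + MG * LP * (M / c ^ 3)))) / t ^ 2 := by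
              field_simp
          _ ≤ K₁ / t ^ 2 := by
              gcongr
              rw [hK₁]
              have : 0 ≤ 16 * (MG * CP * CJ * C) := by positivity
              linarith
    · intro x y
      have h1 := Kop_lip hD hP hG ht1 (H x) (H y)
      have h2 := hD.abs_sub_le x y
      have h3 : ‖G x * P ((t ^ 4 * x : ℝ)) - G y * P ((t ^ 4 * y : ℝ))‖ ≤ (LG * CP + MG * LP) * t ^ 7 * |x - y| := by
        have h4 : G x * P ((t ^ 4 * x : ℝ)) - G y * P ((t ^ 4 * y : ℝ)) =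
          (G x - G y) * P ((t ^ 4 * x : ℝ)) + G y * (P ((t ^ 4 * x : ℝ)) - P ((t ^ 4 * y : ℝ))) := by ring
        rw [h4]
        refine (norm_add_le _ _).trans ?_
        rw [norm_mul, norm_mul]
        have h5 : ‖P ((t ^ 4 * x : ℝ)) - P ((t ^ 4 * y : ℝ))‖ ≤ LP * (t ^ 4 * |x - y|) := by
          refine (hP.lip _ _).trans ?_
          rw [← mul_sub, abs_mul, abs_of_pos (show 0 < t ^ 4 by positivity)]
        have ht17 : 1 ≤ t ^ 7 := one_le_pow₀ ht1
        have ht47 : t ^ 4 ≤ t ^ 7 := pow_le_pow_right₀ ht1 (by norm_num)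
        calc ‖G x - G y‖ * ‖P ((t ^ 4 * x : ℝ))‖ + ‖G y‖ * ‖P ((t ^ 4 * x : ℝ)) - P ((t ^ 4 * y : ℝ))‖
            ≤ (LG * |x - y|) * CP + MG * (LP * (t ^ 4 * |x - y|)) := by
              gcongr
              · exact hG.lip x y
              · exact P_real_bdd hP _
              · exact hG.bdd y
          _ ≤ (LG * |x - y|) * CP * t ^ 7 + MG * (LP * (t ^ 7 * |x - y|)) := by
              have h6 : (LG * |x - y|) * CP ≤ (LG * |x - y|) * CP * t ^ 7 :=
                le_mul_of_one_le_right (by positivity) ht17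
              have h7 : MG * (LP * (t ^ 4 * |x - y|)) ≤ MG * (LP * (t ^ 7 * |x - y|)) := by gcongr
              exact add_le_add h6 h7
          _ = _ := by ring
      calc ‖Kop H H' P t G (H x) - G x * P ((t ^ 4 * x : ℝ)) - (Kop H H' P t G (H y) - G y * P ((t ^ 4 * y : ℝ)))‖
          = ‖(Kop H H' P t G (H x) - Kop H H' P t G (H y)) - (G x * P ((t ^ 4 * x : ℝ)) - G y * P ((t ^ 4 * y : ℝ)))‖ := by
            congr 1; ring
        _ ≤ _ := norm_sub_le _ _
        _ ≤ (MG * C * (CP * LJ + LP * CJ / c)) * t ^ 7 * (C * |x - y|) + (LG * CP + MG * LP) * t ^ 7 * |x - y| := by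
            gcongr
            exact h1.trans (by gcongr)
        _ = _ := by rw [hK₂]; ring
    · exact hs1.le
    · calc (2 * (K₁ / t ^ 2)) ^ 7 * (K₂ * t ^ 7) = (128 * K₁ ^ 7 * K₂) / t ^ 7 := by
            field_simp; ring
        _ ≤ ε ^ 8 := hs2.le
  · exact ⟨_, fun x y => Kop_lip hD hP hG ht1 x y⟩
  · exact Kop_dec hD hP hG ht0 htC

end

end Pool.Agent.Lib_helper42
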