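import Mathlib

set_option autoImplicit false
open MeasureTheory Set Filter Topology Complex
open scoped Real

namespace Pool.Agent.Lib_helper42

/-- The mean value of `f` over the interval with end points `a < b`. -/
noncomputable def mean (f : ℝ → ℂ) (a b : ℝ) : ℂ := (((b - a)⁻¹ : ℝ) : ℂ) * ∫ x in a..b, f x

/-- The mean oscillation of `f` over the interval with end points `a < b`. -/
noncomputable def osc (f : ℝ → ℂ) (a b : ℝ) : ℝ := (b - a)⁻¹ * ∫ x in a..b, ‖f x - mean f a b‖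

/-- Membership in `BMO(ℝ)`. -/
def MemBMO (f : ℝ → ℂ) : Prop :=
  LocallyIntegrable f ∧ ∃ M : ℝ, ∀ a b : ℝ, a < b → osc f a b ≤ M

/-- The `BMO` seminorm: the supremum of the mean oscillations over all bounded intervals. -/
noncomputable def bmoNorm (f : ℝ → ℂ) : ℝ :=
  sSup {r : ℝ | ∃ a b : ℝ, a < b ∧ r = osc f a b}

/-- The Muckenhoupt class `A^∞`. -/
def MemAInfty (w : ℝ → ℝ) : Prop :=
  LocallyIntegrable w ∧ (∀ x, 0 ≤ w x) ∧ ∃ C : ℝ, 0 < C ∧ ∃ δ : ℝ, 0 < δ ∧
    ∀ a b : ℝ, a < b → ∀ E : Set ℝ, MeasurableSet E → E ⊆ Icc a b →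
      ∫ x in E, w x ≤ C * ((volume E).toReal / (b - a)) ^ δ * ∫ x in a..b, w x

/-- The group `G` of increasing, locally absolutely continuous homeomorphisms of the line
whose derivative is an `A^∞` weight. -/
def MemG (h : ℝ → ℝ) : Prop :=
  StrictMono h ∧ Continuous h ∧ Function.Surjective h ∧
    (∀ a b : ℝ, AbsolutelyContinuousOnInterval h a b) ∧ MemAInfty (deriv h)

/-- `g` is (a representative of) the Hilbert transform of `f`: almost everywhere the principal
value of `(1/π) ∫ (1/(x-y) + y/(1+y^2)) f(y) dy`; the summand `y/(1+y^2)`, which makes the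
integral converge at infinity for `f` in `BMO`, only contributes an additive constant. -/
def IsHilbert (f g : ℝ → ℂ) : Prop :=
  ∀ᵐ x : ℝ, Tendsto (fun ε : ℝ => ((1 / π : ℝ) : ℂ) *
    ∫ y in {y : ℝ | ε < |x - y|}, ((1 / (x - y) + y / (1 + y ^ 2) : ℝ) : ℂ) * f y) (𝓝[>] 0) (𝓝 (g x))

/-- `u` represents `P f = (f + i H f)/2` modulo additive constants. -/
def IsProj (f u : ℝ → ℂ) : Prop :=
  ∃ g : ℝ → ℂ, IsHilbert f g ∧ ∃ c : ℂ, ∀ᵐ x : ℝ, u x = (f x + I * g x) / 2 + c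

/-- Membership in `BMOA = P(BMO)`. -/
def MemBMOA (u : ℝ → ℂ) : Prop := MemBMO u ∧ ∃ f : ℝ → ℂ, MemBMO f ∧ IsProj f u

end Pool.Agent.Lib_helper42
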