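import Mathlib
import Pool.Agent.Lib_helper42.Approx

set_option autoImplicit false
open MeasureTheory Set Filter Topology Complex
open scoped Real ComplexConjugate

namespace Pool.Agent.Lib_helper42

/-- `C^{1,1}` cutoffs supported in `(0,1)`. -/
structure Cut (χ χ' : ℝ → ℝ) (K : ℝ) : Prop where
  nonneg : ∀ x, 0 ≤ χ x
  le_one : ∀ x, χ x ≤ 1
  der : ∀ x, HasDerivAt χ (χ' x) x
  bdd' : ∀ x, |χ' x| ≤ K
  lip' : ∀ x y, |χ' x - χ' y| ≤ K * |x - y|
  off : ∀ x, x ∉ Ioo (0 : ℝ) 1 → χ x = 0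

/-- displacement profiles -/
structure Disp (η η' : ℝ → ℝ) (K : ℝ) : Prop where
  bdd : ∀ x, |η x| ≤ K
  der : ∀ x, HasDerivAt η (η' x) x
  bdd' : ∀ x, |η' x| ≤ K
  lip' : ∀ x y, |η' x - η' y| ≤ K * |x - y|
  lo : ∀ x, 1 / 3 ≤ 1 + η' x
  hi : ∀ x, 1 + η' x ≤ 3

noncomputable def hp (χ η : ℝ → ℝ) (t x : ℝ) : ℝ := x + χ x * η (t ^ 4 * x) / t ^ 4
noncomputable def hp' (χ χ' η η' : ℝ → ℝ) (t x : ℝ) : ℝ :=
  1 + χ x * η' (t ^ 4 * x) + χ' x * η (t ^ 4 * x) / t ^ 4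

section comp
variable {H H' : ℝ → ℝ} {c C M : ℝ} {h h' : ℝ → ℝ} {c' C' M' : ℝ}

lemma Dif.comp (hD : Dif H H' c C M) (hd : Dif h h' c' C' M') :
    Dif (fun x => H (h x)) (fun x => H' (h x) * h' x) (c * c') (C * C') (M * C' ^ 2 + C * M') := by
  have hc := hD.c_pos
  have hC := hD.C_pos
  have hc' := hd.c_pos
  have hC' := hd.C_pos
  have hM := hD.M_nonneg
  have hM' := hd.M_nonneg
  refine ⟨by positivity, fun x => ?_, fun x => ?_, fun x y => ?_, fun x => ?_, fun x hx => ?_⟩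
  · exact mul_le_mul (hD.lo _) (hd.lo _) hc'.le (hD.pos _).le
  · exact mul_le_mul (hD.hi _) (hd.hi _) (hd.pos _).le hC.le
  · have h1 : H' (h x) * h' x - H' (h y) * h' y = (H' (h x) - H' (h y)) * h' x + H' (h y) * (h' x - h' y) := by ring
    rw [h1]
    refine (abs_add_le _ _).trans ?_
    rw [abs_mul, abs_mul, abs_of_pos (hd.pos x), abs_of_pos (hD.pos (h y))]
    have h2 := hD.lip (h x) (h y)
    have h3 := hd.abs_sub_le x y
    calc |H' (h x) - H' (h y)| * h' x + H' (h y) * |h' x - h' y|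
        ≤ (M * (C' * |x - y|)) * C' + C * (M' * |x - y|) := by
          have h4 := hd.pos x
          have h5 := hD.pos (h y)
          gcongr
          · exact h2.trans (by gcongr)
          · exact hd.hi x
          · exact hD.hi _
          · exact hd.lip x y
      _ = _ := by ring
  · exact (hD.der (h x)).comp x (hd.der x)
  · rw [hd.off x hx, hD.off x hx]

end comp

section hpsec
variable {χ χ' η η' : ℝ → ℝ} {Kc Kd : ℝ}

lemma Cut.K_nonneg (h : Cut χ χ' Kc) : 0 ≤ Kc := (abs_nonneg _).trans (h.bdd' 0)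
lemma Disp.K_nonneg (h : Disp η η' Kd) : 0 ≤ Kd := (abs_nonneg _).trans (h.bdd 0)

lemma Cut.lip (h : Cut χ χ' Kc) (x y : ℝ) : |χ x - χ y| ≤ Kc * |x - y| := by
  have := Convex.norm_image_sub_le_of_norm_hasDerivWithin_le (f := χ) (f' := χ') (C := Kc) (s := univ)
    (x := y) (y := x) (fun x _ => (h.der x).hasDerivWithinAt) (fun x _ => by rw [Real.norm_eq_abs]; exact h.bdd' x) convex_univ
    (mem_univ _) (mem_univ _)
  simpa [Real.norm_eq_abs] using this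

lemma Disp.lip (h : Disp η η' Kd) (x y : ℝ) : |η x - η y| ≤ Kd * |x - y| := by
  have := Convex.norm_image_sub_le_of_norm_hasDerivWithin_le (f := η) (f' := η') (C := Kd) (s := univ)
    (x := y) (y := x) (fun x _ => (h.der x).hasDerivWithinAt) (fun x _ => by rw [Real.norm_eq_abs]; exact h.bdd' x) convex_univ
    (mem_univ _) (mem_univ _)
  simpa [Real.norm_eq_abs] using this

lemma abs_hp_sub_le (hχ : Cut χ χ' Kc) (hη : Disp η η' Kd) {t : ℝ} (ht : 0 < t) (x : ℝ) :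
    |hp χ η t x - x| ≤ Kd / t ^ 4 := by
  have h1 : hp χ η t x - x = χ x * η (t ^ 4 * x) / t ^ 4 := by rw [hp]; ring
  rw [h1, abs_div, abs_mul, abs_of_pos (show 0 < t ^ 4 by positivity), abs_of_nonneg (hχ.nonneg x)]
  have := hη.bdd (t ^ 4 * x)
  have h2 := hη.K_nonneg
  gcongr
  calc χ x * |η (t ^ 4 * x)| ≤ 1 * Kd := by
        gcongr
        exact hχ.le_one x
    _ = Kd := one_mul _

lemma hp_dif (hχ : Cut χ χ' Kc) (hη : Disp η η' Kd) {t : ℝ} (ht1 : 1 ≤ t) (ht : 12 * (Kc * Kd) ≤ t ^ 4) :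
    Dif (hp χ η t) (hp' χ χ' η η' t) (1 / 4) 4 (3 * Kc * Kd + Kd * t ^ 4) := by
  have ht0 : 0 < t := by linarith
  have ht4 : 0 < t ^ 4 := by positivity
  have ht41 : 1 ≤ t ^ 4 := one_le_pow₀ ht1
  have hKc := hχ.K_nonneg
  have hKd := hη.K_nonneg
  have herr : ∀ x, |χ' x * η (t ^ 4 * x) / t ^ 4| ≤ 1 / 12 := by
    intro x
    rw [abs_div, abs_mul, abs_of_pos ht4, div_le_iff₀ ht4]
    calc |χ' x| * |η (t ^ 4 * x)| ≤ Kc * Kd := by
          gcongr
          · exact hχ.bdd' x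
          · exact hη.bdd _
      _ ≤ 1 / 12 * t ^ 4 := by linarith
  refine ⟨by norm_num, fun x => ?_, fun x => ?_, fun x y => ?_, fun x => ?_, fun x hx => ?_⟩
  · have h1 := abs_le.1 (herr x)
    have h2 := hη.lo (t ^ 4 * x)
    have h3 := hχ.nonneg x
    have h4 := hχ.le_one x
    rw [hp']
    nlinarith [mul_nonneg h3 (show 0 ≤ 1 + η' (t ^ 4 * x) - 1 / 3 by linarith)]
  · have h1 := abs_le.1 (herr x)
    have h2 := hη.hi (t ^ 4 * x)
    have h3 := hχ.nonneg x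
    have h4 := hχ.le_one x
    rw [hp']
    nlinarith [mul_nonneg h3 (show 0 ≤ 3 - (1 + η' (t ^ 4 * x)) by linarith)]
  · have h1 : hp' χ χ' η η' t x - hp' χ χ' η η' t y =
      (χ x - χ y) * η' (t ^ 4 * x) + χ y * (η' (t ^ 4 * x) - η' (t ^ 4 * y)) +
      ((χ' x - χ' y) * η (t ^ 4 * x) / t ^ 4 + χ' y * (η (t ^ 4 * x) - η (t ^ 4 * y)) / t ^ 4) := by
        rw [hp', hp']; ring
    rw [h1]
    have hsc : |t ^ 4 * x - t ^ 4 * y| = t ^ 4 * |x - y| := by
      rw [← mul_sub, abs_mul, abs_of_pos ht4]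
    have a1 : |(χ x - χ y) * η' (t ^ 4 * x)| ≤ Kc * |x - y| * Kd := by
      rw [abs_mul]; gcongr
      · exact hχ.lip x y
      · exact hη.bdd' _
    have a2 : |χ y * (η' (t ^ 4 * x) - η' (t ^ 4 * y))| ≤ 1 * (Kd * (t ^ 4 * |x - y|)) := by
      rw [abs_mul, abs_of_nonneg (hχ.nonneg y)]
      have := hη.lip' (t ^ 4 * x) (t ^ 4 * y)
      rw [hsc] at this
      gcongr
      exact hχ.le_one y
    have a3 : |(χ' x - χ' y) * η (t ^ 4 * x) / t ^ 4| ≤ Kc * |x - y| * Kd := by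
      rw [abs_div, abs_mul, abs_of_pos ht4]
      refine (div_le_self (by positivity) ht41).trans ?_
      gcongr
      · exact hχ.lip' x y
      · exact hη.bdd _
    have a4 : |χ' y * (η (t ^ 4 * x) - η (t ^ 4 * y)) / t ^ 4| ≤ Kc * (Kd * |x - y|) := by
      rw [abs_div, abs_mul, abs_of_pos ht4, div_le_iff₀ ht4]
      have := hη.lip (t ^ 4 * x) (t ^ 4 * y)
      rw [hsc] at this
      calc |χ' y| * |η (t ^ 4 * x) - η (t ^ 4 * y)| ≤ Kc * (Kd * (t ^ 4 * |x - y|)) := by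
            gcongr
            exact hχ.bdd' y
        _ = _ := by ring
    refine (abs_add_le _ _).trans ?_
    have b1 := abs_add_le ((χ x - χ y) * η' (t ^ 4 * x)) (χ y * (η' (t ^ 4 * x) - η' (t ^ 4 * y)))
    have b2 := abs_add_le ((χ' x - χ' y) * η (t ^ 4 * x) / t ^ 4) (χ' y * (η (t ^ 4 * x) - η (t ^ 4 * y)) / t ^ 4)
    calc _ ≤ (Kc * |x - y| * Kd + 1 * (Kd * (t ^ 4 * |x - y|))) + (Kc * |x - y| * Kd + Kc * (Kd * |x - y|)) := by linarith
      _ = _ := by ring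
  · have hx : HasDerivAt (fun x : ℝ => t ^ 4 * x) (t ^ 4) x := by
      simpa using (hasDerivAt_id x).const_mul (t ^ 4)
    have h1 := ((hη.der (t ^ 4 * x)).comp x hx)
    have h2 := (((hχ.der x).mul h1).div_const (t ^ 4)).const_add x
    have h3 := (hasDerivAt_id x).add (((hχ.der x).mul h1).div_const (t ^ 4))
    have h4 := h3.congr_deriv (g' := hp' χ χ' η η' t x) (by
      rw [hp']
      simp only [Function.comp_apply]
      field_simp
      ring)
    exact h4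
  · rw [hp, hχ.off x hx]; simp

end hpsec

lemma Sm.of_supp_lip {E : ℝ → ℂ} {S L ε : ℝ} (hε : 0 ≤ ε) (hoff : ∀ x, x ∉ Ioo (0:ℝ) 1 → E x = 0)
    (hb : ∀ x, ‖E x‖ ≤ S) (hlip : ∀ x y, ‖E x - E y‖ ≤ L * |x - y|) (h1 : 2 * S ≤ ε)
    (h2 : (2 * (2 * S)) ^ 7 * L ≤ ε ^ 8) : Sm ε E := by
  have hS : 0 ≤ S := (norm_nonneg _).trans (hb 0)
  refine Sm.of_dec_lip hε (S := 2 * S) (fun x => ?_) hlip h1 h2
  by_cases hx : x ∈ Ioo (0:ℝ) 1
  · rw [le_div_iff₀ (by positivity)]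
    have : 1 + x ^ 2 ≤ 2 := by nlinarith [hx.1, hx.2]
    calc ‖E x‖ * (1 + x ^ 2) ≤ S * 2 := by
          have := hb x
          gcongr
      _ = _ := by ring
  · rw [hoff x hx, norm_zero]; positivity

lemma eventually_small (A L : ℝ) {ε : ℝ} (hε : 0 < ε) :
    ∀ᶠ t : ℝ in atTop, 2 * (A / t ^ 4) ≤ ε ∧ (2 * (2 * (A / t ^ 4))) ^ 7 * L ≤ ε ^ 8 := by
  have hlim : Tendsto (fun t : ℝ => A / t ^ 4) atTop (𝓝 0) :=
    tendsto_const_nhds.div_atTop (tendsto_pow_atTop (by norm_num))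
  have h1 : Tendsto (fun t : ℝ => 2 * (A / t ^ 4)) atTop (𝓝 (2 * 0)) := hlim.const_mul 2
  have h2 : Tendsto (fun t : ℝ => (2 * (2 * (A / t ^ 4))) ^ 7 * L) atTop (𝓝 ((2 * (2 * 0)) ^ 7 * L)) :=
    (((hlim.const_mul 2).const_mul 2).pow 7).mul_const L
  rw [mul_zero] at h1
  rw [mul_zero, mul_zero, zero_pow (by norm_num), zero_mul] at h2
  filter_upwards [h1.eventually_lt_const hε, h2.eventually_lt_const (show 0 < ε ^ 8 by positivity)] with t a b
  exact ⟨a.le, b.le⟩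

lemma Sm.comp_dif {E : ℝ → ℂ} {ε : ℝ} (hE : Sm ε E) {h h' : ℝ → ℝ} {c M : ℝ} (hd : Dif h h' c 4 M) 
    (hclose : ∀ x, |h x - x| ≤ 1) : Sm (4 * ε) (fun x => E (h x)) := by
  have hε := hE.nonneg
  refine ⟨fun x => ?_, fun x y => ?_⟩
  · refine (hE.dec (h x)).trans ?_
    rw [div_le_div_iff₀ (by positivity) (by positivity)]
    have h1 := abs_le.1 (hclose x)
    have h2 : 1 + x ^ 2 ≤ 4 * (1 + h x ^ 2) := by
      nlinarith [sq_nonneg (h x + (x - h x)), sq_nonneg (2 * h x - x)]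
    calc ε * (1 + x ^ 2) ≤ ε * (4 * (1 + h x ^ 2)) := by gcongr
      _ = _ := by ring
  · refine (hE.hol (h x) (h y)).trans ?_
    have h1 : |h x - h y| ^ (1 / 8 : ℝ) ≤ 4 * |x - y| ^ (1 / 8 : ℝ) := by
      calc |h x - h y| ^ (1 / 8 : ℝ) ≤ (4 * |x - y|) ^ (1 / 8 : ℝ) := by
            apply Real.rpow_le_rpow (abs_nonneg _) (hd.abs_sub_le x y) (by norm_num)
        _ = 4 ^ (1 / 8 : ℝ) * |x - y| ^ (1 / 8 : ℝ) := Real.mul_rpow (by norm_num) (abs_nonneg _)
        _ ≤ 4 ^ (1 : ℝ) * |x - y| ^ (1 / 8 : ℝ) := by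
            gcongr
            · norm_num
            · norm_num
        _ = _ := by rw [Real.rpow_one]
    calc ε * |h x - h y| ^ (1 / 8 : ℝ) ≤ ε * (4 * |x - y| ^ (1 / 8 : ℝ)) := by gcongr
      _ = _ := by ring

/-- the operator for the lower half plane -/
noncomputable def Kdn (Q : ℂ → ℂ) (t : ℝ) (G : ℝ → ℂ) (z : ℂ) : ℂ :=
  conj (Kop (fun x => x) (fun _ => 1) Q t (fun s => conj (G s)) (conj z))

section
variable {P Q : ℂ → ℂ} {CP LP CQ LQ : ℝ} {G : ℝ → ℂ} {MG LG : ℝ}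

lemma Amp.conj (hG : Amp G MG LG) : Amp (fun s => conj (G s)) MG LG := by
  refine ⟨fun x => ?_, fun x y => ?_, fun x hx => ?_⟩
  · rw [Complex.norm_conj]; exact hG.bdd x
  · rw [← map_sub, Complex.norm_conj]; exact hG.lip x y
  · rw [hG.off x hx, map_zero]

lemma approx_dn (hQ : CellUp Q CQ LQ) (hG : Amp G MG LG) {ε : ℝ} (hε : 0 < ε) :
    ∀ᶠ t : ℝ in atTop, AnaDn (Kdn Q t G) ∧
      Sm ε (fun x : ℝ => Kdn Q t G x - G x * conj (Q ((t ^ 4 * x : ℝ)))) := by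
  filter_upwards [approx Dif.idd hQ hG.conj hε] with t ht
  obtain ⟨h1, -, h3, -⟩ := ht
  refine ⟨?_, ?_⟩
  · rw [AnaDn]
    have : (fun z => conj (Kdn Q t G (conj z))) = Kop (fun x => x) (fun _ => 1) Q t (fun s => conj (G s)) := by
      ext z; rw [Kdn]; simp
    rw [this]; exact h1
  · have : ∀ x : ℝ, Kdn Q t G x - G x * conj (Q ((t ^ 4 * x : ℝ))) =
      conj (Kop (fun x => x) (fun _ => 1) Q t (fun s => conj (G s)) x - conj (G x) * Q ((t ^ 4 * x : ℝ))) := by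
      intro x
      rw [Kdn, map_sub, map_mul, Complex.conj_conj, Complex.conj_ofReal]
    refine ⟨fun x => ?_, fun x y => ?_⟩
    · rw [this, Complex.norm_conj]; exact h3.dec x
    · rw [this, this, ← map_sub, Complex.norm_conj]; exact h3.hol x y

end

section step
variable {H H' : ℝ → ℝ} {c C M : ℝ} {P Q : ℂ → ℂ} {CP LP CQ LQ : ℝ} {G : ℝ → ℂ} {MG LG : ℝ}
  {χ χ' η η' : ℝ → ℝ} {Kc Kd : ℝ}

theorem step_err (hD : Dif H H' c C M) (hχ : Cut χ χ' Kc) (hη : Disp η η' Kd) (hP : CellUp P CP LP)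
    (hQ : CellUp Q CQ LQ) (hG : Amp G MG LG) (hGχ : ∀ x, G x ≠ 0 → χ x = 1) {γ : ℝ → ℂ}
    (hγ : ∀ θ : ℝ, 1 + P ((θ + η θ : ℝ)) - conj (Q θ) = γ θ) {fp : ℂ → ℂ} (hfp : Tame fp) (fm : ℂ → ℂ)
    {ε : ℝ} (hε : 0 < ε) :
    ∀ᶠ t : ℝ in atTop, Sm ε (fun x : ℝ =>
      ((fp (H (hp χ η t x)) + Kop H H' P t G (H (hp χ η t x))) - (fm x + Kdn Q t G x) - G x * γ (t ^ 4 * x))
      - (fp (H x) - fm x - G x)) := by
  obtain ⟨Lf, hLf⟩ := hfp.lip
  have hLf0 : 0 ≤ Lf := by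
    have := (norm_nonneg _).trans (hLf 1 0)
    simpa using this
  have hC := hD.C_pos
  have hKc := hχ.K_nonneg
  have hKd := hη.K_nonneg
  have hMG := hG.M_nonneg
  have hLG := hG.L_nonneg
  have hCP := hP.C_nonneg
  have hLP := hP.L_nonneg
  have hlarge : ∀ᶠ t : ℝ in atTop, 12 * (Kc * Kd) ≤ t ^ 4 := (tendsto_pow_atTop (by norm_num)).eventually_ge_atTop _
  have hlarge2 : ∀ᶠ t : ℝ in atTop, Kd ≤ t ^ 4 := (tendsto_pow_atTop (by norm_num)).eventually_ge_atTop _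
  filter_upwards [eventually_ge_atTop (1 : ℝ), hlarge, hlarge2, approx hD hP hG (show 0 < ε / 16 by positivity),
    approx_dn hQ hG (show 0 < ε / 4 by positivity),
    eventually_small (Lf * C * Kd) (5 * Lf * C) (show 0 < ε / 4 by positivity),
    eventually_small (LG * Kd * CP) (5 * LG * CP + 4 * LG * Kd * LP) (show 0 < ε / 4 by positivity)] with t ht1 ht2 ht2' ht3 ht4 ht5 ht6
  have ht0 : 0 < t := by linarith
  have ht40 : 0 < t ^ 4 := by positivity
  have hd := hp_dif hχ hη ht1 ht2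
  have hclose := abs_hp_sub_le hχ hη ht0
  have hclose1 : ∀ x, |hp χ η t x - x| ≤ 1 := fun x => (hclose x).trans (by rw [div_le_one ht40]; exact ht2')
  have hoff : ∀ x, x ∉ Ioo (0:ℝ) 1 → hp χ η t x = x := hd.off
  -- first term
  have T1 : Sm (ε / 4) (fun x : ℝ => fp (H (hp χ η t x)) - fp (H x)) := by
    apply Sm.of_supp_lip (by positivity) (S := Lf * C * Kd / t ^ 4) (L := 5 * Lf * C)
    · intro x hx
      rw [hoff x hx, sub_self]
    · intro x
      calc ‖fp (H (hp χ η t x)) - fp (H x)‖ ≤ Lf * |H (hp χ η t x) - H x| := hLf _ _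
        _ ≤ Lf * (C * (Kd / t ^ 4)) := by
            have := (hD.abs_sub_le (hp χ η t x) x).trans (mul_le_mul_of_nonneg_left (hclose x) hC.le)
            gcongr
        _ = _ := by ring
    · intro x y
      have h1 : fp (H (hp χ η t x)) - fp (H x) - (fp (H (hp χ η t y)) - fp (H y)) =
        (fp (H (hp χ η t x)) - fp (H (hp χ η t y))) - (fp (H x) - fp (H y)) := by ring
      rw [h1]
      refine (norm_sub_le _ _).trans ?_
      have h2 : ‖fp (H (hp χ η t x)) - fp (H (hp χ η t y))‖ ≤ Lf * (C * (4 * |x - y|)) := by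
        refine (hLf _ _).trans ?_
        have := (hD.abs_sub_le (hp χ η t x) (hp χ η t y)).trans (mul_le_mul_of_nonneg_left (hd.abs_sub_le x y) hC.le)
        gcongr
      have h3 : ‖fp (H x) - fp (H y)‖ ≤ Lf * (C * |x - y|) := by
        refine (hLf _ _).trans ?_
        have := hD.abs_sub_le x y
        gcongr
      calc _ ≤ Lf * (C * (4 * |x - y|)) + Lf * (C * |x - y|) := add_le_add h2 h3
        _ = _ := by ring
    · exact ht5.1
    · exact ht5.2
  have T2 : Sm (ε / 4) (fun x : ℝ => Kop H H' P t G (H (hp χ η t x)) - G (hp χ η t x) * P ((t ^ 4 * (hp χ η t x) : ℝ))) := by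
    have := ht3.2.2.1.comp_dif hd hclose1
    rwa [show 4 * (ε / 16) = ε / 4 by ring] at this
  have T3 : Sm (ε / 4) (fun x : ℝ => (G (hp χ η t x) - G x) * P ((t ^ 4 * (hp χ η t x) : ℝ))) := by
    apply Sm.of_supp_lip (by positivity) (S := LG * Kd * CP / t ^ 4) (L := 5 * LG * CP + 4 * LG * Kd * LP)
    · intro x hx
      rw [hoff x hx, sub_self, zero_mul]
    · intro x
      rw [norm_mul]
      calc ‖G (hp χ η t x) - G x‖ * ‖P ((t ^ 4 * (hp χ η t x) : ℝ))‖ ≤ (LG * (Kd / t ^ 4)) * CP := by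
            gcongr
            · exact (hG.lip _ _).trans (mul_le_mul_of_nonneg_left (hclose x) hLG)
            · exact P_real_bdd hP _
        _ = _ := by ring
    · intro x y
      have h1 : (G (hp χ η t x) - G x) * P ((t ^ 4 * (hp χ η t x) : ℝ)) - (G (hp χ η t y) - G y) * P ((t ^ 4 * (hp χ η t y) : ℝ)) =
        ((G (hp χ η t x) - G (hp χ η t y)) - (G x - G y)) * P ((t ^ 4 * (hp χ η t x) : ℝ)) +
        (G (hp χ η t y) - G y) * (P ((t ^ 4 * (hp χ η t x) : ℝ)) - P ((t ^ 4 * (hp χ η t y) : ℝ))) := by ring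
      rw [h1]
      refine (norm_add_le _ _).trans ?_
      rw [norm_mul, norm_mul]
      have h2 : ‖(G (hp χ η t x) - G (hp χ η t y)) - (G x - G y)‖ ≤ 5 * LG * |x - y| := by
        refine (norm_sub_le _ _).trans ?_
        have h3 := (hG.lip (hp χ η t x) (hp χ η t y)).trans (mul_le_mul_of_nonneg_left (hd.abs_sub_le x y) hLG)
        have h4 := hG.lip x y
        linarith
      have h5 : ‖P ((t ^ 4 * (hp χ η t x) : ℝ)) - P ((t ^ 4 * (hp χ η t y) : ℝ))‖ ≤ LP * (t ^ 4 * (4 * |x - y|)) := by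
        refine (hP.lip _ _).trans ?_
        rw [← mul_sub, abs_mul, abs_of_pos ht40]
        have := hd.abs_sub_le x y
        gcongr
      calc _ ≤ 5 * LG * |x - y| * CP + (LG * (Kd / t ^ 4)) * (LP * (t ^ 4 * (4 * |x - y|))) := by
            gcongr
            · exact P_real_bdd hP _
            · exact (hG.lip _ _).trans (mul_le_mul_of_nonneg_left (hclose y) hLG)
        _ = _ := by field_simp
    · exact ht6.1
    · exact ht6.2
  have T4 := ht4.2
  have hsum := ((T1.add T2).add T3).add T4.neg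
  have hε4 : ε / 4 + ε / 4 + ε / 4 + ε / 4 = ε := by ring
  rw [hε4] at hsum
  have hEq : (fun x : ℝ => fp (H (hp χ η t x)) - fp (H x) + (Kop H H' P t G (H (hp χ η t x)) -
      G (hp χ η t x) * P ((t ^ 4 * (hp χ η t x) : ℝ))) + (G (hp χ η t x) - G x) * P ((t ^ 4 * (hp χ η t x) : ℝ)) +
      -(Kdn Q t G x - G x * conj (Q ((t ^ 4 * x : ℝ))))) = (fun x : ℝ =>
      ((fp (H (hp χ η t x)) + Kop H H' P t G (H (hp χ η t x))) - (fm x + Kdn Q t G x) - G x * γ (t ^ 4 * x))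
      - (fp (H x) - fm x - G x)) := by
    ext x
    by_cases hGx : G x = 0
    · rw [hGx]; ring
    · have hχ1 := hGχ x hGx
      have h1 : t ^ 4 * hp χ η t x = t ^ 4 * x + η (t ^ 4 * x) := by
        rw [hp, hχ1]; field_simp
      rw [h1, ← hγ (t ^ 4 * x)]
      ring
  rw [hEq] at hsum
  exact hsum

end step

end Pool.Agent.Lib_helper42
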