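import Mathlib
import Pool.Agent.Lib_helper42.Step

set_option autoImplicit false
open MeasureTheory Set Filter Topology Complex
open scoped Real ComplexConjugate

namespace Pool.Agent.Lib_helper42

/-- the basic exponential -/
noncomputable def ez (z : ℂ) : ℂ := Complex.exp (2 * π * I * z)

lemma norm_ez (z : ℂ) : ‖ez z‖ = Real.exp (-(2 * π * z.im)) := by
  rw [ez, Complex.norm_exp]
  congr 1
  simp [Complex.mul_re, Complex.mul_im]

lemma norm_ez_le (z : ℂ) (hz : 0 ≤ z.im) : ‖ez z‖ ≤ Real.exp (-z.im) := by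
  rw [norm_ez, Real.exp_le_exp]
  nlinarith [Real.pi_gt_three]

lemma norm_ez_le_one (z : ℂ) (hz : 0 ≤ z.im) : ‖ez z‖ ≤ 1 := by
  refine (norm_ez_le z hz).trans ?_
  rw [Real.exp_le_one_iff]; linarith

lemma differentiable_ez : Differentiable ℂ ez := by
  unfold ez; fun_prop

lemma ez_lip (x y : ℝ) : ‖ez x - ez y‖ ≤ 2 * π * |x - y| := by
  have h : ∀ x : ℝ, HasDerivAt (fun x : ℝ => ez x) (2 * π * I * ez x) x := by
    intro x
    have h1 : HasDerivAt (fun z : ℂ => Complex.exp (2 * π * I * z)) (Complex.exp (2 * π * I * x) * (2 * π * I * 1)) x :=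
      ((hasDerivAt_id (x : ℂ)).const_mul (2 * π * I)).cexp
    have h2 := h1.comp_ofReal
    refine h2.congr_deriv ?_
    rw [ez]; ring
  have := Convex.norm_image_sub_le_of_norm_hasDerivWithin_le (f := fun x : ℝ => ez x) (f' := fun x : ℝ => 2 * π * I * ez x)
    (C := 2 * π) (s := univ) (x := y) (y := x) (fun x _ => (h x).hasDerivWithinAt) (fun x _ => by
      rw [norm_mul, norm_ez]
      simp [abs_of_pos Real.pi_pos]) convex_univ (mem_univ _) (mem_univ _)
  simpa [Real.norm_eq_abs] using this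

lemma cell_ez (a : ℂ) : CellUp (fun z => a * ez z) ‖a‖ (‖a‖ * (2 * π)) := by
  refine ⟨?_, ?_, fun z hz => ?_, fun x y => ?_⟩
  · exact (differentiable_ez.continuous.const_mul a |>.continuousOn)
  · exact (differentiable_ez.const_mul a).differentiableOn
  · rw [norm_mul]
    exact mul_le_mul_of_nonneg_left (norm_ez_le z hz) (norm_nonneg _)
  · rw [← mul_sub, norm_mul, mul_assoc]
    exact mul_le_mul_of_nonneg_left (ez_lip x y) (norm_nonneg _)

lemma norm_one_add_half {w : ℂ} (hw : ‖w‖ ≤ 1) : 1 / 2 ≤ ‖1 + w / 2‖ := by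
  have h1 : ‖(1 : ℂ)‖ ≤ ‖1 + w / 2‖ + ‖w / 2‖ := by
    calc ‖(1 : ℂ)‖ = ‖(1 + w / 2) - w / 2‖ := by ring_nf
      _ ≤ _ := norm_sub_le _ _
  rw [norm_one, norm_div] at h1
  norm_num at h1
  linarith

lemma cell_mob (a : ℂ) : CellUp (fun z => a * ez z / (1 + ez z / 2)) (2 * ‖a‖) (4 * ‖a‖ * (2 * π)) := by
  have hne : ∀ z : ℂ, 0 ≤ z.im → 1 + ez z / 2 ≠ 0 := by
    intro z hz h
    have := norm_one_add_half (norm_ez_le_one z hz)
    rw [h, norm_zero] at this
    linarith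
  refine ⟨?_, ?_, fun z hz => ?_, fun x y => ?_⟩
  · have h1 := differentiable_ez.continuous
    exact ContinuousOn.div (by fun_prop) (by fun_prop) hne
  · have h1 := differentiable_ez
    exact DifferentiableOn.div (by fun_prop) (by fun_prop) (fun z hz => hne z (show 0 ≤ z.im from le_of_lt hz))
  · rw [norm_div, norm_mul, div_le_iff₀ (norm_pos_iff.2 (hne z hz))]
    have h1 := norm_one_add_half (norm_ez_le_one z hz)
    have h2 := norm_ez_le z hz
    calc ‖a‖ * ‖ez z‖ ≤ ‖a‖ * Real.exp (-z.im) := by gcongr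
      _ = 2 * ‖a‖ * Real.exp (-z.im) * (1 / 2) := by ring
      _ ≤ _ := by gcongr
  · have hx := hne x (by simp)
    have hy := hne y (by simp)
    have h1 : a * ez x / (1 + ez x / 2) - a * ez y / (1 + ez y / 2) = a * (ez x - ez y) / ((1 + ez x / 2) * (1 + ez y / 2)) := by
      rw [div_sub_div _ _ hx hy]; congr 1; ring
    show ‖a * ez x / (1 + ez x / 2) - a * ez y / (1 + ez y / 2)‖ ≤ _
    rw [h1, norm_div, norm_mul, norm_mul, div_le_iff₀ (mul_pos (norm_pos_iff.2 hx) (norm_pos_iff.2 hy))]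
    have h2 := norm_one_add_half (norm_ez_le_one (x : ℂ) (by simp))
    have h3 := norm_one_add_half (norm_ez_le_one (y : ℂ) (by simp))
    have h4 := ez_lip x y
    calc ‖a‖ * ‖ez x - ez y‖ ≤ ‖a‖ * (2 * π * |x - y|) := by gcongr
      _ = 4 * ‖a‖ * (2 * π) * |x - y| * ((1 / 2) * (1 / 2)) := by ring
      _ ≤ _ := by gcongr

/-- absolutely convergent positive-frequency series -/
lemma cell_series {a : ℕ → ℂ} (ha : Summable (fun k : ℕ => ‖a k‖ * (k + 1))) :
    CellUp (fun z => ∑' k : ℕ, a k * ez ((k + 1 : ℕ) * z)) (∑' k : ℕ, ‖a k‖ * (k + 1))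
      ((∑' k : ℕ, ‖a k‖ * (k + 1)) * (2 * π)) := by
  have ha' : Summable (fun k : ℕ => ‖a k‖) := by
    refine Summable.of_nonneg_of_le (fun k => norm_nonneg _) (fun k => ?_) ha
    have : (0 : ℝ) ≤ k := Nat.cast_nonneg k
    nlinarith [norm_nonneg (a k)]
  have him : ∀ (k : ℕ) (z : ℂ), (((k + 1 : ℕ) : ℂ) * z).im = (k + 1 : ℕ) * z.im := by
    intro k z
    rw [Complex.mul_im]; simp
  have hb : ∀ (k : ℕ) (z : ℂ), 0 ≤ z.im → ‖a k * ez ((k + 1 : ℕ) * z)‖ ≤ ‖a k‖ := by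
    intro k z hz
    rw [norm_mul]
    have := norm_ez_le_one ((k + 1 : ℕ) * z) (by rw [him]; positivity)
    calc ‖a k‖ * _ ≤ ‖a k‖ * 1 := by gcongr
      _ = _ := mul_one _
  have hd : ∀ k : ℕ, Differentiable ℂ (fun z : ℂ => a k * ez ((k + 1 : ℕ) * z)) := by
    intro k
    have := differentiable_ez
    exact (this.comp (differentiable_id.const_mul ((k + 1 : ℕ) : ℂ))).const_mul (a k)
  have hsum : ∀ z : ℂ, 0 ≤ z.im → Summable (fun k : ℕ => a k * ez ((k + 1 : ℕ) * z)) := fun z hz =>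
    Summable.of_norm_bounded ha' (fun k => hb k z hz)
  refine ⟨?_, ?_, fun z hz => ?_, fun x y => ?_⟩
  · exact continuousOn_tsum (fun k => (hd k).continuous.continuousOn) ha' (fun k z hz => hb k z hz)
  · exact differentiableOn_tsum_of_summable_norm ha' (fun k => (hd k).differentiableOn) isOpen_upper
      (fun k z hz => hb k z (show 0 ≤ z.im from le_of_lt hz))
  · rw [← tsum_mul_right]
    apply tsum_of_norm_bounded (ha.mul_right _).hasSum
    intro k
    rw [norm_mul]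
    have hk : (1 : ℝ) ≤ k + 1 := by
      have : (0 : ℝ) ≤ k := Nat.cast_nonneg k
      linarith
    have h1 : ‖ez ((k + 1 : ℕ) * z)‖ ≤ Real.exp (-z.im) := by
      refine (norm_ez_le _ (by rw [him]; positivity)).trans ?_
      rw [Real.exp_le_exp, him]
      push_cast
      nlinarith
    calc ‖a k‖ * ‖ez ((k + 1 : ℕ) * z)‖ ≤ ‖a k‖ * 1 * Real.exp (-z.im) := by
          rw [mul_one]; gcongr
      _ ≤ _ := by gcongr
  · show ‖(∑' k : ℕ, a k * ez ((k + 1 : ℕ) * x)) - (∑' k : ℕ, a k * ez ((k + 1 : ℕ) * y))‖ ≤ _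
    rw [← (hsum x (by simp)).tsum_sub (hsum y (by simp)), mul_assoc, ← tsum_mul_right]
    apply tsum_of_norm_bounded (ha.mul_right _).hasSum
    intro k
    rw [← mul_sub, norm_mul, mul_assoc]
    have h1 := ez_lip ((k + 1 : ℕ) * x) ((k + 1 : ℕ) * y)
    rw [← mul_sub, abs_mul, Nat.abs_cast] at h1
    push_cast at h1 ⊢
    calc ‖a k‖ * ‖ez ((k + 1) * x) - ez ((k + 1) * y)‖ ≤ ‖a k‖ * (2 * π * ((k + 1) * |x - y|)) := by
          gcongr
      _ = _ := by ring

/-- the displacement profile of the Moebius cell -/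
noncomputable def etaM (θ : ℝ) : ℝ := -(1 / π) * Real.arctan (Real.sin (2 * π * θ) / (2 + Real.cos (2 * π * θ)))
noncomputable def etaM' (θ : ℝ) : ℝ := 3 / (5 + 4 * Real.cos (2 * π * θ)) - 1

lemma den_pos (θ : ℝ) : 1 ≤ 5 + 4 * Real.cos (2 * π * θ) := by
  have := Real.neg_one_le_cos (2 * π * θ)
  linarith

lemma disp_etaM : Disp etaM etaM' 100 := by
  have hπ := Real.pi_pos
  refine ⟨fun x => ?_, fun x => ?_, fun x => ?_, fun x y => ?_, fun x => ?_, fun x => ?_⟩
  · rw [etaM, abs_mul, abs_neg, abs_of_pos (by positivity : 0 < 1 / π)]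
    have h1 : |Real.arctan (Real.sin (2 * π * x) / (2 + Real.cos (2 * π * x)))| ≤ π / 2 :=
      abs_le.2 ⟨(Real.neg_pi_div_two_lt_arctan _).le, (Real.arctan_lt_pi_div_two _).le⟩
    calc 1 / π * _ ≤ 1 / π * (π / 2) := by gcongr
      _ = 1 / 2 := by field_simp
      _ ≤ 100 := by norm_num
  · have hd : 2 + Real.cos (2 * π * x) ≠ 0 := by
      have := Real.neg_one_le_cos (2 * π * x)
      linarith
    have hlin : HasDerivAt (fun x : ℝ => 2 * π * x) (2 * π) x := by
      simpa using (hasDerivAt_id x).const_mul (2 * π)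
    have h1 := ((hlin.sin).div ((hlin.cos).const_add 2) hd).arctan.const_mul (-(1 / π))
    refine h1.congr_deriv ?_
    rw [etaM']
    have hsc := Real.sin_sq_add_cos_sq (2 * π * x)
    have hden := den_pos x
    set s := Real.sin (2 * π * x)
    set c := Real.cos (2 * π * x)
    have h5 : 5 + 4 * c ≠ 0 := by linarith
    have h6 : (2 + c) ^ 2 + s ^ 2 = 5 + 4 * c := by nlinarith
    have h7 : 1 + (s / (2 + c)) ^ 2 = (5 + 4 * c) / (2 + c) ^ 2 := by
      rw [← h6]; field_simp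
    rw [Pi.div_apply, h7]
    field_simp
    nlinarith
  · rw [etaM']
    have hden := den_pos x
    have h1 := Real.cos_le_one (2 * π * x)
    have h2 : 0 ≤ 3 / (5 + 4 * Real.cos (2 * π * x)) := by positivity
    have h3 : 3 / (5 + 4 * Real.cos (2 * π * x)) ≤ 3 := div_le_self (by norm_num) hden
    rw [abs_le]; constructor <;> linarith
  · rw [etaM', etaM']
    have hx := den_pos x
    have hy := den_pos y
    have hc : |Real.cos (2 * π * x) - Real.cos (2 * π * y)| ≤ 2 * π * |x - y| := by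
      have := Real.abs_cos_sub_cos_le (2 * π * x) (2 * π * y)
      rw [← mul_sub, abs_mul, abs_of_pos (by positivity : 0 < 2 * π)] at this
      exact this
    have h1 : 3 / (5 + 4 * Real.cos (2 * π * x)) - 1 - (3 / (5 + 4 * Real.cos (2 * π * y)) - 1) =
      -(12 * (Real.cos (2 * π * x) - Real.cos (2 * π * y)) / ((5 + 4 * Real.cos (2 * π * x)) * (5 + 4 * Real.cos (2 * π * y)))) := by
      field_simp; ring
    rw [h1, abs_neg, abs_div, abs_mul, abs_of_pos (show 0 < (5 + 4 * Real.cos (2 * π * x)) * (5 + 4 * Real.cos (2 * π * y)) by positivity)]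
    refine (div_le_self (by positivity) (one_le_mul_of_one_le_of_one_le hx hy)).trans ?_
    have h12 : |(12 : ℝ)| = 12 := abs_of_pos (by norm_num)
    rw [h12]
    have hπ2 := Real.pi_lt_d2
    calc 12 * |Real.cos (2 * π * x) - Real.cos (2 * π * y)| ≤ 12 * (2 * π * |x - y|) := by gcongr
      _ = (24 * π) * |x - y| := by ring
      _ ≤ 100 * |x - y| := by
          gcongr
          linarith
  · rw [etaM']
    have hden := den_pos x
    have h1 := Real.cos_le_one (2 * π * x)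
    have : 1 / 3 ≤ 3 / (5 + 4 * Real.cos (2 * π * x)) := by
      rw [div_le_div_iff₀ (by norm_num) (by linarith)]; linarith
    linarith
  · rw [etaM']
    have hden := den_pos x
    have h3 : 3 / (5 + 4 * Real.cos (2 * π * x)) ≤ 3 := div_le_self (by norm_num) hden
    linarith

lemma exp_neg_two_arctan (v : ℝ) :
    Complex.exp (-(2 * I * (Real.arctan v : ℂ))) * (1 + v * I) = 1 - v * I := by
  set α := Real.arctan v with hα
  have hr : 0 < Real.sqrt (1 + v ^ 2) := Real.sqrt_pos.2 (by positivity)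
  have hc : Real.cos α = 1 / Real.sqrt (1 + v ^ 2) := Real.cos_arctan v
  have hs : Real.sin α = v / Real.sqrt (1 + v ^ 2) := Real.sin_arctan v
  have h1 : (1 + v * I : ℂ) = (Real.sqrt (1 + v ^ 2) : ℂ) * Complex.exp (α * I) := by
    rw [Complex.exp_mul_I, ← Complex.ofReal_cos, ← Complex.ofReal_sin, hc, hs]
    have : (Real.sqrt (1 + v ^ 2) : ℂ) ≠ 0 := by exact_mod_cast hr.ne'
    push_cast
    field_simp
  have h2 : (1 - v * I : ℂ) = (Real.sqrt (1 + v ^ 2) : ℂ) * Complex.exp (-(α * I)) := by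
    rw [← neg_mul, Complex.exp_mul_I, Complex.cos_neg, Complex.sin_neg, ← Complex.ofReal_cos, ← Complex.ofReal_sin, hc, hs]
    have : (Real.sqrt (1 + v ^ 2) : ℂ) ≠ 0 := by exact_mod_cast hr.ne'
    push_cast
    field_simp
    try ring
  rw [h1, h2, mul_comm, mul_assoc, ← Complex.exp_add]
  congr 2
  ring

lemma ez_real (θ : ℝ) : ez θ = (Real.cos (2 * π * θ) : ℂ) + (Real.sin (2 * π * θ) : ℂ) * I := by
  rw [ez, show (2 * π * I * θ : ℂ) = ((2 * π * θ : ℝ) : ℂ) * I by push_cast; ring, Complex.exp_mul_I]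
  push_cast
  ring

/-- the welding relation -/
lemma ez_etaM (θ : ℝ) : ez ((θ + etaM θ : ℝ)) = (ez θ + 1 / 2) / (1 + ez θ / 2) := by
  have h0 : 1 + ez θ / 2 ≠ 0 := by
    intro h
    have := norm_one_add_half (norm_ez_le_one (θ : ℂ) (by simp))
    rw [h, norm_zero] at this
    linarith
  have hden : (2 + Real.cos (2 * π * θ)) ≠ 0 := by
    have := Real.neg_one_le_cos (2 * π * θ)
    linarith
  have hdenC : (2 + (Real.cos (2 * π * θ) : ℂ)) ≠ 0 := by exact_mod_cast hden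
  have hadd : ez ((θ + etaM θ : ℝ)) = ez θ * Complex.exp (-(2 * I * (Real.arctan (Real.sin (2 * π * θ) / (2 + Real.cos (2 * π * θ))) : ℂ))) := by
    rw [ez, ez, ← Complex.exp_add]
    congr 1
    rw [etaM]
    push_cast
    have hπ : (π : ℂ) ≠ 0 := by exact_mod_cast Real.pi_ne_zero
    field_simp
  have key := exp_neg_two_arctan (Real.sin (2 * π * θ) / (2 + Real.cos (2 * π * θ)))
  have hsc : (Real.sin (2 * π * θ) : ℂ) ^ 2 + (Real.cos (2 * π * θ) : ℂ) ^ 2 = 1 := by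
    exact_mod_cast Real.sin_sq_add_cos_sq (2 * π * θ)
  rw [hadd, eq_div_iff h0]
  have hz := ez_real θ
  set s : ℂ := (Real.sin (2 * π * θ) : ℂ) with hs
  set c : ℂ := (Real.cos (2 * π * θ) : ℂ) with hc
  set X := Complex.exp (-(2 * I * (Real.arctan (Real.sin (2 * π * θ) / (2 + Real.cos (2 * π * θ))) : ℂ))) with hX
  have key2 : X * ((2 + c) + s * I) = (2 + c) - s * I := by
    have h1 : ((Real.sin (2 * π * θ) / (2 + Real.cos (2 * π * θ)) : ℝ) : ℂ) = s / (2 + c) := by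
      rw [Complex.ofReal_div, Complex.ofReal_add, Complex.ofReal_ofNat]
    rw [h1] at key
    have h2 : (2 + c) * (X * (1 + s / (2 + c) * I)) = (2 + c) * (1 - s / (2 + c) * I) := by rw [key]
    have h3 : (2 + c) * (X * (1 + s / (2 + c) * I)) = X * ((2 + c) + s * I) := by
      field_simp
    have h4 : (2 + c) * (1 - s / (2 + c) * I) = (2 + c) - s * I := by
      field_simp
    rw [h3, h4] at h2
    exact h2
  rw [hz]
  have h5 : (c + s * I) * X * (1 + (c + s * I) / 2) = (c + s * I) * (X * ((2 + c) + s * I)) / 2 := by ring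
  rw [h5, key2]
  have hI : I ^ 2 = -1 := Complex.I_sq
  linear_combination (1 / 2) * hsc - (1 / 2) * s ^ 2 * hI

/-- the Moebius cell relation -/
lemma mob_rel (a : ℝ) (θ : ℝ) : 1 + (a : ℂ) * ez ((θ + etaM θ : ℝ)) - conj ((3 / 4 * a : ℂ) * ez θ / (1 + ez θ / 2)) =
    1 + a * (1 / 2 + 6 * Real.sin (2 * π * θ) / (5 + 4 * Real.cos (2 * π * θ)) * I) := by
  have h0 : 1 + ez θ / 2 ≠ 0 := by
    intro h
    have := norm_one_add_half (norm_ez_le_one (θ : ℂ) (by simp))
    rw [h, norm_zero] at this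
    linarith
  have h0' : conj (1 + ez θ / 2) ≠ 0 := by
    intro h; exact h0 ((map_eq_zero _).1 h)
  have hden : (5 + 4 * Real.cos (2 * π * θ)) ≠ 0 := by
    have := den_pos θ
    linarith
  have hdenC : (5 + 4 * (Real.cos (2 * π * θ) : ℂ)) ≠ 0 := by exact_mod_cast hden
  have hsc : (Real.sin (2 * π * θ) : ℂ) ^ 2 + (Real.cos (2 * π * θ) : ℂ) ^ 2 = 1 := by
    exact_mod_cast Real.sin_sq_add_cos_sq (2 * π * θ)
  rw [ez_etaM, map_div₀, map_mul]
  have hz := ez_real θ
  have hzc : conj (ez θ) = (Real.cos (2 * π * θ) : ℂ) - (Real.sin (2 * π * θ) : ℂ) * I := by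
    rw [hz, map_add, map_mul, Complex.conj_ofReal, Complex.conj_ofReal, Complex.conj_I]; ring
  have h1 : conj (1 + ez θ / 2) = 1 + conj (ez θ) / 2 := by
    rw [map_add, map_div₀, map_one, Complex.conj_ofNat]
  have h34 : conj (3 / 4 * a : ℂ) = 3 / 4 * a := by
    rw [map_mul, map_div₀, Complex.conj_ofNat, Complex.conj_ofNat, Complex.conj_ofReal]
  rw [h1] at h0' ⊢
  rw [hzc] at h0'
  rw [hz] at h0
  rw [h34, hzc, hz]
  set s : ℂ := (Real.sin (2 * π * θ) : ℂ) with hs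
  set c : ℂ := (Real.cos (2 * π * θ) : ℂ) with hc
  have hI : I ^ 2 = -1 := Complex.I_sq
  have hAB : (1 + (c + s * I) / 2) * (1 + (c - s * I) / 2) = (5 + 4 * c) / 4 := by
    linear_combination (1 / 4) * hsc - (1 / 4) * s ^ 2 * hI
  have e1 : (c + s * I + 1 / 2) / (1 + (c + s * I) / 2) = 4 * (c + s * I + 1 / 2) * (1 + (c - s * I) / 2) / (5 + 4 * c) := by
    rw [div_eq_div_iff h0 hdenC]
    linear_combination (-4) * (c + s * I + 1 / 2) * hAB
  have e2 : 3 / 4 * ↑a * (c - s * I) / (1 + (c - s * I) / 2) = 3 * a * (c - s * I) * (1 + (c + s * I) / 2) / (5 + 4 * c) := by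
    rw [div_eq_div_iff h0' hdenC]
    linear_combination (-3) * a * (c - s * I) * hAB
  rw [e1, e2]
  field_simp
  linear_combination (a : ℂ) * 2 * hsc - (a : ℂ) * 2 * s ^ 2 * hI

/-- one elementary cell: analytic data on both sides, displacement, multiplier -/
structure Cell (P Q : ℂ → ℂ) (η η' : ℝ → ℝ) (γ : ℝ → ℂ) (q : ℝ) : Prop where
  up : ∃ C L, CellUp P C L
  dn : ∃ C L, CellUp Q C L
  disp : ∃ K, Disp η η' K
  rel : ∀ θ : ℝ, 1 + P ((θ + η θ : ℝ)) - conj (Q θ) = γ θ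
  bdd : ∀ θ : ℝ, ‖γ θ‖ ≤ q

lemma Cell.lip {P Q : ℂ → ℂ} {η η' : ℝ → ℝ} {γ : ℝ → ℂ} {q : ℝ} (h : Cell P Q η η' γ q) :
    ∃ L, 0 ≤ L ∧ ∀ x y, ‖γ x - γ y‖ ≤ L * |x - y| := by
  obtain ⟨CP, LP, hP⟩ := h.up
  obtain ⟨CQ, LQ, hQ⟩ := h.dn
  obtain ⟨K, hK⟩ := h.disp
  have h1 := hP.L_nonneg
  have h2 := hQ.L_nonneg
  have h3 := hK.K_nonneg
  refine ⟨LP * (1 + K) + LQ, by positivity, fun x y => ?_⟩
  rw [← h.rel x, ← h.rel y]
  have e : 1 + P ((x + η x : ℝ)) - conj (Q x) - (1 + P ((y + η y : ℝ)) - conj (Q y)) =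
    (P ((x + η x : ℝ)) - P ((y + η y : ℝ))) - conj (Q x - Q y) := by
      rw [map_sub]; ring
  rw [e]
  refine (norm_sub_le _ _).trans ?_
  rw [Complex.norm_conj]
  have h4 := hP.lip (x + η x) (y + η y)
  have h5 := hQ.lip x y
  have h6 : |x + η x - (y + η y)| ≤ (1 + K) * |x - y| := by
    calc |x + η x - (y + η y)| = |(x - y) + (η x - η y)| := by ring_nf
      _ ≤ |x - y| + |η x - η y| := abs_add_le _ _
      _ ≤ |x - y| + K * |x - y| := by gcongr; exact hK.lip x y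
      _ = _ := by ring
  calc _ ≤ LP * ((1 + K) * |x - y|) + LQ * |x - y| := by
        gcongr
        exact h4.trans (by gcongr)
    _ = _ := by ring

lemma disp_zero : Disp (fun _ => 0) (fun _ => 0) 0 :=
  ⟨fun x => by simp, fun x => hasDerivAt_const x 0, fun x => by simp, fun x y => by simp,
    fun x => by norm_num, fun x => by norm_num⟩

lemma cell_zero : CellUp (fun _ => 0) 0 0 :=
  ⟨continuousOn_const, differentiableOn_const 0, fun z hz => by simp, fun x y => by simp⟩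

lemma sixs_bound (θ : ℝ) : (6 * Real.sin (2 * π * θ) / (5 + 4 * Real.cos (2 * π * θ))) ^ 2 ≤ 4 := by
  have hden := den_pos θ
  have hsc := Real.sin_sq_add_cos_sq (2 * π * θ)
  rw [div_pow, div_le_iff₀ (by positivity)]
  nlinarith [sq_nonneg (4 + 5 * Real.cos (2 * π * θ))]

noncomputable def gamM (θ : ℝ) : ℂ :=
  1 + ((-2 / 17 : ℝ) : ℂ) * (1 / 2 + 6 * Real.sin (2 * π * θ) / (5 + 4 * Real.cos (2 * π * θ)) * I)

/-- the contracting cell -/
theorem cellM : Cell (fun z => ((-2 / 17 : ℝ) : ℂ) * ez z)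
    (fun z => (3 / 4 * ((-2 / 17 : ℝ) : ℂ)) * ez z / (1 + ez z / 2)) etaM etaM' gamM (9702 / 10000) := by
  refine ⟨⟨_, _, cell_ez _⟩, ⟨_, _, cell_mob _⟩, ⟨_, disp_etaM⟩, fun θ => mob_rel _ θ, fun θ => ?_⟩
  have h1 := sixs_bound θ
  have h2 : gamM θ = ((16 / 17 : ℝ) : ℂ) + ((-2 / 17 * (6 * Real.sin (2 * π * θ) / (5 + 4 * Real.cos (2 * π * θ))) : ℝ) : ℂ) * I := by
    rw [gamM]; push_cast; ring
  rw [h2, Complex.norm_add_mul_I]
  rw [Real.sqrt_le_left (by norm_num)]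
  nlinarith

noncomputable def gamF (θ : ℝ) : ℂ := (-3 / 2 : ℂ) * ez θ / (1 + ez θ / 2)

/-- the final cell -/
theorem cellF : Cell (fun z => (-2 : ℂ) * ez z) (fun _ => 0) etaM etaM' gamF 3 := by
  refine ⟨⟨_, _, cell_ez _⟩, ⟨_, _, cell_zero⟩, ⟨_, disp_etaM⟩, fun θ => ?_, fun θ => ?_⟩
  · have h0 : 1 + ez θ / 2 ≠ 0 := by
      intro h
      have := norm_one_add_half (norm_ez_le_one (θ : ℂ) (by simp))
      rw [h, norm_zero] at this
      linarith
    show 1 + (-2 : ℂ) * ez ((θ + etaM θ : ℝ)) - conj (0 : ℂ) = gamF θ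
    rw [ez_etaM, gamF, map_zero, eq_div_iff h0]
    have : (1 + -2 * ((ez θ + 1 / 2) / (1 + ez θ / 2)) - 0) * (1 + ez θ / 2) =
      (1 + ez θ / 2) - 2 * ((ez θ + 1 / 2) / (1 + ez θ / 2) * (1 + ez θ / 2)) := by ring
    rw [this, div_mul_cancel₀ _ h0]
    ring
  · have := P_real_bdd (cell_mob (-3 / 2 : ℂ)) θ
    refine this.trans ?_
    rw [norm_div, norm_neg]
    norm_num

end Pool.Agent.Lib_helper42
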