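import Mathlib
import Pool.Agent.Lib_helper42.Cells

set_option autoImplicit false
open MeasureTheory Set Filter Topology Complex
open scoped Real ComplexConjugate FourierTransform SchwartzMap

namespace Pool.Agent.Lib_helper42

noncomputable def bmp : ContDiffBump (0 : ℝ) := ⟨1 / 200, 1 / 100, by norm_num, by norm_num⟩

noncomputable def bmpS : 𝓢(ℝ, ℂ) :=
  HasCompactSupport.toSchwartzMap (f := fun x : ℝ => ((bmp x : ℝ) : ℂ))
    (bmp.hasCompactSupport.comp_left (g := fun x : ℝ => (x : ℂ)) (by simp))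
    (Complex.ofRealCLM.contDiff.comp bmp.contDiff)

lemma bmpS_apply (x : ℝ) : bmpS x = ((bmp x : ℝ) : ℂ) := rfl

/-- Fourier coefficients -/
noncomputable def bhat (w : ℝ) : ℂ := 𝓕 (bmpS : ℝ → ℂ) w

lemma bhat_eq (w : ℝ) : bhat w = ∫ v : ℝ, Complex.exp (((-2 * π * v * w : ℝ) : ℂ) * I) * ((bmp v : ℝ) : ℂ) := by
  rw [bhat, Real.fourier_real_eq_integral_exp_smul]
  rfl

lemma bhat_neg (w : ℝ) : bhat (-w) = conj (bhat w) := by
  rw [bhat_eq, bhat_eq, ← integral_conj]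
  congr 1
  ext v
  rw [map_mul, Complex.conj_ofReal, ← Complex.exp_conj, map_mul, Complex.conj_I, Complex.conj_ofReal]
  congr 2
  push_cast
  ring

lemma bhat_zero : bhat 0 = ((∫ v : ℝ, bmp v : ℝ) : ℂ) := by
  rw [bhat_eq]
  have h : ((∫ v : ℝ, bmp v : ℝ) : ℂ) = ∫ v : ℝ, ((bmp v : ℝ) : ℂ) := (integral_complex_ofReal).symm
  rw [h]
  congr 1
  ext v
  simp

lemma exists_bhat_bound : ∃ C : ℝ, 0 < C ∧ ∀ w : ℝ, |w| ^ 3 * ‖bhat w‖ ≤ C := by
  obtain ⟨C, hC, h⟩ := (𝓕 bmpS).decay 3 0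
  refine ⟨C, hC, fun w => ?_⟩
  have := h w
  rw [norm_iteratedFDeriv_zero, Real.norm_eq_abs] at this
  exact this

noncomputable def beta : ℝ := ∫ v : ℝ, bmp v

lemma beta_nonneg : 0 ≤ beta := integral_nonneg (fun _ => bmp.nonneg)

lemma beta_le : beta ≤ 1 / 50 := by
  have h1 : ∀ v : ℝ, (bmp v : ℝ) ≤ (Metric.closedBall (0:ℝ) (1 / 100)).indicator (fun _ => (1:ℝ)) v := by
    intro v
    by_cases hv : v ∈ Metric.closedBall (0:ℝ) (1 / 100)
    · rw [indicator_of_mem hv]; exact bmp.le_one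
    · rw [indicator_of_notMem hv]
      have : bmp v = 0 := bmp.zero_of_le_dist (by
        rw [Metric.mem_closedBall, not_le] at hv
        exact hv.le)
      exact this.le
  have h2 : ∫ v : ℝ, (Metric.closedBall (0:ℝ) (1 / 100)).indicator (fun _ => (1:ℝ)) v = 1 / 50 := by
    rw [integral_indicator_const _ measurableSet_closedBall, Measure.real, Real.volume_closedBall,
      ENNReal.toReal_ofReal (by norm_num)]
    norm_num
  rw [beta, ← h2]
  apply integral_mono bmp.integrable _ h1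
  apply (integrable_indicator_iff measurableSet_closedBall).2
  exact integrableOn_const (by rw [Real.volume_closedBall]; exact ENNReal.ofReal_ne_top)

/-- the coefficients of the removal cell -/
noncomputable def rco (k : ℕ) : ℂ := -(((1 - beta : ℝ) : ℂ)⁻¹ * bhat ((k : ℝ) + 1))

lemma summable_bhat : Summable (fun k : ℕ => ‖bhat ((k : ℝ) + 1)‖ * ((k : ℝ) + 1)) := by
  obtain ⟨C, hC, h⟩ := exists_bhat_bound
  have h2 : Summable (fun k : ℕ => C * (1 / ((k : ℝ) + 1) ^ 2)) := by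
    apply Summable.mul_left
    have := (summable_nat_add_iff 1).2 (Real.summable_one_div_nat_pow.2 (show 1 < 2 by norm_num))
    simpa using this
  refine Summable.of_nonneg_of_le (fun k => by positivity) (fun k => ?_) h2
  have hk : (0 : ℝ) < (k : ℝ) + 1 := by positivity
  have := h ((k : ℝ) + 1)
  rw [abs_of_pos hk] at this
  rw [mul_one_div, le_div_iff₀ (by positivity)]
  calc _ = ((k : ℝ) + 1) ^ 3 * ‖bhat ((k : ℝ) + 1)‖ := by ring
    _ ≤ C := this

lemma summable_rco : Summable (fun k : ℕ => ‖rco k‖ * ((k : ℝ) + 1)) := by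
  have h := summable_bhat.mul_left (‖(((1 - beta : ℝ) : ℂ)⁻¹)‖)
  refine h.congr (fun k => ?_)
  rw [rco, norm_neg, norm_mul]; ring

/-- the periodised bump -/
noncomputable def bper (x : ℝ) : ℝ := ∑' n : ℤ, bmp (x + n)

lemma bmp_eq_zero {x : ℝ} (hx : 1 / 100 ≤ |x|) : bmp x = 0 :=
  bmp.zero_of_le_dist (by rw [Real.dist_eq, sub_zero]; exact hx)

lemma bper_eq (x : ℝ) (m : ℤ) (h : |x - m| ≤ 1 / 2) : bper x = bmp (x - m) := by
  rw [bper, tsum_eq_single (-m)]
  · push_cast; rw [← sub_eq_add_neg]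
  · intro n hn
    apply bmp_eq_zero
    have h1 : (1 : ℝ) ≤ |((n + m : ℤ) : ℝ)| := by
      have : n + m ≠ 0 := by omega
      exact_mod_cast Int.one_le_abs this
    have h2 : |((n + m : ℤ) : ℝ)| ≤ |x + n| + |x - m| := by
      calc |((n + m : ℤ) : ℝ)| = |(x + n) - (x - m)| := by push_cast; ring_nf
        _ ≤ _ := abs_sub _ _
    linarith

lemma bper_mem (x : ℝ) : 0 ≤ bper x ∧ bper x ≤ 1 := by
  rw [bper_eq x (round x) (abs_sub_round x)]
  exact ⟨bmp.nonneg, bmp.le_one⟩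

lemma bper_one (x : ℝ) (m : ℤ) (h : |x - m| ≤ 1 / 200) : bper x = 1 := by
  rw [bper_eq x m (h.trans (by norm_num))]
  apply bmp.one_of_mem_closedBall
  rw [Metric.mem_closedBall, Real.dist_eq, sub_zero]
  exact h

lemma tsum_int_split {F : ℤ → ℂ} {A : ℕ → ℂ} (hA : Summable A) (h1 : ∀ k : ℕ, F ((k : ℤ) + 1) = A k)
    (h2 : ∀ k : ℕ, F (-((k : ℤ) + 1)) = conj (A k)) :
    ∑' n : ℤ, F n = F 0 + (∑' k : ℕ, A k) + conj (∑' k : ℕ, A k) := by
  have hs1 : Summable (fun k : ℕ => F (k : ℤ)) := by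
    rw [← summable_nat_add_iff 1]
    refine hA.congr (fun k => ?_)
    rw [← h1 k]; push_cast; rfl
  have hs2 : Summable (fun k : ℕ => F (-((k : ℤ) + 1))) := by
    simp_rw [h2]
    exact (Complex.conjCLE.toContinuousLinearMap.summable hA)
  rw [tsum_of_nat_of_neg_add_one hs1 hs2, hs1.tsum_eq_zero_add]
  simp_rw [h2]
  rw [← Complex.conj_tsum]
  have h3 : (fun k : ℕ => F ((k + 1 : ℕ) : ℤ)) = A := by
    ext k; rw [← h1 k]; push_cast; rfl
  rw [h3]
  rfl

noncomputable def sser (x : ℝ) : ℂ := ∑' k : ℕ, bhat ((k : ℝ) + 1) * ez ((k + 1 : ℕ) * x)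

lemma bper_fourier (x : ℝ) : ((bper x : ℝ) : ℂ) = (beta : ℂ) + sser x + conj (sser x) := by
  have h1 := SchwartzMap.tsum_eq_tsum_fourier bmpS x
  have h2 : ∑' n : ℤ, bmpS (x + n) = ((bper x : ℝ) : ℂ) := by
    rw [bper, Complex.ofReal_tsum]; rfl
  have h3 : ∀ n : ℤ, (𝓕 bmpS) (n : ℝ) * fourier n (x : UnitAddCircle) = bhat (n : ℝ) * ez (n * x) := by
    intro n
    rw [fourier_coe_apply, bhat, ez, SchwartzMap.fourier_coe]
    congr 2
    push_cast
    ring
  have hsn : Summable (fun k : ℕ => bhat ((k : ℝ) + 1) * ez ((k + 1 : ℕ) * x)) := by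
    refine Summable.of_norm_bounded summable_bhat (fun k => ?_)
    rw [norm_mul, norm_ez]
    have h5 : (0 : ℝ) ≤ k := Nat.cast_nonneg k
    have h6 : (((k + 1 : ℕ) : ℂ) * (x : ℂ)).im = 0 := by simp
    rw [h6, mul_zero, neg_zero, Real.exp_zero]
    nlinarith [norm_nonneg (bhat ((k : ℝ) + 1))]
  rw [← h2, h1, tsum_congr h3]
  rw [tsum_int_split (A := fun k : ℕ => bhat ((k : ℝ) + 1) * ez ((k + 1 : ℕ) * x)) hsn]
  · have h7 : bhat ((0 : ℤ) : ℝ) * ez (((0 : ℤ) : ℂ) * x) = (beta : ℂ) := by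
      rw [Int.cast_zero, Int.cast_zero, zero_mul, bhat_zero, ez, mul_zero, Complex.exp_zero, mul_one]
      rfl
    rw [h7]
    rfl
  · intro k
    push_cast
    rfl
  · intro k
    rw [map_mul, ← bhat_neg]
    congr 1
    · push_cast; rfl
    · rw [ez, ez, ← Complex.exp_conj]
      congr 1
      rw [map_mul, map_mul, map_mul, map_mul, Complex.conj_ofNat, Complex.conj_ofReal, Complex.conj_ofReal, Complex.conj_I,
        Complex.conj_natCast]
      push_cast
      ring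

noncomputable def PR (z : ℂ) : ℂ := ∑' k : ℕ, rco k * ez ((k + 1 : ℕ) * z)

noncomputable def rhoR (x : ℝ) : ℝ := (1 - bper x) / (1 - beta)

lemma PR_real (x : ℝ) : PR x = -(((1 - beta : ℝ) : ℂ)⁻¹ * sser x) := by
  rw [PR, sser, ← tsum_mul_left, ← tsum_neg]
  congr 1
  ext k
  rw [rco]
  ring

lemma rhoR_rel (x : ℝ) : 1 + PR x + conj (PR x) = (rhoR x : ℂ) := by
  have h1 := bper_fourier x
  have hb : (1 - beta) ≠ 0 := by
    have := beta_le
    linarith
  have hbC : ((1 - beta : ℝ) : ℂ) ≠ 0 := by exact_mod_cast hb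
  have h2 : (rhoR x : ℂ) = (1 - (bper x : ℂ)) / ((1 - beta : ℝ) : ℂ) := by
    rw [rhoR, Complex.ofReal_div]; push_cast; rfl
  rw [h2, PR_real, map_neg, map_mul, map_inv₀, Complex.conj_ofReal, h1, eq_div_iff hbC]
  have h3 : (1 + -((((1 - beta : ℝ) : ℂ))⁻¹ * sser x) + -((((1 - beta : ℝ) : ℂ))⁻¹ * conj (sser x))) * ((1 - beta : ℝ) : ℂ) =
    ((1 - beta : ℝ) : ℂ) - ((((1 - beta : ℝ) : ℂ))⁻¹ * ((1 - beta : ℝ) : ℂ)) * (sser x + conj (sser x)) := by ring
  rw [h3, inv_mul_cancel₀ hbC]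
  push_cast
  ring

lemma rhoR_nonneg (x : ℝ) : 0 ≤ rhoR x := by
  have h1 := bper_mem x
  have h2 := beta_le
  exact div_nonneg (by linarith) (by linarith)

lemma rhoR_le (x : ℝ) : rhoR x ≤ 50 / 49 := by
  have h1 := bper_mem x
  have h2 := beta_le
  rw [rhoR, div_le_div_iff₀ (by linarith) (by norm_num)]
  linarith

lemma rhoR_zero (x : ℝ) (m : ℤ) (h : |x - m| ≤ 1 / 200) : rhoR x = 0 := by
  rw [rhoR, bper_one x m h]; simp

lemma CellUp.neg {P : ℂ → ℂ} {C L : ℝ} (h : CellUp P C L) : CellUp (fun z => -P z) C L := by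
  refine ⟨h.cont.neg, h.diff.neg, fun z hz => ?_, fun x y => ?_⟩
  · rw [norm_neg]; exact h.bdd z hz
  · rw [neg_sub_neg, norm_sub_rev]; exact h.lip x y

theorem cellR : Cell PR (fun z => -PR z) (fun _ => 0) (fun _ => 0) (fun x => (rhoR x : ℂ)) (50 / 49) := by
  have h := cell_series summable_rco
  refine ⟨⟨_, _, h⟩, ⟨_, _, CellUp.neg h⟩, ⟨_, disp_zero⟩, fun θ => ?_, fun θ => ?_⟩
  · rw [← rhoR_rel, map_neg, sub_neg_eq_add, add_zero]
  · rw [Complex.norm_real, Real.norm_of_nonneg (rhoR_nonneg θ)]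
    exact rhoR_le θ

end Pool.Agent.Lib_helper42
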