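import Mathlib
import Pool.Agent.Lib_helper42.RCell

set_option autoImplicit false
open MeasureTheory Set Filter Topology Complex
open scoped Real ComplexConjugate

namespace Pool.Agent.Lib_helper42

/-- `C^{1,1}` profiles with values in `[0,1]` -/
structure Prof (σ σ' : ℝ → ℝ) (K : ℝ) : Prop where
  nonneg : ∀ x, 0 ≤ σ x
  le_one : ∀ x, σ x ≤ 1
  der : ∀ x, HasDerivAt σ (σ' x) x
  bdd' : ∀ x, |σ' x| ≤ K
  lip' : ∀ x y, |σ' x - σ' y| ≤ K * |x - y|

section
variable {σ σ' τ τ' : ℝ → ℝ} {K K' : ℝ}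

lemma Prof.K_nonneg (h : Prof σ σ' K) : 0 ≤ K := (abs_nonneg _).trans (h.bdd' 0)

lemma Prof.lip (h : Prof σ σ' K) (x y : ℝ) : |σ x - σ y| ≤ K * |x - y| := by
  have := Convex.norm_image_sub_le_of_norm_hasDerivWithin_le (f := σ) (f' := σ') (C := K) (s := univ)
    (x := y) (y := x) (fun x _ => (h.der x).hasDerivWithinAt) (fun x _ => by rw [Real.norm_eq_abs]; exact h.bdd' x) convex_univ
    (mem_univ _) (mem_univ _)
  simpa [Real.norm_eq_abs] using this

lemma Prof.mul (h : Prof σ σ' K) (h' : Prof τ τ' K') :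
    Prof (fun x => σ x * τ x) (fun x => σ' x * τ x + σ x * τ' x) (K + K' + 2 * K * K') := by
  have hK := h.K_nonneg
  have hK' := h'.K_nonneg
  have b1 : ∀ x, |σ x| ≤ 1 := fun x => abs_le.2 ⟨by linarith [h.nonneg x], h.le_one x⟩
  have b2 : ∀ x, |τ x| ≤ 1 := fun x => abs_le.2 ⟨by linarith [h'.nonneg x], h'.le_one x⟩
  refine ⟨fun x => mul_nonneg (h.nonneg x) (h'.nonneg x), fun x => mul_le_one₀ (h.le_one x) (h'.nonneg x) (h'.le_one x),
    fun x => (h.der x).mul (h'.der x), fun x => ?_, fun x y => ?_⟩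
  · calc |σ' x * τ x + σ x * τ' x| ≤ |σ' x| * |τ x| + |σ x| * |τ' x| := by
          rw [← abs_mul, ← abs_mul]; exact abs_add_le _ _
      _ ≤ K * 1 + 1 * K' := by
          gcongr
          · exact h.bdd' x
          · exact b2 x
          · exact b1 x
          · exact h'.bdd' x
      _ ≤ _ := by nlinarith [mul_nonneg hK hK']
  · have e : σ' x * τ x + σ x * τ' x - (σ' y * τ y + σ y * τ' y) =
      ((σ' x - σ' y) * τ x + σ' y * (τ x - τ y)) + ((σ x - σ y) * τ' x + σ y * (τ' x - τ' y)) := by ring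
    rw [e]
    have c1 : |(σ' x - σ' y) * τ x| ≤ K * |x - y| * 1 := by
      rw [abs_mul]; gcongr
      · exact h.lip' x y
      · exact b2 x
    have c2 : |σ' y * (τ x - τ y)| ≤ K * (K' * |x - y|) := by
      rw [abs_mul]; gcongr
      · exact h.bdd' y
      · exact h'.lip x y
    have c3 : |(σ x - σ y) * τ' x| ≤ K * |x - y| * K' := by
      rw [abs_mul]; gcongr
      · exact h.lip x y
      · exact h'.bdd' x
    have c4 : |σ y * (τ' x - τ' y)| ≤ 1 * (K' * |x - y|) := by
      rw [abs_mul]; gcongr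
      · exact b1 y
      · exact h'.lip' x y
    have d1 := abs_add_le ((σ' x - σ' y) * τ x) (σ' y * (τ x - τ y))
    have d2 := abs_add_le ((σ x - σ y) * τ' x) (σ y * (τ' x - τ' y))
    refine (abs_add_le _ _).trans ?_
    calc _ ≤ (K * |x - y| * 1 + K * (K' * |x - y|)) + (K * |x - y| * K' + 1 * (K' * |x - y|)) := by linarith
      _ = _ := by ring

lemma Prof.comp (h : Prof σ σ' K) {φ φ' : ℝ → ℝ} {B : ℝ} (hB : 0 ≤ B) (hd : ∀ x, HasDerivAt φ (φ' x) x)
    (hb : ∀ x, |φ' x| ≤ B) (hl : ∀ x y, |φ' x - φ' y| ≤ B * |x - y|) :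
    Prof (fun x => σ (φ x)) (fun x => σ' (φ x) * φ' x) (K * B + K * B ^ 2) := by
  have hK := h.K_nonneg
  have hlip : ∀ x y, |φ x - φ y| ≤ B * |x - y| := by
    intro x y
    have := Convex.norm_image_sub_le_of_norm_hasDerivWithin_le (f := φ) (f' := φ') (C := B) (s := univ)
      (x := y) (y := x) (fun x _ => (hd x).hasDerivWithinAt) (fun x _ => by rw [Real.norm_eq_abs]; exact hb x) convex_univ
      (mem_univ _) (mem_univ _)
    simpa [Real.norm_eq_abs] using this
  refine ⟨fun x => h.nonneg _, fun x => h.le_one _, fun x => (h.der (φ x)).comp x (hd x), fun x => ?_, fun x y => ?_⟩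
  · rw [abs_mul]
    calc |σ' (φ x)| * |φ' x| ≤ K * B := by
          gcongr
          · exact h.bdd' _
          · exact hb x
      _ ≤ _ := by nlinarith [mul_nonneg hK (sq_nonneg B)]
  · have e : σ' (φ x) * φ' x - σ' (φ y) * φ' y = (σ' (φ x) - σ' (φ y)) * φ' x + σ' (φ y) * (φ' x - φ' y) := by ring
    rw [e]
    refine (abs_add_le _ _).trans ?_
    rw [abs_mul, abs_mul]
    calc |σ' (φ x) - σ' (φ y)| * |φ' x| + |σ' (φ y)| * |φ' x - φ' y| ≤ (K * (B * |x - y|)) * B + K * (B * |x - y|) := by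
          gcongr
          · exact (h.lip' _ _).trans (mul_le_mul_of_nonneg_left (hlip x y) hK)
          · exact hb x
          · exact h.bdd' _
          · exact hl x y
      _ = _ := by ring

lemma Prof.affine (h : Prof σ σ' K) (a b : ℝ) :
    Prof (fun x => σ (a * x + b)) (fun x => σ' (a * x + b) * a) (K * |a| + K * |a| ^ 2) := by
  have hd : ∀ x, HasDerivAt (fun x : ℝ => a * x + b) ((fun _ => a) x) x := by
    intro x
    simpa using ((hasDerivAt_id x).const_mul a).add_const b
  exact h.comp (abs_nonneg a) hd (fun x => le_rfl) (fun x y => by simp; positivity)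

end

noncomputable def tent (v : ℝ) : ℝ := 4 * max 0 (1 / 2 - |v - 1 / 2|)
noncomputable def sstep (u : ℝ) : ℝ := ∫ v in (0:ℝ)..u, tent v

lemma tent_cont : Continuous tent := by unfold tent; fun_prop
lemma tent_nonneg (v : ℝ) : 0 ≤ tent v := by unfold tent; positivity
lemma tent_le (v : ℝ) : tent v ≤ 2 := by
  have := abs_nonneg (v - 1 / 2)
  have : max 0 (1 / 2 - |v - 1 / 2|) ≤ 1 / 2 := max_le (by norm_num) (by linarith)
  unfold tent; linarith
lemma tent_lip (x y : ℝ) : |tent x - tent y| ≤ 4 * |x - y| := by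
  unfold tent
  rw [← mul_sub, abs_mul, abs_of_pos (by norm_num : (0:ℝ) < 4)]
  have h1 := abs_max_sub_max_le_abs (1 / 2 - |x - 1 / 2|) (1 / 2 - |y - 1 / 2|) 0
  rw [max_comm _ 0, max_comm _ 0] at h1
  have h2 : |1 / 2 - |x - 1 / 2| - (1 / 2 - |y - 1 / 2|)| ≤ |x - y| := by
    have h3 := abs_abs_sub_abs_le (y - 1 / 2) (x - 1 / 2)
    have e1 : 1 / 2 - |x - 1 / 2| - (1 / 2 - |y - 1 / 2|) = |y - 1 / 2| - |x - 1 / 2| := by ring
    have e2 : |(y - 1 / 2) - (x - 1 / 2)| = |x - y| := by rw [abs_sub_comm]; congr 1; ring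
    rw [e1, ← e2]; exact h3
  linarith
lemma tent_of_nonpos {v : ℝ} (h : v ≤ 0) : tent v = 0 := by
  unfold tent
  rw [abs_of_nonpos (by linarith), max_eq_left (by linarith)]; ring
lemma tent_of_ge_one {v : ℝ} (h : 1 ≤ v) : tent v = 0 := by
  unfold tent
  rw [abs_of_nonneg (by linarith), max_eq_left (by linarith)]; ring

lemma sstep_der (u : ℝ) : HasDerivAt sstep (tent u) u :=
  intervalIntegral.integral_hasDerivAt_right (tent_cont.intervalIntegrable _ _)
    (tent_cont.stronglyMeasurableAtFilter _ _) tent_cont.continuousAt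

lemma sstep_mono : Monotone sstep := by
  apply monotone_of_deriv_nonneg (fun x => (sstep_der x).differentiableAt)
  intro x
  rw [(sstep_der x).deriv]; exact tent_nonneg x

lemma sstep_of_nonpos {u : ℝ} (h : u ≤ 0) : sstep u = 0 := by
  unfold sstep
  rw [intervalIntegral.integral_symm]
  have : ∫ v in u..0, tent v = ∫ v in u..0, (0:ℝ) := by
    apply intervalIntegral.integral_congr
    intro v hv
    rw [uIcc_of_le h] at hv
    exact tent_of_nonpos hv.2
  rw [this]; simp

lemma sstep_one : sstep 1 = 1 := by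
  unfold sstep
  rw [← intervalIntegral.integral_add_adjacent_intervals (b := 1 / 2) (tent_cont.intervalIntegrable _ _)
    (tent_cont.intervalIntegrable _ _)]
  have h1 : ∫ v in (0:ℝ)..(1 / 2), tent v = ∫ v in (0:ℝ)..(1 / 2), 4 * v := by
    apply intervalIntegral.integral_congr
    intro v hv
    rw [uIcc_of_le (by norm_num)] at hv
    show tent v = 4 * v
    unfold tent
    rw [abs_of_nonpos (by linarith [hv.2]), max_eq_right (by linarith [hv.1])]; ring
  have h2 : ∫ v in (1 / 2:ℝ)..1, tent v = ∫ v in (1 / 2:ℝ)..1, (4 - 4 * v) := by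
    apply intervalIntegral.integral_congr
    intro v hv
    rw [uIcc_of_le (by norm_num)] at hv
    show tent v = 4 - 4 * v
    unfold tent
    rw [abs_of_nonneg (by linarith [hv.1]), max_eq_right (by linarith [hv.2])]; ring
  rw [h1, h2, intervalIntegral.integral_sub (by simp) (by apply Continuous.intervalIntegrable; fun_prop), intervalIntegral.integral_const_mul, intervalIntegral.integral_const_mul,
    integral_id, integral_id, intervalIntegral.integral_const]
  norm_num

lemma sstep_of_ge_one {u : ℝ} (h : 1 ≤ u) : sstep u = 1 := by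
  have : sstep u = sstep 1 + ∫ v in (1:ℝ)..u, tent v := by
    unfold sstep
    rw [intervalIntegral.integral_add_adjacent_intervals (tent_cont.intervalIntegrable _ _)
      (tent_cont.intervalIntegrable _ _)]
  rw [this, sstep_one]
  have : ∫ v in (1:ℝ)..u, tent v = ∫ v in (1:ℝ)..u, (0:ℝ) := by
    apply intervalIntegral.integral_congr
    intro v hv
    rw [uIcc_of_le h] at hv
    exact tent_of_ge_one hv.1
  rw [this]; simp

lemma prof_sstep : Prof sstep tent 4 := by
  refine ⟨fun x => ?_, fun x => ?_, sstep_der, fun x => ?_, tent_lip⟩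
  · rcases le_total x 0 with h | h
    · rw [sstep_of_nonpos h]
    · rw [← sstep_of_nonpos (le_refl (0:ℝ))]; exact sstep_mono h
  · rcases le_total x 1 with h | h
    · rw [← sstep_one]; exact sstep_mono h
    · rw [sstep_of_ge_one h]
  · rw [abs_of_nonneg (tent_nonneg x)]
    linarith [tent_le x]

/-- there is an initial cutoff together with an amplitude -/
lemma exists_init : ∃ (χ χ' : ℝ → ℝ) (K : ℝ) (g : ℝ → ℂ) (L : ℝ), Cut χ χ' K ∧ Amp g 1 L ∧
    (∀ x, g x ≠ 0 → χ x = 1) ∧ (∀ x ∈ Icc (1 / 5 : ℝ) (4 / 5), g x = 1) := by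
  have p1 := (prof_sstep.affine 10 0).mul (prof_sstep.affine (-10) 10)
  have p2 := (prof_sstep.affine 10 (-1)).mul (prof_sstep.affine (-10) 9)
  refine ⟨_, _, _, fun x => ((sstep (10 * x + -1) * sstep (-10 * x + 9) : ℝ) : ℂ),
    (4 * |10| + 4 * |10| ^ 2 + (4 * |(-10)| + 4 * |(-10)| ^ 2) +
        2 * (4 * |10| + 4 * |10| ^ 2) * (4 * |(-10)| + 4 * |(-10)| ^ 2) : ℝ), ⟨p1.nonneg, p1.le_one, p1.der, p1.bdd', p1.lip', fun x hx => ?_⟩,
    ⟨fun x => ?_, fun x y => ?_, fun x hx => ?_⟩, fun x hx => ?_, fun x hx => ?_⟩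
  · show sstep (10 * x + 0) * sstep (-10 * x + 10) = 0
    rw [mem_Ioo, not_and_or, not_lt, not_lt] at hx
    rcases hx with h | h
    · rw [sstep_of_nonpos (by linarith), zero_mul]
    · rw [sstep_of_nonpos (u := -10 * x + 10) (by linarith), mul_zero]
  · rw [Complex.norm_real, Real.norm_of_nonneg (p2.nonneg x)]
    exact p2.le_one x
  · rw [← Complex.ofReal_sub, Complex.norm_real, Real.norm_eq_abs]
    exact p2.lip x y
  · show ((sstep (10 * x + -1) * sstep (-10 * x + 9) : ℝ) : ℂ) = 0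
    rw [mem_Ioo, not_and_or, not_lt, not_lt] at hx
    rcases hx with h | h
    · rw [sstep_of_nonpos (by linarith), zero_mul, Complex.ofReal_zero]
    · rw [sstep_of_nonpos (u := -10 * x + 9) (by linarith), mul_zero, Complex.ofReal_zero]
  · show sstep (10 * x + 0) * sstep (-10 * x + 10) = 1
    have h1 : ¬ (10 * x + -1 ≤ 0) := by
      intro h
      apply hx
      show ((sstep (10 * x + -1) * sstep (-10 * x + 9) : ℝ) : ℂ) = 0
      rw [sstep_of_nonpos h, zero_mul, Complex.ofReal_zero]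
    have h2 : ¬ (-10 * x + 9 ≤ 0) := by
      intro h
      apply hx
      show ((sstep (10 * x + -1) * sstep (-10 * x + 9) : ℝ) : ℂ) = 0
      rw [sstep_of_nonpos (u := -10 * x + 9) h, mul_zero, Complex.ofReal_zero]
    rw [not_le] at h1 h2
    rw [sstep_of_ge_one (by linarith), sstep_of_ge_one (by linarith), one_mul]
  · show ((sstep (10 * x + -1) * sstep (-10 * x + 9) : ℝ) : ℂ) = 1
    rw [sstep_of_ge_one (by linarith [hx.1]), sstep_of_ge_one (by linarith [hx.2]), one_mul, Complex.ofReal_one]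

/-- the periodic cutoff -/
lemma exists_percut : ∃ (σ σ' : ℝ → ℝ) (K : ℝ), Prof σ σ' K ∧
    (∀ (x : ℝ) (m : ℤ), |x - m| ≤ 1 / 500 → σ x = 0) ∧
    (∀ x : ℝ, (∀ m : ℤ, 1 / 200 < |x - m|) → σ x = 1) := by
  have hπ := Real.pi_pos
  have hπ2 := Real.pi_lt_d2
  have hπ3 := Real.pi_gt_three
  have hd : ∀ x : ℝ, HasDerivAt (fun x : ℝ => 10000 * (1 - Real.cos (2 * π * x)) - 1) (20000 * π * Real.sin (2 * π * x)) x := by
    intro x
    have hlin : HasDerivAt (fun x : ℝ => 2 * π * x) (2 * π) x := by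
      simpa using (hasDerivAt_id x).const_mul (2 * π)
    have := (((hlin.cos).const_sub 1).const_mul 10000).sub_const 1
    refine this.congr_deriv ?_
    ring
  refine ⟨_, _, _, prof_sstep.comp (B := 40000 * π ^ 2) (by positivity) hd (fun x => ?_) (fun x y => ?_), fun x m h => ?_, fun x h => ?_⟩
  · rw [abs_mul, abs_of_pos (by positivity : 0 < 20000 * π)]
    have := Real.abs_sin_le_one (2 * π * x)
    calc 20000 * π * |Real.sin (2 * π * x)| ≤ 20000 * π * 1 := by gcongr
      _ ≤ 40000 * π ^ 2 := by nlinarith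
  · have h1 : |Real.sin (2 * π * x) - Real.sin (2 * π * y)| ≤ 2 * π * |x - y| := by
      have := Real.abs_sin_sub_sin_le (2 * π * x) (2 * π * y)
      rw [← mul_sub, abs_mul, abs_of_pos (by positivity : 0 < 2 * π)] at this
      exact this
    rw [← mul_sub, abs_mul, abs_of_pos (by positivity : 0 < 20000 * π)]
    calc 20000 * π * |Real.sin (2 * π * x) - Real.sin (2 * π * y)| ≤ 20000 * π * (2 * π * |x - y|) := by gcongr
      _ = _ := by ring
  · apply sstep_of_nonpos
    have h1 : Real.cos (2 * π * x) = Real.cos (2 * π * (x - m)) := by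
      rw [mul_sub, show 2 * π * (m : ℝ) = m * (2 * π) by ring, Real.cos_sub_int_mul_two_pi]
    have h2 := Real.one_sub_sq_div_two_le_cos (x := 2 * π * (x - m))
    rw [h1]
    have h3 : (x - m) ^ 2 ≤ (1 / 500) ^ 2 := by
      rw [← sq_abs (x - m)]; gcongr
    have h4 : (2 * π * (x - m)) ^ 2 / 2 ≤ 1 / 10000 := by
      have : (2 * π * (x - m)) ^ 2 / 2 = 2 * π ^ 2 * (x - m) ^ 2 := by ring
      rw [this]
      calc 2 * π ^ 2 * (x - m) ^ 2 ≤ 2 * (3.15) ^ 2 * (1 / 500) ^ 2 := by gcongr
        _ ≤ 1 / 10000 := by norm_num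
    linarith
  · apply sstep_of_ge_one
    set y := x - round x with hy
    have h1 : Real.cos (2 * π * x) = Real.cos (2 * π * y) := by
      rw [hy, mul_sub, show 2 * π * ((round x : ℤ) : ℝ) = (round x : ℤ) * (2 * π) by ring, Real.cos_sub_int_mul_two_pi]
    have h2 : |y| ≤ 1 / 2 := abs_sub_round x
    have h3 : 1 / 200 < |y| := h (round x)
    have h4 : Real.cos (2 * π * y) = 1 - 2 * Real.sin (π * |y|) ^ 2 := by
      have : Real.cos (2 * π * y) = Real.cos (2 * (π * |y|)) := by
        rw [← Real.cos_abs (2 * π * y), abs_mul, abs_of_pos (by positivity : 0 < 2 * π)]; ring_nf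
      rw [this, Real.cos_two_mul]
      have := Real.sin_sq_add_cos_sq (π * |y|)
      linarith
    have h5 : 2 / π * (π * |y|) ≤ Real.sin (π * |y|) := Real.mul_le_sin (by positivity) (by nlinarith)
    have h6 : 2 / π * (π * |y|) = 2 * |y| := by field_simp
    rw [h6] at h5
    have h7 : (1 / 100) ^ 2 ≤ Real.sin (π * |y|) ^ 2 := by
      gcongr; linarith
    rw [h1, h4]
    linarith

end Pool.Agent.Lib_helper42
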