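import Mathlib
import Pool.Agent.Lib_helper42.Cutoff

set_option autoImplicit false
open MeasureTheory Set Filter Topology Complex
open scoped Real ComplexConjugate

namespace Pool.Agent.Lib_helper42

/-- the frozen set at frequency `T` -/
def frz (T : ℝ) : Set ℝ := ⋃ m : ℤ, {x : ℝ | |T * x - m| ≤ 1 / 500}

lemma measurableSet_frz (T : ℝ) : MeasurableSet (frz T) := by
  apply MeasurableSet.iUnion
  intro m
  exact measurableSet_le (by fun_prop) measurable_const

lemma mem_frz {T x : ℝ} (m : ℤ) (h : |T * x - m| ≤ 1 / 500) : x ∈ frz T := mem_iUnion.2 ⟨m, h⟩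

lemma frz_cover {T : ℝ} (hT : 0 < T) (a b : ℝ) :
    Ico (a + 1 / T) b ⊆ ⋃ j ∈ Finset.range 500, (fun x => x + (j : ℝ) / (500 * T)) '' (frz T ∩ Ico a b) := by
  intro x hx
  set m := ⌊T * x⌋ with hm
  set y := T * x - m with hy
  have hy0 : 0 ≤ y := by rw [hy]; linarith [Int.floor_le (T * x)]
  have hy1 : y < 1 := by rw [hy]; linarith [Int.lt_floor_add_one (T * x)]
  set j := ⌊500 * y⌋₊ with hj
  have hj0 : (j : ℝ) ≤ 500 * y := Nat.floor_le (by positivity)
  have hj1 : 500 * y < j + 1 := Nat.lt_floor_add_one _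
  have hj500 : j < 500 := by
    have : (j : ℝ) < 500 := by linarith
    exact_mod_cast this
  rw [mem_iUnion₂]
  refine ⟨j, Finset.mem_range.2 hj500, x - (j : ℝ) / (500 * T), ⟨?_, ?_, ?_⟩, by ring⟩
  · apply mem_frz m
    have e : T * (x - (j : ℝ) / (500 * T)) - m = y - j / 500 := by
      rw [hy]; field_simp; ring
    rw [e, abs_le]
    constructor <;> linarith
  · have : (j : ℝ) / (500 * T) ≤ 1 / T := by
      rw [div_le_div_iff₀ (by positivity) hT]
      have : (j : ℝ) < 500 := by exact_mod_cast hj500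
      nlinarith
    linarith [hx.1]
  · have : 0 ≤ (j : ℝ) / (500 * T) := by positivity
    linarith [hx.2]

lemma frz_measure {T : ℝ} (hT : 0 < T) {a b : ℝ} (hab : 2 / T ≤ b - a) :
    ENNReal.ofReal ((b - a) / 1000) ≤ volume (frz T ∩ Ico a b) := by
  have h1 := measure_mono (μ := volume) (frz_cover hT a b)
  rw [Real.volume_Ico] at h1
  have h2 : volume (⋃ j ∈ Finset.range 500, (fun x => x + (j : ℝ) / (500 * T)) '' (frz T ∩ Ico a b)) ≤
      500 * volume (frz T ∩ Ico a b) := by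
    refine (measure_biUnion_finset_le _ _).trans ?_
    have : ∀ j ∈ Finset.range 500, volume ((fun x => x + (j : ℝ) / (500 * T)) '' (frz T ∩ Ico a b)) = volume (frz T ∩ Ico a b) := by
      intro j _
      rw [image_add_right, measure_preimage_add_right]
    rw [Finset.sum_congr rfl this, Finset.sum_const, Finset.card_range, nsmul_eq_mul]
    norm_num
  have h3 := h1.trans h2
  have h4 : ENNReal.ofReal ((b - a) / 2) ≤ 500 * volume (frz T ∩ Ico a b) := by
    refine le_trans (ENNReal.ofReal_le_ofReal ?_) h3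
    have : 1 / T = (2 / T) / 2 := by ring
    linarith
  have h5 : ENNReal.ofReal ((b - a) / 2) = 500 * ENNReal.ofReal ((b - a) / 1000) := by
    rw [show (500 : ENNReal) = ENNReal.ofReal 500 by norm_num, ← ENNReal.ofReal_mul (by norm_num)]
    congr 1; ring
  rw [h5] at h4
  exact (ENNReal.mul_le_mul_iff_right (by norm_num) (by norm_num)).1 h4

/-- the robust portion property down to scale `s` -/
def Rob (H H' χ : ℝ → ℝ) (s τ : ℝ) : Prop :=
  ∀ g : ℝ → ℝ, (∀ x, χ x = 0 → g x = x) → (∀ x, |g x - x| ≤ τ) → ∀ a b : ℝ, s ≤ b - a →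
    ∃ F : Set ℝ, MeasurableSet F ∧ F ⊆ Ico a b ∧ (∀ x ∈ F, χ x = 0) ∧
      ENNReal.ofReal ((b - a) / 1000) ≤ volume F ∧ ∀ x ∈ F, (H (g b) - H (g a)) / 1000 ≤ H' x * (b - a)

/-- slow variation -/
def SV (H' : ℝ → ℝ) (k r : ℝ) : Prop := ∀ x y, |x - y| ≤ r → H' x ≤ k * H' y

/-- portion property -/
def Port (H H' : ℝ → ℝ) : Prop := ∀ a b : ℝ, a < b →
    ∃ F : Set ℝ, MeasurableSet F ∧ F ⊆ Ico a b ∧
      ENNReal.ofReal ((b - a) / 1000) ≤ volume F ∧ ∀ x ∈ F, (H b - H a) / 1000 ≤ H' x * (b - a)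

section
variable {H H' χ χ' : ℝ → ℝ} {c C M Kc : ℝ}

lemma Dif.sub_le_local (hD : Dif H H' c C M) {a b B : ℝ} (hab : a ≤ b) (hB : ∀ y ∈ Icc a b, H' y ≤ B) :
    H b - H a ≤ B * (b - a) := by
  apply Convex.image_sub_le_mul_sub_of_deriv_le (convex_Icc a b) hD.contH.continuousOn
    (fun x _ => (hD.der x).differentiableAt.differentiableWithinAt) (fun x hx => ?_) a (left_mem_Icc.2 hab) b (right_mem_Icc.2 hab) hab
  rw [(hD.der x).deriv]
  exact hB x (interior_subset hx)

lemma port_of_rob (hD : Dif H H' c C M) {s τ : ℝ} (hτ : 0 < τ) (hr : Rob H H' χ s τ) (hsv : SV H' 64 s) : Port H H' := by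
  intro a b hab
  by_cases hs : s ≤ b - a
  · obtain ⟨F, h1, h2, -, h4, h5⟩ := hr (fun x => x) (fun x _ => rfl) (fun x => by simp [hτ.le]) a b hs
    exact ⟨F, h1, h2, h4, h5⟩
  · rw [not_le] at hs
    refine ⟨Ico a b, measurableSet_Ico, le_rfl, ?_, fun x hx => ?_⟩
    · rw [Real.volume_Ico]; exact ENNReal.ofReal_le_ofReal (by linarith)
    · have h1 : H b - H a ≤ (64 * H' x) * (b - a) := by
        apply hD.sub_le_local hab.le
        intro y hy
        apply hsv
        rw [abs_le]; constructor <;> linarith [hx.1, hx.2, hy.1, hy.2]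
      have h2 := hD.pos x
      have h3 : 0 ≤ H' x * (b - a) := mul_nonneg h2.le (by linarith)
      linarith

lemma Rob.mono {s τ τ' : ℝ} (h : Rob H H' χ s τ) (hτ : τ' ≤ τ) : Rob H H' χ s τ' :=
  fun g h1 h2 => h g h1 (fun x => (h2 x).trans hτ)

/-- adding a new frozen generation -/
lemma rob_freeze (hD : Dif H H' c C M) {s τ : ℝ} (hr : Rob H H' χ s τ) (hsv : SV H' 64 s)
    {σ : ℝ → ℝ} (hσ : ∀ (x : ℝ) (m : ℤ), |x - m| ≤ 1 / 500 → σ x = 0) {T : ℝ} (hT : 0 < T) {τ' : ℝ} (hτ' : τ' ≤ τ)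
    (hτ'' : τ' ≤ c / (C * T)) :
    Rob H H' (fun x => χ x * σ (T * x)) (2 / T) τ' := by
  intro g hg1 hg2 a b hab
  by_cases hs : s ≤ b - a
  · obtain ⟨F, h1, h2, h3, h4, h5⟩ := hr g (fun x hx => hg1 x (by show χ x * σ (T * x) = 0; rw [hx, zero_mul])) (fun x => (hg2 x).trans hτ') a b hs
    exact ⟨F, h1, h2, fun x hx => by show χ x * σ (T * x) = 0; rw [h3 x hx, zero_mul], h4, h5⟩
  · rw [not_le] at hs
    have hc := hD.c_pos
    have hC := hD.C_pos
    have hab' : a < b := by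
      have : 0 < 2 / T := by positivity
      linarith
    refine ⟨frz T ∩ Ico a b, (measurableSet_frz T).inter measurableSet_Ico, inter_subset_right, fun x hx => ?_,
      frz_measure hT hab, fun x hx => ?_⟩
    · obtain ⟨m, hm⟩ := mem_iUnion.1 hx.1
      show χ x * σ (T * x) = 0
      rw [hσ _ m hm, mul_zero]
    · have h1 : H b - H a ≤ (64 * H' x) * (b - a) := by
        apply hD.sub_le_local hab'.le
        intro y hy
        apply hsv
        rw [abs_le]; constructor <;> linarith [hx.2.1, hx.2.2, hy.1, hy.2]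
      have h2 : |H (g b) - H b| ≤ C * τ' := (hD.abs_sub_le _ _).trans (mul_le_mul_of_nonneg_left (hg2 b) hC.le)
      have h3 : |H (g a) - H a| ≤ C * τ' := (hD.abs_sub_le _ _).trans (mul_le_mul_of_nonneg_left (hg2 a) hC.le)
      have h4 : C * τ' ≤ c / T := by
        calc C * τ' ≤ C * (c / (C * T)) := by gcongr
          _ = c / T := by field_simp
      have h5 : 2 * (c / T) ≤ c * (b - a) := by
        calc 2 * (c / T) = c * (2 / T) := by ring
          _ ≤ _ := by gcongr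
      have h6 : c * (b - a) ≤ H' x * (b - a) := mul_le_mul_of_nonneg_right (hD.lo x) (by linarith)
      have h7 := abs_le.1 h2
      have h8 := abs_le.1 h3
      have h9 : 0 ≤ H' x * (b - a) := mul_nonneg (hD.pos x).le (by linarith)
      linarith

lemma Cut.der_zero (h : Cut χ χ' Kc) {x : ℝ} (hx : χ x = 0) : χ' x = 0 := by
  have hmin : IsLocalMin χ x := Eventually.of_forall (fun y => by rw [hx]; exact h.nonneg y)
  exact hmin.hasDerivAt_eq_zero (h.der x)

/-- composing with a small displacement -/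
lemma rob_comp {s τ : ℝ} (hr : Rob H H' χ s τ) (hχ : Cut χ χ' Kc) {η η' : ℝ → ℝ} {Kd : ℝ} (hη : Disp η η' Kd)
    {t : ℝ} (ht : 0 < t) (hsmall : Kd / t ^ 4 ≤ τ / 2) :
    Rob (fun x => H (hp χ η t x)) (fun x => H' (hp χ η t x) * hp' χ χ' η η' t x) χ s (τ / 2) := by
  intro g hg1 hg2 a b hab
  have hfix : ∀ x, χ x = 0 → hp χ η t x = x := by
    intro x hx; rw [hp, hx]; simp
  obtain ⟨F, h1, h2, h3, h4, h5⟩ := hr (fun x => hp χ η t (g x)) (fun x hx => by
      show hp χ η t (g x) = x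
      rw [hg1 x hx, hfix x hx])
    (fun x => by
      have h1 := abs_hp_sub_le hχ hη ht (g x)
      have h2 := hg2 x
      calc |hp χ η t (g x) - x| = |(hp χ η t (g x) - g x) + (g x - x)| := by ring_nf
        _ ≤ |hp χ η t (g x) - g x| + |g x - x| := abs_add_le _ _
        _ ≤ τ := by linarith) a b hab
  refine ⟨F, h1, h2, h3, h4, fun x hx => ?_⟩
  have h6 := h5 x hx
  have h7 : hp' χ χ' η η' t x = 1 := by
    rw [hp', h3 x hx, hχ.der_zero (h3 x hx)]; simp
  show _ ≤ H' (hp χ η t x) * hp' χ χ' η η' t x * (b - a)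
  rw [h7, hfix x (h3 x hx), mul_one]
  exact h6

lemma sv_comp (hD : Dif H H' c C M) (hχ : Cut χ χ' Kc) {η η' : ℝ → ℝ} {Kd : ℝ} (hη : Disp η η' Kd)
    {t s : ℝ} (ht1 : 1 ≤ t) (ht : 12 * (Kc * Kd) ≤ t ^ 4) (hs : 2 * (Kd / t ^ 4) ≤ s) (hsv : SV H' 2 (2 * s)) :
    SV (fun x => H' (hp χ η t x) * hp' χ χ' η η' t x) 64 s := by
  intro x y hxy
  have hd := hp_dif hχ hη ht1 ht
  have ht0 : 0 < t := by linarith
  have h1 := abs_hp_sub_le hχ hη ht0 x
  have h2 := abs_hp_sub_le hχ hη ht0 y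
  have h3 : |hp χ η t x - hp χ η t y| ≤ 2 * s := by
    have h1' := abs_le.1 h1
    have h2' := abs_le.1 h2
    have hxy' := abs_le.1 hxy
    rw [abs_le]; constructor <;> linarith
  have h4 := hsv _ _ h3
  have h5 := hd.lo y
  have h6 := hd.hi x
  have h7 := hD.pos (hp χ η t x)
  have h8 := hD.pos (hp χ η t y)
  calc H' (hp χ η t x) * hp' χ χ' η η' t x ≤ (2 * H' (hp χ η t y)) * 4 := by
        have := hd.pos x
        gcongr
    _ = 32 * (H' (hp χ η t y) * (1 / 4)) := by ring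
    _ ≤ 64 * (H' (hp χ η t y) * hp' χ χ' η η' t y) := by
        have h9 : H' (hp χ η t y) * (1 / 4) ≤ H' (hp χ η t y) * hp' χ χ' η η' t y := by gcongr
        have h10 : 0 ≤ H' (hp χ η t y) * (1 / 4) := by positivity
        linarith

/-- Lipschitz derivatives vary slowly at small scales -/
lemma sv_small (hD : Dif H H' c C M) {r : ℝ} (hr : M * r ≤ c) : SV H' 2 r := by
  intro x y hxy
  have h1 := hD.lip x y
  have h2 := hD.lo y
  have h3 := hD.M_nonneg
  have h4 : M * |x - y| ≤ M * r := by gcongr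
  have h5 := (abs_le.1 h1).2
  linarith

end

end Pool.Agent.Lib_helper42
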