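import Mathlib
import Pool.Agent.Lib_helper42.Frozen

set_option autoImplicit false
open MeasureTheory Set Filter Topology Complex
open scoped Real ComplexConjugate

namespace Pool.Agent.Lib_helper42

lemma integral_exp_neg_le {B T : ℝ} (hB : 0 < B) : ∫ y in (0:ℝ)..T, Real.exp (-(B * y)) ≤ 1 / B := by
  have h : ∀ y : ℝ, HasDerivAt (fun y => -(1 / B) * Real.exp (-(B * y))) (Real.exp (-(B * y))) y := by
    intro y
    have h1 : HasDerivAt (fun y : ℝ => -(B * y)) (-B) y := by
      have h2 := (hasDerivAt_id y).const_mul (-B)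
      simp only [id, mul_one, neg_mul] at h2
      exact h2
    refine (h1.exp.const_mul (-(1 / B))).congr_deriv ?_
    field_simp
  rw [intervalIntegral.integral_eq_sub_of_hasDerivAt (fun y _ => h y) (by apply Continuous.intervalIntegrable; fun_prop)]
  rw [mul_zero, neg_zero, Real.exp_zero]
  have : 0 ≤ 1 / B * Real.exp (-(B * T)) := by positivity
  linarith

lemma rect_bound {F : ℂ → ℂ} (hc : ContinuousOn F {z : ℂ | 0 ≤ z.im}) (hd : DifferentiableOn ℂ F {z : ℂ | 0 < z.im})
    {A B : ℝ} (hB : 0 < B) (hF : ∀ z : ℂ, 0 ≤ z.im → ‖F z‖ ≤ A * Real.exp (-(B * z.im))) {a b : ℝ} (hab : a ≤ b) :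
    ‖∫ x in a..b, F x‖ ≤ 2 * (A / B) := by
  have hA : 0 ≤ A := by
    have := (norm_nonneg _).trans (hF 0 (by simp))
    simpa using this
  have key : ∀ T : ℝ, 0 < T → ‖∫ x in a..b, F x‖ ≤ (b - a) * (A * Real.exp (-(B * T))) + 2 * (A / B) := by
    intro T hT
    have hrect := Complex.integral_boundary_rect_eq_zero_of_continuousOn_of_differentiableOn F (a : ℂ) (b + T * I)
      (by
        apply hc.mono
        intro z hz
        rw [Complex.mem_reProdIm] at hz
        have := hz.2
        simp only [ofReal_im, add_im, mul_im, ofReal_re, I_im, mul_one, I_re, mul_zero, add_zero, zero_add, uIcc_of_le hT.le] at this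
        exact this.1)
      (by
        apply hd.mono
        intro z hz
        rw [Complex.mem_reProdIm] at hz
        have := hz.2
        simp only [ofReal_im, add_im, mul_im, ofReal_re, I_im, mul_one, I_re, mul_zero, add_zero, zero_add,
          min_eq_left hT.le, max_eq_right hT.le] at this
        exact this.1)
    simp only [ofReal_im, add_im, mul_im, ofReal_re, I_im, mul_one, I_re, mul_zero, add_zero, zero_add, add_re, mul_re,
      sub_zero, ofReal_zero, zero_mul] at hrect
    have e : (∫ x in a..b, F x) = (∫ x in a..b, F (x + T * I)) - I • (∫ y in (0:ℝ)..T, F (b + y * I)) + I • (∫ y in (0:ℝ)..T, F (a + y * I)) := by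
      linear_combination hrect
    rw [e]
    have hside : ∀ r : ℝ, ‖I • (∫ y in (0:ℝ)..T, F (r + y * I))‖ ≤ A / B := by
      intro r
      rw [norm_smul, norm_I, one_mul]
      have h1 : ‖∫ y in (0:ℝ)..T, F (r + y * I)‖ ≤ ∫ y in (0:ℝ)..T, A * Real.exp (-(B * y)) := by
        apply intervalIntegral.norm_integral_le_of_norm_le hT.le
        · refine Eventually.of_forall (fun y hy => ?_)
          have := hF (r + y * I) (by simpa using hy.1.le)
          simpa using this
        · apply Continuous.intervalIntegrable; fun_prop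
      refine h1.trans ?_
      rw [intervalIntegral.integral_const_mul]
      calc A * ∫ y in (0:ℝ)..T, Real.exp (-(B * y)) ≤ A * (1 / B) := by
            gcongr; exact integral_exp_neg_le hB
        _ = A / B := by ring
    have htop : ‖∫ x in a..b, F (x + T * I)‖ ≤ (b - a) * (A * Real.exp (-(B * T))) := by
      have h1 : ‖∫ x in a..b, F (x + T * I)‖ ≤ (A * Real.exp (-(B * T))) * |b - a| := by
        apply intervalIntegral.norm_integral_le_of_norm_le_const
        intro x hx
        have := hF (x + T * I) (by simpa using hT.le)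
        simpa using this
      rw [abs_of_nonneg (by linarith)] at h1
      linarith
    calc _ ≤ ‖(∫ x in a..b, F (x + T * I)) - I • (∫ y in (0:ℝ)..T, F (b + y * I))‖ + ‖I • (∫ y in (0:ℝ)..T, F (a + y * I))‖ := norm_add_le _ _
      _ ≤ (‖∫ x in a..b, F (x + T * I)‖ + ‖I • (∫ y in (0:ℝ)..T, F (b + y * I))‖) + ‖I • (∫ y in (0:ℝ)..T, F (a + y * I))‖ := by
          gcongr; exact norm_sub_le _ _
      _ ≤ _ := by
          have := hside a
          have := hside b
          linarith
  have hlim : Tendsto (fun T : ℝ => (b - a) * (A * Real.exp (-(B * T))) + 2 * (A / B)) atTop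
      (𝓝 ((b - a) * (A * 0) + 2 * (A / B))) := by
    apply Tendsto.add_const
    apply Tendsto.const_mul
    apply Tendsto.const_mul
    exact Real.tendsto_exp_neg_atTop_nhds_zero.comp (tendsto_id.const_mul_atTop hB)
  rw [mul_zero, mul_zero, zero_add] at hlim
  exact ge_of_tendsto hlim (by filter_upwards [eventually_gt_atTop (0:ℝ)] with T hT using key T hT)

/-- the test functional -/
noncomputable def pair (ν : ℝ) (f : ℂ → ℂ) : ℂ := ν * ∫ x in (1 / 5 : ℝ)..(1 / 5 + 1 / ν), f x * ez (-(ν * x))

lemma ez_add (z w : ℂ) : ez (z + w) = ez z * ez w := by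
  rw [ez, ez, ez, ← Complex.exp_add]; congr 1; ring

lemma ez_zero : ez 0 = 1 := by rw [ez, mul_zero, Complex.exp_zero]

lemma pair_add (ν : ℝ) {f g : ℂ → ℂ} (hf : Continuous (fun x : ℝ => f x)) (hg : Continuous (fun x : ℝ => g x)) :
    pair ν (fun z => f z + g z) = pair ν f + pair ν g := by
  have he : Continuous (fun x : ℝ => ez (-(ν * x))) := differentiable_ez.continuous.comp (by fun_prop)
  rw [pair, pair, pair, ← mul_add, ← intervalIntegral.integral_add]
  · congr 2
    ext x; ring
  · exact (hf.mul he).intervalIntegrable _ _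
  · exact (hg.mul he).intervalIntegrable _ _

lemma pair_decay {F : ℂ → ℂ} (hF : AnaUp F) {A B ν : ℝ} (hν : 0 < ν) (hB : 2 * π * ν < B)
    (hb : ∀ z : ℂ, 0 ≤ z.im → ‖F z‖ ≤ A * Real.exp (-(B * z.im))) : ‖pair ν F‖ ≤ ν * (2 * (A / (B - 2 * π * ν))) := by
  rw [pair, norm_mul, Complex.norm_real, Real.norm_of_nonneg hν.le]
  gcongr
  have hc : ContinuousOn (fun z : ℂ => F z * ez (-(ν * z))) {z : ℂ | 0 ≤ z.im} :=
    hF.cont.mul (differentiable_ez.continuous.comp (by fun_prop)).continuousOn
  have hd : DifferentiableOn ℂ (fun z : ℂ => F z * ez (-(ν * z))) {z : ℂ | 0 < z.im} :=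
    hF.diff.mul (differentiable_ez.comp (by fun_prop : Differentiable ℂ (fun z : ℂ => -(ν * z)))).differentiableOn
  refine rect_bound hc hd (by linarith : 0 < B - 2 * π * ν) (fun z hz => ?_) (by
    have : 0 < 1 / ν := by positivity
    linarith)
  rw [norm_mul, norm_ez]
  have h1 := hb z hz
  have e : (-((ν : ℂ) * z)).im = -(ν * z.im) := by
    rw [Complex.neg_im, Complex.im_ofReal_mul]
  rw [e]
  calc ‖F z‖ * Real.exp (-(2 * π * (-(ν * z.im)))) ≤ (A * Real.exp (-(B * z.im))) * Real.exp (-(2 * π * (-(ν * z.im)))) := by gcongr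
    _ = A * Real.exp (-((B - 2 * π * ν) * z.im)) := by
        rw [mul_assoc, ← Real.exp_add]; congr 2; ring

lemma pair_Kop_small {H H' : ℝ → ℝ} {c C M : ℝ} {P : ℂ → ℂ} {CP LP : ℝ} {G : ℝ → ℂ} {MG LG : ℝ}
    (hD : Dif H H' c C M) (hP : CellUp P CP LP) (hG : Amp G MG LG) {ν : ℝ} (hν : 0 < ν) {ε : ℝ} (hε : 0 < ε) :
    ∀ᶠ t : ℝ in atTop, ‖pair ν (Kop H H' P t G)‖ ≤ ε := by
  have hC := hD.C_pos
  have hlim0 : Tendsto (fun t : ℝ => t ^ 4 / (2 * C) - 2 * π * ν) atTop atTop := by
    apply tendsto_atTop_add_const_right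
    exact (tendsto_pow_atTop (by norm_num)).atTop_div_const (by positivity)
  have hlim : Tendsto (fun t : ℝ => ν * (2 * ((π * CJ * CP * MG) / (t ^ 4 / (2 * C) - 2 * π * ν)))) atTop (𝓝 (ν * (2 * 0))) :=
    ((tendsto_const_nhds.div_atTop hlim0).const_mul 2).const_mul ν
  rw [mul_zero, mul_zero] at hlim
  filter_upwards [hlim.eventually_lt_const hε, hlim0.eventually_gt_atTop 0, eventually_ge_atTop (8 * C)] with t h1 h2 h3
  have ht0 : 0 < t := by linarith
  exact (pair_decay (Kop_ana hD hP hG ht0 h3) hν (by linarith) (fun z hz => norm_Kop_le hD hP hG h3 hz)).trans h1.le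

end Pool.Agent.Lib_helper42
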