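import Mathlib
import Pool.Agent.Lib_helper42.Pairing

set_option autoImplicit false
open MeasureTheory Set Filter Topology Complex
open scoped Real ComplexConjugate

namespace Pool.Agent.Lib_helper42

lemma AnaUp.add {f g : ℂ → ℂ} (hf : AnaUp f) (hg : AnaUp g) : AnaUp (fun z => f z + g z) := by
  obtain ⟨A, hA⟩ := hf.bdd
  obtain ⟨B, hB⟩ := hg.bdd
  exact ⟨hf.cont.add hg.cont, hf.diff.add hg.diff, A + B, fun z hz =>
    (norm_add_le _ _).trans (add_le_add (hA z hz) (hB z hz))⟩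

lemma AnaDn.add {f g : ℂ → ℂ} (hf : AnaDn f) (hg : AnaDn g) : AnaDn (fun z => f z + g z) := by
  have := AnaUp.add hf hg
  rw [AnaDn]
  convert this using 1
  ext z
  rw [map_add]

lemma Tame.add {f g : ℂ → ℂ} (hf : Tame f) (hg : Tame g) : Tame (fun z => f z + g z) := by
  obtain ⟨L1, h1⟩ := hf.lip
  obtain ⟨L2, h2⟩ := hg.lip
  obtain ⟨A1, h3⟩ := hf.dec
  obtain ⟨A2, h4⟩ := hg.dec
  refine ⟨⟨L1 + L2, fun x y => ?_⟩, ⟨A1 + A2, fun x => ?_⟩⟩
  · rw [add_mul, add_sub_add_comm]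
    exact (norm_add_le _ _).trans (add_le_add (h1 x y) (h2 x y))
  · rw [add_div]
    exact (norm_add_le _ _).trans (add_le_add (h3 x) (h4 x))

lemma Tame.continuous {f : ℂ → ℂ} (hf : Tame f) : Continuous (fun x : ℝ => f x) := by
  obtain ⟨L, h⟩ := hf.lip
  exact continuous_of_lip h

lemma Amp.mul_per {G : ℝ → ℂ} {q L : ℝ} (hG : Amp G q L) {γ : ℝ → ℂ} {q' Lγ : ℝ} (hb : ∀ θ, ‖γ θ‖ ≤ q')
    (hl : ∀ x y, ‖γ x - γ y‖ ≤ Lγ * |x - y|) {T : ℝ} (hT : 0 < T) :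
    Amp (fun x => G x * γ (T * x)) (q * q') (L * q' + q * Lγ * T) := by
  have hq := hG.M_nonneg
  have hL := hG.L_nonneg
  have hq' : 0 ≤ q' := (norm_nonneg _).trans (hb 0)
  refine ⟨fun x => ?_, fun x y => ?_, fun x hx => ?_⟩
  · rw [norm_mul]
    exact mul_le_mul (hG.bdd x) (hb _) (norm_nonneg _) hq
  · have e : G x * γ (T * x) - G y * γ (T * y) = (G x - G y) * γ (T * x) + G y * (γ (T * x) - γ (T * y)) := by ring
    rw [e]
    refine (norm_add_le _ _).trans ?_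
    rw [norm_mul, norm_mul]
    have h1 := hl (T * x) (T * y)
    rw [← mul_sub, abs_mul, abs_of_pos hT] at h1
    calc ‖G x - G y‖ * ‖γ (T * x)‖ + ‖G y‖ * ‖γ (T * x) - γ (T * y)‖ ≤ (L * |x - y|) * q' + q * (Lγ * (T * |x - y|)) := by
          gcongr
          · exact hG.lip x y
          · exact hb _
          · exact hG.bdd y
      _ = _ := by ring
  · rw [hG.off x hx, zero_mul]

/-- the state of the construction -/
structure St (q ε δ k r : ℝ) (H H' χ : ℝ → ℝ) (G : ℝ → ℂ) (fp fm : ℂ → ℂ) (ν s τ : ℝ) : Prop where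
  dif : ∃ c C M, Dif H H' c C M
  cut : ∃ χ' K, Cut χ χ' K
  amp : ∃ L, Amp G q L
  Gχ : ∀ x, G x ≠ 0 → χ x = 1
  up : AnaUp fp
  tame : Tame fp
  dn : AnaDn fm
  err : Sm ε (fun x : ℝ => fp (H x) - fm x - G x)
  s_pos : 0 < s
  τ_pos : 0 < τ
  rob : Rob H H' χ s τ
  sv : SV H' k r
  low : 1 - δ ≤ ‖pair ν fp‖
  ν_ge : 5 / 3 ≤ ν

def HasSt (q ε δ : ℝ) : Prop := ∃ (H H' χ : ℝ → ℝ) (G : ℝ → ℂ) (fp fm : ℂ → ℂ) (ν s τ : ℝ),
  St q ε δ 64 s H H' χ G fp fm ν s τ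

def HasSt2 (q ε δ : ℝ) : Prop := ∃ (H H' χ : ℝ → ℝ) (G : ℝ → ℂ) (fp fm : ℂ → ℂ) (ν s τ : ℝ),
  St q ε δ 2 (2 * s) H H' χ G fp fm ν s τ

lemma low_add {ν δ ε : ℝ} {f g : ℂ → ℂ} (hf : Continuous (fun x : ℝ => f x)) (hg : Continuous (fun x : ℝ => g x))
    (h1 : 1 - δ ≤ ‖pair ν f‖) (h2 : ‖pair ν g‖ ≤ ε) : 1 - (δ + ε) ≤ ‖pair ν (fun z => f z + g z)‖ := by
  rw [pair_add ν hf hg]
  have : ‖pair ν f‖ ≤ ‖pair ν f + pair ν g‖ + ‖pair ν g‖ := by
    calc ‖pair ν f‖ = ‖(pair ν f + pair ν g) - pair ν g‖ := by ring_nf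
      _ ≤ _ := norm_sub_le _ _
  linarith

lemma tendsto_div_pow4 (A : ℝ) : Tendsto (fun t : ℝ => A / t ^ 4) atTop (𝓝 0) :=
  tendsto_const_nhds.div_atTop (tendsto_pow_atTop (by norm_num))

theorem HasSt.freeze {q ε δ : ℝ} (h : HasSt q ε δ) {ε' : ℝ} (hε' : 0 < ε') :
    HasSt2 (q * (50 / 49)) (ε + ε') (δ + ε') := by
  obtain ⟨H, H', χ, G, fp, fm, ν, s, τ, h⟩ := h
  obtain ⟨c, C, M, hD⟩ := h.dif
  obtain ⟨χ', K, hχ⟩ := h.cut
  obtain ⟨L, hG⟩ := h.amp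
  obtain ⟨CP, LP, hP⟩ := cellR.up
  obtain ⟨CQ, LQ, hQ⟩ := cellR.dn
  obtain ⟨Kd, hη⟩ := cellR.disp
  obtain ⟨Lγ, hLγ0, hLγ⟩ := cellR.lip
  obtain ⟨σ, σ', Kσ, hσ, hσ0, hσ1⟩ := exists_percut
  have hν : 0 < ν := by linarith [h.ν_ge]
  have hev := ((step_err hD hχ hη hP hQ hG h.Gχ cellR.rel h.tame fm hε').and (approx hD hP hG hε')).and
    ((approx_dn hQ hG hε').and ((pair_Kop_small hD hP hG hν hε').and
      ((eventually_ge_atTop (1:ℝ)).and ((tendsto_div_pow4 (M * 4)).eventually_lt_const hD.c_pos))))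
  obtain ⟨t, ⟨h1, h2⟩, h3, h4, h5, h6⟩ := hev.exists
  have ht0 : 0 < t := by linarith
  have hT : 0 < t ^ 4 := by positivity
  have hid : ∀ x, hp χ (fun _ => 0) t x = x := fun x => by rw [hp]; simp
  have hpro := (hσ.affine (t ^ 4) 0)
  have hcp : Prof χ χ' K := ⟨hχ.nonneg, hχ.le_one, hχ.der, hχ.bdd', hχ.lip'⟩
  have hprod := hcp.mul hpro
  simp only [add_zero] at hprod
  refine ⟨H, H', fun x => χ x * σ (t ^ 4 * x), fun x => G x * (rhoR (t ^ 4 * x) : ℂ),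
    fun z => fp z + Kop H H' PR t G z, fun z => fm z + Kdn (fun z => -PR z) t G z, ν, 2 / t ^ 4, min τ (c / (C * t ^ 4)),
    ⟨_, _, _, hD⟩, ⟨_, _, ⟨hprod.nonneg, hprod.le_one, hprod.der, hprod.bdd', hprod.lip', ?_⟩⟩, ⟨_, hG.mul_per cellR.bdd hLγ hT⟩, ?_,
    h.up.add h2.1, h.tame.add h2.2.2.2, h.dn.add h3.1, ?_, by positivity, ?_, ?_, ?_, ?_, h.ν_ge⟩
  · intro x hx
    rw [hχ.off x hx, zero_mul]
  · intro x hx
    have hx' : G x * (rhoR (t ^ 4 * x) : ℂ) ≠ 0 := hx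
    have hG0 : G x ≠ 0 := left_ne_zero_of_mul hx'
    have hr0 : (rhoR (t ^ 4 * x) : ℂ) ≠ 0 := right_ne_zero_of_mul hx'
    show χ x * σ (t ^ 4 * x) = 1
    rw [h.Gχ x hG0, one_mul]
    apply hσ1
    intro m
    by_contra hcon
    rw [not_lt] at hcon
    apply hr0
    rw [rhoR_zero _ m hcon, Complex.ofReal_zero]
  · have := h.err.add h1
    convert this using 1
    ext x
    rw [hid]
    ring
  · exact lt_min h.τ_pos (div_pos hD.c_pos (mul_pos hD.C_pos hT))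
  · exact rob_freeze hD h.rob h.sv hσ0 hT (min_le_left _ _) (min_le_right _ _)
  · apply sv_small hD
    have : M * (2 * (2 / t ^ 4)) = M * 4 / t ^ 4 := by ring
    rw [this]; exact h6.le
  · exact low_add h.tame.continuous h2.2.2.2.continuous h.low h4

/-- an elementary displacement step -/
theorem HasSt2.move {q ε δ : ℝ} (h : HasSt2 q ε δ) {P Q : ℂ → ℂ} {η η' : ℝ → ℝ} {γ : ℝ → ℂ} {q' : ℝ}
    (hcell : Cell P Q η η' γ q') {ε' : ℝ} (hε' : 0 < ε') : HasSt (q * q') (ε + ε') (δ + ε') := by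
  obtain ⟨H, H', χ, G, fp, fm, ν, s, τ, h⟩ := h
  obtain ⟨c, C, M, hD⟩ := h.dif
  obtain ⟨χ', K, hχ⟩ := h.cut
  obtain ⟨L, hG⟩ := h.amp
  obtain ⟨CP, LP, hP⟩ := hcell.up
  obtain ⟨CQ, LQ, hQ⟩ := hcell.dn
  obtain ⟨Kd, hη⟩ := hcell.disp
  obtain ⟨Lγ, hLγ0, hLγ⟩ := hcell.lip
  have hν : 0 < ν := by linarith [h.ν_ge]
  have hlarge : ∀ᶠ t : ℝ in atTop, 12 * (K * Kd) ≤ t ^ 4 := (tendsto_pow_atTop (by norm_num)).eventually_ge_atTop _
  have hev := ((step_err hD hχ hη hP hQ hG h.Gχ hcell.rel h.tame fm hε').and (approx hD hP hG hε')).and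
    ((approx_dn hQ hG hε').and ((pair_Kop_small hD hP hG hν hε').and
      ((eventually_ge_atTop (1:ℝ)).and (hlarge.and (((tendsto_div_pow4 Kd).eventually_lt_const (half_pos h.τ_pos)).and
        ((tendsto_div_pow4 Kd).eventually_lt_const (half_pos h.s_pos)))))))
  obtain ⟨t, ⟨h1, h2⟩, h3, h4, h5, h6, h7, h8⟩ := hev.exists
  have ht0 : 0 < t := by linarith
  have hT : 0 < t ^ 4 := by positivity
  have hd := hp_dif hχ hη h5 h6
  refine ⟨fun x => H (hp χ η t x), fun x => H' (hp χ η t x) * hp' χ χ' η η' t x, χ, fun x => G x * γ (t ^ 4 * x),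
    fun z => fp z + Kop H H' P t G z, fun z => fm z + Kdn Q t G z, ν, s, τ / 2,
    ⟨_, _, _, hD.comp hd⟩, ⟨_, _, hχ⟩, ⟨_, hG.mul_per hcell.bdd hLγ hT⟩, ?_,
    h.up.add h2.1, h.tame.add h2.2.2.2, h.dn.add h3.1, ?_, h.s_pos, half_pos h.τ_pos, ?_, ?_, ?_, h.ν_ge⟩
  · intro x hx
    exact h.Gχ x (left_ne_zero_of_mul hx)
  · have := h.err.add h1
    convert this using 1
    ext x
    ring
  · exact rob_comp h.rob hχ hη ht0 h7.le
  · exact sv_comp hD hχ hη h5 h6 (by linarith) h.sv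
  · exact low_add h.tame.continuous h2.2.2.2.continuous h.low h4

/-- the initial state -/
theorem hasSt_init {ε : ℝ} (hε : 0 < ε) : HasSt 1 ε ε := by
  obtain ⟨χ, χ', K, g, L, hχ, hg, hgχ, hg1⟩ := exists_init
  have hP := cell_ez 1
  simp only [one_mul] at hP
  have hev := (approx Dif.idd hP hg hε).and (((tendsto_pow_atTop (n := 4) (by norm_num)).eventually_ge_atTop (5 / 3 : ℝ)).and (eventually_ge_atTop (1:ℝ)))
  obtain ⟨t, h1, h2, h3⟩ := hev.exists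
  have ht0 : 0 < t := by linarith
  have hT : 0 < t ^ 4 := by positivity
  have hb : ∀ θ : ℝ, ‖ez θ‖ ≤ 1 := fun θ => norm_ez_le_one _ (by simp)
  have hG0 := hg.mul_per (γ := fun θ : ℝ => ez θ) hb ez_lip hT
  rw [one_mul] at hG0
  refine ⟨fun x => x, fun _ => 1, χ, fun x => g x * ez ((t ^ 4 * x : ℝ)), Kop (fun x => x) (fun _ => 1) ez t g, fun _ => 0, t ^ 4, 2, 1,
    ⟨_, _, _, Dif.idd⟩, ⟨_, _, hχ⟩, ⟨_, hG0⟩, ?_, h1.1, h1.2.2.2, ?_, ?_, by norm_num, by norm_num, ?_, ?_, ?_, h2⟩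
  · intro x hx
    exact hgχ x (left_ne_zero_of_mul hx)
  · rw [AnaDn]
    refine ⟨?_, ?_, 0, fun z _ => by simp⟩
    · simp only [map_zero]; exact continuousOn_const
    · simp only [map_zero]; exact differentiableOn_const _
  · have := h1.2.2.1
    simpa using this
  · intro G hG1 hG2 a b hab
    refine ⟨Ico a b \ Ioo 0 1, measurableSet_Ico.diff measurableSet_Ioo, diff_subset, fun x hx => hχ.off x hx.2, ?_, fun x hx => ?_⟩
    · have h4 : volume (Ico a b) ≤ volume (Ico a b \ Ioo 0 1) + volume (Ioo (0:ℝ) 1) := by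
        calc volume (Ico a b) ≤ volume ((Ico a b \ Ioo 0 1) ∪ Ioo 0 1) := by
              apply measure_mono
              intro x hx
              by_cases h : x ∈ Ioo (0:ℝ) 1
              · exact Or.inr h
              · exact Or.inl ⟨hx, h⟩
          _ ≤ _ := measure_union_le _ _
      rw [Real.volume_Ico, Real.volume_Ioo, sub_zero] at h4
      have h5 : ENNReal.ofReal (b - a) - ENNReal.ofReal 1 ≤ volume (Ico a b \ Ioo 0 1) := tsub_le_iff_right.2 h4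
      rw [← ENNReal.ofReal_sub _ (by norm_num)] at h5
      exact le_trans (ENNReal.ofReal_le_ofReal (by linarith)) h5
    · have h4 := (abs_le.1 (hG2 a)).1
      have h5 := (abs_le.1 (hG2 b)).2
      show (G b - G a) / 1000 ≤ 1 * (b - a)
      linarith
  · intro x y _
    show (1:ℝ) ≤ 64 * 1
    norm_num
  · -- the pairing
    set ν := t ^ 4 with hν
    have herr := h1.2.2.1
    have hQ : (1 / 5 : ℝ) + 1 / ν ≤ 4 / 5 := by
      have : 1 / ν ≤ 3 / 5 := by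
        rw [div_le_div_iff₀ hT (by norm_num)]; linarith
      linarith
    have hν1 : 0 < 1 / ν := by positivity
    have e1 : pair ν (Kop (fun x => x) (fun _ => 1) ez t g) = 1 +
        ν * ∫ x in (1 / 5 : ℝ)..(1 / 5 + 1 / ν), (Kop (fun x => x) (fun _ => 1) ez t g x - g x * ez ((ν * x : ℝ))) * ez (-(ν * x)) := by
      have h6 : ∫ x in (1 / 5 : ℝ)..(1 / 5 + 1 / ν), Kop (fun x => x) (fun _ => 1) ez t g x * ez (-(ν * x)) =
        ∫ x in (1 / 5 : ℝ)..(1 / 5 + 1 / ν), (1 + (Kop (fun x => x) (fun _ => 1) ez t g x - g x * ez ((ν * x : ℝ))) * ez (-(ν * x))) := by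
        apply intervalIntegral.integral_congr
        intro x hx
        rw [uIcc_of_le (by linarith)] at hx
        have h7 : g x = 1 := hg1 x ⟨hx.1, hx.2.trans hQ⟩
        have h8 : ez ((ν * x : ℝ)) * ez (-(ν * x)) = 1 := by
          rw [← ez_add, ← ez_zero]; congr 1; push_cast; ring
        show Kop (fun x => x) (fun _ => 1) ez t g x * ez (-(ν * x)) = 1 + (Kop (fun x => x) (fun _ => 1) ez t g x - g x * ez ((ν * x : ℝ))) * ez (-(ν * x))
        rw [h7, sub_mul, one_mul, h8]; ring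
      have hcont : Continuous (fun x : ℝ => (Kop (fun x => x) (fun _ => 1) ez t g x - g x * ez ((ν * x : ℝ))) * ez (-(ν * x))) := by
        exact herr.continuous.mul (differentiable_ez.continuous.comp (by fun_prop))
      rw [pair, h6, intervalIntegral.integral_add (by simp) (hcont.intervalIntegrable _ _), intervalIntegral.integral_const, mul_add]
      congr 1
      rw [add_sub_cancel_left]
      have : (ν : ℂ) ≠ 0 := by exact_mod_cast hT.ne'
      simp [this]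
    rw [e1]
    have h9 : ‖(ν : ℂ) * ∫ x in (1 / 5 : ℝ)..(1 / 5 + 1 / ν), (Kop (fun x => x) (fun _ => 1) ez t g x - g x * ez ((ν * x : ℝ))) * ez (-(ν * x))‖ ≤ ε := by
      rw [norm_mul, Complex.norm_real, Real.norm_of_nonneg hT.le]
      have h10 : ‖∫ x in (1 / 5 : ℝ)..(1 / 5 + 1 / ν), (Kop (fun x => x) (fun _ => 1) ez t g x - g x * ez ((ν * x : ℝ))) * ez (-(ν * x))‖ ≤
          ε * |(1 / 5 + 1 / ν) - 1 / 5| := by
        apply intervalIntegral.norm_integral_le_of_norm_le_const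
        intro x hx
        rw [norm_mul]
        have h11 := herr.bound x
        have h12 : ‖ez (-(ν * x))‖ = 1 := by
          rw [norm_ez]
          have : (-((ν : ℂ) * x)).im = 0 := by
            rw [Complex.neg_im, ← Complex.ofReal_mul, Complex.ofReal_im, neg_zero]
          rw [this]; simp
        rw [h12, mul_one]
        exact h11
      rw [add_sub_cancel_left, abs_of_pos hν1] at h10
      calc ν * _ ≤ ν * (ε * (1 / ν)) := by gcongr
        _ = ε := by field_simp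
    have h13 : (1 : ℝ) ≤ ‖1 + (ν : ℂ) * ∫ x in (1 / 5 : ℝ)..(1 / 5 + 1 / ν), (Kop (fun x => x) (fun _ => 1) ez t g x - g x * ez ((ν * x : ℝ))) * ez (-(ν * x))‖ +
        ‖(ν : ℂ) * ∫ x in (1 / 5 : ℝ)..(1 / 5 + 1 / ν), (Kop (fun x => x) (fun _ => 1) ez t g x - g x * ez ((ν * x : ℝ))) * ez (-(ν * x))‖ := by
      calc (1 : ℝ) = ‖(1 : ℂ)‖ := by simp
        _ = ‖(1 + (ν : ℂ) * ∫ x in (1 / 5 : ℝ)..(1 / 5 + 1 / ν), (Kop (fun x => x) (fun _ => 1) ez t g x - g x * ez ((ν * x : ℝ))) * ez (-(ν * x))) -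
          (ν : ℂ) * ∫ x in (1 / 5 : ℝ)..(1 / 5 + 1 / ν), (Kop (fun x => x) (fun _ => 1) ez t g x - g x * ez ((ν * x : ℝ))) * ez (-(ν * x))‖ := by ring_nf
        _ ≤ _ := norm_sub_le _ _
    linarith

end Pool.Agent.Lib_helper42
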