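import Mathlib
import Pool.Agent.Lib_helper42.Round

set_option autoImplicit false
open MeasureTheory Set Filter Topology Complex
open scoped Real ComplexConjugate

namespace Pool.Agent.Lib_helper42

theorem hasSt_iterate (n : ℕ) : ∀ ε : ℝ, 0 < ε → HasSt ((99 / 100 : ℝ) ^ n) ε ε := by
  induction n with
  | zero => intro ε hε; rw [pow_zero]; exact hasSt_init hε
  | succ n ih =>
    intro ε hε
    have h1 := ((ih (ε / 3) (by positivity)).freeze (show 0 < ε / 3 by positivity)).move cellM (show 0 < ε / 3 by positivity)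
    have e1 : ε / 3 + ε / 3 + ε / 3 = ε := by ring
    have e2 : (99 / 100 : ℝ) ^ n * (50 / 49) * (9702 / 10000) = (99 / 100 : ℝ) ^ (n + 1) := by
      rw [pow_succ]; ring
    rwa [e1, e2] at h1

/-- the outcome of the construction -/
structure Gad (ε : ℝ) (H H' : ℝ → ℝ) (fp fm a : ℂ → ℂ) (E : ℝ → ℂ) (ν : ℝ) : Prop where
  dif : ∃ c C M, Dif H H' c C M
  port : Port H H'
  up : AnaUp fp
  tame : Tame fp
  dn : AnaDn fm
  aup : AnaUp a
  abd : ∀ x : ℝ, ‖a x‖ ≤ ε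
  err : Sm ε E
  rel : ∀ x : ℝ, fp (H x) = fm x + a x + E x
  low : 1 / 2 ≤ ‖pair ν fp‖
  ν_ge : 5 / 3 ≤ ν

theorem HasSt2.finish {q ε₀ : ℝ} (hε₀ : 0 < ε₀) (h : HasSt2 q (ε₀ / 3) (1 / 4)) (hq : π * CJ * 3 * q ≤ ε₀) :
    ∃ (H H' : ℝ → ℝ) (fp fm a : ℂ → ℂ) (E : ℝ → ℂ) (ν : ℝ), Gad ε₀ H H' fp fm a E ν := by
  obtain ⟨H, H', χ, G, fp, fm, ν, s, τ, h⟩ := h
  obtain ⟨c, C, M, hD⟩ := h.dif
  obtain ⟨χ', K, hχ⟩ := h.cut
  obtain ⟨L, hG⟩ := h.amp
  obtain ⟨CP, LP, hP⟩ := cellF.up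
  obtain ⟨CQ, LQ, hQ⟩ := cellF.dn
  obtain ⟨Kd, hη⟩ := cellF.disp
  have hPF := cell_mob (-3 / 2 : ℂ)
  have h3 : 2 * ‖(-3 / 2 : ℂ)‖ = 3 := by
    rw [norm_div, norm_neg]; norm_num
  rw [h3] at hPF
  have hν : 0 < ν := by linarith [h.ν_ge]
  have hε3 : 0 < ε₀ / 3 := by positivity
  have hlarge : ∀ᶠ t : ℝ in atTop, 12 * (K * Kd) ≤ t ^ 4 := (tendsto_pow_atTop (by norm_num)).eventually_ge_atTop _
  have hev := ((step_err hD hχ hη hP hQ hG h.Gχ cellF.rel h.tame fm hε3).and (approx hD hP hG hε3)).and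
    ((approx_dn hQ hG hε3).and ((pair_Kop_small hD hP hG hν (show (0:ℝ) < 1 / 4 by norm_num)).and
      ((eventually_ge_atTop (1:ℝ)).and (hlarge.and (((tendsto_div_pow4 Kd).eventually_lt_const (half_pos h.τ_pos)).and
        (((tendsto_div_pow4 Kd).eventually_lt_const (half_pos h.s_pos)).and (approx Dif.idd hPF hG hε3)))))))
  obtain ⟨t, ⟨h1, h2⟩, h3', h4, h5, h6, h7, h8, h9⟩ := hev.exists
  have ht0 : 0 < t := by linarith
  have hT : 0 < t ^ 4 := by positivity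
  have hd := hp_dif hχ hη h5 h6
  have hD2 := hD.comp hd
  have hup := h.up.add h2.1
  have hdn := h.dn.add h3'.1
  refine ⟨fun x => H (hp χ etaM t x), fun x => H' (hp χ etaM t x) * hp' χ χ' etaM etaM' t x,
    fun z => fp z + Kop H H' (fun z => (-2 : ℂ) * ez z) t G z, fun z => fm z + Kdn (fun _ => 0) t G z,
    Kop (fun x => x) (fun _ => 1) (fun z => (-3 / 2 : ℂ) * ez z / (1 + ez z / 2)) t G, 
    fun x => (fp (H (hp χ etaM t x)) + Kop H H' (fun z => (-2 : ℂ) * ez z) t G (H (hp χ etaM t x))) -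
      (fm x + Kdn (fun _ => 0) t G x) - Kop (fun x => x) (fun _ => 1) (fun z => (-3 / 2 : ℂ) * ez z / (1 + ez z / 2)) t G x, ν,
    ⟨_, _, _, hD2⟩, port_of_rob hD2 (half_pos h.τ_pos) (rob_comp h.rob hχ hη ht0 h7.le) (sv_comp hD hχ hη h5 h6 (by linarith) h.sv),
    hup, h.tame.add h2.2.2.2, hdn, h9.1, ?_, ?_, ?_, ?_, h.ν_ge⟩
  · intro x
    have := h9.2.1 (x : ℂ) (by simp)
    simp only [ofReal_im, mul_zero, neg_zero, Real.exp_zero, mul_one] at this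
    exact this.trans hq
  · have h10 := (h.err.add h1).add h9.2.2.1.neg
    have e : ε₀ / 3 + ε₀ / 3 + ε₀ / 3 = ε₀ := by ring
    rw [e] at h10
    convert h10 using 1
    ext x
    rw [gamF]
    ring
  · intro x
    show fp (H (hp χ etaM t x)) + Kop H H' (fun z => (-2 : ℂ) * ez z) t G (H (hp χ etaM t x)) = 
      (fm x + Kdn (fun _ => 0) t G x) + _ + (_ - _ - _)
    ring
  · have := low_add h.tame.continuous h2.2.2.2.continuous h.low h4
    norm_num at this ⊢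
    exact this

theorem exists_gad {ε₀ : ℝ} (hε₀ : 0 < ε₀) :
    ∃ (H H' : ℝ → ℝ) (fp fm a : ℂ → ℂ) (E : ℝ → ℂ) (ν : ℝ), Gad ε₀ H H' fp fm a E ν := by
  have hlim : Tendsto (fun n : ℕ => π * CJ * 3 * ((99 / 100 : ℝ) ^ n * (50 / 49))) atTop (𝓝 (π * CJ * 3 * (0 * (50 / 49)))) :=
    ((tendsto_pow_atTop_nhds_zero_of_lt_one (by norm_num) (by norm_num)).mul_const _).const_mul _
  rw [zero_mul, mul_zero] at hlim
  obtain ⟨n, hn⟩ := (hlim.eventually_lt_const hε₀).exists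
  set ε := min (ε₀ / 6) (1 / 8) with hε
  have hεpos : 0 < ε := lt_min (by positivity) (by norm_num)
  have h1 := (hasSt_iterate n ε hεpos).freeze hεpos
  have h2 : HasSt2 ((99 / 100 : ℝ) ^ n * (50 / 49)) (ε₀ / 3) (1 / 4) := by
    obtain ⟨H, H', χ, G, fp, fm, ν, s, τ, h⟩ := h1
    have a1 : ε + ε ≤ ε₀ / 3 := by
      have := min_le_left (ε₀ / 6) (1 / 8)
      rw [← hε] at this
      linarith
    have a2 : ε + ε ≤ 1 / 4 := by
      have := min_le_right (ε₀ / 6) (1 / 8)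
      rw [← hε] at this
      linarith
    exact ⟨H, H', χ, G, fp, fm, ν, s, τ, h.dif, h.cut, h.amp, h.Gχ, h.up, h.tame, h.dn, h.err.mono a1, h.s_pos, h.τ_pos, h.rob,
      h.sv, by linarith [h.low], h.ν_ge⟩
  exact h2.finish hε₀ hn.le

end Pool.Agent.Lib_helper42
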