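import Mathlib
import Pool.Agent.Lib_helper42.Gadget

set_option autoImplicit false
open MeasureTheory Set Filter Topology Complex
open scoped Real ComplexConjugate

namespace Pool.Agent.Lib_helper42

/-- sparse positions -/
lemma exists_positions (R : ℕ → ℕ → ℝ) : ∃ p : ℕ → ℝ, ∀ j k, j ≠ k → 20 ≤ |p j - p k| ∧ R j k ≤ |p j - p k| := by
  let S : ℕ → ℝ := fun n => 20 + ∑ i ∈ Finset.range (n + 1), ∑ j ∈ Finset.range (n + 1), |R i j|
  have hS20 : ∀ n, 20 ≤ S n := fun n => by
    have : 0 ≤ ∑ i ∈ Finset.range (n + 1), ∑ j ∈ Finset.range (n + 1), |R i j| :=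
      Finset.sum_nonneg (fun i _ => Finset.sum_nonneg (fun j _ => abs_nonneg _))
    show 20 ≤ 20 + _
    linarith
  have hSR : ∀ n i j, i ≤ n → j ≤ n → R i j ≤ S n := fun n i j hi hj => by
    have h1 : |R i j| ≤ ∑ j ∈ Finset.range (n + 1), |R i j| :=
      Finset.single_le_sum (f := fun j => |R i j|) (fun j _ => abs_nonneg _) (Finset.mem_range.2 (by omega))
    have h2 : ∑ j ∈ Finset.range (n + 1), |R i j| ≤ ∑ i ∈ Finset.range (n + 1), ∑ j ∈ Finset.range (n + 1), |R i j| :=
      Finset.single_le_sum (f := fun i => ∑ j ∈ Finset.range (n + 1), |R i j|)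
        (fun i _ => Finset.sum_nonneg (fun j _ => abs_nonneg _)) (Finset.mem_range.2 (by omega))
    have := le_abs_self (R i j)
    show R i j ≤ 20 + _
    linarith
  let p : ℕ → ℝ := fun n => ∑ i ∈ Finset.range n, S (i + 1)
  have hmono : Monotone p := monotone_nat_of_le_succ (fun n => by
    show ∑ i ∈ Finset.range n, S (i + 1) ≤ ∑ i ∈ Finset.range (n + 1), S (i + 1)
    rw [Finset.sum_range_succ]
    linarith [hS20 (n + 1)])
  have key : ∀ j k, j < k → S k ≤ p k - p j := by
    intro j k hjk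
    obtain ⟨m, rfl⟩ : ∃ m, k = m + 1 := ⟨k - 1, by omega⟩
    have h1 : p (m + 1) = p m + S (m + 1) := by
      show ∑ i ∈ Finset.range (m + 1), S (i + 1) = _
      rw [Finset.sum_range_succ]
    have h2 : p j ≤ p m := hmono (by omega)
    rw [h1]; linarith
  refine ⟨p, fun j k hjk => ?_⟩
  rcases lt_or_gt_of_ne hjk with h | h
  · have h1 := key j k h
    have h2 : p k - p j ≤ |p j - p k| := by rw [abs_sub_comm]; exact le_abs_self _
    exact ⟨by linarith [hS20 k], by linarith [hSR k j k h.le le_rfl]⟩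
  · have h1 := key k j h
    have h2 : p j - p k ≤ |p j - p k| := le_abs_self _
    exact ⟨by linarith [hS20 j], by linarith [hSR j j k le_rfl h.le]⟩

lemma Dif.der_off {H H' : ℝ → ℝ} {c C M : ℝ} (hD : Dif H H' c C M) {x : ℝ} (hx : x ∉ Ioo (0:ℝ) 1) : H' x = 1 := by
  rw [mem_Ioo, not_and_or, not_lt, not_lt] at hx
  rcases hx with h | h
  · have h1 : HasDerivWithinAt H (H' x) (Iic x) x := (hD.der x).hasDerivWithinAt
    have h2 : HasDerivWithinAt H 1 (Iic x) x := by
      apply (hasDerivAt_id x).hasDerivWithinAt.congr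
      · intro y hy
        exact hD.off y (fun hh => absurd hh.1 (not_lt.2 (le_trans hy h)))
      · exact hD.off x (fun hh => absurd hh.1 (not_lt.2 h))
    exact (uniqueDiffWithinAt_Iic x).eq_deriv _ h1 h2
  · have h1 : HasDerivWithinAt H (H' x) (Ici x) x := (hD.der x).hasDerivWithinAt
    have h2 : HasDerivWithinAt H 1 (Ici x) x := by
      apply (hasDerivAt_id x).hasDerivWithinAt.congr
      · intro y hy
        exact hD.off y (fun hh => absurd hh.2 (not_lt.2 (le_trans h hy)))
      · exact hD.off x (fun hh => absurd hh.2 (not_lt.2 h))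
    exact (uniqueDiffWithinAt_Ici x).eq_deriv _ h1 h2

lemma Dif.disp_le {H H' : ℝ → ℝ} {c C M : ℝ} (hD : Dif H H' c C M) (x : ℝ) : |H x - x| ≤ 1 := by
  by_cases hx : x ∈ Ioo (0:ℝ) 1
  · have h1 := hD.mem01 (Ioo_subset_Icc_self hx)
    rw [abs_le]
    constructor <;> linarith [h1.1, h1.2, hx.1, hx.2]
  · rw [hD.off x hx]; simp

/-- the family of diffeomorphisms to be glued -/
structure Fam (H H' : ℕ → ℝ → ℝ) (p : ℕ → ℝ) : Prop where
  dif : ∀ k, ∃ c C M, Dif (H k) (H' k) c C M
  port : ∀ k, Port (H k) (H' k)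
  gap : ∀ j k, j ≠ k → 20 ≤ |p j - p k|

noncomputable def gh (H : ℕ → ℝ → ℝ) (p : ℕ → ℝ) (x : ℝ) : ℝ := x + ∑' k, (H k (x - p k) - (x - p k))
noncomputable def gh' (H' : ℕ → ℝ → ℝ) (p : ℕ → ℝ) (x : ℝ) : ℝ := 1 + ∑' k, (H' k (x - p k) - 1)

section
variable {H H' : ℕ → ℝ → ℝ} {p : ℕ → ℝ}

lemma Fam.index (F : Fam H H' p) {a b : ℝ} (hab : b - a ≤ 10) :
    ∃ j, ∀ x ∈ Icc a b, ∀ k, k ≠ j → x - p k ∉ Ioo (0:ℝ) 1 := by
  by_cases h : ∃ j, ∃ x ∈ Icc a b, x - p j ∈ Ioo (0:ℝ) 1
  · obtain ⟨j, x, hx, hxj⟩ := h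
    refine ⟨j, fun y hy k hk hyk => ?_⟩
    have h1 := F.gap k j hk
    have h2 : |p k - p j| < 20 := by
      rw [abs_lt]
      constructor <;> linarith [hx.1, hx.2, hy.1, hy.2, hxj.1, hxj.2, hyk.1, hyk.2]
    linarith
  · push Not at h
    exact ⟨0, fun x hx k _ => h k x hx⟩

lemma Fam.eq_of_index (F : Fam H H' p) {x : ℝ} {j : ℕ} (h : ∀ k, k ≠ j → x - p k ∉ Ioo (0:ℝ) 1) :
    gh H p x = p j + H j (x - p j) ∧ gh' H' p x = H' j (x - p j) := by
  constructor
  · rw [gh, tsum_eq_single j]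
    · ring
    · intro k hk
      obtain ⟨c, C, M, hD⟩ := F.dif k
      rw [hD.off _ (h k hk), sub_self]
  · rw [gh', tsum_eq_single j]
    · ring
    · intro k hk
      obtain ⟨c, C, M, hD⟩ := F.dif k
      rw [hD.der_off (h k hk), sub_self]

lemma Fam.loc (F : Fam H H' p) {a b : ℝ} (hab : b - a ≤ 10) :
    ∃ j, ∀ x ∈ Icc a b, gh H p x = p j + H j (x - p j) ∧ gh' H' p x = H' j (x - p j) := by
  obtain ⟨j, hj⟩ := F.index hab
  exact ⟨j, fun x hx => F.eq_of_index (hj x hx)⟩

lemma Fam.near (F : Fam H H' p) (x : ℝ) : ∃ j, (gh H p =ᶠ[𝓝 x] fun y => p j + H j (y - p j)) ∧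
    (gh' H' p =ᶠ[𝓝 x] fun y => H' j (y - p j)) := by
  obtain ⟨j, hj⟩ := F.loc (a := x - 1) (b := x + 1) (by linarith)
  have hmem : Icc (x - 1) (x + 1) ∈ 𝓝 x := Icc_mem_nhds (by linarith) (by linarith)
  exact ⟨j, by filter_upwards [hmem] with y hy using (hj y hy).1, by filter_upwards [hmem] with y hy using (hj y hy).2⟩

lemma Fam.hasDerivAt (F : Fam H H' p) (x : ℝ) : HasDerivAt (gh H p) (gh' H' p x) x := by
  obtain ⟨j, h1, h2⟩ := F.near x
  obtain ⟨c, C, M, hD⟩ := F.dif j
  rw [h2.eq_of_nhds]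
  apply HasDerivAt.congr_of_eventuallyEq _ h1
  have h3 : HasDerivAt (fun y => y - p j) 1 x := (hasDerivAt_id x).sub_const _
  have h4 := ((hD.der (x - p j)).comp x h3).const_add (p j)
  simpa using h4

lemma Fam.cont' (F : Fam H H' p) : Continuous (gh' H' p) := by
  rw [continuous_iff_continuousAt]
  intro x
  obtain ⟨j, h1, h2⟩ := F.near x
  obtain ⟨c, C, M, hD⟩ := F.dif j
  apply ContinuousAt.congr _ h2.symm
  exact (hD.contH'.comp (continuous_id.sub continuous_const)).continuousAt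

lemma Fam.pos' (F : Fam H H' p) (x : ℝ) : 0 < gh' H' p x := by
  obtain ⟨j, h1, h2⟩ := F.near x
  obtain ⟨c, C, M, hD⟩ := F.dif j
  rw [h2.eq_of_nhds]
  exact hD.pos _

lemma Fam.disp (F : Fam H H' p) (x : ℝ) : |gh H p x - x| ≤ 1 := by
  obtain ⟨j, h1, h2⟩ := F.near x
  obtain ⟨c, C, M, hD⟩ := F.dif j
  rw [h1.eq_of_nhds]
  have := hD.disp_le (x - p j)
  have e : p j + H j (x - p j) - x = H j (x - p j) - (x - p j) := by ring
  rw [e]; exact this

lemma Fam.cont (F : Fam H H' p) : Continuous (gh H p) :=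
  continuous_iff_continuousAt.2 (fun x => (F.hasDerivAt x).continuousAt)

lemma Fam.strictMono (F : Fam H H' p) : StrictMono (gh H p) :=
  strictMono_of_deriv_pos (fun x => by rw [(F.hasDerivAt x).deriv]; exact F.pos' x)

lemma Fam.surj (F : Fam H H' p) : Function.Surjective (gh H p) := by
  apply F.cont.surjective
  · refine tendsto_atTop_mono (fun x => ?_) (tendsto_atTop_add_const_right atTop (-1 : ℝ) tendsto_id)
    have := (abs_le.1 (F.disp x)).1
    show x + -1 ≤ _
    linarith
  · refine tendsto_atBot_mono (fun x => ?_) (tendsto_atBot_add_const_right atBot (1 : ℝ) tendsto_id)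
    have := (abs_le.1 (F.disp x)).2
    show _ ≤ x + 1
    linarith

lemma Fam.deriv_eq (F : Fam H H' p) : deriv (gh H p) = gh' H' p := by
  ext x; exact (F.hasDerivAt x).deriv

lemma Fam.contDiff (F : Fam H H' p) : ContDiff ℝ 1 (gh H p) := by
  rw [contDiff_one_iff_deriv]
  exact ⟨fun x => (F.hasDerivAt x).differentiableAt, by rw [F.deriv_eq]; exact F.cont'⟩

/-- all places where something happens -/
def bad (p : ℕ → ℝ) : Set ℝ := ⋃ k, Icc (p k) (p k + 1)

lemma measurableSet_bad : MeasurableSet (bad p) := MeasurableSet.iUnion (fun _ => measurableSet_Icc)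

lemma Fam.portion (F : Fam H H' p) : Port (gh H p) (gh' H' p) := by
  intro a b hab
  by_cases hs : b - a ≤ 10
  · obtain ⟨j, hj⟩ := F.loc hs
    obtain ⟨S, h1, h2, h3, h4⟩ := F.port j (a - p j) (b - p j) (by linarith)
    refine ⟨(fun x => x - p j) ⁻¹' S, h1.preimage (by fun_prop), fun x hx => ?_, ?_, fun x hx => ?_⟩
    · have := h2 hx
      exact ⟨by linarith [this.1], by linarith [this.2]⟩
    · have e0 : (fun x : ℝ => x - p j) = (fun x : ℝ => x + -p j) := by ext x; ring
      rw [e0, measure_preimage_add_right]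
      have e : (b - p j - (a - p j)) = b - a := by ring
      rw [e] at h3
      exact h3
    · have hx' := h2 hx
      have hxI : x ∈ Icc a b := ⟨by linarith [hx'.1], by linarith [hx'.2]⟩
      rw [(hj a (left_mem_Icc.2 hab.le)).1, (hj b (right_mem_Icc.2 hab.le)).1, (hj x hxI).2]
      have := h4 _ hx
      have e : (b - p j - (a - p j)) = b - a := by ring
      rw [e] at this
      have e2 : p j + H j (b - p j) - (p j + H j (a - p j)) = H j (b - p j) - H j (a - p j) := by ring
      rw [e2]; exact this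
  · rw [not_le] at hs
    have key : ∀ x ∉ bad p, gh' H' p x = 1 := by
      intro x hx
      have : ∀ k, x - p k ∉ Ioo (0:ℝ) 1 := by
        intro k hk
        exact hx (mem_iUnion.2 ⟨k, by linarith [hk.1], by linarith [hk.2]⟩)
      rw [(F.eq_of_index (j := 0) (fun k _ => this k)).2]
      obtain ⟨c, C, M, hD⟩ := F.dif 0
      exact hD.der_off (this 0)
    refine ⟨Ico a b \ bad p, measurableSet_Ico.diff measurableSet_bad, sdiff_subset, ?_, fun x hx => ?_⟩
    · have h1 : volume (Ico a (b - 2)) ≤ volume (Ico a (b - 2) ∩ bad p) + volume (Ico a (b - 2) \ bad p) :=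
        (measure_inter_add_sdiff _ measurableSet_bad).ge
      have h2 : volume (Ico a (b - 2) \ bad p) ≤ volume (Ico a b \ bad p) := by
        apply measure_mono
        intro x hx
        exact ⟨⟨hx.1.1, by linarith [hx.1.2]⟩, hx.2⟩
      have h3 : volume (Ico a (b - 2) ∩ bad p) ≤ volume (Ico a b \ bad p) := by
        have : volume (Ico a (b - 2) ∩ bad p) = volume ((fun x => x + -2) ⁻¹' (Ico a (b - 2) ∩ bad p)) := by
          rw [measure_preimage_add_right]
        rw [this]
        apply measure_mono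
        intro x hx
        obtain ⟨⟨hx1, hx2⟩, hx3⟩ := hx
        refine ⟨⟨by linarith, by linarith⟩, fun hxb => ?_⟩
        obtain ⟨j, hj⟩ := mem_iUnion.1 hx3
        obtain ⟨k, hk⟩ := mem_iUnion.1 hxb
        by_cases hjk : j = k
        · rw [hjk] at hj
          linarith [hj.2, hk.2, hj.1, hk.1]
        · have h4 := F.gap j k hjk
          have h5 : |p j - p k| < 20 := by
            rw [abs_lt]
            constructor <;> linarith [hj.1, hj.2, hk.1, hk.2]
          linarith
      have h4 : volume (Ico a (b - 2)) ≤ 2 * volume (Ico a b \ bad p) := by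
        calc _ ≤ _ := h1
          _ ≤ volume (Ico a b \ bad p) + volume (Ico a b \ bad p) := add_le_add h3 h2
          _ = _ := by rw [two_mul]
      rw [Real.volume_Ico] at h4
      have h5 : ENNReal.ofReal (b - 2 - a) = 2 * ENNReal.ofReal ((b - 2 - a) / 2) := by
        rw [show (2 : ENNReal) = ENNReal.ofReal 2 by norm_num, ← ENNReal.ofReal_mul (by norm_num)]
        congr 1; ring
      rw [h5] at h4
      have h6 := (ENNReal.mul_le_mul_iff_right (by norm_num) (by norm_num)).1 h4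
      exact le_trans (ENNReal.ofReal_le_ofReal (by linarith)) h6
    · rw [key x hx.2]
      have h1 := (abs_le.1 (F.disp a)).1
      have h2 := (abs_le.1 (F.disp b)).2
      linarith

end

end Pool.Agent.Lib_helper42
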