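import Mathlib
import Pool.Agent.Lib_helper42.Glue
import Pool.Agent.Lib_helper42.Defs
import Pool.Agent.Lib_helper42.AInfty

set_option autoImplicit false
open MeasureTheory Set Filter Topology Complex
open scoped Real ComplexConjugate

namespace Pool.Agent.Lib_helper42

/-- the portion property gives the `A^∞` condition -/
lemma ainfty_of_port {h h' : ℝ → ℝ} (hd : ∀ x, HasDerivAt h (h' x) x) (hc : Continuous h') (hpos : ∀ x, 0 < h' x)
    (hP : Port h h') : MemAInfty h' := by
  refine ⟨hc.locallyIntegrable, fun x => (hpos x).le, ?_⟩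
  set ν : Measure ℝ := volume.withDensity (fun x => ENNReal.ofReal (h' x)) with hν
  have hmeas : Measurable (fun x => ENNReal.ofReal (h' x)) := hc.measurable.ennreal_ofReal
  have hνE : ∀ E : Set ℝ, MeasurableSet E → ∀ a b : ℝ, E ⊆ Icc a b → (ν E).toReal = ∫ x in E, h' x := by
    intro E hE a b _
    rw [hν, withDensity_apply _ hE, integral_eq_lintegral_of_nonneg_ae (Eventually.of_forall (fun x => (hpos x).le))
      hc.aestronglyMeasurable.restrict]
  have hνfin : ∀ a b : ℝ, ν (Icc a b) ≠ ⊤ := by
    intro a b
    rw [hν, withDensity_apply _ measurableSet_Icc]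
    exact (hc.continuousOn.integrableOn_compact isCompact_Icc).lintegral_lt_top.ne
  have hνfin' : ∀ a b : ℝ, ν (Ico a b) ≠ ⊤ := fun a b => ne_top_of_le_ne_top (hνfin a b) (measure_mono Ico_subset_Icc_self)
  have hνI : ∀ a b : ℝ, a < b → (ν (Ico a b)).toReal = h b - h a := by
    intro a b hab
    rw [hνE _ measurableSet_Ico a b Ico_subset_Icc_self, ← intervalIntegral.integral_eq_sub_of_hasDerivAt (fun x _ => hd x) (hc.intervalIntegrable _ _),
      intervalIntegral.integral_of_le hab.le]
    exact setIntegral_congr_set (Ico_ae_eq_Ioc)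
  obtain ⟨C, hC, δ, hδ, hmain⟩ := ainfty_of_portion ν hνfin' (1 / 2000) (1 - 1 / 2000000) (by norm_num) (by norm_num) (by norm_num) (by norm_num)
    (by
      intro a b hab E hE hEI hEs
      obtain ⟨F, hF1, hF2, hF3, hF4⟩ := hP a b hab
      have hba : 0 < b - a := by linarith
      have hposI : 0 < h b - h a := by
        rw [← intervalIntegral.integral_eq_sub_of_hasDerivAt (fun x _ => hd x) (hc.intervalIntegrable _ _)]
        exact intervalIntegral.intervalIntegral_pos_of_pos (hc.intervalIntegrable _ _) hpos hab
      set κ := (h b - h a) / (1000 * (b - a)) with hκ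
      have hκ0 : 0 < κ := by positivity
      have hFE : ENNReal.ofReal ((b - a) / 2000) ≤ volume (F \ E) := by
        have h1 : volume F ≤ volume (F \ E) + volume E := by
          calc volume F ≤ volume ((F \ E) ∪ E) := measure_mono (fun x hx => by
                by_cases h : x ∈ E
                · exact Or.inr h
                · exact Or.inl ⟨hx, h⟩)
            _ ≤ _ := measure_union_le _ _
        have h2 : ENNReal.ofReal ((b - a) / 1000) ≤ volume (F \ E) + ENNReal.ofReal (1 / 2000 * (b - a)) :=
          hF3.trans (h1.trans (by gcongr))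
        have h3 := tsub_le_iff_right.2 h2
        rw [← ENNReal.ofReal_sub _ (by positivity)] at h3
        refine le_trans (ENNReal.ofReal_le_ofReal ?_) h3
        linarith
      have hνFE : ENNReal.ofReal (κ * ((b - a) / 2000)) ≤ ν (F \ E) := by
        rw [hν, withDensity_apply _ (hF1.diff hE), ENNReal.ofReal_mul hκ0.le]
        calc ENNReal.ofReal κ * ENNReal.ofReal ((b - a) / 2000) ≤ ENNReal.ofReal κ * volume (F \ E) := by gcongr
          _ = ∫⁻ _ in (F \ E), ENNReal.ofReal κ := by rw [setLIntegral_const]
          _ ≤ _ := by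
              apply setLIntegral_mono_ae' (hF1.diff hE)
              refine Eventually.of_forall (fun x hx => ENNReal.ofReal_le_ofReal ?_)
              have h4 := hF4 x hx.1
              rw [hκ, div_le_iff₀ (by positivity)]
              rw [div_le_iff₀ (by norm_num)] at h4
              calc h b - h a ≤ h' x * (b - a) * 1000 := h4
                _ = _ := by ring
      have hsum : ν E + ν (F \ E) ≤ ν (Ico a b) := by
        rw [← measure_union (disjoint_sdiff_self_right) (hF1.diff hE)]
        exact measure_mono (union_subset hEI (sdiff_subset.trans hF2))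
      have htot : ν (Ico a b) = ENNReal.ofReal (h b - h a) := by
        rw [← hνI a b hab, ENNReal.ofReal_toReal (hνfin' a b)]
      have hκ2 : κ * ((b - a) / 2000) = 1 / 2000000 * (h b - h a) := by
        rw [hκ]; field_simp; norm_num
      rw [hκ2] at hνFE
      have h5 : ν E + ENNReal.ofReal (1 / 2000000 * (h b - h a)) ≤ ENNReal.ofReal (h b - h a) := by
        rw [← htot]; exact le_trans (by gcongr) hsum
      have h6 : ν E ≤ ENNReal.ofReal (h b - h a) - ENNReal.ofReal (1 / 2000000 * (h b - h a)) :=
        ENNReal.le_sub_of_add_le_right ENNReal.ofReal_ne_top h5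
      rw [← ENNReal.ofReal_sub _ (by positivity)] at h6
      rw [htot, ← ENNReal.ofReal_mul (by norm_num)]
      refine h6.trans (ENNReal.ofReal_le_ofReal ?_)
      linarith)
  refine ⟨C, hC, δ, hδ, fun a b hab E hE hEI => ?_⟩
  have h1 := hmain a b hab (E ∩ Ico a b) (hE.inter measurableSet_Ico) inter_subset_right
  have hae : (E ∩ Ico a b : Set ℝ) =ᵐ[volume] E := by
    have h2 : E ∩ Icc a b = E := inter_eq_left.2 hEI
    have h3 : (E ∩ Ico a b : Set ℝ) =ᵐ[volume] (E ∩ Icc a b : Set ℝ) := (ae_eq_refl _).inter Ico_ae_eq_Icc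
    rw [h2] at h3
    exact h3
  rw [hνE _ (hE.inter measurableSet_Ico) a b (inter_subset_right.trans Ico_subset_Icc_self), measure_congr hae,
    setIntegral_congr_set hae, hνI a b hab] at h1
  rw [intervalIntegral.integral_eq_sub_of_hasDerivAt (fun x _ => hd x) (hc.intervalIntegrable _ _)]
  exact h1

lemma Fam.memG {H H' : ℕ → ℝ → ℝ} {p : ℕ → ℝ} (F : Fam H H' p) : MemG (gh H p) := by
  refine ⟨F.strictMono, F.cont, F.surj, fun a b => ?_, ?_⟩
  · exact F.contDiff.contDiffOn.absolutelyContinuousOnInterval
  · rw [F.deriv_eq]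
    exact ainfty_of_port F.hasDerivAt F.cont' F.pos' F.portion

end Pool.Agent.Lib_helper42
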