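import Mathlib
import Pool.Agent.Lib_helper42.GlueG

set_option autoImplicit false
open MeasureTheory Set Filter Topology Complex
open scoped Real ComplexConjugate

namespace Pool.Agent.Lib_helper42

/-- one distant diffeomorphism acts on a decaying function by a small error -/
lemma exists_R (L A C : ℝ) (hL : 0 ≤ L) (hA : 0 ≤ A) {ε : ℝ} (hε : 0 < ε) : ∃ R : ℝ, 2 ≤ R ∧ ∀ fp : ℂ → ℂ,
    (∀ x y : ℝ, ‖fp x - fp y‖ ≤ L * |x - y|) → (∀ x : ℝ, ‖fp x‖ ≤ A / (1 + x ^ 2) ^ 2) →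
    ∀ (H H' : ℝ → ℝ) (c M : ℝ), Dif H H' c C M → ∀ q : ℝ, R ≤ |q| →
      (∀ y ∈ Icc q (q + 1), ‖fp ((q + H (y - q) : ℝ)) - fp y‖ ≤ ε / (1 + y ^ 2)) ∧
      (∀ u ∈ Icc q (q + 1), ∀ v ∈ Icc q (q + 1), ‖(fp ((q + H (u - q) : ℝ)) - fp u) - (fp ((q + H (v - q) : ℝ)) - fp v)‖ ≤
        ε / 2 * |u - v| ^ (1 / 8 : ℝ)) := by
  have hlim0 : Tendsto (fun R : ℝ => (R - 1) ^ 2) atTop atTop :=
    (tendsto_pow_atTop (by norm_num)).comp (tendsto_atTop_add_const_right atTop (-1 : ℝ) tendsto_id)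
  have hlim : Tendsto (fun R : ℝ => (20 * A / (R - 1) ^ 2) ^ 7 * (L * (C + 1))) atTop (𝓝 ((0:ℝ) ^ 7 * (L * (C + 1)))) :=
    ((tendsto_const_nhds.div_atTop hlim0).pow 7).mul_const _
  rw [zero_pow (by norm_num), zero_mul] at hlim
  have hev := (eventually_ge_atTop (2:ℝ)).and ((hlim0.eventually_ge_atTop (10 * A / ε)).and
    (hlim.eventually_lt_const (show (0:ℝ) < (ε / 2) ^ 8 by positivity)))
  obtain ⟨R, hR2, hR1, hR3⟩ := hev.exists
  refine ⟨R, hR2, fun fp hlip hdec H H' c M hD q hq => ?_⟩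
  have hmap : ∀ y ∈ Icc q (q + 1), q + H (y - q) ∈ Icc q (q + 1) := by
    intro y hy
    have := hD.mem01 (s := y - q) ⟨by linarith [hy.1], by linarith [hy.2]⟩
    exact ⟨by linarith [this.1], by linarith [this.2]⟩
  have hfar : ∀ y ∈ Icc q (q + 1), (R - 1) ^ 2 ≤ y ^ 2 := by
    intro y hy
    have h1 : R - 1 ≤ |y| := by
      have h2 : |q| ≤ |y| + |q - y| := by
        calc |q| = |y + (q - y)| := by ring_nf
          _ ≤ _ := abs_add_le _ _
      have h3 : |q - y| ≤ 1 := by rw [abs_le]; constructor <;> linarith [hy.1, hy.2]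
      linarith
    rw [← sq_abs y]
    have : 0 ≤ R - 1 := by linarith
    gcongr
  have hcmp : ∀ y ∈ Icc q (q + 1), ∀ z ∈ Icc q (q + 1), (1 + y ^ 2) ^ 2 ≤ 9 * (1 + z ^ 2) ^ 2 := by
    intro y hy z hz
    have h1 : 1 + y ^ 2 ≤ 3 * (1 + z ^ 2) := by
      have h2 : |y - z| ≤ 1 := by rw [abs_le]; constructor <;> linarith [hy.1, hy.2, hz.1, hz.2]
      have h3 : (y - z) ^ 2 ≤ 1 := by rw [← sq_abs]; nlinarith [abs_nonneg (y - z)]
      nlinarith [sq_nonneg (y - 2 * z)]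
    calc (1 + y ^ 2) ^ 2 ≤ (3 * (1 + z ^ 2)) ^ 2 := by gcongr
      _ = _ := by ring
  have hsup : ∀ y ∈ Icc q (q + 1), ‖fp ((q + H (y - q) : ℝ)) - fp y‖ ≤ 10 * A / (1 + y ^ 2) ^ 2 := by
    intro y hy
    refine (norm_sub_le _ _).trans ?_
    have h1 := hdec (q + H (y - q))
    have h2 := hdec y
    have h3 := hcmp y hy _ (hmap y hy)
    have h4 : A / (1 + (q + H (y - q)) ^ 2) ^ 2 ≤ 9 * A / (1 + y ^ 2) ^ 2 := by
      rw [div_le_div_iff₀ (by positivity) (by positivity)]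
      calc A * (1 + y ^ 2) ^ 2 ≤ A * (9 * (1 + (q + H (y - q)) ^ 2) ^ 2) := by gcongr
        _ = _ := by ring
    calc _ ≤ 9 * A / (1 + y ^ 2) ^ 2 + A / (1 + y ^ 2) ^ 2 := add_le_add (h1.trans h4) h2
      _ = _ := by ring
  refine ⟨fun y hy => ?_, fun u hu v hv => ?_⟩
  · refine (hsup y hy).trans ?_
    rw [div_le_div_iff₀ (by positivity) (by positivity)]
    have h1 : 10 * A ≤ ε * (1 + y ^ 2) := by
      rw [div_le_iff₀ hε] at hR1
      have := hfar y hy
      nlinarith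
    calc 10 * A * (1 + y ^ 2) ≤ (ε * (1 + y ^ 2)) * (1 + y ^ 2) := by gcongr
      _ = _ := by ring
  · have hR0 : 0 < (R - 1) ^ 2 := by
      have : 0 < R - 1 := by linarith
      positivity
    have hs : ∀ y ∈ Icc q (q + 1), ‖fp ((q + H (y - q) : ℝ)) - fp y‖ ≤ 10 * A / (R - 1) ^ 2 := by
      intro y hy
      refine (hsup y hy).trans ?_
      apply div_le_div_of_nonneg_left (by positivity) hR0
      have := hfar y hy
      nlinarith [sq_nonneg y, sq_nonneg (y ^ 2)]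
    have h1 : ‖(fp ((q + H (u - q) : ℝ)) - fp u) - (fp ((q + H (v - q) : ℝ)) - fp v)‖ ≤ 20 * A / (R - 1) ^ 2 := by
      refine (norm_sub_le _ _).trans ?_
      calc _ ≤ 10 * A / (R - 1) ^ 2 + 10 * A / (R - 1) ^ 2 := add_le_add (hs u hu) (hs v hv)
        _ = _ := by ring
    have h2 : ‖(fp ((q + H (u - q) : ℝ)) - fp u) - (fp ((q + H (v - q) : ℝ)) - fp v)‖ ≤ (L * (C + 1)) * |u - v| := by
      have e : (fp ((q + H (u - q) : ℝ)) - fp u) - (fp ((q + H (v - q) : ℝ)) - fp v) =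
        (fp ((q + H (u - q) : ℝ)) - fp ((q + H (v - q) : ℝ))) - (fp u - fp v) := by ring
      rw [e]
      refine (norm_sub_le _ _).trans ?_
      have h3 := hlip (q + H (u - q)) (q + H (v - q))
      have h4 : |q + H (u - q) - (q + H (v - q))| ≤ C * |u - v| := by
        have := hD.abs_sub_le (u - q) (v - q)
        have e1 : q + H (u - q) - (q + H (v - q)) = H (u - q) - H (v - q) := by ring
        have e2 : u - q - (v - q) = u - v := by ring
        rw [e1]; rw [e2] at this; exact this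
      calc _ ≤ L * (C * |u - v|) + L * |u - v| := add_le_add (h3.trans (by gcongr)) (hlip u v)
        _ = _ := by ring
    set w := ‖(fp ((q + H (u - q) : ℝ)) - fp u) - (fp ((q + H (v - q) : ℝ)) - fp v)‖ with hw
    have hw0 : 0 ≤ w := norm_nonneg _
    have h5 : w ^ 8 ≤ (ε / 2) ^ 8 * |u - v| := by
      calc w ^ 8 = w ^ 7 * w := by ring
        _ ≤ (20 * A / (R - 1) ^ 2) ^ 7 * ((L * (C + 1)) * |u - v|) := by gcongr
        _ = ((20 * A / (R - 1) ^ 2) ^ 7 * (L * (C + 1))) * |u - v| := by ring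
        _ ≤ _ := by gcongr
    have h6 : (ε / 2 * |u - v| ^ (1 / 8 : ℝ)) ^ 8 = (ε / 2) ^ 8 * |u - v| := by
      rw [mul_pow, ← Real.rpow_natCast (|u - v| ^ (1 / 8 : ℝ)) 8, ← Real.rpow_mul (abs_nonneg _)]
      norm_num
    rw [← h6] at h5
    exact le_of_pow_le_pow_left₀ (by norm_num) (by positivity) h5

/-- gluing Hoelder estimates -/
lemma glue_sm {D : ℝ → ℂ} {ε : ℝ} (hε : 0 ≤ ε)
    (h : ∀ y, D y = 0 ∨ ∃ q, y ∈ Icc q (q + 1) ∧ D q = 0 ∧ D (q + 1) = 0 ∧ ‖D y‖ ≤ ε / (1 + y ^ 2) ∧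
      ∀ u ∈ Icc q (q + 1), ∀ v ∈ Icc q (q + 1), ‖D u - D v‖ ≤ ε / 2 * |u - v| ^ (1 / 8 : ℝ)) : Sm ε D := by
  refine ⟨fun y => ?_, fun x y => ?_⟩
  · rcases h y with h0 | ⟨q, -, -, -, h4, -⟩
    · rw [h0, norm_zero]; positivity
    · exact h4
  · have key : ∀ x y, ‖D x - D y‖ ≤ ε / 2 * |x - y| ^ (1 / 8 : ℝ) ∨ ‖D x‖ ≤ ε / 2 * |x - y| ^ (1 / 8 : ℝ) := by
      intro x y
      rcases h x with h0 | ⟨q, h1, h2, h3, -, h5⟩
      · right; rw [h0, norm_zero]; positivity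
      · by_cases hy : y ∈ Icc q (q + 1)
        · left; exact h5 x h1 y hy
        · right
          rw [mem_Icc, not_and_or, not_le, not_le] at hy
          rcases hy with hy | hy
          · have := h5 x h1 q ⟨le_rfl, by linarith⟩
            rw [h2, sub_zero] at this
            refine this.trans ?_
            gcongr ε / 2 * ?_ ^ (1 / 8 : ℝ)
            rw [abs_of_nonneg (by linarith [h1.1]), abs_of_nonneg (by linarith [h1.1])]
            linarith
          · have := h5 x h1 (q + 1) ⟨by linarith, le_rfl⟩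
            rw [h3, sub_zero] at this
            refine this.trans ?_
            gcongr ε / 2 * ?_ ^ (1 / 8 : ℝ)
            rw [abs_of_nonpos (by linarith [h1.2]), abs_of_nonpos (by linarith [h1.2])]
            linarith
    have hnn : 0 ≤ ε / 2 * |x - y| ^ (1 / 8 : ℝ) := by positivity
    rcases key x y with h1 | h1
    · linarith
    · rcases key y x with h2 | h2
      · rw [norm_sub_rev, abs_sub_comm] at h2
        linarith
      · rw [abs_sub_comm y x] at h2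
        calc ‖D x - D y‖ ≤ ‖D x‖ + ‖D y‖ := norm_sub_le _ _
          _ ≤ _ := by linarith

end Pool.Agent.Lib_helper42
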