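import Mathlib
import Pool.Agent.Lib_helper42.GlueErr

set_option autoImplicit false
open MeasureTheory Set Filter Topology Complex
open scoped Real ComplexConjugate

namespace Pool.Agent.Lib_helper42

section bdd
variable {f : ℝ → ℂ} {B : ℝ}

lemma locInt_of_bdd (hf : AEStronglyMeasurable f volume) (hB : ∀ x, ‖f x‖ ≤ B) : LocallyIntegrable f := by
  apply (locallyIntegrable_const B).mono hf
  refine Eventually.of_forall (fun x => ?_)
  rw [Real.norm_eq_abs]
  exact (hB x).trans (le_abs_self B)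

lemma norm_mean_le (hB : ∀ x, ‖f x‖ ≤ B) {a b : ℝ} (hab : a < b) : ‖mean f a b‖ ≤ B := by
  have hba : 0 < b - a := by linarith
  rw [mean, norm_mul, Complex.norm_real, Real.norm_of_nonneg (by positivity)]
  have h1 : ‖∫ x in a..b, f x‖ ≤ B * |b - a| := intervalIntegral.norm_integral_le_of_norm_le_const (fun x _ => hB x)
  rw [abs_of_pos hba] at h1
  calc (b - a)⁻¹ * ‖∫ x in a..b, f x‖ ≤ (b - a)⁻¹ * (B * (b - a)) := by gcongr
    _ = B := by field_simp

lemma osc_le (hB : ∀ x, ‖f x‖ ≤ B) {a b : ℝ} (hab : a < b) : osc f a b ≤ 2 * B := by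
  have hba : 0 < b - a := by linarith
  have hm := norm_mean_le hB hab
  have h1 : ‖∫ x in a..b, ‖f x - mean f a b‖‖ ≤ (2 * B) * |b - a| := by
    apply intervalIntegral.norm_integral_le_of_norm_le_const
    intro x _
    rw [norm_norm]
    refine (norm_sub_le _ _).trans ?_
    linarith [hB x]
  rw [abs_of_pos hba] at h1
  rw [osc]
  calc (b - a)⁻¹ * ∫ x in a..b, ‖f x - mean f a b‖ ≤ (b - a)⁻¹ * ((2 * B) * (b - a)) := by
        gcongr
        exact (le_abs_self _).trans h1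
    _ = 2 * B := by field_simp

lemma memBMO_of_bdd (hf : AEStronglyMeasurable f volume) (hB : ∀ x, ‖f x‖ ≤ B) : MemBMO f :=
  ⟨locInt_of_bdd hf hB, 2 * B, fun _ _ hab => osc_le hB hab⟩

lemma bddAbove_osc (hB : ∀ x, ‖f x‖ ≤ B) : BddAbove {r : ℝ | ∃ a b : ℝ, a < b ∧ r = osc f a b} := by
  refine ⟨2 * B, ?_⟩
  rintro r ⟨a, b, hab, rfl⟩
  exact osc_le hB hab

lemma osc_nonempty (f : ℝ → ℂ) : {r : ℝ | ∃ a b : ℝ, a < b ∧ r = osc f a b}.Nonempty :=
  ⟨osc f 0 1, 0, 1, one_pos, rfl⟩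

lemma bmoNorm_le (hB : ∀ x, ‖f x‖ ≤ B) : bmoNorm f ≤ 2 * B := by
  apply csSup_le (osc_nonempty f)
  rintro r ⟨a, b, hab, rfl⟩
  exact osc_le hB hab

lemma osc_le_bmoNorm (hB : ∀ x, ‖f x‖ ≤ B) {a b : ℝ} (hab : a < b) : osc f a b ≤ bmoNorm f :=
  le_csSup (bddAbove_osc hB) ⟨a, b, hab, rfl⟩

lemma osc_nonneg (f : ℝ → ℂ) {a b : ℝ} (hab : a < b) : 0 ≤ osc f a b := by
  rw [osc]
  apply mul_nonneg (inv_nonneg.2 (by linarith))
  exact intervalIntegral.integral_nonneg hab.le (fun _ _ => norm_nonneg _)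

lemma bmoNorm_nonneg (f : ℝ → ℂ) : 0 ≤ bmoNorm f := by
  apply Real.sSup_nonneg
  rintro r ⟨a, b, hab, rfl⟩
  exact osc_nonneg f hab

end bdd

lemma mean_mul (c : ℂ) (f : ℝ → ℂ) (a b : ℝ) : mean (fun x => c * f x) a b = c * mean f a b := by
  rw [mean, mean, intervalIntegral.integral_const_mul]; ring

lemma osc_mul (c : ℂ) (f : ℝ → ℂ) (a b : ℝ) : osc (fun x => c * f x) a b = ‖c‖ * osc f a b := by
  rw [osc, osc, mean_mul]
  have : (fun x => ‖c * f x - c * mean f a b‖) = fun x => ‖c‖ * ‖f x - mean f a b‖ := by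
    ext x; rw [← mul_sub, norm_mul]
  rw [this, intervalIntegral.integral_const_mul]; ring

lemma bmoNorm_mul (c : ℂ) (f : ℝ → ℂ) : bmoNorm (fun x => c * f x) = ‖c‖ * bmoNorm f := by
  rw [bmoNorm, bmoNorm, ← smul_eq_mul, ← Real.sSup_smul_of_nonneg (norm_nonneg c)]
  congr 1
  ext r
  constructor
  · rintro ⟨a, b, hab, rfl⟩
    exact ⟨osc f a b, ⟨a, b, hab, rfl⟩, by rw [osc_mul]; rfl⟩
  · rintro ⟨s, ⟨a, b, hab, rfl⟩, rfl⟩
    exact ⟨a, b, hab, by rw [osc_mul]; rfl⟩

lemma MemBMO.mul {f : ℝ → ℂ} (hf : MemBMO f) (c : ℂ) : MemBMO (fun x => c * f x) := by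
  obtain ⟨h1, M, hM⟩ := hf
  refine ⟨?_, ‖c‖ * M, fun a b hab => ?_⟩
  · exact h1.smul c
  · rw [osc_mul]
    exact mul_le_mul_of_nonneg_left (hM a b hab) (norm_nonneg c)

lemma IsHilbert.mul {f g : ℝ → ℂ} (h : IsHilbert f g) (c : ℂ) : IsHilbert (fun x => c * f x) (fun x => c * g x) := by
  rw [IsHilbert] at h ⊢
  filter_upwards [h] with x hx
  refine (hx.const_mul c).congr (fun ε => ?_)
  rw [← mul_assoc, mul_comm c, mul_assoc, ← integral_const_mul]
  congr 2
  ext y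
  ring

lemma IsProj.mul {f u : ℝ → ℂ} (h : IsProj f u) (c : ℂ) : IsProj (fun x => c * f x) (fun x => c * u x) := by
  obtain ⟨g, hg, d, hd⟩ := h
  refine ⟨fun x => c * g x, hg.mul c, c * d, ?_⟩
  filter_upwards [hd] with x hx
  rw [hx]; ring

/-- translates -/
lemma AnaUp.translate {f : ℂ → ℂ} (hf : AnaUp f) (p : ℝ) : AnaUp (fun z => f (z - p)) := by
  obtain ⟨M, hM⟩ := hf.bdd
  have him : ∀ z : ℂ, (z - p).im = z.im := fun z => by simp
  refine ⟨?_, ?_, M, fun z hz => hM _ (by rw [him]; exact hz)⟩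
  · exact hf.cont.comp (by fun_prop) (fun z hz => by
      have hz' : 0 ≤ z.im := hz
      show 0 ≤ (z - p).im
      rw [him]; exact hz')
  · exact hf.diff.comp (by fun_prop) (fun z hz => by
      have hz' : 0 < z.im := hz
      show 0 < (z - p).im
      rw [him]; exact hz')

lemma AnaDn.translate {f : ℂ → ℂ} (hf : AnaDn f) (p : ℝ) : AnaDn (fun z => f (z - p)) := by
  have := AnaUp.translate hf p
  rw [AnaDn]
  convert this using 1
  ext z
  rw [map_sub, Complex.conj_ofReal]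

lemma Sm.translate {E : ℝ → ℂ} {ε : ℝ} (hE : Sm ε E) (p : ℝ) : ∃ ε', Sm ε' (fun x => E (x - p)) := by
  have hε := hE.nonneg
  refine ⟨ε * (2 * (1 + p ^ 2)), fun x => ?_, fun x y => ?_⟩
  · refine (hE.dec (x - p)).trans ?_
    rw [div_le_div_iff₀ (by positivity) (by positivity)]
    have h1 : 1 + x ^ 2 ≤ (2 * (1 + p ^ 2)) * (1 + (x - p) ^ 2) := by
      nlinarith [sq_nonneg (x - 2 * p), sq_nonneg (p * (x - p)), sq_nonneg (x - p)]
    calc ε * (1 + x ^ 2) ≤ ε * ((2 * (1 + p ^ 2)) * (1 + (x - p) ^ 2)) := by gcongr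
      _ = _ := by ring
  · have h1 := hE.hol (x - p) (y - p)
    have e : x - p - (y - p) = x - y := by ring
    rw [e] at h1
    refine h1.trans ?_
    gcongr
    have : 0 ≤ ε * (1 + 2 * p ^ 2) := by positivity
    linarith

lemma foldLim_translate (E : ℝ → ℂ) (p x : ℝ) : foldLim (fun x => E (x - p)) x = foldLim E (x - p) := by
  rw [foldLim, foldLim]
  congr 1
  ext u
  have e1 : x - u - p = x - p - u := by ring
  have e2 : x + u - p = x - p + u := by ring
  rw [e1, e2]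

lemma foldLim_measurable {E : ℝ → ℂ} (hE : Continuous E) : StronglyMeasurable (foldLim E) := by
  unfold foldLim
  apply StronglyMeasurable.integral_prod_right (f := fun x u => ((1 / u : ℝ) : ℂ) * (E (x - u) - E (x + u)))
  apply Measurable.stronglyMeasurable
  unfold Function.uncurry
  apply Measurable.mul
  · exact Complex.measurable_ofReal.comp (measurable_const.div measurable_snd)
  · exact ((hE.comp (continuous_fst.sub continuous_snd)).sub (hE.comp (continuous_fst.add continuous_snd))).measurable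

end Pool.Agent.Lib_helper42
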