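import Mathlib
import Pool.Agent.Lib_helper42.BMOFacts

set_option autoImplicit false
open MeasureTheory Set Filter Topology Complex
open scoped Real ComplexConjugate

namespace Pool.Agent.Lib_helper42

/-- the mean oscillation dominates the pairing with a character -/
lemma pair_le_osc {fp : ℂ → ℂ} (hc : Continuous (fun x : ℝ => fp x)) {ν : ℝ} (hν : 0 < ν) (p : ℝ) :
    ‖pair ν fp‖ ≤ osc (fun x => fp ((x - p : ℝ))) (p + 1 / 5) (p + (1 / 5 + 1 / ν)) := by
  have hν1 : 0 < 1 / ν := by positivity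
  set m := mean (fun x => fp ((x - p : ℝ))) (p + 1 / 5) (p + (1 / 5 + 1 / ν)) with hm
  have he : Continuous (fun x : ℝ => ez (-(ν * x))) := differentiable_ez.continuous.comp (by fun_prop)
  -- the character has mean zero
  have hzero : ∫ x in (1 / 5 : ℝ)..(1 / 5 + 1 / ν), ez (-(ν * x)) = 0 := by
    have hd : ∀ x : ℝ, HasDerivAt (fun x : ℝ => ez (-(ν * x)) / (-(2 * π * I * ν))) (ez (-(ν * x))) x := by
      intro x
      have hπ0 : (π : ℂ) ≠ 0 := by exact_mod_cast Real.pi_ne_zero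
      have hν0 : (ν : ℂ) ≠ 0 := by exact_mod_cast hν.ne'
      have h1 : HasDerivAt (fun z : ℂ => Complex.exp (2 * π * I * (-(ν * z)))) (Complex.exp (2 * π * I * (-(ν * x))) * (2 * π * I * (-(ν * 1)))) (x : ℂ) :=
        ((((hasDerivAt_id (x : ℂ)).const_mul (ν : ℂ)).neg).const_mul (2 * π * I)).cexp
      have h2 := (h1.comp_ofReal).div_const (-(2 * π * I * ν))
      refine h2.congr_deriv ?_
      rw [ez]
      field_simp
    rw [intervalIntegral.integral_eq_sub_of_hasDerivAt (fun x _ => hd x) (he.intervalIntegrable _ _)]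
    have hper : ez (-(ν * ((1 / 5 + 1 / ν : ℝ) : ℂ))) = ez (-(ν * ((1 / 5 : ℝ) : ℂ))) := by
      have h2 : (ν : ℂ) ≠ 0 := by exact_mod_cast hν.ne'
      have e : (-(ν * ((1 / 5 + 1 / ν : ℝ) : ℂ)) : ℂ) = -(ν * ((1 / 5 : ℝ) : ℂ)) + (-1) := by
        push_cast
        field_simp
        ring
      rw [e, ez_add]
      have : ez (-1) = 1 := by
        rw [ez, show (2 * π * I * (-1) : ℂ) = -(2 * π * I) by ring, Complex.exp_neg, Complex.exp_two_pi_mul_I, inv_one]
      rw [this, mul_one]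
    rw [hper, sub_self]
  have e1 : pair ν fp = ν * ∫ x in (1 / 5 : ℝ)..(1 / 5 + 1 / ν), (fp x - m) * ez (-(ν * x)) := by
    rw [pair]
    congr 1
    have : ∫ x in (1 / 5 : ℝ)..(1 / 5 + 1 / ν), (fp x - m) * ez (-(ν * x)) =
        (∫ x in (1 / 5 : ℝ)..(1 / 5 + 1 / ν), fp x * ez (-(ν * x))) - m * ∫ x in (1 / 5 : ℝ)..(1 / 5 + 1 / ν), ez (-(ν * x)) := by
      have hs := intervalIntegral.integral_sub (μ := volume) (a := 1 / 5) (b := 1 / 5 + 1 / ν) (f := fun x : ℝ => fp x * ez (-(ν * x)))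
        (g := fun x : ℝ => m * ez (-(ν * x))) ((hc.mul he).intervalIntegrable _ _) ((continuous_const.mul he).intervalIntegrable _ _)
      rw [← intervalIntegral.integral_const_mul, ← hs]
      congr 1
      ext x; ring
    rw [this, hzero, mul_zero, sub_zero]
  have e2 : osc (fun x => fp ((x - p : ℝ))) (p + 1 / 5) (p + (1 / 5 + 1 / ν)) = ν * ∫ x in (1 / 5 : ℝ)..(1 / 5 + 1 / ν), ‖fp x - m‖ := by
    rw [osc, ← hm]
    have h1 : (p + (1 / 5 + 1 / ν) - (p + 1 / 5))⁻¹ = ν := by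
      rw [show p + (1 / 5 + 1 / ν) - (p + 1 / 5) = 1 / ν by ring]; simp
    rw [h1]
    congr 1
    have := intervalIntegral.integral_comp_sub_right (a := p + 1 / 5) (b := p + (1 / 5 + 1 / ν)) (fun x : ℝ => ‖fp (x : ℂ) - m‖) p
    rw [this]
    congr 1 <;> ring
  rw [e1, e2, norm_mul, Complex.norm_real, Real.norm_of_nonneg hν.le]
  gcongr
  have h3 : ‖∫ x in (1 / 5 : ℝ)..(1 / 5 + 1 / ν), (fp x - m) * ez (-(ν * x))‖ ≤ ∫ x in (1 / 5 : ℝ)..(1 / 5 + 1 / ν), ‖(fp x - m) * ez (-(ν * x))‖ :=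
    intervalIntegral.norm_integral_le_integral_norm (by linarith)
  refine h3.trans (le_of_eq ?_)
  congr 1
  ext x
  rw [norm_mul, norm_ez]
  have : (-((ν : ℂ) * x)).im = 0 := by
    rw [Complex.neg_im, ← Complex.ofReal_mul, Complex.ofReal_im, neg_zero]
  rw [this]
  simp

/-- the projection of an almost antianalytic function -/
lemma isProj_main {fm a : ℂ → ℂ} {E : ℝ → ℂ} {ε : ℝ} (hm : AnaDn fm) (ha : AnaUp a) (hE : Sm ε E) (p : ℝ) {f : ℝ → ℂ}
    (hf : ∀ x : ℝ, f x = fm ((x - p : ℝ)) + a ((x - p : ℝ)) + E (x - p)) :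
    IsProj f (fun x => a ((x - p : ℝ)) + (E (x - p) + I * ((1 / π : ℝ) : ℂ) * foldLim E (x - p)) / 2) := by
  set fm' : ℂ → ℂ := fun z => fm (z - p) with hfm'
  set a' : ℂ → ℂ := fun z => a (z - p) with ha'
  set E' : ℝ → ℂ := fun x => E (x - p) with hE'
  have hm' : AnaDn fm' := hm.translate p
  have hA' : AnaUp a' := ha.translate p
  obtain ⟨ε', hSm⟩ := hE.translate p
  have hf' : f = fun x : ℝ => fm' x + a' x + E' x := by
    ext x
    rw [hf, hfm', ha', hE']
    push_cast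
    rfl
  have hcm : Continuous (fun x : ℝ => fm' x) := by
    have h1 := continuous_real_of_closedUpper (f := fun z => conj (fm' (conj z))) hm'.cont
    have h2 := Complex.continuous_conj.comp h1
    refine h2.congr (fun x => ?_)
    simp
  have hca : Continuous (fun x : ℝ => a' x) := continuous_real_of_closedUpper hA'.cont
  obtain ⟨B1, hB1⟩ : ∃ B, ∀ x : ℝ, ‖fm' x‖ ≤ B := by
    obtain ⟨B, hB⟩ := hm'.bdd
    refine ⟨B, fun x => ?_⟩
    have := hB x (by simp)
    simpa using this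
  obtain ⟨B2, hB2⟩ : ∃ B, ∀ x : ℝ, ‖a' x‖ ≤ B := by
    obtain ⟨B, hB⟩ := hA'.bdd
    exact ⟨B, fun x => hB x (by simp)⟩
  set κ : ℂ := ∫ y : ℝ, ((y / (1 + y ^ 2) : ℝ) : ℂ) * E' y with hκ
  set g : ℝ → ℂ := fun x => ((1 / π : ℝ) : ℂ) * ((π * I * (fm' x - fm' (-I)) + π * I * (a' I - a' x)) + (foldLim E' x + κ)) with hg
  have hH : IsHilbert f g := by
    refine Eventually.of_forall (fun x => ?_)
    have t1 := hm'.tendsto_pv x
    have t2 := hA'.tendsto_pv x
    have t3 := hSm.tendsto_pv x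
    have t := (((t1.add t2).add t3)).const_mul (((1 / π : ℝ) : ℂ))
    refine t.congr' ?_
    filter_upwards [self_mem_nhdsWithin] with δ hδ
    have hδ' : (0:ℝ) < δ := hδ
    congr 1
    have i1 := integrableOn_kpv (f := fun x : ℝ => fm' x) hcm.aestronglyMeasurable hB1 x hδ'
    have i2 := integrableOn_kpv (f := fun x : ℝ => a' x) hca.aestronglyMeasurable hB2 x hδ'
    have i3 := integrableOn_kpv (f := E') hSm.continuous.aestronglyMeasurable hSm.bound x hδ'
    have e : (∫ y in {y : ℝ | δ < |x - y|}, ((1 / (x - y) + y / (1 + y ^ 2) : ℝ) : ℂ) * f y) = pvTrunc f x δ := rfl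
    have s12 : (∫ y in {y : ℝ | δ < |x - y|}, ((kpv x y : ℂ) * fm' y + (kpv x y : ℂ) * a' y)) =
        pvTrunc (fun y => fm' y) x δ + pvTrunc (fun y => a' y) x δ := integral_add i1 i2
    have s123 : (∫ y in {y : ℝ | δ < |x - y|}, (((kpv x y : ℂ) * fm' y + (kpv x y : ℂ) * a' y) + (kpv x y : ℂ) * E' y)) =
        (∫ y in {y : ℝ | δ < |x - y|}, ((kpv x y : ℂ) * fm' y + (kpv x y : ℂ) * a' y)) + pvTrunc E' x δ := integral_add (i1.add i2) i3
    show pvTrunc (fun y => fm' y) x δ + pvTrunc (fun y => a' y) x δ + pvTrunc E' x δ = _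
    rw [e, ← s12, ← s123, pvTrunc]
    congr 1
    ext y
    rw [hf']
    ring
  have hπ : ((1 / π : ℝ) : ℂ) * (π : ℂ) = 1 := by
    have : (π : ℂ) ≠ 0 := by exact_mod_cast Real.pi_ne_zero
    push_cast
    field_simp
  refine ⟨g, hH, -((fm' (-I) - a' I + I * ((1 / π : ℝ) : ℂ) * κ) / 2), Eventually.of_forall (fun x => ?_)⟩
  have e1 : a ((x - p : ℝ)) = a' x := by rw [ha']; push_cast; rfl
  have e2 : foldLim E' x = foldLim E (x - p) := foldLim_translate E p x
  show a ((x - p : ℝ)) + (E (x - p) + I * ((1 / π : ℝ) : ℂ) * foldLim E (x - p)) / 2 = _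
  rw [e1, ← e2, hf', hg]
  have hI : I ^ 2 = -1 := Complex.I_sq
  have hE'x : E (x - p) = E' x := rfl
  rw [hE'x]
  linear_combination (-(1 / 2) * I ^ 2 * (fm' x - fm' (-I)) - (1 / 2) * I ^ 2 * (a' I - a' x)) * hπ +
    (-(1 / 2) * (fm' x - fm' (-I)) - (1 / 2) * (a' I - a' x)) * hI

end Pool.Agent.Lib_helper42
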