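import Mathlib
import Pool.Agent.Lib_helper42.ProjFacts

set_option autoImplicit false
open MeasureTheory Set Filter Topology Complex
open scoped Real ComplexConjugate

namespace Pool.Agent.Lib_helper42

lemma foldLim_zero : foldLim (fun _ => 0) = fun _ => 0 := by
  ext x; simp [foldLim]

lemma anaDn_zero : AnaDn (fun _ => 0) := by
  rw [AnaDn]
  refine ⟨?_, ?_, 0, fun z _ => by simp⟩
  · simp only [map_zero]; exact continuousOn_const
  · simp only [map_zero]; exact differentiableOn_const _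

lemma isProj_self {fp : ℂ → ℂ} (h : AnaUp fp) (p : ℝ) :
    IsProj (fun x => fp ((x - p : ℝ))) (fun x => fp ((x - p : ℝ))) := by
  have := isProj_main anaDn_zero h Sm.zero p (f := fun x => fp ((x - p : ℝ))) (fun x => by simp)
  convert this using 1
  ext x
  rw [foldLim_zero]
  simp

/-- the error caused by the other gadgets -/
noncomputable def Derr (H : ℕ → ℝ → ℝ) (p : ℕ → ℝ) (fp : ℕ → ℂ → ℂ) (k : ℕ) (y : ℝ) : ℂ :=
  fp k ((gh H p (y + p k) - p k : ℝ)) - fp k ((H k y : ℝ))

lemma Derr_sm {H H' : ℕ → ℝ → ℝ} {p : ℕ → ℝ} (F : Fam H H' p) {fp : ℕ → ℂ → ℂ} {k : ℕ} {ε : ℝ} (hε : 0 ≤ ε)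
    (hR : ∀ j, j ≠ k →
      (∀ y ∈ Icc (p j - p k) (p j - p k + 1), ‖fp k ((p j - p k + H j (y - (p j - p k)) : ℝ)) - fp k y‖ ≤ ε / (1 + y ^ 2)) ∧
      (∀ u ∈ Icc (p j - p k) (p j - p k + 1), ∀ v ∈ Icc (p j - p k) (p j - p k + 1),
        ‖(fp k ((p j - p k + H j (u - (p j - p k)) : ℝ)) - fp k u) - (fp k ((p j - p k + H j (v - (p j - p k)) : ℝ)) - fp k v)‖ ≤
        ε / 2 * |u - v| ^ (1 / 8 : ℝ))) : Sm ε (Derr H p fp k) := by
  apply glue_sm hε
  intro y
  obtain ⟨j, hj⟩ := F.index (a := y + p k) (b := y + p k) (by linarith)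
  have hidx := hj (y + p k) ⟨le_rfl, le_rfl⟩
  have hgh := (F.eq_of_index hidx).1
  by_cases hjk : j = k
  · left
    rw [Derr, hgh, hjk]
    have e : p k + H k (y + p k - p k) - p k = H k y := by rw [add_sub_cancel_right]; ring
    rw [e, sub_self]
  · by_cases hy : y + p k - p j ∈ Ioo (0:ℝ) 1
    · right
      obtain ⟨c, C, M, hD⟩ := F.dif j
      obtain ⟨c', C', M', hD'⟩ := F.dif k
      have hval : ∀ u ∈ Icc (p j - p k) (p j - p k + 1), Derr H p fp k u = fp k ((p j - p k + H j (u - (p j - p k)) : ℝ)) - fp k u := by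
        intro u hu
        have hidx' : ∀ i, i ≠ j → u + p k - p i ∉ Ioo (0:ℝ) 1 := by
          intro i hi hmem
          have h1 := F.gap i j hi
          have h2 : |p i - p j| < 20 := by
            rw [abs_lt]; constructor <;> linarith [hu.1, hu.2, hmem.1, hmem.2]
          linarith
        have h3 := (F.eq_of_index hidx').1
        have h4 : H k u = u := by
          apply hD'.off
          intro hmem
          have h1 := F.gap j k hjk
          have h2 : |p j - p k| < 20 := by
            rw [abs_lt]; constructor <;> linarith [hu.1, hu.2, hmem.1, hmem.2]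
          linarith
        rw [Derr, h3, h4]
        congr 3
        have : u + p k - p j = u - (p j - p k) := by ring
        rw [this]; ring
      have h0 : H j 0 = 0 := hD.off 0 (by simp)
      have h1 : H j 1 = 1 := hD.off 1 (by simp)
      have hyI : y ∈ Icc (p j - p k) (p j - p k + 1) := ⟨by linarith [hy.1], by linarith [hy.2]⟩
      refine ⟨p j - p k, hyI, ?_, ?_, ?_, ?_⟩
      · rw [hval _ ⟨le_rfl, by linarith⟩, sub_self, h0, add_zero, sub_self]
      · rw [hval _ ⟨by linarith, le_rfl⟩, add_sub_cancel_left, h1, sub_self]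
      · rw [hval _ hyI]; exact (hR j hjk).1 y hyI
      · intro u hu v hv
        rw [hval _ hu, hval _ hv]
        exact (hR j hjk).2 u hu v hv
    · left
      obtain ⟨c, C, M, hD⟩ := F.dif j
      obtain ⟨c', C', M', hD'⟩ := F.dif k
      have h1 : H k y = y := by
        apply hD'.off
        have := hidx k (Ne.symm hjk)
        rwa [add_sub_cancel_right] at this
      rw [Derr, hgh, hD.off _ hy, h1]
      have e : p j + (y + p k - p j) - p k = y := by ring
      rw [e, sub_self]

theorem main : ∃ h : ℝ → ℝ, MemG h ∧ ContDiff ℝ 1 h ∧ ∃ f u : ℕ → ℝ → ℂ,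
    (∀ k, MemBMOA (f k) ∧ bmoNorm (f k) = 1 ∧ IsProj (fun x => f k (h x)) (u k) ∧ MemBMO (u k)) ∧
    Tendsto (fun k => bmoNorm (u k)) atTop (𝓝 0) := by
  have hε : ∀ k : ℕ, (0:ℝ) < 1 / ((k:ℝ) + 1) := fun k => by positivity
  choose H H' fp fm a E ν hGad using fun k : ℕ => exists_gad (hε k)
  choose c C M hD using fun k => (hGad k).dif
  choose L hL using fun k => (hGad k).tame.lip
  choose A hA using fun k => (hGad k).tame.dec
  have hL0 : ∀ k, 0 ≤ L k := fun k => by
    have := (norm_nonneg _).trans (hL k 1 0)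
    simpa using this
  have hA0 : ∀ k, 0 ≤ A k := fun k => by
    have := (norm_nonneg _).trans (hA k 0)
    simpa using this
  choose R hR2 hR using fun (j k : ℕ) => exists_R (L k) (A k) (C j) (hL0 k) (hA0 k) (hε k)
  obtain ⟨p, hp⟩ := exists_positions R
  have F : Fam H H' p := ⟨fun k => (hGad k).dif, fun k => (hGad k).port, fun j k hjk => (hp j k hjk).1⟩
  have hDerr : ∀ k : ℕ, Sm (1 / ((k:ℝ) + 1)) (Derr H p fp k) := by
    intro k
    apply Derr_sm F (hε k).le
    intro j hjk
    exact hR j k (fp k) (hL k) (hA k) (H j) (H' j) (c j) (M j) (hD j) (p j - p k) (hp j k hjk).2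
  set Et : ℕ → ℝ → ℂ := fun k x => E k x + Derr H p fp k x with hEt
  have hEtSm : ∀ k : ℕ, Sm (1 / ((k:ℝ) + 1) + 1 / ((k:ℝ) + 1)) (Et k) := fun k => (hGad k).err.add (hDerr k)
  set Fk : ℕ → ℝ → ℂ := fun k x => fp k ((x - p k : ℝ)) with hFk
  set U : ℕ → ℝ → ℂ := fun k x => a k ((x - p k : ℝ)) + (Et k (x - p k) + I * ((1 / π : ℝ) : ℂ) * foldLim (Et k) (x - p k)) / 2 with hU
  have hFbdd : ∀ k, ∀ x, ‖Fk k x‖ ≤ A k := by
    intro k x
    refine (hA k (x - p k)).trans (div_le_self (hA0 k) ?_)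
    apply one_le_pow₀
    nlinarith [sq_nonneg (x - p k)]
  have hFcont : ∀ k, Continuous (Fk k) := fun k =>
    (hGad k).tame.continuous.comp (continuous_id.sub continuous_const)
  have hPF : ∀ k, IsProj (Fk k) (Fk k) := fun k => isProj_self (hGad k).up (p k)
  have hPU : ∀ k, IsProj (fun x => Fk k (gh H p x)) (U k) := by
    intro k
    apply isProj_main (hGad k).dn (hGad k).aup (hEtSm k) (p k)
    intro x
    show fp k ((gh H p x - p k : ℝ)) = fm k ((x - p k : ℝ)) + a k ((x - p k : ℝ)) + (E k (x - p k) + Derr H p fp k (x - p k))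
    rw [Derr, sub_add_cancel, (hGad k).rel (x - p k)]
    ring
  have hUb : ∀ k : ℕ, ∀ x, ‖U k x‖ ≤ 10 * (1 / ((k:ℝ) + 1)) := by
    intro k x
    have h1 := (hGad k).abd (x - p k)
    have h2 := (hEtSm k).bound (x - p k)
    have h3 := norm_foldLim_le (hEtSm k) (x - p k)
    set δ := 1 / ((k:ℝ) + 1) with hδ
    have hδ0 : 0 < δ := hε k
    have h4 : ‖I * ((1 / π : ℝ) : ℂ) * foldLim (Et k) (x - p k)‖ ≤ 16 * δ := by
      rw [norm_mul, norm_mul, norm_I, one_mul, Complex.norm_real, Real.norm_of_nonneg (by positivity)]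
      calc 1 / π * ‖foldLim (Et k) (x - p k)‖ ≤ 1 / 3 * (23 * (δ + δ)) := by
            gcongr
            exact Real.pi_gt_three.le
        _ ≤ 16 * δ := by linarith
    have h5 : ‖(Et k (x - p k) + I * ((1 / π : ℝ) : ℂ) * foldLim (Et k) (x - p k)) / 2‖ ≤ 9 * δ := by
      rw [norm_div]
      have h6 : ‖(2:ℂ)‖ = 2 := by simp
      rw [h6, div_le_iff₀ (by norm_num)]
      refine (norm_add_le _ _).trans ?_
      linarith
    refine (norm_add_le _ _).trans ?_
    linarith
  have hUmeas : ∀ k, AEStronglyMeasurable (U k) volume := by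
    intro k
    have h1 : Continuous (fun x : ℝ => a k ((x - p k : ℝ))) :=
      (continuous_real_of_closedUpper (hGad k).aup.cont).comp (continuous_id.sub continuous_const)
    have h2 : Continuous (fun x : ℝ => Et k (x - p k)) := (hEtSm k).continuous.comp (continuous_id.sub continuous_const)
    have h3 : StronglyMeasurable (fun x : ℝ => foldLim (Et k) (x - p k)) :=
      (foldLim_measurable (hEtSm k).continuous).comp_measurable (measurable_id.sub_const (p k))
    have h4 : Measurable (U k) := by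
      exact h1.measurable.add ((h2.measurable.add (measurable_const.mul h3.measurable)).div_const 2)
    exact h4.aestronglyMeasurable
  have hN : ∀ k, 1 / 2 ≤ bmoNorm (Fk k) := by
    intro k
    have hν : 0 < ν k := by linarith [(hGad k).ν_ge]
    have h1 := pair_le_osc (hGad k).tame.continuous hν (p k)
    have h2 : p k + 1 / 5 < p k + (1 / 5 + 1 / ν k) := by
      have : 0 < 1 / ν k := by positivity
      linarith
    exact (hGad k).low.trans (h1.trans (osc_le_bmoNorm (hFbdd k) h2))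
  set N : ℕ → ℝ := fun k => bmoNorm (Fk k) with hNdef
  have hNpos : ∀ k, 0 < N k := fun k => by have := hN k; linarith
  refine ⟨gh H p, F.memG, F.contDiff, fun k x => (((N k)⁻¹ : ℝ) : ℂ) * Fk k x, fun k x => (((N k)⁻¹ : ℝ) : ℂ) * U k x, fun k => ⟨?_, ?_, ?_, ?_⟩, ?_⟩
  · have h1 : MemBMO (Fk k) := memBMO_of_bdd (hFcont k).aestronglyMeasurable (hFbdd k)
    exact ⟨h1.mul _, _, h1.mul _, (hPF k).mul _⟩
  · rw [bmoNorm_mul, Complex.norm_real, Real.norm_of_nonneg (inv_nonneg.2 (hNpos k).le)]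
    exact inv_mul_cancel₀ (hNpos k).ne'
  · exact (hPU k).mul _
  · exact (memBMO_of_bdd (hUmeas k) (hUb k)).mul _
  · have hlim : Tendsto (fun k : ℕ => 40 * (1 / ((k:ℝ) + 1))) atTop (𝓝 (40 * 0)) :=
      tendsto_one_div_add_atTop_nhds_zero_nat.const_mul 40
    rw [mul_zero] at hlim
    apply squeeze_zero (fun k => bmoNorm_nonneg _) (fun k => ?_) hlim
    rw [bmoNorm_mul, Complex.norm_real, Real.norm_of_nonneg (inv_nonneg.2 (hNpos k).le)]
    have h1 := bmoNorm_le (hUb k)
    have h2 : (N k)⁻¹ ≤ 2 := by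
      rw [inv_le_comm₀ (hNpos k) (by norm_num)]
      have := hN k
      linarith
    have h3 := bmoNorm_nonneg (U k)
    calc (N k)⁻¹ * bmoNorm (U k) ≤ 2 * (2 * (10 * (1 / ((k:ℝ) + 1)))) := by gcongr
      _ = _ := by ring

end Pool.Agent.Lib_helper42
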