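import Pool.Agent.Lib_helper42.RXL2

set_option autoImplicit false

open MeasureTheory Complex Set Filter Topology
open scoped ComplexConjugate

namespace Pool.Agent.RX

noncomputable section

lemma chi_nonneg {ρ : ℝ} (w : ℂ) : 0 ≤ chi ρ w := by
  unfold chi psi psi1
  have ht := t_nonneg ρ w
  set t := normSq w / ρ ^ 2
  split_ifs with h
  · apply div_nonneg _ (by positivity)
    nlinarith [sq_nonneg (1 - t)]
  · push Not at h
    have : 1 / t + t * -(1 / t ^ 2) = 0 := by field_simp; ring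
    rw [this]; simp

lemma chi_le {ρ : ℝ} (hρ : 0 < ρ) (w : ℂ) : chi ρ w ≤ 3 / ρ ^ 2 := by
  unfold chi psi psi1
  have ht := t_nonneg ρ w
  set t := normSq w / ρ ^ 2
  split_ifs with h
  · gcongr
    nlinarith
  · push Not at h
    have : 1 / t + t * -(1 / t ^ 2) = 0 := by field_simp; ring
    rw [this]; simp; positivity

lemma chi_eq_zero {ρ : ℝ} (hρ : 0 < ρ) {w : ℂ} (hw : ρ ≤ ‖w‖) : chi ρ w = 0 := by
  unfold chi psi psi1
  have h1 : 1 ≤ normSq w / ρ ^ 2 := by
    rw [le_div_iff₀ (by positivity), one_mul, normSq_eq_norm_sq]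
    gcongr
  set t := normSq w / ρ ^ 2
  rcases eq_or_lt_of_le h1 with h | h
  · rw [← h]; norm_num
  · rw [if_neg (not_le.2 h), if_neg (not_le.2 h)]
    have : 1 / t + t * -(1 / t ^ 2) = 0 := by field_simp; ring
    rw [this]; simp

/-- smearing radius -/
def rad (K : Set ℂ) (δ : ℝ) (ζ : ℂ) : ℝ := (Metric.infDist ζ K + δ) / 4

lemma rad_ge (K : Set ℂ) (δ : ℝ) (ζ : ℂ) : δ / 4 ≤ rad K δ ζ := by
  unfold rad
  have : 0 ≤ Metric.infDist ζ K := Metric.infDist_nonneg
  linarith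

lemma measurable_rad (K : Set ℂ) (δ : ℝ) : Measurable (rad K δ) := by
  unfold rad
  have : Continuous (fun ζ => Metric.infDist ζ K) := Metric.continuous_infDist_pt K
  fun_prop

lemma rad_lip (K : Set ℂ) (δ : ℝ) (z ζ : ℂ) : rad K δ z ≤ rad K δ ζ + ‖z - ζ‖ / 4 := by
  unfold rad
  have := Metric.infDist_le_infDist_add_dist (s := K) (x := z) (y := ζ)
  rw [dist_eq_norm] at this
  linarith

lemma norm_GG_le (ν : Measure ℂ) [IsFiniteMeasure ν] {h : ℂ → ℂ} (h1 : ∀ ζ, ‖h ζ‖ ≤ 1)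
    {K : Set ℂ} (hK : IsClosed K) (hKne : K.Nonempty) {lam : ℝ} (hlam : 0 ≤ lam)
    (hd : ∀ k ∈ K, ∀ s > 0, ν.real (Metric.ball k s) ≤ lam * s ^ 2)
    {δ : ℝ} (hδ : 0 < δ) (z : ℂ) : ‖GG ν (rad K δ) h z‖ ≤ 180 * lam := by
  obtain ⟨k, hk, hkd⟩ := hK.exists_infDist_eq_dist hKne z
  set r := rad K δ z with hr
  have hrpos : 0 < r := by have := rad_ge K δ z; linarith
  have hkr : dist z k < 4 * r := by
    rw [← hkd, hr]; unfold rad; linarith
  have pt : ∀ ζ, ‖h ζ * ((chi (rad K δ ζ) (z - ζ) : ℝ) : ℂ)‖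
      ≤ (Metric.ball k (6 * r)).indicator (fun _ => 5 / r ^ 2) ζ := by
    intro ζ
    have hρ : 0 < rad K δ ζ := by have := rad_ge K δ ζ; linarith
    rw [norm_mul, norm_real, Real.norm_of_nonneg (chi_nonneg _)]
    rcases le_or_gt (rad K δ ζ) ‖z - ζ‖ with hc | hc
    · rw [chi_eq_zero hρ hc, mul_zero]
      exact indicator_nonneg (fun _ _ => by positivity) _
    · have l1 := rad_lip K δ z ζ
      have l2 := rad_lip K δ ζ z
      rw [norm_sub_rev] at l2
      have l3 : rad K δ ζ ≤ 4 / 3 * r := by linarith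
      have l4 : r ≤ 5 / 4 * rad K δ ζ := by linarith
      have hmem : ζ ∈ Metric.ball k (6 * r) := by
        rw [Metric.mem_ball]
        calc dist ζ k ≤ dist ζ z + dist z k := dist_triangle _ _ _
          _ < 4 / 3 * r + 4 * r := by
              rw [dist_comm ζ z, dist_eq_norm]; linarith
          _ ≤ 6 * r := by linarith
      rw [indicator_of_mem hmem]
      calc ‖h ζ‖ * chi (rad K δ ζ) (z - ζ) ≤ 1 * (3 / (rad K δ ζ) ^ 2) := by
            gcongr
            · exact chi_nonneg _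
            · exact h1 ζ
            · exact chi_le hρ _
        _ ≤ 5 / r ^ 2 := by
            rw [one_mul, div_le_div_iff₀ (by positivity) (by positivity)]
            have : r ^ 2 ≤ (5 / 4 * rad K δ ζ) ^ 2 := by gcongr
            nlinarith [sq_nonneg (rad K δ ζ)]
  unfold GG
  calc ‖∫ ζ, h ζ * ((chi (rad K δ ζ) (z - ζ) : ℝ) : ℂ) ∂ν‖
      ≤ ∫ ζ, (Metric.ball k (6 * r)).indicator (fun _ => 5 / r ^ 2) ζ ∂ν := by
        apply norm_integral_le_of_norm_le
        · exact (integrable_const _).indicator Metric.isOpen_ball.measurableSet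
        · exact Eventually.of_forall pt
    _ = ν.real (Metric.ball k (6 * r)) * (5 / r ^ 2) := by
        rw [integral_indicator Metric.isOpen_ball.measurableSet]
        simp
    _ ≤ lam * (6 * r) ^ 2 * (5 / r ^ 2) := by
        gcongr
        exact hd k hk _ (by positivity)
    _ = 180 * lam := by field_simp; ring

lemma GG_eq_zero (ν : Measure ℂ) {h : ℂ → ℂ}
    {R : ℝ} (hR : ∀ ζ, R < ‖ζ‖ → h ζ = 0)
    {K : Set ℂ} {k0 : ℂ} (hk0 : k0 ∈ K) {δ : ℝ} (hδ : 0 < δ) (hδ1 : δ ≤ 1) {z : ℂ}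
    (hz : R + (R + ‖k0‖ + 1) < ‖z‖) : GG ν (rad K δ) h z = 0 := by
  unfold GG
  have : ∀ ζ, h ζ * ((chi (rad K δ ζ) (z - ζ) : ℝ) : ℂ) = 0 := by
    intro ζ
    rcases le_or_gt ‖ζ‖ R with hζ | hζ
    · have hρ : 0 < rad K δ ζ := by have := rad_ge K δ ζ; linarith
      rw [chi_eq_zero hρ]
      · simp
      · have h1 : Metric.infDist ζ K ≤ ‖ζ‖ + ‖k0‖ := by
          refine (Metric.infDist_le_dist_of_mem hk0).trans ?_
          rw [dist_eq_norm]; exact norm_sub_le _ _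
        have h2 : ‖z‖ - ‖ζ‖ ≤ ‖z - ζ‖ := norm_sub_norm_le z ζ
        have h3 : 0 ≤ ‖ζ‖ := norm_nonneg ζ
        have h4 : 0 ≤ ‖k0‖ := norm_nonneg k0
        unfold rad
        linarith
    · rw [hR ζ hζ]; simp
  simp [this]

theorem CZ_bound (ν : Measure ℂ) [IsFiniteMeasure ν] {R : ℝ} (hR0 : 0 ≤ R)
    {K : Set ℂ} (hK : IsClosed K) (hKne : K.Nonempty) {lam : ℝ} (hlam : 0 ≤ lam)
    (hd : ∀ k ∈ K, ∀ s > 0, ν.real (Metric.ball k s) ≤ lam * s ^ 2) :
    ∃ B : ℝ, 0 ≤ B ∧ ∀ δ : ℝ, 0 < δ → δ ≤ 1 → ∀ h : ℂ → ℂ, Measurable h → (∀ ζ, ‖h ζ‖ ≤ 1) →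
      (∀ ζ, R < ‖ζ‖ → h ζ = 0) → ∫ z, ‖TT ν (rad K δ) h z‖ ^ 2 ≤ B := by
  obtain ⟨k0, hk0⟩ := hKne
  refine ⟨(180 * lam) ^ 2 * (volume (Metric.closedBall (0 : ℂ) (R + (R + ‖k0‖ + 1)))).toReal,
    by positivity, ?_⟩
  intro δ hδ hδ1 h mh h1 hR
  rw [L2_identity ν mh h1 hR0 hR (measurable_rad K δ) (δ := δ / 4) (by linarith) (rad_ge K δ)]
  set S := Metric.closedBall (0 : ℂ) (R + (R + ‖k0‖ + 1)) with hS
  have hSm : MeasurableSet S := Metric.isClosed_closedBall.measurableSet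
  have hSf : volume S ≠ ⊤ := (isCompact_closedBall _ _).measure_lt_top.ne
  calc ∫ z, ‖GG ν (rad K δ) h z‖ ^ 2 ≤ ∫ z, S.indicator (fun _ => (180 * lam) ^ 2) z := by
        apply integral_mono_of_nonneg (Eventually.of_forall fun z => by positivity)
        · exact (integrable_indicator_iff hSm).2 (integrableOn_const hSf)
        · refine Eventually.of_forall fun z => ?_
          by_cases hz : z ∈ S
          · simp only [indicator_of_mem hz]
            gcongr
            exact norm_GG_le ν h1 hK ⟨k0, hk0⟩ hlam hd hδ z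
          · simp only [indicator_of_notMem hz]
            rw [hS, Metric.mem_closedBall, dist_zero_right, not_le] at hz
            rw [GG_eq_zero ν hR hk0 hδ hδ1 hz]
            simp
    _ = (180 * lam) ^ 2 * (volume S).toReal := by
        rw [integral_indicator hSm]
        simp [Measure.real, mul_comm]

end

end Pool.Agent.RX
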