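import Pool.Agent.Lib_helper42.RXCZ

set_option autoImplicit false

open MeasureTheory Complex Set Filter Topology
open scoped ComplexConjugate ENNReal

namespace Pool.Agent.RX

noncomputable section

/-- local part of `1/|w|` -/
def k1 (w : ℂ) : ℝ := (Metric.ball (0 : ℂ) 1).indicator (fun w => ‖w‖⁻¹) w

lemma integrable_k1 : Integrable k1 := by
  unfold k1
  rw [integrable_indicator_iff Metric.isOpen_ball.measurableSet]
  have := (integrableOn_fun_norm_addHaar (E := ℂ) (μ := (volume : Measure ℂ))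
    (f := fun y : ℝ => y⁻¹) (r := 1)).2 (by
      rw [Complex.finrank_real_complex]
      have h1 : IntegrableOn (fun _ : ℝ => (1 : ℝ)) (Ioo (0 : ℝ) 1) volume :=
        integrableOn_const (by simp)
      refine h1.congr_fun (fun y hy => ?_) measurableSet_Ioo
      have : y ≠ 0 := hy.1.ne'
      simp [this])
  exact this

lemma k1_nonneg (w : ℂ) : 0 ≤ k1 w := by
  unfold k1; exact indicator_nonneg (fun _ _ => by positivity) _

lemma inv_norm_le (w : ℂ) : ‖w‖⁻¹ ≤ 1 + k1 w := by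
  unfold k1
  by_cases hw : w ∈ Metric.ball (0 : ℂ) 1
  · rw [indicator_of_mem hw]; linarith
  · rw [indicator_of_notMem hw, add_zero]
    rw [Metric.mem_ball, dist_zero_right, not_lt] at hw
    exact inv_le_one_of_one_le₀ hw

lemma measurable_k1 : Measurable k1 := by
  unfold k1
  exact (measurable_norm.inv).indicator Metric.isOpen_ball.measurableSet

lemma k1_neg (w : ℂ) : k1 (-w) = k1 w := by
  unfold k1
  by_cases hw : w ∈ Metric.ball (0 : ℂ) 1
  · have : -w ∈ Metric.ball (0 : ℂ) 1 := by simpa using hw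
    rw [indicator_of_mem hw, indicator_of_mem this, norm_neg]
  · have : -w ∉ Metric.ball (0 : ℂ) 1 := by simpa using hw
    rw [indicator_of_notMem hw, indicator_of_notMem this]

lemma integrable_k1_prod (ν : Measure ℂ) [IsFiniteMeasure ν] :
    Integrable (fun p : ℂ × ℂ => k1 (p.1 - p.2)) (volume.prod ν) := by
  have hm : Measurable (fun p : ℂ × ℂ => k1 (p.1 - p.2)) :=
    measurable_k1.comp (measurable_fst.sub measurable_snd)
  rw [integrable_prod_iff' hm.aestronglyMeasurable]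
  constructor
  · exact Eventually.of_forall fun y => integrable_k1.comp_sub_right y
  · have : ∀ y : ℂ, ∫ x, ‖k1 (x - y)‖ = ∫ x, ‖k1 x‖ := fun y =>
      integral_sub_right_eq_self (μ := (volume : Measure ℂ)) (fun x => ‖k1 x‖) y
    simp_rw [this]
    exact integrable_const _

lemma ae_integrable_k1 (ν : Measure ℂ) [IsFiniteMeasure ν] :
    ∀ᵐ z : ℂ, Integrable (fun ζ => k1 (z - ζ)) ν :=
  (integrable_k1_prod ν).prod_right_ae

lemma integrable_inv_of_k1 (ν : Measure ℂ) [IsFiniteMeasure ν] {z : ℂ}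
    (h : Integrable (fun ζ => k1 (z - ζ)) ν) : Integrable (fun ζ => ‖z - ζ‖⁻¹) ν := by
  refine ((integrable_const (1 : ℝ)).add h).mono' ?_ (Eventually.of_forall fun ζ => ?_)
  · exact (((measurable_const.sub measurable_id).norm).inv).aestronglyMeasurable
  · rw [Real.norm_of_nonneg (by positivity)]
    exact inv_norm_le _

lemma ae_integrable_inv (ν : Measure ℂ) [IsFiniteMeasure ν] :
    ∀ᵐ z : ℂ, Integrable (fun ζ => ‖z - ζ‖⁻¹) ν := by
  filter_upwards [ae_integrable_k1 ν] with z hz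
  exact integrable_inv_of_k1 ν hz

/-- Cauchy transform of `u ν` -/
def muhat (ν : Measure ℂ) (u : ℂ → ℂ) (z : ℂ) : ℂ := ∫ ζ, u ζ / (ζ - z) ∂ν

lemma measurable_muhat (ν : Measure ℂ) [IsFiniteMeasure ν] {u : ℂ → ℂ} (mu : Measurable u) :
    StronglyMeasurable (muhat ν u) := by
  unfold muhat
  have m : Measurable (Function.uncurry fun z ζ : ℂ => u ζ / (ζ - z)) :=
    (mu.comp measurable_snd).div (measurable_snd.sub measurable_fst)
  exact m.stronglyMeasurable.integral_prod_right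

lemma norm_ck_le_inv {ρ : ℝ} (hρ : 0 < ρ) (w : ℂ) : ‖ck ρ w‖ ≤ 6 * ‖w‖⁻¹ := by
  rcases eq_or_ne w 0 with rfl | hw
  · simp [ck]
  · have hw' : 0 < ‖w‖ := norm_pos_iff.2 hw
    refine (norm_ck_le hρ w).trans ?_
    rw [div_le_iff₀ (by positivity)]
    have : 6 * ‖w‖⁻¹ * (ρ ^ 2 + ‖w‖ ^ 2) = 6 * ‖w‖⁻¹ * ρ ^ 2 + 6 * ‖w‖ := by field_simp
    rw [this]
    have : 0 ≤ 6 * ‖w‖⁻¹ * ρ ^ 2 := by positivity
    linarith

lemma ck_eq_inv {ρ : ℝ} (hρ : 0 < ρ) {w : ℂ} (hw : ρ < ‖w‖) : ck ρ w = w⁻¹ := by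
  have h1 : ¬ (normSq w / ρ ^ 2 ≤ 1) := by
    rw [not_le, lt_div_iff₀ (by positivity), one_mul, normSq_eq_norm_sq]
    gcongr
  have hw0 : w ≠ 0 := by
    intro h; rw [h, norm_zero] at hw; linarith
  have hρ' : (ρ : ℂ) ≠ 0 := by exact_mod_cast hρ.ne'
  have hn : ((normSq w : ℝ) : ℂ) = w * conj w := (mul_conj w).symm
  have hc : conj w ≠ 0 := by simpa using hw0
  unfold ck psi
  rw [if_neg h1]
  push_cast
  rw [hn]
  field_simp

lemma kap_eq_inv {ρ : ℝ} (hρ : 0 < ρ) {w : ℂ} (hw : ρ < ‖w‖) : kap ρ w = (w ^ 2)⁻¹ := by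
  have h1 : ¬ (normSq w / ρ ^ 2 ≤ 1) := by
    rw [not_le, lt_div_iff₀ (by positivity), one_mul, normSq_eq_norm_sq]
    gcongr
  have hw0 : w ≠ 0 := by
    intro h; rw [h, norm_zero] at hw; linarith
  have hρ' : (ρ : ℂ) ≠ 0 := by exact_mod_cast hρ.ne'
  have hn : ((normSq w : ℝ) : ℂ) = w * conj w := (mul_conj w).symm
  have hc : conj w ≠ 0 := by simpa using hw0
  unfold kap psi1
  rw [if_neg h1]
  push_cast
  rw [hn]
  field_simp

lemma tendsto_ck (w : ℂ) : Tendsto (fun n : ℕ => ck (1 / ((n : ℝ) + 1)) w) atTop (𝓝 w⁻¹) := by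
  rcases eq_or_ne w 0 with rfl | hw
  · simp [ck]
  · have hw' : 0 < ‖w‖ := norm_pos_iff.2 hw
    have h0 : Tendsto (fun n : ℕ => 1 / ((n : ℝ) + 1)) atTop (𝓝 0) := tendsto_one_div_add_atTop_nhds_zero_nat
    refine tendsto_const_nhds.congr' ?_
    filter_upwards [h0.eventually (gt_mem_nhds hw')] with n hn
    exact (ck_eq_inv (by positivity) hn).symm

/-- the mass of `chi` -/
def mass : ℝ := ∫ w, chi 1 w

lemma hasCompactSupport_chi : HasCompactSupport (chi 1) := by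
  apply HasCompactSupport.intro (isCompact_closedBall (0 : ℂ) 1)
  intro x hx
  rw [Metric.mem_closedBall, dist_zero_right, not_le] at hx
  exact chi_eq_zero one_pos hx.le

lemma integrable_chi_one : Integrable (chi 1) :=
  (continuous_chi 1).integrable_of_hasCompactSupport hasCompactSupport_chi

lemma mass_pos : 0 < mass := by
  unfold mass
  apply (continuous_chi 1).integral_pos_of_hasCompactSupport_nonneg_nonzero hasCompactSupport_chi
    (fun w => chi_nonneg w) (x := 0)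
  simp [chi, psi]

lemma chi_scale {ρ : ℝ} (hρ : 0 < ρ) (v : ℂ) : chi ρ (ρ • v) = chi 1 v / ρ ^ 2 := by
  unfold chi
  have : normSq (ρ • v) / ρ ^ 2 = normSq v / 1 ^ 2 := by
    rw [real_smul, normSq_mul, normSq_ofReal]
    field_simp
  rw [this]
  simp

lemma conv_chi {F : ℂ → ℂ} {ρ : ℝ} (hρ : 0 < ρ) (ζ : ℂ) :
    ∫ z, F z * ((chi ρ (z - ζ) : ℝ) : ℂ) = ∫ v, F (ζ + ρ • v) * ((chi 1 v : ℝ) : ℂ) := by
  have h1 : ∫ z, F z * ((chi ρ (z - ζ) : ℝ) : ℂ) = ∫ w, F (ζ + w) * ((chi ρ w : ℝ) : ℂ) := by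
    rw [← integral_add_left_eq_self (μ := (volume : Measure ℂ))
      (fun z => F z * ((chi ρ (z - ζ) : ℝ) : ℂ)) ζ]
    congr 1; ext w; simp
  have h2 := Measure.integral_comp_smul (μ := (volume : Measure ℂ))
    (fun w => F (ζ + w) * ((chi ρ w : ℝ) : ℂ)) ρ
  rw [Complex.finrank_real_complex] at h2
  rw [h1]
  have h3 : ∫ w, F (ζ + w) * ((chi ρ w : ℝ) : ℂ)
      = (ρ ^ 2 : ℝ) • ∫ v, F (ζ + ρ • v) * ((chi ρ (ρ • v) : ℝ) : ℂ) := by
    rw [h2, smul_smul, abs_of_pos (by positivity), mul_inv_cancel₀ (by positivity), one_smul]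
  rw [h3, ← integral_smul]
  congr 1
  ext v
  rw [chi_scale hρ, Complex.real_smul]
  have hρ' : (ρ : ℂ) ≠ 0 := by exact_mod_cast hρ.ne'
  push_cast
  field_simp

end

end Pool.Agent.RX
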