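import Pool.Agent.Lib_helper42.RXPompeiu

set_option autoImplicit false

open MeasureTheory Complex Set Filter Topology
open scoped ComplexConjugate ENNReal NNReal

namespace Pool.Agent.RX

noncomputable section

/-- points of uniformly bounded upper density of `ν` -/
def KK (ν : Measure ℂ) (lam : ℝ) : Set ℂ := {z | ∀ s > 0, ν.real (Metric.ball z s) ≤ lam * s ^ 2}

lemma isClosed_KK (ν : Measure ℂ) [IsFiniteMeasure ν] (lam : ℝ) : IsClosed (KK ν lam) := by
  apply isClosed_of_closure_subset
  intro z hz s hs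
  have key : ∀ s' > s, ν.real (Metric.ball z s) ≤ lam * s' ^ 2 := by
    intro s' hs'
    obtain ⟨y, hy, hyd⟩ := Metric.mem_closure_iff.1 hz (s' - s) (by linarith)
    refine le_trans (measureReal_mono ?_ (measure_ne_top _ _)) (hy s' (by linarith))
    apply Metric.ball_subset_ball'
    linarith
  have hlim : Tendsto (fun s' : ℝ => lam * s' ^ 2) (𝓝[>] s) (𝓝 (lam * s ^ 2)) := by
    apply tendsto_nhdsWithin_of_tendsto_nhds
    exact (continuous_const.mul (continuous_pow 2)).tendsto s
  exact ge_of_tendsto hlim (eventually_nhdsWithin_of_forall fun s' hs' => key s' hs')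

lemma ae_exists_KK (ν : Measure ℂ) [IsFiniteMeasure ν] : ∀ᵐ z : ℂ, ∃ n : ℕ, z ∈ KK ν n := by
  filter_upwards [Besicovitch.ae_tendsto_rnDeriv ν (volume : Measure ℂ),
    Measure.rnDeriv_lt_top ν (volume : Measure ℂ)] with x hx hfin
  obtain ⟨c, hc1, hc2⟩ := ENNReal.lt_iff_exists_nnreal_btwn.1 hfin
  have h1 := hx.eventually (gt_mem_nhds hc1)
  obtain ⟨r0, hr0, hr⟩ := (mem_nhdsGT_iff_exists_Ioo_subset).1 h1
  have hr0' : 0 < r0 := hr0
  obtain ⟨n, hn⟩ := exists_nat_ge (max ((c : ℝ) * Real.pi) (ν.real univ / r0 ^ 2))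
  refine ⟨n, fun s hs => ?_⟩
  rcases lt_or_ge s r0 with h | h
  · have h2 := hr ⟨hs, h⟩
    simp only [mem_ofPred_eq] at h2
    have h3 : ν (Metric.closedBall x s) ≤ c * volume (Metric.closedBall x s) := by
      have := ENNReal.div_le_iff_le_mul (a := ν (Metric.closedBall x s)) (b := volume (Metric.closedBall x s)) (c := c)
        (Or.inl (by
          rw [Complex.volume_closedBall]
          have : 0 < ENNReal.ofReal s := ENNReal.ofReal_pos.2 hs
          have h' : ENNReal.ofReal s ^ 2 ≠ 0 := by positivity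
          simp only [ne_eq, mul_eq_zero, not_or]
          refine ⟨h', ?_⟩
          simp [NNReal.pi_pos.ne'])) (Or.inl (isCompact_closedBall x s).measure_lt_top.ne)
      exact this.1 h2.le
    have h4 : ν.real (Metric.ball x s) ≤ (c : ℝ) * (s ^ 2 * Real.pi) := by
      have h5 : ν (Metric.ball x s) ≤ c * volume (Metric.closedBall x s) :=
        (measure_mono Metric.ball_subset_closedBall).trans h3
      rw [Complex.volume_closedBall] at h5
      have h6 := ENNReal.toReal_mono (by finiteness) h5
      rw [ENNReal.toReal_mul, ENNReal.toReal_mul, ENNReal.toReal_pow, ENNReal.toReal_ofReal hs.le] at h6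
      simpa [Measure.real] using h6
    calc ν.real (Metric.ball x s) ≤ (c : ℝ) * (s ^ 2 * Real.pi) := h4
      _ = ((c : ℝ) * Real.pi) * s ^ 2 := by ring
      _ ≤ n * s ^ 2 := by gcongr; exact (le_max_left _ _).trans hn
  · calc ν.real (Metric.ball x s) ≤ ν.real univ := measureReal_mono (subset_univ _) (measure_ne_top _ _)
      _ = ν.real univ / r0 ^ 2 * r0 ^ 2 := by field_simp
      _ ≤ n * s ^ 2 := by
          gcongr
          exact (le_max_right _ _).trans hn

lemma KK_singleton (ν : Measure ℂ) [IsFiniteMeasure ν] {lam : ℝ} {z : ℂ} (hz : z ∈ KK ν lam) :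
    ν {z} = 0 := by
  have h1 : ν.real {z} ≤ 0 := by
    have hlim : Tendsto (fun s' : ℝ => lam * s' ^ 2) (𝓝[>] 0) (𝓝 (lam * 0 ^ 2)) := by
      apply tendsto_nhdsWithin_of_tendsto_nhds
      exact (continuous_const.mul (continuous_pow 2)).tendsto 0
    have : ν.real {z} ≤ lam * 0 ^ 2 := by
      refine ge_of_tendsto hlim (eventually_nhdsWithin_of_forall fun s hs => ?_)
      refine le_trans (measureReal_mono ?_ (measure_ne_top _ _)) (hz s hs)
      simpa using hs
    simpa using this
  have h2 : ν.real {z} = 0 := le_antisymm h1 measureReal_nonneg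
  exact (measureReal_eq_zero_iff (measure_ne_top _ _)).1 h2

end

end Pool.Agent.RX
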