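import Pool.Agent.Lib_helper42.RXPrep

set_option autoImplicit false

open MeasureTheory Complex Set Filter Topology
open scoped ComplexConjugate ENNReal NNReal BoundedContinuousFunction

namespace Pool.Agent.RX

noncomputable section

/-- rational functions with poles off `X` -/
def IsRat {X : Set ℂ} (g : ↥X → ℂ) : Prop :=
  ∃ p q : Polynomial ℂ, (∀ z ∈ X, q.eval z ≠ 0) ∧ ∀ z : ↥X, g z = p.eval (z : ℂ) / q.eval (z : ℂ)

lemma IsRat.add {X : Set ℂ} {f g : ↥X → ℂ} (hf : IsRat f) (hg : IsRat g) : IsRat (fun x => f x + g x) := by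
  obtain ⟨p1, q1, h1, e1⟩ := hf
  obtain ⟨p2, q2, h2, e2⟩ := hg
  refine ⟨p1 * q2 + p2 * q1, q1 * q2, fun z hz => ?_, fun z => ?_⟩
  · simp [h1 z hz, h2 z hz]
  · have a1 := h1 z z.2
    have a2 := h2 z z.2
    simp only [e1, e2, Polynomial.eval_add, Polynomial.eval_mul]
    field_simp

lemma IsRat.mul {X : Set ℂ} {f g : ↥X → ℂ} (hf : IsRat f) (hg : IsRat g) : IsRat (fun x => f x * g x) := by
  obtain ⟨p1, q1, h1, e1⟩ := hf
  obtain ⟨p2, q2, h2, e2⟩ := hg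
  refine ⟨p1 * p2, q1 * q2, fun z hz => ?_, fun z => ?_⟩
  · simp [h1 z hz, h2 z hz]
  · have a1 := h1 z z.2
    have a2 := h2 z z.2
    simp only [e1, e2, Polynomial.eval_mul]
    field_simp

lemma IsRat.const {X : Set ℂ} (c : ℂ) : IsRat (fun _ : ↥X => c) :=
  ⟨Polynomial.C c, 1, fun z _ => by simp, fun z => by simp⟩

lemma isRat_of_mem_adjoin {X : Set ℂ} {g : ↥X →ᵇ ℂ}
    (hg : g ∈ Algebra.adjoin ℂ {f : ↥X →ᵇ ℂ | ∃ p q : Polynomial ℂ,
                (∀ z ∈ X, q.eval z ≠ 0) ∧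
                  ∀ z : ↥X, f z = p.eval (z : ℂ) / q.eval (z : ℂ)}) : IsRat g := by
  induction hg using Algebra.adjoin_induction with
  | mem x hx => exact hx
  | algebraMap r => exact IsRat.const r
  | add x y _ _ h1 h2 => exact h1.add h2
  | mul x y _ _ h1 h2 => exact h1.mul h2

lemma measurable_TR (ν : Measure ℂ) [IsFiniteMeasure ν] {u : ℂ → ℂ} (mu : Measurable u) {f : ℂ → ℂ}
    (mf : Measurable f) : StronglyMeasurable (TR ν u f) := by
  unfold TR
  have m : Measurable (Function.uncurry fun z ζ : ℂ => (f ζ - f z) / (ζ - z) ^ 2 * u ζ) :=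
    (((mf.comp measurable_snd).sub (mf.comp measurable_fst)).div
      ((measurable_snd.sub measurable_fst).pow_const 2)).mul (mu.comp measurable_snd)
  exact m.stronglyMeasurable.integral_prod_right

/-- the hypotheses collected so far -/
structure Dat (X : Set ℂ) where
  hX : IsCompact X
  ν : Measure ℂ
  u : ℂ → ℂ
  fin : IsFiniteMeasure ν
  mu : Measurable u
  hu : ∀ ζ, ‖u ζ‖ ≤ 1
  hu0 : ∀ ζ, ζ ∉ X → u ζ = 0
  hann : ∀ p q : Polynomial ℂ, (∀ z ∈ X, q.eval z ≠ 0) → ∫ ζ, p.eval ζ / q.eval ζ * u ζ ∂ν = 0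
  lam : ℝ
  C0 : ℝ
  hC0 : 0 ≤ C0
  bound : ∀ p q : Polynomial ℂ, (∀ z ∈ X, q.eval z ≠ 0) → ∀ f : ℂ → ℂ, Measurable f →
      (∀ z ∈ X, f z = p.eval z / q.eval z) → ∀ Mf : ℝ, 0 < Mf → (∀ z ∈ X, ‖f z‖ ≤ Mf) →
      ∫⁻ z in (KK ν lam) ∩ X, ‖TR ν u f z‖ₑ ≤ ENNReal.ofReal (Mf * C0)

namespace Dat

variable {X : Set ℂ} (d : Dat X)

instance : IsFiniteMeasure d.ν := d.fin

/-- the region of integration -/
def Om : Set ℂ := KK d.ν d.lam ∩ X

lemma measurableSet_Om : MeasurableSet d.Om :=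
  (isClosed_KK d.ν d.lam).measurableSet.inter d.hX.measurableSet

/-- the weight -/
def w (z : ℂ) : ℂ := conj (muhat d.ν d.u z) / (‖muhat d.ν d.u z‖ : ℂ)

lemma measurable_w : Measurable d.w := by
  have h := (measurable_muhat d.ν d.mu).measurable
  unfold w
  exact (Complex.continuous_conj.measurable.comp h).div (Complex.measurable_ofReal.comp h.norm)

lemma norm_w_le (z : ℂ) : ‖d.w z‖ ≤ 1 := by
  unfold w
  rw [norm_div, RCLike.norm_conj, Complex.norm_real, norm_norm]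
  exact div_self_le_one _

lemma muhat_mul_w (z : ℂ) : muhat d.ν d.u z * d.w z = (‖muhat d.ν d.u z‖ : ℂ) := by
  unfold w
  rcases eq_or_ne (muhat d.ν d.u z) 0 with h | h
  · rw [h]; simp
  · have h' : ((‖muhat d.ν d.u z‖ : ℝ) : ℂ) ≠ 0 := by exact_mod_cast norm_ne_zero_iff.2 h
    rw [mul_div_assoc', mul_conj, normSq_eq_norm_sq]
    push_cast
    field_simp

/-- the operator -/
def T (b : ↥X → ℂ) : ℂ → ℂ := TR d.ν d.u (ext0 b)

lemma ae_good : ∀ᵐ z ∂(volume.restrict d.Om), z ∈ d.Om ∧ Integrable (fun ζ => ‖z - ζ‖⁻¹) d.ν := by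
  filter_upwards [ae_restrict_mem d.measurableSet_Om, ae_restrict_of_ae (ae_integrable_inv d.ν)] with z h1 h2
  exact ⟨h1, h2⟩

lemma T_rat {b : ↥X → ℂ} {p q : Polynomial ℂ} (hq : ∀ z ∈ X, q.eval z ≠ 0)
    (hb : ∀ z : ↥X, b z = p.eval (z : ℂ) / q.eval (z : ℂ)) {z : ℂ} (hz : z ∈ d.Om)
    (hi : Integrable (fun ζ => ‖z - ζ‖⁻¹) d.ν) :
    Integrable (fun ζ => (ext0 b ζ - ext0 b z) / (ζ - z) ^ 2 * d.u ζ) d.ν ∧
      d.T b z = rd p q z * muhat d.ν d.u z :=
  TR_rat d.hX d.mu d.hu d.hu0 d.hann hq (fun z hz => by rw [ext0_apply' b hz, hb]) hz.2 hi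
    (KK_singleton d.ν hz.1)

lemma T_add {a b : ↥X → ℂ} (ha : IsRat a) (hb : IsRat b) :
    ∀ᵐ z ∂(volume.restrict d.Om), d.T (fun x => a x + b x) z = d.T a z + d.T b z := by
  obtain ⟨p1, q1, h1, e1⟩ := ha
  obtain ⟨p2, q2, h2, e2⟩ := hb
  filter_upwards [d.ae_good] with z hz
  have i1 := (d.T_rat h1 e1 hz.1 hz.2).1
  have i2 := (d.T_rat h2 e2 hz.1 hz.2).1
  unfold T TR
  rw [← integral_add i1 i2]
  congr 1; ext ζ
  have : ∀ y, ext0 (fun x => a x + b x) y = ext0 a y + ext0 b y := by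
    intro y
    by_cases hy : y ∈ X
    · rw [ext0_apply' _ hy, ext0_apply' _ hy, ext0_apply' _ hy]
    · rw [ext0_off _ hy, ext0_off _ hy, ext0_off _ hy]; simp
  rw [this, this]
  ring

lemma T_smul (c : ℂ) (a : ↥X → ℂ) (z : ℂ) : d.T (fun x => c * a x) z = c * d.T a z := by
  unfold T TR
  rw [← integral_const_mul]
  congr 1; ext ζ
  have : ∀ y, ext0 (fun x => c * a x) y = c * ext0 a y := by
    intro y
    by_cases hy : y ∈ X
    · rw [ext0_apply' _ hy, ext0_apply' _ hy]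
    · rw [ext0_off _ hy, ext0_off _ hy]; simp
  rw [this, this]
  ring

lemma T_mul {a b : ↥X → ℂ} (ha : IsRat a) (hb : IsRat b) :
    ∀ᵐ z ∂(volume.restrict d.Om), d.T (fun x => a x * b x) z
      = ext0 a z * d.T b z + ext0 b z * d.T a z := by
  obtain ⟨p1, q1, h1, e1⟩ := ha
  obtain ⟨p2, q2, h2, e2⟩ := hb
  filter_upwards [d.ae_good] with z hz
  have hzX : z ∈ X := hz.1.2
  have i1 := (d.T_rat h1 e1 hz.1 hz.2).2
  have i2 := (d.T_rat h2 e2 hz.1 hz.2).2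
  have h12 : ∀ z ∈ X, (q1 * q2).eval z ≠ 0 := fun z hz => by simp [h1 z hz, h2 z hz]
  have i3 := (d.T_rat (b := fun x => a x * b x) (p := p1 * p2) (q := q1 * q2) h12 (fun y => by
    have a1 := h1 y y.2
    have a2 := h2 y y.2
    simp only [e1, e2, Polynomial.eval_mul]
    field_simp) hz.1 hz.2).2
  rw [i1, i2, i3, ext0_apply' a hzX, ext0_apply' b hzX, e1, e2]
  have a1 := h1 z hzX
  have a2 := h2 z hzX
  unfold rd
  simp only [Polynomial.derivative_mul, Polynomial.eval_mul, Polynomial.eval_add]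
  field_simp
  ring

lemma T_id : ∀ᵐ z ∂(volume.restrict d.Om), d.T (fun x => (x : ℂ)) z = muhat d.ν d.u z := by
  filter_upwards [d.ae_good] with z hz
  have := (d.T_rat (b := fun x : ↥X => (x : ℂ)) (p := Polynomial.X) (q := 1) (fun z _ => by simp)
    (fun y => by simp) hz.1 hz.2).2
  rw [this]
  simp [rd]

lemma measurable_T {b : ↥X → ℂ} (hb : Measurable b) : StronglyMeasurable (d.T b) :=
  measurable_TR d.ν d.mu (measurable_ext0 d.hX.measurableSet hb)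

lemma T_bound (b : ↥X →ᵇ ℂ) (hb : IsRat b) :
    ∫⁻ z in d.Om, ‖d.T b z‖ₑ ≤ ENNReal.ofReal (‖b‖ * d.C0) := by
  obtain ⟨p, q, h1, e1⟩ := hb
  rcases eq_or_ne b 0 with rfl | hne
  · have h0 : ∀ z, d.T (⇑(0 : ↥X →ᵇ ℂ)) z = 0 := by
      intro z
      have h := d.T_smul 0 (fun _ => (0 : ℂ)) z
      simp only [zero_mul] at h
      exact h
    have h2 : ∫⁻ z in d.Om, ‖d.T (⇑(0 : ↥X →ᵇ ℂ)) z‖ₑ = 0 := by
      calc ∫⁻ z in d.Om, ‖d.T (⇑(0 : ↥X →ᵇ ℂ)) z‖ₑ = ∫⁻ z in d.Om, 0 := by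
            congr 1; ext z; rw [h0 z]; simp
        _ = 0 := by simp
    rw [h2]
    exact zero_le
  · have hpos : 0 < ‖b‖ := norm_pos_iff.2 hne
    refine d.bound p q h1 (ext0 b) (measurable_ext0 d.hX.measurableSet b.continuous.measurable)
      (fun z hz => by rw [ext0_apply' _ hz, e1]) ‖b‖ hpos (fun z hz => ?_)
    rw [ext0_apply' _ hz]
    exact b.norm_coe_le_norm _

lemma T_integrable (b : ↥X →ᵇ ℂ) (hb : IsRat b) : Integrable (d.T b) (volume.restrict d.Om) :=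
  ⟨(d.measurable_T b.continuous.measurable).aestronglyMeasurable,
    (d.T_bound b hb).trans_lt ENNReal.ofReal_lt_top⟩

/-- the pairing `∫ b' c |muhat|` -/
def pr (b c : ↥X → ℂ) : ℂ := ∫ z in d.Om, d.T b z * (ext0 c z * d.w z)

lemma mul_integrable (b c : ↥X →ᵇ ℂ) (hb : IsRat b) :
    Integrable (fun z => d.T b z * (ext0 c z * d.w z)) (volume.restrict d.Om) := by
  have m : Measurable (fun z => ext0 c z * d.w z) :=
    (measurable_ext0 d.hX.measurableSet c.continuous.measurable).mul d.measurable_w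
  refine ((d.T_integrable b hb).norm.mul_const ‖c‖).mono'
    ((d.measurable_T b.continuous.measurable).aestronglyMeasurable.mul m.aestronglyMeasurable)
    (Eventually.of_forall fun z => ?_)
  rw [norm_mul]
  gcongr
  rw [norm_mul]
  have h1 : ‖ext0 c z‖ ≤ ‖c‖ := by
    by_cases hz : z ∈ X
    · rw [ext0_apply' _ hz]; exact c.norm_coe_le_norm _
    · rw [ext0_off _ hz]; simp
  calc ‖ext0 c z‖ * ‖d.w z‖ ≤ ‖c‖ * 1 := by
        gcongr
        exact d.norm_w_le z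
    _ = ‖c‖ := mul_one _

lemma pr_bound (b c : ↥X →ᵇ ℂ) (hb : IsRat b) : ‖d.pr b c‖ ≤ d.C0 * ‖b‖ * ‖c‖ := by
  unfold pr
  have h1 : ∫ z in d.Om, ‖d.T b z‖ ≤ ‖b‖ * d.C0 := by
    have h2 := d.T_bound b hb
    rw [← ofReal_integral_norm_eq_lintegral_enorm (d.T_integrable b hb)] at h2
    exact (ENNReal.ofReal_le_ofReal_iff (mul_nonneg (norm_nonneg _) d.hC0)).1 h2
  calc ‖∫ z in d.Om, d.T b z * (ext0 c z * d.w z)‖ ≤ ∫ z in d.Om, ‖d.T b z‖ * ‖c‖ := by
        apply norm_integral_le_of_norm_le ((d.T_integrable b hb).norm.mul_const _)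
        refine Eventually.of_forall fun z => ?_
        rw [norm_mul]
        gcongr
        rw [norm_mul]
        have h1 : ‖ext0 c z‖ ≤ ‖c‖ := by
          by_cases hz : z ∈ X
          · rw [ext0_apply' _ hz]; exact c.norm_coe_le_norm _
          · rw [ext0_off _ hz]; simp
        calc ‖ext0 c z‖ * ‖d.w z‖ ≤ ‖c‖ * 1 := by
              gcongr
              exact d.norm_w_le z
          _ = ‖c‖ := mul_one _
    _ = (∫ z in d.Om, ‖d.T b z‖) * ‖c‖ := integral_mul_const _ _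
    _ ≤ (‖b‖ * d.C0) * ‖c‖ := by gcongr
    _ = _ := by ring

lemma pr_add_left (a b c : ↥X →ᵇ ℂ) (ha : IsRat a) (hb : IsRat b) :
    d.pr (⇑(a + b)) c = d.pr a c + d.pr b c := by
  unfold pr
  rw [← integral_add (d.mul_integrable a c ha) (d.mul_integrable b c hb)]
  apply integral_congr_ae
  filter_upwards [d.T_add ha hb] with z hz
  have : d.T (⇑(a + b)) z = d.T a z + d.T b z := hz
  rw [this]; ring

lemma pr_smul_left (s : ℂ) (a c : ↥X →ᵇ ℂ) : d.pr (⇑(s • a)) c = s * d.pr a c := by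
  unfold pr
  rw [← integral_const_mul]
  congr 1; ext z
  have : d.T (⇑(s • a)) z = s * d.T a z := d.T_smul s a z
  rw [this]; ring

lemma pr_add_right (b c c' : ↥X →ᵇ ℂ) (hb : IsRat b) :
    d.pr b (⇑(c + c')) = d.pr b c + d.pr b c' := by
  unfold pr
  rw [← integral_add (d.mul_integrable b c hb) (d.mul_integrable b c' hb)]
  congr 1; ext z
  have : ext0 (⇑(c + c')) z = ext0 c z + ext0 c' z := by
    by_cases hy : z ∈ X
    · rw [ext0_apply' _ hy, ext0_apply' _ hy, ext0_apply' _ hy]; rfl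
    · rw [ext0_off _ hy, ext0_off _ hy, ext0_off _ hy]; simp
  rw [this]; ring

lemma pr_smul_right (s : ℂ) (b c : ↥X →ᵇ ℂ) : d.pr b (⇑(s • c)) = s * d.pr b c := by
  unfold pr
  rw [← integral_const_mul]
  congr 1; ext z
  have : ext0 (⇑(s • c)) z = s * ext0 c z := by
    by_cases hy : z ∈ X
    · rw [ext0_apply' _ hy, ext0_apply' _ hy]; rfl
    · rw [ext0_off _ hy, ext0_off _ hy]; simp
  rw [this]; ring

lemma ext0_mul (a b : ↥X → ℂ) (z : ℂ) : ext0 (fun x => a x * b x) z = ext0 a z * ext0 b z := by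
  by_cases hy : z ∈ X
  · rw [ext0_apply' _ hy, ext0_apply' _ hy, ext0_apply' _ hy]
  · rw [ext0_off _ hy, ext0_off _ hy, ext0_off _ hy]; simp

lemma pr_leibniz (a b c : ↥X →ᵇ ℂ) (ha : IsRat a) (hb : IsRat b) :
    d.pr (⇑(a * b)) c = d.pr a (⇑(b * c)) + d.pr b (⇑(c * a)) := by
  unfold pr
  rw [← integral_add (d.mul_integrable a (b * c) ha) (d.mul_integrable b (c * a) hb)]
  apply integral_congr_ae
  filter_upwards [d.T_mul ha hb] with z hz
  have h1 : d.T (⇑(a * b)) z = ext0 a z * d.T b z + ext0 b z * d.T a z := hz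
  have h2 : ext0 (⇑(b * c)) z = ext0 b z * ext0 c z := ext0_mul b c z
  have h3 : ext0 (⇑(c * a)) z = ext0 c z * ext0 a z := ext0_mul c a z
  rw [h1, h2, h3]; ring

end Dat

end

end Pool.Agent.RX
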