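import Pool.Agent.Lib_helper42.RXDeriv

set_option autoImplicit false

open MeasureTheory Complex Set Filter Topology
open scoped ComplexConjugate ENNReal NNReal BoundedContinuousFunction

namespace Pool.Agent.RX

noncomputable section

/-- rational functions with poles off `X` as bounded continuous functions -/
def ratSet (X : Set ℂ) : Set (↥X →ᵇ ℂ) :=
  {f : ↥X →ᵇ ℂ | ∃ p q : Polynomial ℂ,
                (∀ z ∈ X, q.eval z ≠ 0) ∧
                  ∀ z : ↥X, f z = p.eval (z : ℂ) / q.eval (z : ℂ)}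

theorem exists_dat {X : Set ℂ} (hX : IsCompact X)
    (hne : (Algebra.adjoin ℂ (ratSet X)).topologicalClosure ≠ ⊤) :
    ∃ d : Dat X, ¬ (∀ᵐ z ∂(volume.restrict d.Om), muhat d.ν d.u z = 0) := by
  obtain ⟨ν, u, hfin, mu, hu, hu0, hann, hmu⟩ := exists_data hX
    (Algebra.adjoin ℂ (ratSet X)).topologicalClosure
    (Subalgebra.isClosed_topologicalClosure _) (fun g p q hq hg =>
      Subalgebra.le_topologicalClosure _ (Algebra.subset_adjoin ⟨p, q, hq, hg⟩)) hne
  have hoff : ∀ z, z ∉ X → muhat ν u z = 0 := by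
    intro z hz
    have := hann 1 (Polynomial.X - Polynomial.C z) (fun y hy => by
      simp only [Polynomial.eval_sub, Polynomial.eval_X, Polynomial.eval_C]
      intro h
      exact hz (sub_eq_zero.1 h ▸ hy))
    unfold muhat
    rw [← this]
    congr 1; ext ζ
    simp only [Polynomial.eval_one, Polynomial.eval_sub, Polynomial.eval_X, Polynomial.eval_C]
    ring
  obtain ⟨n, hn⟩ : ∃ n : ℕ, ¬ (∀ᵐ z : ℂ, z ∈ KK ν n ∩ X → muhat ν u z = 0) := by
    by_contra hcon
    push Not at hcon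
    apply hmu
    have hall := ae_all_iff.2 hcon
    filter_upwards [hall, ae_exists_KK ν] with z h1 h2
    obtain ⟨n, hn⟩ := h2
    by_cases hz : z ∈ X
    · exact h1 n ⟨hn, hz⟩
    · exact hoff z hz
  have hne' : (KK ν n).Nonempty := by
    by_contra hcon
    rw [not_nonempty_iff_eq_empty] at hcon
    apply hn
    filter_upwards with z hz
    rw [hcon] at hz
    exact absurd hz.1 (notMem_empty z)
  obtain ⟨C0, hC0, hbd⟩ := main_bound hX mu hu hu0 (lam := (n : ℝ)) (Nat.cast_nonneg n) hne'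
  let d : Dat X := ⟨hX, ν, u, hfin, mu, hu, hu0, hann, n, C0, hC0, hbd⟩
  refine ⟨d, fun hcon => hn ?_⟩
  have := (ae_restrict_iff' d.measurableSet_Om).1 hcon
  exact this

theorem extend_derivation {A B : Type*} [NormedCommRing A] [NormedAlgebra ℂ A]
    [NormedCommRing B] [NormedAlgebra ℂ B] (e : B →ₐ[ℂ] A) (he : ∀ b, ‖e b‖ = ‖b‖)
    (hd : DenseRange e) (P : B →ₗ[ℂ] A →ₗ[ℂ] ℂ) (C : ℝ) (hP : ∀ b a, ‖P b a‖ ≤ C * ‖b‖ * ‖a‖)
    (hL : ∀ (b b' : B) (c : A), P (b * b') c = P b (e b' * c) + P b' (c * e b)) :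
    ∃ D : A →L[ℂ] (A →L[ℂ] ℂ), (∀ a b c, D (a * b) c = D a (b * c) + D b (c * a)) ∧
      ∀ (b : B) (c : A), D (e b) c = P b c := by
  let D0 : B →L[ℂ] (A →L[ℂ] ℂ) := P.mkContinuous₂ C hP
  have hD0 : ∀ b c, D0 b c = P b c := fun b c => rfl
  let e2 : B →ₗᵢ[ℂ] A := ⟨e.toLinearMap, he⟩
  let ec : B →L[ℂ] A := e2.toContinuousLinearMap
  have hui : IsUniformInducing (⇑ec) := e2.isometry.isUniformInducing
  have hdense : DenseRange (⇑ec) := hd
  let D : A →L[ℂ] (A →L[ℂ] ℂ) := D0.extend ec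
  have hDe : ∀ b : B, D (ec b) = D0 b := fun b => ContinuousLinearMap.extend_eq D0 hdense hui b
  refine ⟨D, ?_, fun b c => ?_⟩
  · intro a b c
    refine hdense.induction_on₂ (p := fun a b => D (a * b) c = D a (b * c) + D b (c * a)) ?_ ?_ a b
    · apply isClosed_eq
      · exact (D.continuous.comp (continuous_fst.mul continuous_snd)).clm_apply continuous_const
      · exact ((D.continuous.comp continuous_fst).clm_apply (continuous_snd.mul continuous_const)).add
          ((D.continuous.comp continuous_snd).clm_apply (continuous_const.mul continuous_fst))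
    · intro b1 b2
      have h1 : ec b1 * ec b2 = ec (b1 * b2) := (map_mul e b1 b2).symm
      rw [h1, hDe, hDe, hDe, hD0, hD0, hD0]
      exact hL b1 b2 c
  · have : e b = ec b := rfl
    rw [this, hDe, hD0]

theorem not_all_zero {X : Set ℂ} (hX : IsCompact X) (A B : Subalgebra ℂ (↥X →ᵇ ℂ))
    (hB : B = Algebra.adjoin ℂ (ratSet X)) (hA : A = B.topologicalClosure) (hne : A ≠ ⊤) :
    ∃ D : ↥A →L[ℂ] (↥A →L[ℂ] ℂ),
            (∀ a b c : ↥A, D (a * b) c = D a (b * c) + D b (c * a)) ∧ D ≠ 0 := by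
  obtain ⟨d, hd⟩ := exists_dat hX (by rw [← hB, ← hA]; exact hne)
  have hrat : ∀ b : ↥B, IsRat (⇑(b : ↥X →ᵇ ℂ)) := fun b =>
    isRat_of_mem_adjoin ((SetLike.ext_iff.1 hB (b : ↥X →ᵇ ℂ)).1 b.2)
  have hBA : B ≤ A := by rw [hA]; exact Subalgebra.le_topologicalClosure B
  let D1 : ↥B →ₗ[ℂ] ↥A →ₗ[ℂ] ℂ := LinearMap.mk₂ ℂ
    (fun b c => d.pr (⇑(b : ↥X →ᵇ ℂ)) (⇑(c : ↥X →ᵇ ℂ)))
    (fun b b' c => d.pr_add_left b b' c (hrat b) (hrat b'))
    (fun s b c => d.pr_smul_left s b c)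
    (fun b c c' => d.pr_add_right b c c' (hrat b))
    (fun s b c => d.pr_smul_right s b c)
  have hdense : DenseRange (Subalgebra.inclusion hBA) := by
    intro a
    rw [Metric.mem_closure_range_iff]
    intro ε hε
    have ha : (a : ↥X →ᵇ ℂ) ∈ closure (B : Set (↥X →ᵇ ℂ)) := by
      exact (SetLike.ext_iff.1 hA (a : ↥X →ᵇ ℂ)).1 a.2
    obtain ⟨b, hb, hdist⟩ := Metric.mem_closure_iff.1 ha ε hε
    exact ⟨⟨b, hb⟩, hdist⟩
  obtain ⟨D, hD1, hD2⟩ := extend_derivation (Subalgebra.inclusion hBA) (fun b => rfl) hdense D1 d.C0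
    (fun b c => d.pr_bound b c (hrat b)) (fun b b' c => d.pr_leibniz b b' c (hrat b) (hrat b'))
  refine ⟨D, hD1, ?_⟩
  · intro hzero
    apply hd
    haveI : CompactSpace ↥X := isCompact_iff_compactSpace.1 hX
    let idf : ↥X →ᵇ ℂ := BoundedContinuousFunction.mkOfCompact ⟨fun x => (x : ℂ), continuous_subtype_val⟩
    have hidB : idf ∈ B := by
      rw [hB]
      apply Algebra.subset_adjoin
      exact ⟨Polynomial.X, 1, fun z _ => by simp, fun z => by simp [idf]⟩
    have h1 : D (Subalgebra.inclusion hBA ⟨idf, hidB⟩) 1 = 0 := by rw [hzero]; rfl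
    rw [hD2] at h1
    have h2 : d.pr (⇑idf) (⇑((1 : ↥A) : ↥X →ᵇ ℂ)) = ∫ z in d.Om, ((‖muhat d.ν d.u z‖ : ℝ) : ℂ) := by
      unfold Dat.pr
      apply integral_congr_ae
      filter_upwards [d.T_id, ae_restrict_mem d.measurableSet_Om] with z hz hzO
      have h3 : d.T (⇑idf) z = muhat d.ν d.u z := hz
      have h4 : ext0 (⇑((1 : ↥A) : ↥X →ᵇ ℂ)) z = 1 := by
        rw [ext0_apply' _ hzO.2]; rfl
      rw [h3, h4, one_mul, d.muhat_mul_w]
    have h5 : ∫ z in d.Om, ‖muhat d.ν d.u z‖ = 0 := by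
      have h6 : ∫ z in d.Om, ((‖muhat d.ν d.u z‖ : ℝ) : ℂ) = 0 := by rw [← h2]; exact h1
      rw [integral_complex_ofReal] at h6
      exact_mod_cast h6
    have h7 : Integrable (fun z => ‖muhat d.ν d.u z‖) (volume.restrict d.Om) := by
      have := (d.T_integrable idf (hrat ⟨idf, hidB⟩)).norm
      refine this.congr ?_
      filter_upwards [d.T_id] with z hz
      have h3 : d.T (⇑idf) z = muhat d.ν d.u z := hz
      rw [h3]
    have h8 := (integral_eq_zero_iff_of_nonneg (fun z => norm_nonneg _) h7).1 h5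
    filter_upwards [h8] with z hz
    simpa using hz

end

end Pool.Agent.RX
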