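import Mathlib

set_option autoImplicit false

open MeasureTheory Complex Set Filter Topology
open scoped ComplexConjugate

namespace Pool.Agent.RX

noncomputable section

/-- radial profile of the smeared Cauchy kernel -/
def psi (t : ℝ) : ℝ := if t ≤ 1 then 3 - 3 * t + t ^ 2 else 1 / t
/-- its derivative -/
def psi1 (t : ℝ) : ℝ := if t ≤ 1 then -3 + 2 * t else -(1 / t ^ 2)
/-- its second derivative -/
def psi2 (t : ℝ) : ℝ := if t ≤ 1 then 2 else 2 / t ^ 3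

lemma hasDerivAt_glue {f g h : ℝ → ℝ} {d : ℝ} (hg : ∀ t ≤ (1 : ℝ), f t = g t)
    (hh : ∀ t, (1 : ℝ) ≤ t → f t = h t) (dg : HasDerivAt g d 1) (dh : HasDerivAt h d 1) :
    HasDerivAt f d 1 := by
  have h1 : HasDerivWithinAt f d (Iic 1) 1 :=
    dg.hasDerivWithinAt.congr (fun t ht => hg t ht) (hg 1 le_rfl)
  have h2 : HasDerivWithinAt f d (Ici 1) 1 :=
    dh.hasDerivWithinAt.congr (fun t ht => hh t ht) (hh 1 le_rfl)
  have h3 := h1.union h2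
  rwa [Iic_union_Ici, hasDerivWithinAt_univ] at h3

lemma hasDerivAt_psi (t : ℝ) : HasDerivAt psi (psi1 t) t := by
  have hpoly : ∀ s : ℝ, HasDerivAt (fun t : ℝ => 3 - 3 * t + t ^ 2) (-3 + 2 * s) s := by
    intro s
    have := (((hasDerivAt_id s).const_mul 3).const_sub 3).add ((hasDerivAt_id s).pow 2)
    exact (this.congr_deriv (by simp)).congr_of_eventuallyEq (Eventually.of_forall fun y => by simp)
  have hinv : ∀ s : ℝ, s ≠ 0 → HasDerivAt (fun t : ℝ => 1 / t) (-(1 / s ^ 2)) s := by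
    intro s hs
    have := hasDerivAt_inv hs
    simpa [one_div] using this
  rcases lt_trichotomy t 1 with h | h | h
  · have e : psi =ᶠ[𝓝 t] fun t : ℝ => 3 - 3 * t + t ^ 2 := by
      filter_upwards [Iio_mem_nhds h] with s hs
      simp [psi, (mem_Iio.1 hs).le]
    have := (hpoly t).congr_of_eventuallyEq e
    simpa [psi1, h.le] using this
  · subst h
    have := hasDerivAt_glue (f := psi) (g := fun t : ℝ => 3 - 3 * t + t ^ 2) (h := fun t : ℝ => 1 / t)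
      (d := -1) (fun t ht => by simp [psi, ht]) (fun t ht => by
        rcases eq_or_lt_of_le ht with h1 | h1
        · subst h1; norm_num [psi]
        · simp [psi, not_le.2 h1]) (by simpa using (hpoly 1).congr_deriv (by norm_num))
        (by simpa using (hinv 1 one_ne_zero).congr_deriv (by norm_num))
    simpa [psi1] using this.congr_deriv (by norm_num [psi1])
  · have e : psi =ᶠ[𝓝 t] fun t : ℝ => 1 / t := by
      filter_upwards [Ioi_mem_nhds h] with s hs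
      simp [psi, not_le.2 (mem_Ioi.1 hs)]
    have := (hinv t (by linarith)).congr_of_eventuallyEq e
    simpa [psi1, not_le.2 h] using this

lemma hasDerivAt_psi1 (t : ℝ) : HasDerivAt psi1 (psi2 t) t := by
  have hpoly : ∀ s : ℝ, HasDerivAt (fun t : ℝ => -3 + 2 * t) 2 s := by
    intro s
    have := ((hasDerivAt_id s).const_mul 2).const_add (-3)
    simpa using this
  have hinv : ∀ s : ℝ, s ≠ 0 → HasDerivAt (fun t : ℝ => -(1 / t ^ 2)) (2 / s ^ 3) s := by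
    intro s hs
    have := (((hasDerivAt_id s).pow 2).inv (pow_ne_zero 2 hs)).neg
    refine (this.congr_deriv ?_).congr_of_eventuallyEq (Eventually.of_forall fun y => by simp)
    simp only [id, Pi.pow_apply]
    field_simp
    norm_num
    ring
  rcases lt_trichotomy t 1 with h | h | h
  · have e : psi1 =ᶠ[𝓝 t] fun t : ℝ => -3 + 2 * t := by
      filter_upwards [Iio_mem_nhds h] with s hs
      simp [psi1, (mem_Iio.1 hs).le]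
    have := (hpoly t).congr_of_eventuallyEq e
    simpa [psi2, h.le] using this
  · subst h
    have := hasDerivAt_glue (f := psi1) (g := fun t : ℝ => -3 + 2 * t) (h := fun t : ℝ => -(1 / t ^ 2))
      (d := 2) (fun t ht => by simp [psi1, ht]) (fun t ht => by
        rcases eq_or_lt_of_le ht with h1 | h1
        · subst h1; norm_num [psi1]
        · simp [psi1, not_le.2 h1]) (hpoly 1)
        (by simpa using (hinv 1 one_ne_zero).congr_deriv (by norm_num))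
    simpa [psi2] using this
  · have e : psi1 =ᶠ[𝓝 t] fun t : ℝ => -(1 / t ^ 2) := by
      filter_upwards [Ioi_mem_nhds h] with s hs
      simp [psi1, not_le.2 (mem_Ioi.1 hs)]
    have := (hinv t (by linarith)).congr_of_eventuallyEq e
    simpa [psi2, not_le.2 h] using this

lemma continuous_psi : Continuous psi :=
  continuous_iff_continuousAt.2 fun t => (hasDerivAt_psi t).continuousAt

lemma continuous_psi1 : Continuous psi1 :=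
  continuous_iff_continuousAt.2 fun t => (hasDerivAt_psi1 t).continuousAt

lemma measurable_psi2 : Measurable psi2 := by
  unfold psi2
  exact Measurable.ite measurableSet_Iic measurable_const (by fun_prop)

lemma psi_nonneg (t : ℝ) (ht : 0 ≤ t) : 0 ≤ psi t := by
  unfold psi; split_ifs with h
  · nlinarith
  · positivity

lemma psi_le (t : ℝ) (ht : 0 ≤ t) : psi t ≤ 6 / (1 + t) := by
  unfold psi; split_ifs with h
  · rw [le_div_iff₀ (by linarith)]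
    nlinarith [mul_nonneg ht ht, mul_nonneg ht (mul_nonneg ht ht), mul_nonneg (mul_nonneg ht ht) (sub_nonneg.2 h)]
  · push Not at h
    rw [div_le_div_iff₀ (by linarith) (by linarith)]; linarith

lemma abs_psi_le (t : ℝ) (ht : 0 ≤ t) : |psi t| ≤ 6 / (1 + t) := by
  rw [abs_of_nonneg (psi_nonneg t ht)]; exact psi_le t ht

lemma abs_psi1_le (t : ℝ) (ht : 0 ≤ t) : |psi1 t| ≤ 12 / (1 + t) ^ 2 := by
  unfold psi1; split_ifs with h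
  · have h1 : |(-3 + 2 * t)| ≤ 3 := by rw [abs_le]; constructor <;> linarith
    refine h1.trans ?_
    rw [le_div_iff₀ (by positivity)]
    nlinarith
  · push Not at h
    rw [abs_neg, abs_of_nonneg (by positivity), div_le_div_iff₀ (by positivity) (by positivity)]
    nlinarith

lemma abs_psi2_le (t : ℝ) (ht : 0 ≤ t) : |psi2 t| ≤ 16 / (1 + t) ^ 3 := by
  unfold psi2; split_ifs with h
  · rw [abs_of_nonneg (by norm_num), le_div_iff₀ (by positivity)]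
    have : (1 + t) ^ 3 ≤ 2 ^ 3 := by gcongr; linarith
    linarith
  · push Not at h
    rw [abs_of_nonneg (by positivity), div_le_div_iff₀ (by positivity) (by positivity)]
    have : (1 + t) ^ 3 ≤ (2 * t) ^ 3 := by gcongr; linarith
    nlinarith

/-- smeared Cauchy kernel: `1/w` for `|w| ≥ ρ` -/
def ck (ρ : ℝ) (w : ℂ) : ℂ := conj w * ((psi (normSq w / ρ ^ 2) : ℝ) : ℂ) / (ρ : ℂ) ^ 2

/-- directional derivative of `ck ρ` -/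
def ckv (ρ : ℝ) (v w : ℂ) : ℂ :=
  (conj v * ((psi (normSq w / ρ ^ 2) : ℝ) : ℂ)
    + conj w * ((psi1 (normSq w / ρ ^ 2) * (2 * (w.re * v.re + w.im * v.im) / ρ ^ 2) : ℝ) : ℂ))
    / (ρ : ℂ) ^ 2

/-- mixed second derivative of `ck ρ` -/
def ckxy (ρ : ℝ) (w : ℂ) : ℂ :=
  (((psi1 (normSq w / ρ ^ 2) * (2 * w.im / ρ ^ 2) : ℝ) : ℂ)
    - I * ((psi1 (normSq w / ρ ^ 2) * (2 * w.re / ρ ^ 2) : ℝ) : ℂ)
    + conj w * ((psi2 (normSq w / ρ ^ 2) * (4 * w.re * w.im / ρ ^ 4) : ℝ) : ℂ)) / (ρ : ℂ) ^ 2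

/-- `-∂ ck`: equals `1/w^2` for `|w| > ρ` -/
def kap (ρ : ℝ) (w : ℂ) : ℂ := -((conj w) ^ 2 * ((psi1 (normSq w / ρ ^ 2) : ℝ) : ℂ)) / (ρ : ℂ) ^ 4

/-- `∂bar ck`: nonnegative and supported in `|w| ≤ ρ` -/
def chi (ρ : ℝ) (w : ℂ) : ℝ :=
  (psi (normSq w / ρ ^ 2) + (normSq w / ρ ^ 2) * psi1 (normSq w / ρ ^ 2)) / ρ ^ 2

lemma hasDerivAt_normSq_line (w v : ℂ) (s : ℝ) :
    HasDerivAt (fun s : ℝ => normSq (w + s • v))
      (2 * ((w + s • v).re * v.re + (w + s • v).im * v.im)) s := by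
  have e : (fun s : ℝ => normSq (w + s • v))
      = fun s : ℝ => (w.re + s * v.re) ^ 2 + (w.im + s * v.im) ^ 2 := by
    ext s; simp [normSq_apply]; ring
  rw [e]
  have h1 : HasDerivAt (fun s : ℝ => w.re + s * v.re) v.re s := by
    simpa using ((hasDerivAt_id s).mul_const v.re).const_add w.re
  have h2 : HasDerivAt (fun s : ℝ => w.im + s * v.im) v.im s := by
    simpa using ((hasDerivAt_id s).mul_const v.im).const_add w.im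
  have := (h1.pow 2).add (h2.pow 2)
  refine (this.congr_deriv ?_).congr_of_eventuallyEq (Eventually.of_forall fun y => by simp)
  simp; ring

lemma hasDerivAt_psi_line (ρ : ℝ) (w v : ℂ) :
    HasDerivAt (fun s : ℝ => psi (normSq (w + s • v) / ρ ^ 2))
      (psi1 (normSq w / ρ ^ 2) * (2 * (w.re * v.re + w.im * v.im) / ρ ^ 2)) 0 := by
  have h := (hasDerivAt_normSq_line w v 0).div_const (ρ ^ 2)
  have := (hasDerivAt_psi (normSq (w + (0 : ℝ) • v) / ρ ^ 2)).comp (0 : ℝ) h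
  simpa [Function.comp_def] using this

lemma hasDerivAt_psi1_line (ρ : ℝ) (w v : ℂ) :
    HasDerivAt (fun s : ℝ => psi1 (normSq (w + s • v) / ρ ^ 2))
      (psi2 (normSq w / ρ ^ 2) * (2 * (w.re * v.re + w.im * v.im) / ρ ^ 2)) 0 := by
  have h := (hasDerivAt_normSq_line w v 0).div_const (ρ ^ 2)
  have := (hasDerivAt_psi1 (normSq (w + (0 : ℝ) • v) / ρ ^ 2)).comp (0 : ℝ) h
  simpa [Function.comp_def] using this

lemma hasDerivAt_conj_line (w v : ℂ) :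
    HasDerivAt (fun s : ℝ => conj (w + s • v)) (conj v) 0 := by
  have e : (fun s : ℝ => conj (w + s • v)) = fun s : ℝ => conj w + (s : ℂ) * conj v := by
    ext s; simp
  rw [e]
  have h : HasDerivAt (fun s : ℝ => (s : ℂ)) 1 (0 : ℝ) := by
    simpa using (hasDerivAt_id (0 : ℝ)).ofReal_comp
  simpa using (h.mul_const (conj v)).const_add (conj w)

lemma hasLineDerivAt_ck (ρ : ℝ) (v w : ℂ) : HasLineDerivAt ℝ (ck ρ) (ckv ρ v w) w v := by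
  unfold HasLineDerivAt
  have h1 := hasDerivAt_conj_line w v
  have h2 := (hasDerivAt_psi_line ρ w v).ofReal_comp
  have := (h1.mul h2).div_const ((ρ : ℂ) ^ 2)
  simpa [ck, ckv] using this

lemma ckv_one (ρ : ℝ) (w : ℂ) : ckv ρ 1 w =
    (((psi (normSq w / ρ ^ 2) : ℝ) : ℂ)
    + conj w * ((psi1 (normSq w / ρ ^ 2) * (2 * w.re / ρ ^ 2) : ℝ) : ℂ)) / (ρ : ℂ) ^ 2 := by
  simp [ckv]

lemma ckv_I (ρ : ℝ) (w : ℂ) : ckv ρ I w =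
    (-I * ((psi (normSq w / ρ ^ 2) : ℝ) : ℂ)
    + conj w * ((psi1 (normSq w / ρ ^ 2) * (2 * w.im / ρ ^ 2) : ℝ) : ℂ)) / (ρ : ℂ) ^ 2 := by
  simp [ckv]

lemma hasLineDerivAt_ckv_one (ρ : ℝ) (w : ℂ) :
    HasLineDerivAt ℝ (ckv ρ 1) (ckxy ρ w) w I := by
  unfold HasLineDerivAt
  have h1 := hasDerivAt_conj_line w I
  have h2 := (hasDerivAt_psi_line ρ w I).ofReal_comp
  have h3 : HasDerivAt (fun s : ℝ => 2 * (w + s • I).re / ρ ^ 2) 0 (0 : ℝ) := by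
    simpa using hasDerivAt_const (0 : ℝ) (2 * w.re / ρ ^ 2)
  have h4 := ((hasDerivAt_psi1_line ρ w I).mul h3).ofReal_comp
  have := ((h2.add (h1.mul h4)).div_const ((ρ : ℂ) ^ 2))
  have e : (fun s : ℝ => ckv ρ 1 (w + s • I)) = fun s : ℝ =>
      (((psi (normSq (w + s • I) / ρ ^ 2) : ℝ) : ℂ)
    + conj (w + s • I) * ((psi1 (normSq (w + s • I) / ρ ^ 2) * (2 * (w + s • I).re / ρ ^ 2) : ℝ) : ℂ))
      / (ρ : ℂ) ^ 2 := by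
    ext s; rw [ckv_one]
  rw [e]
  refine (this.congr_deriv ?_).congr_of_eventuallyEq (Eventually.of_forall fun y => by simp)
  simp [ckxy]
  ring

lemma hasLineDerivAt_ckv_I (ρ : ℝ) (w : ℂ) :
    HasLineDerivAt ℝ (ckv ρ I) (ckxy ρ w) w 1 := by
  unfold HasLineDerivAt
  have h1 := hasDerivAt_conj_line w 1
  have h2 := ((hasDerivAt_psi_line ρ w 1).ofReal_comp).const_mul (-I)
  have h3 : HasDerivAt (fun s : ℝ => 2 * (w + s • (1 : ℂ)).im / ρ ^ 2) 0 (0 : ℝ) := by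
    simpa using hasDerivAt_const (0 : ℝ) (2 * w.im / ρ ^ 2)
  have h4 := ((hasDerivAt_psi1_line ρ w 1).mul h3).ofReal_comp
  have := ((h2.add (h1.mul h4)).div_const ((ρ : ℂ) ^ 2))
  have e : (fun s : ℝ => ckv ρ I (w + s • (1 : ℂ))) = fun s : ℝ =>
      (-I * ((psi (normSq (w + s • (1 : ℂ)) / ρ ^ 2) : ℝ) : ℂ)
    + conj (w + s • (1 : ℂ)) * ((psi1 (normSq (w + s • (1 : ℂ)) / ρ ^ 2) * (2 * (w + s • (1 : ℂ)).im / ρ ^ 2) : ℝ) : ℂ))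
      / (ρ : ℂ) ^ 2 := by
    ext s; rw [ckv_I]
  rw [e]
  refine (this.congr_deriv ?_).congr_of_eventuallyEq (Eventually.of_forall fun y => by simp)
  simp [ckxy]
  ring

/-! ### bounds -/

lemma t_nonneg (ρ : ℝ) (w : ℂ) : 0 ≤ normSq w / ρ ^ 2 := by
  have := normSq_nonneg w
  positivity

lemma one_add_t {ρ : ℝ} (hρ : 0 < ρ) (w : ℂ) : 1 + normSq w / ρ ^ 2 = (ρ ^ 2 + ‖w‖ ^ 2) / ρ ^ 2 := by
  rw [normSq_eq_norm_sq]; field_simp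

lemma psi_bd {ρ : ℝ} (hρ : 0 < ρ) (w : ℂ) :
    |psi (normSq w / ρ ^ 2)| ≤ 6 * ρ ^ 2 / (ρ ^ 2 + ‖w‖ ^ 2) := by
  have h := abs_psi_le _ (t_nonneg ρ w)
  rw [one_add_t hρ] at h
  refine h.trans (le_of_eq ?_)
  have : 0 < ρ ^ 2 + ‖w‖ ^ 2 := by positivity
  field_simp

lemma psi1_bd {ρ : ℝ} (hρ : 0 < ρ) (w : ℂ) :
    |psi1 (normSq w / ρ ^ 2)| ≤ 12 * ρ ^ 4 / (ρ ^ 2 + ‖w‖ ^ 2) ^ 2 := by
  have h := abs_psi1_le _ (t_nonneg ρ w)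
  rw [one_add_t hρ] at h
  refine h.trans (le_of_eq ?_)
  have : 0 < ρ ^ 2 + ‖w‖ ^ 2 := by positivity
  field_simp

lemma psi2_bd {ρ : ℝ} (hρ : 0 < ρ) (w : ℂ) :
    |psi2 (normSq w / ρ ^ 2)| ≤ 16 * ρ ^ 6 / (ρ ^ 2 + ‖w‖ ^ 2) ^ 3 := by
  have h := abs_psi2_le _ (t_nonneg ρ w)
  rw [one_add_t hρ] at h
  refine h.trans (le_of_eq ?_)
  have : 0 < ρ ^ 2 + ‖w‖ ^ 2 := by positivity
  field_simp

lemma norm_ck_le {ρ : ℝ} (hρ : 0 < ρ) (w : ℂ) : ‖ck ρ w‖ ≤ 6 * ‖w‖ / (ρ ^ 2 + ‖w‖ ^ 2) := by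
  have h := psi_bd hρ w
  have hD : 0 < ρ ^ 2 + ‖w‖ ^ 2 := by positivity
  have e : ‖ck ρ w‖ = ‖w‖ * |psi (normSq w / ρ ^ 2)| / ρ ^ 2 := by
    simp [ck, abs_of_pos hρ]
  rw [e, div_le_iff₀ (by positivity)]
  calc ‖w‖ * |psi (normSq w / ρ ^ 2)| ≤ ‖w‖ * (6 * ρ ^ 2 / (ρ ^ 2 + ‖w‖ ^ 2)) := by gcongr
    _ = _ := by ring

lemma norm_kap_le {ρ : ℝ} (hρ : 0 < ρ) (w : ℂ) :
    ‖kap ρ w‖ ≤ 12 * ‖w‖ ^ 2 / (ρ ^ 2 + ‖w‖ ^ 2) ^ 2 := by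
  have h := psi1_bd hρ w
  have hD : 0 < ρ ^ 2 + ‖w‖ ^ 2 := by positivity
  have e : ‖kap ρ w‖ = ‖w‖ ^ 2 * |psi1 (normSq w / ρ ^ 2)| / ρ ^ 4 := by
    simp [kap, abs_of_pos hρ]
  rw [e, div_le_iff₀ (by positivity)]
  calc ‖w‖ ^ 2 * |psi1 (normSq w / ρ ^ 2)| ≤ ‖w‖ ^ 2 * (12 * ρ ^ 4 / (ρ ^ 2 + ‖w‖ ^ 2) ^ 2) := by gcongr
    _ = _ := by ring

lemma norm_kap_le' {ρ : ℝ} (hρ : 0 < ρ) (w : ℂ) : ‖kap ρ w‖ ≤ 12 / (ρ ^ 2 + ‖w‖ ^ 2) := by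
  refine (norm_kap_le hρ w).trans ?_
  have hD : 0 < ρ ^ 2 + ‖w‖ ^ 2 := by positivity
  rw [div_le_div_iff₀ (by positivity) (by positivity)]
  have : ‖w‖ ^ 2 ≤ ρ ^ 2 + ‖w‖ ^ 2 := by nlinarith [sq_nonneg ρ]
  nlinarith [mul_le_mul_of_nonneg_right this hD.le]

lemma abs_dir_le (w v : ℂ) (hv : ‖v‖ ≤ 1) : |w.re * v.re + w.im * v.im| ≤ ‖w‖ := by
  have h : w.re * v.re + w.im * v.im = (w * conj v).re := by simp
  rw [h]
  calc |(w * conj v).re| ≤ ‖w * conj v‖ := Complex.abs_re_le_norm _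
    _ = ‖w‖ * ‖v‖ := by simp
    _ ≤ ‖w‖ * 1 := by gcongr
    _ = ‖w‖ := mul_one _

lemma norm_ckv_le {ρ : ℝ} (hρ : 0 < ρ) {v : ℂ} (hv : ‖v‖ ≤ 1) (w : ℂ) :
    ‖ckv ρ v w‖ ≤ 30 / (ρ ^ 2 + ‖w‖ ^ 2) := by
  have h := psi_bd hρ w
  have h1 := psi1_bd hρ w
  have hD : 0 < ρ ^ 2 + ‖w‖ ^ 2 := by positivity
  have hd := abs_dir_le w v hv
  have e : ‖ckv ρ v w‖ ≤ (‖v‖ * |psi (normSq w / ρ ^ 2)|
      + ‖w‖ * (|psi1 (normSq w / ρ ^ 2)| * (2 * |w.re * v.re + w.im * v.im| / ρ ^ 2))) / ρ ^ 2 := by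
    unfold ckv
    rw [norm_div]
    have e1 : ‖(ρ : ℂ) ^ 2‖ = ρ ^ 2 := by simp
    rw [e1]
    gcongr
    refine (norm_add_le _ _).trans (le_of_eq ?_)
    simp only [norm_mul, RCLike.norm_conj, norm_real, Real.norm_eq_abs, abs_mul, abs_div, abs_pow,
      abs_of_pos hρ, abs_two]
  refine e.trans ?_
  rw [div_le_iff₀ (by positivity)]
  have a1 : ‖v‖ * |psi (normSq w / ρ ^ 2)| ≤ 1 * (6 * ρ ^ 2 / (ρ ^ 2 + ‖w‖ ^ 2)) := by gcongr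
  have a2 : ‖w‖ * (|psi1 (normSq w / ρ ^ 2)| * (2 * |w.re * v.re + w.im * v.im| / ρ ^ 2))
      ≤ ‖w‖ * (12 * ρ ^ 4 / (ρ ^ 2 + ‖w‖ ^ 2) ^ 2 * (2 * ‖w‖ / ρ ^ 2)) := by gcongr
  have a3 : ‖w‖ * (12 * ρ ^ 4 / (ρ ^ 2 + ‖w‖ ^ 2) ^ 2 * (2 * ‖w‖ / ρ ^ 2))
      ≤ 24 * ρ ^ 2 / (ρ ^ 2 + ‖w‖ ^ 2) := by
    have : ‖w‖ * (12 * ρ ^ 4 / (ρ ^ 2 + ‖w‖ ^ 2) ^ 2 * (2 * ‖w‖ / ρ ^ 2))
      = 24 * ρ ^ 2 * ‖w‖ ^ 2 / (ρ ^ 2 + ‖w‖ ^ 2) ^ 2 := by field_simp; ring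
    rw [this, div_le_div_iff₀ (by positivity) (by positivity)]
    have hle : ‖w‖ ^ 2 ≤ ρ ^ 2 + ‖w‖ ^ 2 := by nlinarith [sq_nonneg ρ]
    have : 24 * ρ ^ 2 * ‖w‖ ^ 2 * (ρ ^ 2 + ‖w‖ ^ 2) ≤ 24 * ρ ^ 2 * (ρ ^ 2 + ‖w‖ ^ 2) * (ρ ^ 2 + ‖w‖ ^ 2) := by
      gcongr
    calc _ ≤ _ := this
      _ = _ := by ring
  calc _ ≤ 1 * (6 * ρ ^ 2 / (ρ ^ 2 + ‖w‖ ^ 2)) + 24 * ρ ^ 2 / (ρ ^ 2 + ‖w‖ ^ 2) := by linarith
    _ = _ := by ring

lemma norm_ckxy_le {ρ : ℝ} (hρ : 0 < ρ) (w : ℂ) :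
    ‖ckxy ρ w‖ ≤ 112 * ‖w‖ / (ρ ^ 2 + ‖w‖ ^ 2) ^ 2 := by
  have h1 := psi1_bd hρ w
  have h2 := psi2_bd hρ w
  have hD : 0 < ρ ^ 2 + ‖w‖ ^ 2 := by positivity
  have hx : |w.re| ≤ ‖w‖ := Complex.abs_re_le_norm w
  have hy : |w.im| ≤ ‖w‖ := Complex.abs_im_le_norm w
  have e : ‖ckxy ρ w‖ ≤ ((|psi1 (normSq w / ρ ^ 2)| * (2 * |w.im| / ρ ^ 2))
      + (|psi1 (normSq w / ρ ^ 2)| * (2 * |w.re| / ρ ^ 2))
      + ‖w‖ * (|psi2 (normSq w / ρ ^ 2)| * (4 * |w.re| * |w.im| / ρ ^ 4))) / ρ ^ 2 := by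
    unfold ckxy
    rw [norm_div]
    have e1 : ‖(ρ : ℂ) ^ 2‖ = ρ ^ 2 := by simp
    rw [e1]
    gcongr
    refine (norm_add_le _ _).trans (add_le_add ((norm_sub_le _ _).trans (le_of_eq ?_)) (le_of_eq ?_))
    · simp only [norm_mul, norm_I, norm_real, Real.norm_eq_abs, abs_mul, abs_div, abs_pow,
        abs_of_pos hρ, abs_two, one_mul]
    · simp only [norm_mul, RCLike.norm_conj, norm_real, Real.norm_eq_abs, abs_mul, abs_div, abs_pow,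
        abs_of_pos hρ]
      norm_num
  refine e.trans ?_
  rw [div_le_iff₀ (by positivity)]
  have a1 : |psi1 (normSq w / ρ ^ 2)| * (2 * |w.im| / ρ ^ 2)
      ≤ 12 * ρ ^ 4 / (ρ ^ 2 + ‖w‖ ^ 2) ^ 2 * (2 * ‖w‖ / ρ ^ 2) := by gcongr
  have a2 : |psi1 (normSq w / ρ ^ 2)| * (2 * |w.re| / ρ ^ 2)
      ≤ 12 * ρ ^ 4 / (ρ ^ 2 + ‖w‖ ^ 2) ^ 2 * (2 * ‖w‖ / ρ ^ 2) := by gcongr
  have a3 : ‖w‖ * (|psi2 (normSq w / ρ ^ 2)| * (4 * |w.re| * |w.im| / ρ ^ 4))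
      ≤ ‖w‖ * (16 * ρ ^ 6 / (ρ ^ 2 + ‖w‖ ^ 2) ^ 3 * (4 * ‖w‖ * ‖w‖ / ρ ^ 4)) := by gcongr
  have a4 : ‖w‖ * (16 * ρ ^ 6 / (ρ ^ 2 + ‖w‖ ^ 2) ^ 3 * (4 * ‖w‖ * ‖w‖ / ρ ^ 4))
      ≤ 64 * ρ ^ 2 * ‖w‖ / (ρ ^ 2 + ‖w‖ ^ 2) ^ 2 := by
    have : ‖w‖ * (16 * ρ ^ 6 / (ρ ^ 2 + ‖w‖ ^ 2) ^ 3 * (4 * ‖w‖ * ‖w‖ / ρ ^ 4))
      = 64 * ρ ^ 2 * ‖w‖ * ‖w‖ ^ 2 / (ρ ^ 2 + ‖w‖ ^ 2) ^ 3 := by field_simp; ring
    rw [this, div_le_div_iff₀ (by positivity) (by positivity)]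
    have hle : ‖w‖ ^ 2 ≤ ρ ^ 2 + ‖w‖ ^ 2 := by nlinarith [sq_nonneg ρ]
    have : 64 * ρ ^ 2 * ‖w‖ * ‖w‖ ^ 2 * (ρ ^ 2 + ‖w‖ ^ 2) ^ 2
        ≤ 64 * ρ ^ 2 * ‖w‖ * (ρ ^ 2 + ‖w‖ ^ 2) * (ρ ^ 2 + ‖w‖ ^ 2) ^ 2 := by
      gcongr
    calc _ ≤ _ := this
      _ = _ := by ring
  have a5 : 12 * ρ ^ 4 / (ρ ^ 2 + ‖w‖ ^ 2) ^ 2 * (2 * ‖w‖ / ρ ^ 2)
      = 24 * ρ ^ 2 * ‖w‖ / (ρ ^ 2 + ‖w‖ ^ 2) ^ 2 := by field_simp; ring
  rw [a5] at a1 a2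
  calc _ ≤ 24 * ρ ^ 2 * ‖w‖ / (ρ ^ 2 + ‖w‖ ^ 2) ^ 2 + 24 * ρ ^ 2 * ‖w‖ / (ρ ^ 2 + ‖w‖ ^ 2) ^ 2
      + 64 * ρ ^ 2 * ‖w‖ / (ρ ^ 2 + ‖w‖ ^ 2) ^ 2 := by linarith
    _ = _ := by ring

/-- comparison of decay around different centres -/
lemma decay_bd {ρ : ℝ} (hρ : 0 < ρ) (a w : ℂ) :
    1 / (ρ ^ 2 + ‖w - a‖ ^ 2) ≤ (2 * (1 + ‖a‖) ^ 2 / ρ ^ 2 + 2) / (1 + ‖w‖) ^ 2 := by
  rw [div_le_div_iff₀ (by positivity) (by positivity), one_mul]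
  have h1 : 1 + ‖w‖ ≤ (1 + ‖a‖) + ‖w - a‖ := by
    have := norm_add_le (w - a) a
    rw [sub_add_cancel] at this
    linarith
  have h2 : (1 + ‖w‖) ^ 2 ≤ ((1 + ‖a‖) + ‖w - a‖) ^ 2 := by gcongr
  have h3 : 2 * (1 + ‖a‖) ^ 2 ≤ 2 * (1 + ‖a‖) ^ 2 / ρ ^ 2 * (ρ ^ 2 + ‖w - a‖ ^ 2) := by
    have : 2 * (1 + ‖a‖) ^ 2 = 2 * (1 + ‖a‖) ^ 2 / ρ ^ 2 * ρ ^ 2 := by field_simp
    calc _ = _ := this
      _ ≤ _ := by gcongr; nlinarith [sq_nonneg ‖w - a‖]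
  nlinarith [sq_nonneg ((1 + ‖a‖) - ‖w - a‖), sq_nonneg ρ]

lemma shift_bd (a w : ℂ) : ‖w - a‖ ≤ (1 + ‖a‖) * (1 + ‖w‖) := by
  have := norm_sub_le w a
  nlinarith [norm_nonneg a, norm_nonneg w]

/-- decay constant -/
def dC (ρ : ℝ) (a : ℂ) : ℝ := 2 * (1 + ‖a‖) ^ 2 / ρ ^ 2 + 2

lemma dC_pos (ρ : ℝ) (a : ℂ) : 0 < dC ρ a := by unfold dC; positivity

lemma norm_ck_decay {ρ : ℝ} (hρ : 0 < ρ) (a w : ℂ) :
    ‖ck ρ (w - a)‖ ≤ 6 * (1 + ‖a‖) * dC ρ a / (1 + ‖w‖) := by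
  have h := norm_ck_le hρ (w - a)
  have h2 := decay_bd hρ a w
  have h3 := shift_bd a w
  calc ‖ck ρ (w - a)‖ ≤ 6 * ‖w - a‖ / (ρ ^ 2 + ‖w - a‖ ^ 2) := h
    _ = 6 * ‖w - a‖ * (1 / (ρ ^ 2 + ‖w - a‖ ^ 2)) := by ring
    _ ≤ 6 * ((1 + ‖a‖) * (1 + ‖w‖)) * (dC ρ a / (1 + ‖w‖) ^ 2) := by
        unfold dC; gcongr
    _ = _ := by field_simp

lemma norm_ckv_decay {ρ : ℝ} (hρ : 0 < ρ) {v : ℂ} (hv : ‖v‖ ≤ 1) (a w : ℂ) :
    ‖ckv ρ v (w - a)‖ ≤ 30 * dC ρ a / (1 + ‖w‖) ^ 2 := by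
  have h := norm_ckv_le hρ hv (w - a)
  have h2 := decay_bd hρ a w
  calc _ ≤ 30 / (ρ ^ 2 + ‖w - a‖ ^ 2) := h
    _ = 30 * (1 / (ρ ^ 2 + ‖w - a‖ ^ 2)) := by ring
    _ ≤ 30 * (dC ρ a / (1 + ‖w‖) ^ 2) := by unfold dC; gcongr
    _ = _ := by ring

lemma norm_kap_decay {ρ : ℝ} (hρ : 0 < ρ) (a w : ℂ) :
    ‖kap ρ (w - a)‖ ≤ 12 * dC ρ a / (1 + ‖w‖) ^ 2 := by
  have h := norm_kap_le' hρ (w - a)
  have h2 := decay_bd hρ a w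
  calc _ ≤ 12 / (ρ ^ 2 + ‖w - a‖ ^ 2) := h
    _ = 12 * (1 / (ρ ^ 2 + ‖w - a‖ ^ 2)) := by ring
    _ ≤ 12 * (dC ρ a / (1 + ‖w‖) ^ 2) := by unfold dC; gcongr
    _ = _ := by ring

lemma norm_ckxy_decay {ρ : ℝ} (hρ : 0 < ρ) (a w : ℂ) :
    ‖ckxy ρ (w - a)‖ ≤ 112 * (1 + ‖a‖) * dC ρ a ^ 2 / (1 + ‖w‖) ^ 3 := by
  have h := norm_ckxy_le hρ (w - a)
  have h2 := decay_bd hρ a w
  have h3 := shift_bd a w
  calc _ ≤ 112 * ‖w - a‖ / (ρ ^ 2 + ‖w - a‖ ^ 2) ^ 2 := h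
    _ = 112 * ‖w - a‖ * (1 / (ρ ^ 2 + ‖w - a‖ ^ 2)) ^ 2 := by
        rw [div_pow, one_pow]; ring
    _ ≤ 112 * ((1 + ‖a‖) * (1 + ‖w‖)) * (dC ρ a / (1 + ‖w‖) ^ 2) ^ 2 := by
        unfold dC; gcongr
    _ = _ := by field_simp

lemma integrable_decay {F : ℂ → ℂ} (hF : AEStronglyMeasurable F volume) {C : ℝ} {n : ℕ} (hn : 3 ≤ n)
    (h : ∀ w, ‖F w‖ ≤ C / (1 + ‖w‖) ^ n) : Integrable F := by
  have hi : Integrable (fun w : ℂ => (1 + ‖w‖) ^ (-(3 : ℝ))) volume := by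
    apply integrable_one_add_norm
    simp [Complex.finrank_real_complex]
    norm_num
  have hC : 0 ≤ C := by
    have := (norm_nonneg _).trans (h 0)
    simpa using this
  refine (hi.const_mul C).mono' hF (Eventually.of_forall fun w => (h w).trans ?_)
  rw [Real.rpow_neg (by positivity), div_eq_mul_inv]
  gcongr
  have h1 : (1 : ℝ) ≤ 1 + ‖w‖ := by linarith [norm_nonneg w]
  have : ((1 + ‖w‖) ^ (3 : ℝ)) = (1 + ‖w‖) ^ (3 : ℕ) := by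
    rw [← Real.rpow_natCast]; norm_num
  rw [this]
  exact pow_le_pow_right₀ h1 hn

lemma continuous_ck (ρ : ℝ) : Continuous (ck ρ) := by
  unfold ck
  have := continuous_psi
  have h2 := Complex.continuous_normSq
  fun_prop

lemma continuous_ckv (ρ : ℝ) (v : ℂ) : Continuous (ckv ρ v) := by
  unfold ckv
  have := continuous_psi
  have := continuous_psi1
  have h2 := Complex.continuous_normSq
  fun_prop

lemma continuous_kap (ρ : ℝ) : Continuous (kap ρ) := by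
  unfold kap
  have := continuous_psi1
  have h2 := Complex.continuous_normSq
  fun_prop

lemma continuous_chi (ρ : ℝ) : Continuous (chi ρ) := by
  unfold chi
  have := continuous_psi
  have := continuous_psi1
  have h2 := Complex.continuous_normSq
  fun_prop

lemma measurable_ckxy (ρ : ℝ) : Measurable (ckxy ρ) := by
  unfold ckxy
  have := continuous_psi1.measurable
  have := measurable_psi2
  have h2 := Complex.continuous_normSq.measurable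
  fun_prop

lemma kap_eq {ρ : ℝ} (hρ : 0 < ρ) (w : ℂ) : kap ρ w = -(ckv ρ 1 w - I * ckv ρ I w) / 2 := by
  rw [ckv_one, ckv_I, kap]
  have hρ' : (ρ : ℂ) ≠ 0 := by exact_mod_cast hρ.ne'
  have hw : conj w = (w.re : ℂ) - I * w.im := by
    apply Complex.ext <;> simp
  push_cast
  rw [hw]
  field_simp
  ring_nf
  simp only [I_sq]
  ring_nf

lemma chi_eq {ρ : ℝ} (hρ : 0 < ρ) (w : ℂ) : ((chi ρ w : ℝ) : ℂ) = (ckv ρ 1 w + I * ckv ρ I w) / 2 := by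
  rw [ckv_one, ckv_I, chi]
  have hρ' : (ρ : ℂ) ≠ 0 := by exact_mod_cast hρ.ne'
  have hw : conj w = (w.re : ℂ) - I * w.im := by
    apply Complex.ext <;> simp
  have hn : ((normSq w : ℝ) : ℂ) = (w.re : ℂ) ^ 2 + (w.im : ℂ) ^ 2 := by
    rw [normSq_apply]; push_cast; ring
  push_cast
  rw [hw, hn]
  field_simp
  ring_nf
  simp only [I_sq]
  ring_nf

end

end Pool.Agent.RX
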