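import Pool.Agent.Lib_helper42.RXPair

set_option autoImplicit false

open MeasureTheory Complex Set Filter Topology
open scoped ComplexConjugate

namespace Pool.Agent.RX

noncomputable section

lemma integrable_decay' {F : ℂ → ℝ} (hF : AEStronglyMeasurable F volume) {C : ℝ} {n : ℕ} (hn : 3 ≤ n)
    (h : ∀ w, ‖F w‖ ≤ C / (1 + ‖w‖) ^ n) : Integrable F := by
  have : Integrable (fun w => ((F w : ℝ) : ℂ)) :=
    integrable_decay (Complex.continuous_ofReal.comp_aestronglyMeasurable hF) hn (fun w => by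
      simpa using h w)
  simpa using this.re

lemma L2_expand (ν : Measure ℂ) [IsFiniteMeasure ν] {h : ℂ → ℂ} (mh : Measurable h)
    (h1 : ∀ ζ, ‖h ζ‖ ≤ 1) {R : ℝ} (hR : ∀ ζ, R < ‖ζ‖ → h ζ = 0)
    {k : ℂ → ℂ → ℂ} (mk : Measurable (Function.uncurry k)) {C : ℝ} (hC0 : 0 ≤ C)
    (hC : ∀ ζ, ‖ζ‖ ≤ R → ∀ z, ‖k ζ z‖ ≤ C / (1 + ‖z‖) ^ 2) :
    ∫ z, (∫ ζ, h ζ * k ζ z ∂ν) * conj (∫ ζ, h ζ * k ζ z ∂ν) =
      ∫ p : ℂ × ℂ, h p.1 * conj (h p.2) * (∫ z, k p.1 z * conj (k p.2 z)) ∂(ν.prod ν) := by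
  have e : ∀ z, (∫ ζ, h ζ * k ζ z ∂ν) * conj (∫ ζ, h ζ * k ζ z ∂ν)
      = ∫ p : ℂ × ℂ, (h p.1 * k p.1 z) * conj (h p.2 * k p.2 z) ∂(ν.prod ν) := by
    intro z
    rw [← integral_conj, ← integral_prod_mul]
  simp_rw [e]
  rw [integral_integral_swap]
  · congr 1
    ext p
    rw [← integral_const_mul]
    congr 1
    ext z
    simp only [map_mul]
    ring
  · have hm : Measurable (Function.uncurry fun (z : ℂ) (p : ℂ × ℂ) =>
        (h p.1 * k p.1 z) * conj (h p.2 * k p.2 z)) := by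
      have m1 : Measurable (fun q : ℂ × (ℂ × ℂ) => k q.2.1 q.1) :=
        mk.comp (measurable_snd.fst.prodMk measurable_fst)
      have m2 : Measurable (fun q : ℂ × (ℂ × ℂ) => k q.2.2 q.1) :=
        mk.comp (measurable_snd.snd.prodMk measurable_fst)
      have m3 : Measurable (fun q : ℂ × (ℂ × ℂ) => h q.2.1) := mh.comp measurable_snd.fst
      have m4 : Measurable (fun q : ℂ × (ℂ × ℂ) => h q.2.2) := mh.comp measurable_snd.snd
      exact (m3.mul m1).mul (Complex.continuous_conj.measurable.comp (m4.mul m2))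
    have hi : Integrable (fun z : ℂ => C ^ 2 / (1 + ‖z‖) ^ 4) :=
      integrable_decay' (C := C ^ 2) (n := 4)
        (by apply Continuous.aestronglyMeasurable
            refine continuous_const.div (by fun_prop) (fun z => by positivity)) (by norm_num)
        (fun w => by rw [Real.norm_of_nonneg (by positivity)])
    have hi2 : Integrable (fun q : ℂ × (ℂ × ℂ) => (C ^ 2 / (1 + ‖q.1‖) ^ 4) * (1 : ℝ))
        (volume.prod (ν.prod ν)) := hi.mul_prod (integrable_const (1 : ℝ))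
    refine hi2.mono' hm.aestronglyMeasurable (Eventually.of_forall fun q => ?_)
    have key : ∀ ζ, ‖h ζ * k ζ q.1‖ ≤ C / (1 + ‖q.1‖) ^ 2 := by
      intro ζ
      rcases le_or_gt ‖ζ‖ R with hζ | hζ
      · rw [norm_mul]
        calc ‖h ζ‖ * ‖k ζ q.1‖ ≤ 1 * (C / (1 + ‖q.1‖) ^ 2) := by
              gcongr
              · exact h1 ζ
              · exact hC ζ hζ _
          _ = _ := one_mul _
      · rw [hR ζ hζ]; simp; positivity
    simp only [Function.uncurry, norm_mul (h q.2.1 * k q.2.1 q.1), RCLike.norm_conj, mul_one]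
    calc ‖h q.2.1 * k q.2.1 q.1‖ * ‖h q.2.2 * k q.2.2 q.1‖
        ≤ (C / (1 + ‖q.1‖) ^ 2) * (C / (1 + ‖q.1‖) ^ 2) := by
          gcongr <;> exact key _
      _ = _ := by field_simp

/-- smeared truncated Beurling transform of the measure `h ν` -/
def TT (ν : Measure ℂ) (rad : ℂ → ℝ) (h : ℂ → ℂ) (z : ℂ) : ℂ :=
  ∫ ζ, h ζ * kap (rad ζ) (z - ζ) ∂ν

/-- the smeared measure -/
def GG (ν : Measure ℂ) (rad : ℂ → ℝ) (h : ℂ → ℂ) (z : ℂ) : ℂ :=
  ∫ ζ, h ζ * ((chi (rad ζ) (z - ζ) : ℝ) : ℂ) ∂ν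

lemma measurable_kap_uncurry {rad : ℂ → ℝ} (hr : Measurable rad) :
    Measurable (Function.uncurry fun ζ z : ℂ => kap (rad ζ) (z - ζ)) := by
  have h1 : Measurable (fun p : ℂ × ℂ => rad p.1) := hr.comp measurable_fst
  have h2 : Measurable psi1 := continuous_psi1.measurable
  have h3 : Measurable (fun z : ℂ => normSq z) := Complex.continuous_normSq.measurable
  have h4 : Measurable (fun z : ℂ => conj z) := Complex.continuous_conj.measurable
  unfold Function.uncurry kap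
  have m1 : Measurable (fun p : ℂ × ℂ => p.2 - p.1) := measurable_snd.sub measurable_fst
  have m2 : Measurable (fun p : ℂ × ℂ => psi1 (normSq (p.2 - p.1) / rad p.1 ^ 2)) :=
    h2.comp ((h3.comp m1).div (h1.pow_const 2))
  exact ((((h4.comp m1).pow_const 2).mul (Complex.measurable_ofReal.comp m2)).neg).div
    ((Complex.measurable_ofReal.comp h1).pow_const 4)

lemma measurable_chi_uncurry {rad : ℂ → ℝ} (hr : Measurable rad) :
    Measurable (Function.uncurry fun ζ z : ℂ => ((chi (rad ζ) (z - ζ) : ℝ) : ℂ)) := by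
  have h1 : Measurable (fun p : ℂ × ℂ => rad p.1) := hr.comp measurable_fst
  have h2 : Measurable psi1 := continuous_psi1.measurable
  have h2' : Measurable psi := continuous_psi.measurable
  have h3 : Measurable (fun z : ℂ => normSq z) := Complex.continuous_normSq.measurable
  unfold Function.uncurry chi
  have m1 : Measurable (fun p : ℂ × ℂ => p.2 - p.1) := measurable_snd.sub measurable_fst
  have m0 : Measurable (fun p : ℂ × ℂ => normSq (p.2 - p.1) / rad p.1 ^ 2) :=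
    (h3.comp m1).div (h1.pow_const 2)
  exact Complex.measurable_ofReal.comp
    (((h2'.comp m0).add (m0.mul (h2.comp m0))).div (h1.pow_const 2))

lemma dC_le {δ R ρ : ℝ} (hδ : 0 < δ) (hρ : δ ≤ ρ) {ζ : ℂ} (hζ : ‖ζ‖ ≤ R) : dC ρ ζ ≤ 2 * (1 + R) ^ 2 / δ ^ 2 + 2 := by
  unfold dC
  have : 0 ≤ ‖ζ‖ := norm_nonneg ζ
  gcongr

lemma norm_chi_decay {ρ : ℝ} (hρ : 0 < ρ) (a w : ℂ) :
    ‖((chi ρ (w - a) : ℝ) : ℂ)‖ ≤ 30 * dC ρ a / (1 + ‖w‖) ^ 2 := by
  rw [chi_eq hρ]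
  have h1 := norm_ckv_decay hρ (v := 1) (by simp) a w
  have h2 := norm_ckv_decay hρ (v := I) (by simp) a w
  rw [norm_div]
  have : ‖(2 : ℂ)‖ = 2 := by simp
  rw [this, div_le_iff₀ (by norm_num)]
  refine (norm_add_le _ _).trans ?_
  rw [norm_mul, norm_I, one_mul]
  linarith

theorem L2_identity (ν : Measure ℂ) [IsFiniteMeasure ν] {h : ℂ → ℂ} (mh : Measurable h)
    (h1 : ∀ ζ, ‖h ζ‖ ≤ 1) {R : ℝ} (hR0 : 0 ≤ R) (hR : ∀ ζ, R < ‖ζ‖ → h ζ = 0)
    {rad : ℂ → ℝ} (mr : Measurable rad) {δ : ℝ} (hδ : 0 < δ) (hr : ∀ ζ, δ ≤ rad ζ) :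
    ∫ z, ‖TT ν rad h z‖ ^ 2 = ∫ z, ‖GG ν rad h z‖ ^ 2 := by
  have a1 := L2_expand ν mh h1 hR (measurable_kap_uncurry mr)
    (C := 12 * (2 * (1 + R) ^ 2 / δ ^ 2 + 2)) (by positivity) (fun ζ hζ z => by
      refine (norm_kap_decay (hδ.trans_le (hr ζ)) ζ z).trans ?_
      gcongr
      exact dC_le hδ (hr ζ) hζ)
  have a2 := L2_expand ν mh h1 hR (measurable_chi_uncurry mr)
    (C := 30 * (2 * (1 + R) ^ 2 / δ ^ 2 + 2)) (by positivity) (fun ζ hζ z => by
      refine (norm_chi_decay (hδ.trans_le (hr ζ)) ζ z).trans ?_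
      gcongr
      exact dC_le hδ (hr ζ) hζ)
  have e : (∫ z, (TT ν rad h z) * conj (TT ν rad h z)) = ∫ z, (GG ν rad h z) * conj (GG ν rad h z) := by
    unfold TT GG
    rw [a1, a2]
    congr 1
    ext p
    congr 1
    rw [pair_identity (hδ.trans_le (hr p.1)) (hδ.trans_le (hr p.2))]
    simp only [conj_ofReal]
  simp_rw [Complex.mul_conj, Complex.normSq_eq_norm_sq] at e
  rw [integral_complex_ofReal, integral_complex_ofReal] at e
  exact_mod_cast e

lemma norm_TT_le (ν : Measure ℂ) [IsFiniteMeasure ν] {h : ℂ → ℂ}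
    (h1 : ∀ ζ, ‖h ζ‖ ≤ 1) {R : ℝ} (hR0 : 0 ≤ R) (hR : ∀ ζ, R < ‖ζ‖ → h ζ = 0)
    {rad : ℂ → ℝ} {δ : ℝ} (hδ : 0 < δ) (hr : ∀ ζ, δ ≤ rad ζ) (z : ℂ) :
    ‖TT ν rad h z‖ ≤ 12 * (2 * (1 + R) ^ 2 / δ ^ 2 + 2) * ν.real univ / (1 + ‖z‖) ^ 2 := by
  unfold TT
  have : ∀ ζ, ‖h ζ * kap (rad ζ) (z - ζ)‖ ≤ 12 * (2 * (1 + R) ^ 2 / δ ^ 2 + 2) / (1 + ‖z‖) ^ 2 := by
    intro ζ
    rcases le_or_gt ‖ζ‖ R with hζ | hζ
    · rw [norm_mul]
      calc ‖h ζ‖ * ‖kap (rad ζ) (z - ζ)‖ ≤ 1 * (12 * (2 * (1 + R) ^ 2 / δ ^ 2 + 2) / (1 + ‖z‖) ^ 2) := by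
            gcongr
            · exact h1 ζ
            · refine (norm_kap_decay (hδ.trans_le (hr ζ)) ζ z).trans ?_
              gcongr
              exact dC_le hδ (hr ζ) hζ
        _ = _ := one_mul _
    · rw [hR ζ hζ]; simp; positivity
  refine (norm_integral_le_of_norm_le_const (Eventually.of_forall this)).trans (le_of_eq ?_)
  ring

lemma measurable_TT (ν : Measure ℂ) [IsFiniteMeasure ν] {h : ℂ → ℂ} (mh : Measurable h)
    {rad : ℂ → ℝ} (mr : Measurable rad) : StronglyMeasurable (TT ν rad h) := by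
  unfold TT
  have m : Measurable (Function.uncurry fun z ζ : ℂ => h ζ * kap (rad ζ) (z - ζ)) := by
    have := (measurable_kap_uncurry mr).comp (measurable_snd.prodMk measurable_fst : Measurable fun p : ℂ × ℂ => (p.2, p.1))
    exact (mh.comp measurable_snd).mul this
  exact m.stronglyMeasurable.integral_prod_right

end

end Pool.Agent.RX
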