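import Pool.Agent.Lib_helper42.RXDensity

set_option autoImplicit false

open MeasureTheory Complex Set Filter Topology
open scoped ComplexConjugate ENNReal NNReal

namespace Pool.Agent.RX

noncomputable section

open Polynomial in
/-- value of the derivative of `p/q` -/
def rd (p q : Polynomial ℂ) (z : ℂ) : ℂ :=
  ((derivative p).eval z * q.eval z - p.eval z * (derivative q).eval z) / (q.eval z) ^ 2

open Polynomial in
lemma exists_remainder (p q : Polynomial ℂ) (z : ℂ) (hq : q.eval z ≠ 0) :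
    ∃ M : Polynomial ℂ, ∀ ζ, q.eval ζ ≠ 0 →
      p.eval ζ / q.eval ζ - p.eval z / q.eval z = (ζ - z) * (rd p q z + (ζ - z) * (M.eval ζ / q.eval ζ)) := by
  set N : Polynomial ℂ := p - q * (C (p.eval z / q.eval z) + C (rd p q z) * (X - C z)) with hN
  have h1 : N.IsRoot z := by
    simp only [hN, IsRoot.def, eval_sub, eval_mul, eval_add, eval_C, eval_X, sub_self, mul_zero, add_zero]
    field_simp
    ring
  obtain ⟨N1, hN1⟩ := dvd_iff_isRoot.2 h1
  have h2 : N1.IsRoot z := by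
    have h3 : (derivative N).eval z = N1.eval z := by
      rw [hN1]; simp
    have h4 : (derivative N).eval z = 0 := by
      simp only [hN, derivative_sub, derivative_mul, derivative_add, derivative_C, zero_mul, zero_add,
        derivative_X, sub_zero, mul_one, eval_sub, eval_mul, eval_add, eval_C, eval_X, sub_self,
        mul_zero, add_zero]
      unfold rd
      field_simp
      ring
    rw [IsRoot.def, ← h3, h4]
  obtain ⟨M, hM⟩ := dvd_iff_isRoot.2 h2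
  refine ⟨M, fun ζ hζ => ?_⟩
  have h5 : N.eval ζ = (ζ - z) * ((ζ - z) * M.eval ζ) := by
    rw [hN1, hM]; simp
  have h6 : N.eval ζ = p.eval ζ - q.eval ζ * (p.eval z / q.eval z + rd p q z * (ζ - z)) := by
    simp [hN]
  have h7 : p.eval ζ = q.eval ζ * (p.eval z / q.eval z + rd p q z * (ζ - z)) + (ζ - z) * ((ζ - z) * M.eval ζ) := by
    rw [← h5, h6]; ring
  rw [h7]
  field_simp
  ring

lemma rat_bound {X : Set ℂ} (hX : IsCompact X) (p q : Polynomial ℂ) (hq : ∀ z ∈ X, q.eval z ≠ 0) :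
    ∃ C : ℝ, 0 ≤ C ∧ ∀ z ∈ X, ‖p.eval z / q.eval z‖ ≤ C := by
  have hc : ContinuousOn (fun z => p.eval z / q.eval z) X :=
    p.continuous.continuousOn.div q.continuous.continuousOn hq
  obtain ⟨C, hC⟩ := hX.exists_bound_of_continuousOn hc
  exact ⟨max C 0, le_max_right _ _, fun z hz => (hC z hz).trans (le_max_left _ _)⟩

/-- the operator representing `r' muhat` -/
def TR (ν : Measure ℂ) (u : ℂ → ℂ) (f : ℂ → ℂ) (z : ℂ) : ℂ :=
  ∫ ζ, (f ζ - f z) / (ζ - z) ^ 2 * u ζ ∂ν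

section

variable {X : Set ℂ} (hX : IsCompact X) {ν : Measure ℂ} [IsFiniteMeasure ν] {u : ℂ → ℂ}
  (mu : Measurable u) (hu : ∀ ζ, ‖u ζ‖ ≤ 1) (hu0 : ∀ ζ, ζ ∉ X → u ζ = 0)

include hX mu hu hu0

lemma integrable_rat_mul (p q : Polynomial ℂ) (hq : ∀ z ∈ X, q.eval z ≠ 0) :
    Integrable (fun ζ => p.eval ζ / q.eval ζ * u ζ) ν := by
  obtain ⟨C, hC0, hC⟩ := rat_bound hX p q hq
  refine (integrable_const C).mono' ?_ (Eventually.of_forall fun ζ => ?_)
  · exact ((p.continuous.measurable.div q.continuous.measurable).mul mu).aestronglyMeasurable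
  · by_cases hζ : ζ ∈ X
    · rw [norm_mul]
      calc ‖p.eval ζ / q.eval ζ‖ * ‖u ζ‖ ≤ C * 1 := by
            gcongr
            · exact hC ζ hζ
            · exact hu ζ
        _ = C := mul_one _
    · rw [hu0 ζ hζ]; simpa using hC0

lemma TR_rat (hann : ∀ p q : Polynomial ℂ, (∀ z ∈ X, q.eval z ≠ 0) →
      ∫ ζ, p.eval ζ / q.eval ζ * u ζ ∂ν = 0)
    {p q : Polynomial ℂ} (hq : ∀ z ∈ X, q.eval z ≠ 0) {f : ℂ → ℂ}
    (hf : ∀ z ∈ X, f z = p.eval z / q.eval z) {z : ℂ} (hz : z ∈ X)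
    (hi : Integrable (fun ζ => ‖z - ζ‖⁻¹) ν) (h0 : ν {z} = 0) :
    Integrable (fun ζ => (f ζ - f z) / (ζ - z) ^ 2 * u ζ) ν ∧
      TR ν u f z = rd p q z * muhat ν u z := by
  obtain ⟨M, hM⟩ := exists_remainder p q z (hq z hz)
  have iA : Integrable (fun ζ => M.eval ζ / q.eval ζ * u ζ) ν :=
    integrable_rat_mul hX mu hu hu0 M q hq
  have iB : Integrable (fun ζ => u ζ / (ζ - z)) ν := by
    refine hi.mono' ?_ (Eventually.of_forall fun ζ => ?_)
    · exact (mu.div (measurable_id.sub_const z)).aestronglyMeasurable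
    · rw [norm_div, norm_sub_rev, div_eq_mul_inv]
      calc ‖u ζ‖ * ‖z - ζ‖⁻¹ ≤ 1 * ‖z - ζ‖⁻¹ := by gcongr; exact hu ζ
        _ = _ := one_mul _
  have hae : ∀ᵐ ζ ∂ν, ζ ≠ z := by
    have : ∀ᵐ ζ ∂ν, ζ ∉ ({z} : Set ℂ) := measure_eq_zero_iff_ae_notMem.1 h0
    filter_upwards [this] with ζ hζ
    simpa using hζ
  have e : (fun ζ => (f ζ - f z) / (ζ - z) ^ 2 * u ζ) =ᵐ[ν]
      fun ζ => M.eval ζ / q.eval ζ * u ζ + rd p q z * (u ζ / (ζ - z)) := by
    filter_upwards [hae] with ζ hζ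
    by_cases hζX : ζ ∈ X
    · rw [hf ζ hζX, hf z hz, hM ζ (hq ζ hζX)]
      have : ζ - z ≠ 0 := sub_ne_zero.2 hζ
      field_simp
      ring
    · rw [hu0 ζ hζX]; simp
  refine ⟨(iA.add (iB.const_mul _)).congr e.symm, ?_⟩
  unfold TR muhat
  rw [integral_congr_ae e, integral_add iA (iB.const_mul _), hann M q hq, zero_add, integral_const_mul]

omit mu hu hu0 [IsFiniteMeasure ν] in
lemma lip_at {p q : Polynomial ℂ} (hq : ∀ z ∈ X, q.eval z ≠ 0) {f : ℂ → ℂ}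
    (hf : ∀ z ∈ X, f z = p.eval z / q.eval z) {z : ℂ} (hz : z ∈ X) :
    ∃ L : ℝ, 0 ≤ L ∧ ∀ ζ ∈ X, ‖f ζ - f z‖ ≤ L * ‖ζ - z‖ := by
  obtain ⟨M, hM⟩ := exists_remainder p q z (hq z hz)
  obtain ⟨C, hC0, hC⟩ := rat_bound hX M q hq
  obtain ⟨D, hD⟩ := hX.isBounded.exists_norm_le
  have hD0 : 0 ≤ D := (norm_nonneg _).trans (hD z hz)
  refine ⟨‖rd p q z‖ + 2 * D * C, by positivity, fun ζ hζ => ?_⟩
  rw [hf ζ hζ, hf z hz, hM ζ (hq ζ hζ), norm_mul, mul_comm]
  gcongr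
  refine (norm_add_le _ _).trans ?_
  gcongr
  rw [norm_mul]
  gcongr
  · calc ‖ζ - z‖ ≤ ‖ζ‖ + ‖z‖ := norm_sub_le _ _
      _ ≤ 2 * D := by linarith [hD ζ hζ, hD z hz]
  · exact hC ζ hζ

end

end

end Pool.Agent.RX
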