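import Pool.Agent.Lib_helper42.RXMain1

set_option autoImplicit false

open MeasureTheory Complex Set Filter Topology
open scoped ComplexConjugate ENNReal NNReal

namespace Pool.Agent.RX

noncomputable section

lemma lintegral_TT_le (ν : Measure ℂ) [IsFiniteMeasure ν] {X : Set ℂ} (hX : IsCompact X)
    {h : ℂ → ℂ} (mh : Measurable h)
    (h1 : ∀ ζ, ‖h ζ‖ ≤ 1) {R : ℝ} (hR0 : 0 ≤ R) (hR : ∀ ζ, R < ‖ζ‖ → h ζ = 0)
    {rad : ℂ → ℝ} (mr : Measurable rad) {δ : ℝ} (hδ : 0 < δ) (hr : ∀ ζ, δ ≤ rad ζ)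
    {B : ℝ} (hB : ∫ z, ‖TT ν rad h z‖ ^ 2 ≤ B) :
    ∫⁻ z in X, ‖TT ν rad h z‖ₑ ≤ ENNReal.ofReal ((volume.real X + B) / 2) := by
  have hm := measurable_TT ν mh mr
  set C := 12 * (2 * (1 + R) ^ 2 / δ ^ 2 + 2) * ν.real univ with hC
  have hC0 : 0 ≤ C := by positivity
  have hb : ∀ z, ‖TT ν rad h z‖ ≤ C / (1 + ‖z‖) ^ 2 := norm_TT_le ν h1 hR0 hR hδ hr
  have hi2 : Integrable (fun z => ‖TT ν rad h z‖ ^ 2) := by
    refine integrable_decay' (C := C ^ 2) (n := 4) (hm.norm.pow 2).aestronglyMeasurable (by norm_num)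
      (fun w => ?_)
    rw [Real.norm_of_nonneg (by positivity)]
    calc ‖TT ν rad h w‖ ^ 2 ≤ (C / (1 + ‖w‖) ^ 2) ^ 2 := by gcongr; exact hb w
      _ = _ := by rw [div_pow]; ring
  have hVX : volume X ≠ ⊤ := hX.measure_lt_top.ne
  have hb' : ∀ z, ‖TT ν rad h z‖ ≤ C := fun z => (hb z).trans (by
    apply div_le_self hC0
    have : (1 : ℝ) ≤ 1 + ‖z‖ := by linarith [norm_nonneg z]
    nlinarith)
  have hi1 : IntegrableOn (TT ν rad h) X := by
    refine (integrableOn_const (C := C) hVX).mono' hm.aestronglyMeasurable.restrict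
      (Eventually.of_forall hb')
  rw [← ofReal_integral_norm_eq_lintegral_enorm hi1]
  apply ENNReal.ofReal_le_ofReal
  have e1 : ∫ z in X, ‖TT ν rad h z‖ ≤ ∫ z in X, (1 / 2 + (1 / 2) * ‖TT ν rad h z‖ ^ 2) := by
    apply integral_mono hi1.norm
    · exact (integrableOn_const hVX).add ((hi2.integrableOn).const_mul _)
    · intro z
      simp only
      nlinarith [sq_nonneg (‖TT ν rad h z‖ - 1)]
  have e2 : ∫ z in X, (1 / 2 + (1 / 2) * ‖TT ν rad h z‖ ^ 2)
      = volume.real X * (1 / 2) + (1 / 2) * ∫ z in X, ‖TT ν rad h z‖ ^ 2 := by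
    have hc : Integrable (fun _ : ℂ => (1 / 2 : ℝ)) (volume.restrict X) := integrableOn_const hVX
    have hc2 : Integrable (fun z : ℂ => (1 / 2 : ℝ) * ‖TT ν rad h z‖ ^ 2) (volume.restrict X) :=
      (hi2.integrableOn).const_mul _
    rw [integral_add hc hc2, integral_const_mul]
    simp
  have e3 : ∫ z in X, ‖TT ν rad h z‖ ^ 2 ≤ ∫ z, ‖TT ν rad h z‖ ^ 2 :=
    setIntegral_le_integral hi2 (Eventually.of_forall fun z => by positivity)
  rw [e2] at e1
  linarith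

lemma measurable_kap_left {rad : ℂ → ℝ} (hr : Measurable rad) (z : ℂ) :
    Measurable (fun ζ => kap (rad ζ) (z - ζ)) :=
  Measurable.of_uncurry_right (f := fun ζ z : ℂ => kap (rad ζ) (z - ζ)) (measurable_kap_uncurry hr)

lemma norm_kap_le_const {ρ d : ℝ} (hd : 0 < d) (h : d ≤ ρ) (w : ℂ) : ‖kap ρ w‖ ≤ 12 / d ^ 2 := by
  refine (norm_kap_le' (hd.trans_le h) w).trans ?_
  apply div_le_div_of_nonneg_left (by norm_num) (by positivity)
  have : d ^ 2 ≤ ρ ^ 2 := by gcongr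
  nlinarith [sq_nonneg ‖w‖]

lemma norm_kap_le_inv {ρ : ℝ} (hρ : 0 < ρ) {w : ℂ} (hw : w ≠ 0) : ‖kap ρ w‖ ≤ 12 / ‖w‖ ^ 2 := by
  have hpos : 0 < ‖w‖ := norm_pos_iff.2 hw
  refine (norm_kap_le' hρ w).trans ?_
  apply div_le_div_of_nonneg_left (by norm_num) (by positivity)
  nlinarith [sq_nonneg ρ]

lemma tendsto_kap {K : Set ℂ} {z : ℂ} (hz : z ∈ K) {ζ : ℂ} (hζ : ζ ≠ z) :
    Tendsto (fun n : ℕ => kap (rad K (1 / ((n : ℝ) + 1)) ζ) (z - ζ)) atTop (𝓝 ((z - ζ) ^ 2)⁻¹) := by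
  have hpos : 0 < ‖z - ζ‖ := norm_pos_iff.2 (sub_ne_zero.2 hζ.symm)
  have h0 : Tendsto (fun n : ℕ => 1 / ((n : ℝ) + 1)) atTop (𝓝 0) := tendsto_one_div_add_atTop_nhds_zero_nat
  refine tendsto_const_nhds.congr' ?_
  filter_upwards [h0.eventually (gt_mem_nhds hpos)] with n hn
  refine (kap_eq_inv ?_ ?_).symm
  · have := rad_ge K (1 / ((n : ℝ) + 1)) ζ
    have h3 : 0 < 1 / ((n : ℝ) + 1) := by positivity
    linarith
  · unfold rad
    have h2 : Metric.infDist ζ K ≤ ‖z - ζ‖ := by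
      refine (Metric.infDist_le_dist_of_mem hz).trans (le_of_eq ?_)
      rw [dist_comm, dist_eq_norm]
    linarith

theorem main_bound {X : Set ℂ} (hX : IsCompact X) {ν : Measure ℂ} [IsFiniteMeasure ν] {u : ℂ → ℂ}
    (mu : Measurable u) (hu : ∀ ζ, ‖u ζ‖ ≤ 1) (hu0 : ∀ ζ, ζ ∉ X → u ζ = 0)
    {lam : ℝ} (hlam : 0 ≤ lam) (hne : (KK ν lam).Nonempty) :
    ∃ C0 : ℝ, 0 ≤ C0 ∧ ∀ p q : Polynomial ℂ, (∀ z ∈ X, q.eval z ≠ 0) → ∀ f : ℂ → ℂ, Measurable f →
      (∀ z ∈ X, f z = p.eval z / q.eval z) → ∀ Mf : ℝ, 0 < Mf → (∀ z ∈ X, ‖f z‖ ≤ Mf) →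
      ∫⁻ z in (KK ν lam) ∩ X, ‖TR ν u f z‖ₑ ≤ ENNReal.ofReal (Mf * C0) := by
  obtain ⟨D, hD⟩ := hX.isBounded.exists_norm_le
  set R := max D 0 with hRdef
  have hR0 : 0 ≤ R := le_max_right _ _
  have hRX : ∀ ζ, R < ‖ζ‖ → ζ ∉ X := by
    intro ζ hζ hX'
    have := hD ζ hX'
    have := le_max_left D 0
    linarith
  obtain ⟨B, hB0, hB⟩ := CZ_bound ν hR0 (isClosed_KK ν lam) hne hlam (fun k hk s hs => hk s hs)
  refine ⟨volume.real X + B, by positivity, ?_⟩
  intro p q hq f mf hf Mf hMf hfM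
  set K := KK ν lam with hK
  set δ : ℕ → ℝ := fun n => 1 / ((n : ℝ) + 1) with hδ
  have hδ0 : ∀ n, 0 < δ n := fun n => by simp only [hδ]; positivity
  have hδ1 : ∀ n, δ n ≤ 1 := fun n => by
    simp only [hδ]
    rw [div_le_one (by positivity)]
    have : (0 : ℝ) ≤ n := Nat.cast_nonneg n
    linarith
  set h1 : ℂ → ℂ := fun ζ => f ζ * u ζ / (Mf : ℂ) with hh1
  have mh1 : Measurable h1 := (mf.mul mu).div_const _
  have hh1b : ∀ ζ, ‖h1 ζ‖ ≤ 1 := by
    intro ζ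
    by_cases hζ : ζ ∈ X
    · simp only [hh1, norm_div, norm_mul, Complex.norm_real, Real.norm_of_nonneg hMf.le]
      rw [div_le_one hMf]
      calc ‖f ζ‖ * ‖u ζ‖ ≤ Mf * 1 := by
            gcongr
            · exact hfM ζ hζ
            · exact hu ζ
        _ = Mf := mul_one _
    · simp [hh1, hu0 ζ hζ]
  have hh1s : ∀ ζ, R < ‖ζ‖ → h1 ζ = 0 := fun ζ hζ => by simp [hh1, hu0 ζ (hRX ζ hζ)]
  have hus : ∀ ζ, R < ‖ζ‖ → u ζ = 0 := fun ζ hζ => hu0 ζ (hRX ζ hζ)
  set T : ℕ → ℂ → ℂ := fun n z => (Mf : ℂ) * TT ν (rad K (δ n)) h1 z - f z * TT ν (rad K (δ n)) u z with hT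
  have radge : ∀ n ζ, δ n / 4 ≤ rad K (δ n) ζ := fun n ζ => rad_ge K (δ n) ζ
  have radpos : ∀ n ζ, 0 < rad K (δ n) ζ := fun n ζ => lt_of_lt_of_le (by have := hδ0 n; positivity) (radge n ζ)
  -- integrability of the pieces
  have intk : ∀ n (g : ℂ → ℂ), Measurable g → (∀ ζ, ‖g ζ‖ ≤ 1) → ∀ z : ℂ,
      Integrable (fun ζ => g ζ * kap (rad K (δ n) ζ) (z - ζ)) ν := by
    intro n g mg hg z
    have hm : Measurable (fun ζ => kap (rad K (δ n) ζ) (z - ζ)) :=
      measurable_kap_left (measurable_rad K (δ n)) z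
    refine (integrable_const (12 / (δ n / 4) ^ 2)).mono' (mg.mul hm).aestronglyMeasurable
      (Eventually.of_forall fun ζ => ?_)
    rw [norm_mul]
    have h4 : 0 < δ n / 4 := by have := hδ0 n; positivity
    have h2 := norm_kap_le_const h4 (radge n ζ) (z - ζ)
    calc ‖g ζ‖ * ‖kap (rad K (δ n) ζ) (z - ζ)‖ ≤ 1 * (12 / (δ n / 4) ^ 2) :=
          mul_le_mul (hg ζ) h2 (norm_nonneg _) zero_le_one
      _ = 12 / (δ n / 4) ^ 2 := one_mul _
  have Teq : ∀ n z, T n z = ∫ ζ, (f ζ - f z) * u ζ * kap (rad K (δ n) ζ) (z - ζ) ∂ν := by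
    intro n z
    have i1 := intk n h1 mh1 hh1b z
    have i2 := intk n u mu hu z
    simp only [hT]
    unfold TT
    rw [← integral_const_mul, ← integral_const_mul, ← integral_sub (i1.const_mul _) (i2.const_mul _)]
    congr 1; ext ζ
    have : (Mf : ℂ) ≠ 0 := by exact_mod_cast hMf.ne'
    simp only [hh1]
    field_simp
  have mT : ∀ n, Measurable (T n) := fun n =>
    ((measurable_const.mul (measurable_TT ν mh1 (measurable_rad K (δ n))).measurable)).sub
      (mf.mul (measurable_TT ν mu (measurable_rad K (δ n))).measurable)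
  have hS : MeasurableSet (K ∩ X) := (isClosed_KK ν lam).measurableSet.inter hX.measurableSet
  have hlim : ∀ᵐ z ∂(volume.restrict (K ∩ X)), Tendsto (fun n => T n z) atTop (𝓝 (TR ν u f z)) := by
    filter_upwards [ae_restrict_mem hS, ae_restrict_of_ae (ae_integrable_inv ν)] with z hz hi
    obtain ⟨hzK, hzX⟩ := hz
    obtain ⟨L, hL0, hL⟩ := lip_at hX hq hf hzX
    simp_rw [Teq]
    unfold TR
    refine tendsto_integral_of_dominated_convergence (fun ζ => L * 12 * ‖z - ζ‖⁻¹) ?_ (hi.const_mul _) ?_ ?_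
    · intro n
      have hm : Measurable (fun ζ => kap (rad K (δ n) ζ) (z - ζ)) :=
        measurable_kap_left (measurable_rad K (δ n)) z
      exact (((mf.sub_const _).mul mu).mul hm).aestronglyMeasurable
    · intro n
      refine Eventually.of_forall fun ζ => ?_
      by_cases hζX : ζ ∈ X
      · rcases eq_or_ne ζ z with rfl | hne'
        · simp
        · have hpos : 0 < ‖z - ζ‖ := norm_pos_iff.2 (sub_ne_zero.2 hne'.symm)
          have h2 := norm_kap_le_inv (radpos n ζ) (w := z - ζ) (sub_ne_zero.2 hne'.symm)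
          have h3 := hL ζ hζX
          rw [norm_sub_rev ζ z] at h3
          rw [norm_mul, norm_mul]
          calc ‖f ζ - f z‖ * ‖u ζ‖ * ‖kap (rad K (δ n) ζ) (z - ζ)‖
              ≤ (L * ‖z - ζ‖) * 1 * (12 / ‖z - ζ‖ ^ 2) :=
                mul_le_mul (mul_le_mul h3 (hu ζ) (norm_nonneg _) (by positivity)) h2 (norm_nonneg _)
                  (by positivity)
            _ = L * 12 * ‖z - ζ‖⁻¹ := by field_simp
      · rw [hu0 ζ hζX]; simp; positivity
    · refine Eventually.of_forall fun ζ => ?_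
      rcases eq_or_ne ζ z with rfl | hne'
      · simp
      · have := (tendsto_kap hzK hne').const_mul ((f ζ - f z) * u ζ)
        have e : (f ζ - f z) / (ζ - z) ^ 2 * u ζ = (f ζ - f z) * u ζ * ((z - ζ) ^ 2)⁻¹ := by
          rw [div_eq_mul_inv, show (ζ - z) ^ 2 = (z - ζ) ^ 2 by ring]; ring
        rw [e]
        exact this
  have hBn : ∀ n (g : ℂ → ℂ), Measurable g → (∀ ζ, ‖g ζ‖ ≤ 1) → (∀ ζ, R < ‖ζ‖ → g ζ = 0) →
      ∫⁻ z in X, ‖TT ν (rad K (δ n)) g z‖ₑ ≤ ENNReal.ofReal ((volume.real X + B) / 2) := by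
    intro n g mg hg hgs
    exact lintegral_TT_le ν hX mg hg hR0 hgs (measurable_rad K (δ n)) (δ := δ n / 4)
      (by have := hδ0 n; positivity) (radge n) (hB (δ n) (hδ0 n) (hδ1 n) g mg hg hgs)
  have hTn : ∀ n, ∫⁻ z in K ∩ X, ‖T n z‖ₑ ≤ ENNReal.ofReal (Mf * (volume.real X + B)) := by
    intro n
    calc ∫⁻ z in K ∩ X, ‖T n z‖ₑ ≤ ∫⁻ z in K ∩ X, (ENNReal.ofReal Mf * ‖TT ν (rad K (δ n)) h1 z‖ₑ
          + ENNReal.ofReal Mf * ‖TT ν (rad K (δ n)) u z‖ₑ) := by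
          apply lintegral_mono_ae
          filter_upwards [ae_restrict_mem hS] with z hz
          simp only [hT]
          refine (enorm_sub_le).trans ?_
          rw [enorm_mul, enorm_mul]
          gcongr
          · rw [← ofReal_norm, Complex.norm_real, Real.norm_of_nonneg hMf.le]
          · rw [← ofReal_norm]
            exact ENNReal.ofReal_le_ofReal (hfM z hz.2)
      _ ≤ ∫⁻ z in X, (ENNReal.ofReal Mf * ‖TT ν (rad K (δ n)) h1 z‖ₑ
          + ENNReal.ofReal Mf * ‖TT ν (rad K (δ n)) u z‖ₑ) := lintegral_mono_set inter_subset_right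
      _ = ENNReal.ofReal Mf * (∫⁻ z in X, ‖TT ν (rad K (δ n)) h1 z‖ₑ)
          + ENNReal.ofReal Mf * (∫⁻ z in X, ‖TT ν (rad K (δ n)) u z‖ₑ) := by
          have m1 := (measurable_TT ν mh1 (measurable_rad K (δ n))).measurable.enorm
          have m2 := (measurable_TT ν mu (measurable_rad K (δ n))).measurable.enorm
          rw [lintegral_add_left (m1.const_mul _), lintegral_const_mul _ m1, lintegral_const_mul _ m2]
      _ ≤ ENNReal.ofReal Mf * ENNReal.ofReal ((volume.real X + B) / 2)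
          + ENNReal.ofReal Mf * ENNReal.ofReal ((volume.real X + B) / 2) := by
          gcongr
          · exact hBn n h1 mh1 hh1b hh1s
          · exact hBn n u mu hu hus
      _ = ENNReal.ofReal (Mf * (volume.real X + B)) := by
          rw [← ENNReal.ofReal_mul hMf.le, ← ENNReal.ofReal_add (by positivity) (by positivity)]
          congr 1; ring
  calc ∫⁻ z in K ∩ X, ‖TR ν u f z‖ₑ
      = ∫⁻ z in K ∩ X, liminf (fun n => ‖T n z‖ₑ) atTop := by
        apply lintegral_congr_ae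
        filter_upwards [hlim] with z hz
        exact (hz.enorm.liminf_eq).symm
    _ ≤ liminf (fun n => ∫⁻ z in K ∩ X, ‖T n z‖ₑ) atTop :=
        lintegral_liminf_le (fun n => (mT n).enorm)
    _ ≤ ENNReal.ofReal (Mf * (volume.real X + B)) := by
        refine liminf_le_of_frequently_le' (Frequently.of_forall hTn)

end

end Pool.Agent.RX
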