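import Pool.Agent.Lib_helper42.RXKernel

set_option autoImplicit false

open MeasureTheory Complex Set Filter Topology
open scoped ComplexConjugate

namespace Pool.Agent.RX

noncomputable section

lemma lineDeriv_conj {f : ℂ → ℂ} {f' x v : ℂ} (h : HasLineDerivAt ℝ f f' x v) :
    HasLineDerivAt ℝ (fun w => conj (f w)) (conj f') x v := by
  unfold HasLineDerivAt at *
  have := (conjCLE.toContinuousLinearMap.hasFDerivAt (x := f (x + (0:ℝ) • v))).comp_hasDerivAt (0:ℝ) h
  simpa [Function.comp_def] using this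

lemma lineDeriv_shift {f : ℂ → ℂ} {f' x v a : ℂ} (h : HasLineDerivAt ℝ f f' (x - a) v) :
    HasLineDerivAt ℝ (fun w => f (w - a)) f' x v := by
  unfold HasLineDerivAt at *
  refine h.congr_of_eventuallyEq (Eventually.of_forall fun t => ?_)
  simp only
  congr 1
  ring

lemma ibp {f f' g g' : ℂ → ℂ} {v : ℂ}
    (h1 : Integrable (fun w => f' w * g w)) (h2 : Integrable (fun w => f w * g' w))
    (h3 : Integrable (fun w => f w * g w))
    (hf : ∀ x, HasLineDerivAt ℝ f (f' x) x v) (hg : ∀ x, HasLineDerivAt ℝ g (g' x) x v) :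
    ∫ w, f w * g' w = - ∫ w, f' w * g w := by
  have := integral_bilinear_hasLineDerivAt_right_eq_neg_left_of_integrable (μ := (volume : Measure ℂ))
    (B := ContinuousLinearMap.mul ℝ ℂ) (f := f) (f' := f') (g := g) (g' := g') (v := v)
    (by simpa using h1) (by simpa using h2) (by simpa using h3) (fun x _ => hf x) (fun x _ => hg x)
  simpa using this

lemma integrable_mul_decay {F G : ℂ → ℂ} (hF : AEStronglyMeasurable F volume)
    (hG : AEStronglyMeasurable G volume) {C D : ℝ} {n m : ℕ} (hn : 3 ≤ n + m)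
    (h : ∀ w, ‖F w‖ ≤ C / (1 + ‖w‖) ^ n) (h' : ∀ w, ‖G w‖ ≤ D / (1 + ‖w‖) ^ m) :
    Integrable (fun w => F w * G w) := by
  refine integrable_decay (hF.mul hG) (C := C * D) hn fun w => ?_
  rw [norm_mul]
  calc ‖F w‖ * ‖G w‖ ≤ (C / (1 + ‖w‖) ^ n) * (D / (1 + ‖w‖) ^ m) := by
        gcongr
        · exact (norm_nonneg _).trans (h w)
        · exact h w
        · exact h' w
    _ = _ := by rw [pow_add]; field_simp

theorem pair_identity {ρ σ : ℝ} (hρ : 0 < ρ) (hσ : 0 < σ) (a b : ℂ) :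
    ∫ w, kap ρ (w - a) * conj (kap σ (w - b)) =
      ∫ w, ((chi ρ (w - a) : ℝ) : ℂ) * ((chi σ (w - b) : ℝ) : ℂ) := by
  set f : ℂ → ℂ := fun w => ck ρ (w - a) with hf
  set fx : ℂ → ℂ := fun w => ckv ρ 1 (w - a) with hfx
  set fy : ℂ → ℂ := fun w => ckv ρ I (w - a) with hfy
  set Gx : ℂ → ℂ := fun w => conj (ckv σ 1 (w - b)) with hGx
  set Gy : ℂ → ℂ := fun w => conj (ckv σ I (w - b)) with hGy
  set Gxy : ℂ → ℂ := fun w => conj (ckxy σ (w - b)) with hGxy
  have cf : Continuous f := (continuous_ck ρ).comp (by fun_prop)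
  have cfx : Continuous fx := (continuous_ckv ρ 1).comp (by fun_prop)
  have cfy : Continuous fy := (continuous_ckv ρ I).comp (by fun_prop)
  have cGx : Continuous Gx := Complex.continuous_conj.comp ((continuous_ckv σ 1).comp (by fun_prop))
  have cGy : Continuous Gy := Complex.continuous_conj.comp ((continuous_ckv σ I).comp (by fun_prop))
  have mGxy : Measurable Gxy := Complex.continuous_conj.measurable.comp
    ((measurable_ckxy σ).comp (by fun_prop))
  have bf : ∀ w, ‖f w‖ ≤ 6 * (1 + ‖a‖) * dC ρ a / (1 + ‖w‖) ^ 1 := fun w => by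
    rw [pow_one]; exact norm_ck_decay hρ a w
  have bfx : ∀ w, ‖fx w‖ ≤ 30 * dC ρ a / (1 + ‖w‖) ^ 2 := fun w =>
    norm_ckv_decay hρ (by simp) a w
  have bfy : ∀ w, ‖fy w‖ ≤ 30 * dC ρ a / (1 + ‖w‖) ^ 2 := fun w =>
    norm_ckv_decay hρ (by simp) a w
  have bGx : ∀ w, ‖Gx w‖ ≤ 30 * dC σ b / (1 + ‖w‖) ^ 2 := fun w => by
    rw [hGx]; simp only [RCLike.norm_conj]; exact norm_ckv_decay hσ (by simp) b w
  have bGy : ∀ w, ‖Gy w‖ ≤ 30 * dC σ b / (1 + ‖w‖) ^ 2 := fun w => by
    rw [hGy]; simp only [RCLike.norm_conj]; exact norm_ckv_decay hσ (by simp) b w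
  have bGxy : ∀ w, ‖Gxy w‖ ≤ 112 * (1 + ‖b‖) * dC σ b ^ 2 / (1 + ‖w‖) ^ 3 := fun w => by
    rw [hGxy]; simp only [RCLike.norm_conj]; exact norm_ckxy_decay hσ b w
  have e1 : ∫ w, f w * Gxy w = - ∫ w, fx w * Gy w := by
    refine ibp (v := 1) ?_ ?_ ?_ ?_ ?_
    · exact integrable_mul_decay cfx.aestronglyMeasurable cGy.aestronglyMeasurable (by norm_num) bfx bGy
    · exact integrable_mul_decay cf.aestronglyMeasurable mGxy.aestronglyMeasurable (by norm_num) bf bGxy
    · exact integrable_mul_decay cf.aestronglyMeasurable cGy.aestronglyMeasurable (by norm_num) bf bGy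
    · intro x; exact lineDeriv_shift (hasLineDerivAt_ck ρ 1 (x - a))
    · intro x; exact lineDeriv_shift (lineDeriv_conj (hasLineDerivAt_ckv_I σ (x - b)))
  have e2 : ∫ w, f w * Gxy w = - ∫ w, fy w * Gx w := by
    refine ibp (v := I) ?_ ?_ ?_ ?_ ?_
    · exact integrable_mul_decay cfy.aestronglyMeasurable cGx.aestronglyMeasurable (by norm_num) bfy bGx
    · exact integrable_mul_decay cf.aestronglyMeasurable mGxy.aestronglyMeasurable (by norm_num) bf bGxy
    · exact integrable_mul_decay cf.aestronglyMeasurable cGx.aestronglyMeasurable (by norm_num) bf bGx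
    · intro x; exact lineDeriv_shift (hasLineDerivAt_ck ρ I (x - a))
    · intro x; exact lineDeriv_shift (lineDeriv_conj (hasLineDerivAt_ckv_one σ (x - b)))
  have e3 : ∫ w, fx w * Gy w = ∫ w, fy w * Gx w := by
    have := e1.symm.trans e2
    exact neg_injective this
  have i1 : Integrable (fun w => fx w * Gy w) :=
    integrable_mul_decay cfx.aestronglyMeasurable cGy.aestronglyMeasurable (by norm_num) bfx bGy
  have i2 : Integrable (fun w => fy w * Gx w) :=
    integrable_mul_decay cfy.aestronglyMeasurable cGx.aestronglyMeasurable (by norm_num) bfy bGx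
  have i3 : Integrable (fun w => fx w * Gx w) :=
    integrable_mul_decay cfx.aestronglyMeasurable cGx.aestronglyMeasurable (by norm_num) bfx bGx
  have i4 : Integrable (fun w => fy w * Gy w) :=
    integrable_mul_decay cfy.aestronglyMeasurable cGy.aestronglyMeasurable (by norm_num) bfy bGy
  have k1 : ∀ w, kap ρ (w - a) * conj (kap σ (w - b))
      = (1/4 : ℂ) * ((fx w * Gx w + fy w * Gy w) + I * (fx w * Gy w - fy w * Gx w)) := by
    intro w
    rw [kap_eq hρ, kap_eq hσ]
    simp only [map_div₀, map_neg, map_sub, map_mul, conj_I, map_ofNat]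
    simp only [hfx, hfy, hGx, hGy]
    ring_nf
    simp only [I_sq]
    ring_nf
  have hc : ∀ w, ((chi σ (w - b) : ℝ) : ℂ) = (Gx w - I * Gy w) / 2 := by
    intro w
    have := congrArg conj (chi_eq hσ (w - b))
    rw [conj_ofReal] at this
    rw [this]
    simp only [map_div₀, map_add, map_mul, conj_I, map_ofNat, hGx, hGy]
    ring
  have k2 : ∀ w, ((chi ρ (w - a) : ℝ) : ℂ) * ((chi σ (w - b) : ℝ) : ℂ)
      = (1/4 : ℂ) * ((fx w * Gx w + fy w * Gy w) - I * (fx w * Gy w - fy w * Gx w)) := by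
    intro w
    rw [hc w, chi_eq hρ]
    simp only [hfx, hfy]
    ring_nf
    simp only [I_sq]
    ring_nf
  have j0 : ∫ w, (fx w * Gy w - fy w * Gx w) = 0 := by
    rw [integral_sub i1 i2, e3, sub_self]
  have j1 : ∫ w, ((fx w * Gx w + fy w * Gy w) + I * (fx w * Gy w - fy w * Gx w))
      = (∫ w, (fx w * Gx w + fy w * Gy w)) + ∫ w, I * (fx w * Gy w - fy w * Gx w) :=
    integral_add (i3.add i4) ((i1.sub i2).const_mul I)
  have j2 : ∫ w, ((fx w * Gx w + fy w * Gy w) - I * (fx w * Gy w - fy w * Gx w))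
      = (∫ w, (fx w * Gx w + fy w * Gy w)) - ∫ w, I * (fx w * Gy w - fy w * Gx w) :=
    integral_sub (i3.add i4) ((i1.sub i2).const_mul I)
  have j3 : ∫ w, I * (fx w * Gy w - fy w * Gx w) = 0 := by
    rw [integral_const_mul, j0, mul_zero]
  simp_rw [k1, k2]
  rw [integral_const_mul, integral_const_mul, j1, j2, j3]
  simp

end

end Pool.Agent.RX
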