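import Pool.Agent.Lib_helper42.RXCauchy

set_option autoImplicit false

open MeasureTheory Complex Set Filter Topology
open scoped ComplexConjugate ENNReal

namespace Pool.Agent.RX

noncomputable section

/-- `∂bar F` -/
def dbar (F : ℂ → ℂ) (z : ℂ) : ℂ := (fderiv ℝ F z 1 + I * fderiv ℝ F z I) / 2

lemma continuous_dbar {F : ℂ → ℂ} (hF : ContDiff ℝ 1 F) : Continuous (dbar F) := by
  have := hF.continuous_fderiv (by norm_num)
  unfold dbar
  fun_prop

lemma hasCompactSupport_dbar {F : ℂ → ℂ} (hc : HasCompactSupport F) : HasCompactSupport (dbar F) := by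
  have h1 : HasCompactSupport (fderiv ℝ F) := hc.fderiv ℝ
  apply h1.mono
  intro x hx
  rw [Function.mem_support] at hx ⊢
  intro h
  apply hx
  unfold dbar
  rw [h]; simp

lemma dbar_ibp {F : ℂ → ℂ} (hF : ContDiff ℝ 1 F) (hc : HasCompactSupport F) {ρ : ℝ} (hρ : 0 < ρ) (ζ : ℂ) :
    ∫ z, dbar F z * ck ρ (z - ζ) = - ∫ z, F z * ((chi ρ (z - ζ) : ℝ) : ℂ) := by
  have hfd := hF.continuous_fderiv (by norm_num)
  have hcf : HasCompactSupport (fderiv ℝ F) := hc.fderiv ℝ
  have cc : Continuous (fun z => ck ρ (z - ζ)) := (continuous_ck ρ).comp (by fun_prop)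
  have cv : ∀ v, Continuous (fun z => ckv ρ v (z - ζ)) := fun v => (continuous_ckv ρ v).comp (by fun_prop)
  have hs : ∀ v : ℂ, HasCompactSupport (fun z => fderiv ℝ F z v) := by
    intro v
    apply hcf.mono
    intro x hx
    rw [Function.mem_support] at hx ⊢
    intro h; apply hx; rw [h]; simp
  have cfd : ∀ v : ℂ, Continuous (fun z => fderiv ℝ F z v) := fun v => by fun_prop
  have i1 : ∀ v : ℂ, Integrable (fun z => fderiv ℝ F z v * ck ρ (z - ζ)) := fun v =>
    ((cfd v).mul cc).integrable_of_hasCompactSupport ((hs v).mul_right)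
  have i2 : ∀ v : ℂ, Integrable (fun z => F z * ckv ρ v (z - ζ)) := fun v =>
    (hF.continuous.mul (cv v)).integrable_of_hasCompactSupport hc.mul_right
  have i3 : Integrable (fun z => F z * ck ρ (z - ζ)) :=
    (hF.continuous.mul cc).integrable_of_hasCompactSupport hc.mul_right
  have key : ∀ v : ℂ, ∫ z, F z * ckv ρ v (z - ζ) = - ∫ z, fderiv ℝ F z v * ck ρ (z - ζ) := by
    intro v
    refine ibp (v := v) (i1 v) (i2 v) i3 ?_ ?_
    · intro x
      exact ((hF.differentiable (by norm_num)) x).hasFDerivAt.hasLineDerivAt v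
    · intro x; exact lineDeriv_shift (hasLineDerivAt_ck ρ v (x - ζ))
  have e1 : ∫ z, dbar F z * ck ρ (z - ζ)
      = ((∫ z, fderiv ℝ F z 1 * ck ρ (z - ζ)) + I * ∫ z, fderiv ℝ F z I * ck ρ (z - ζ)) / 2 := by
    rw [← integral_const_mul, ← integral_add (i1 1) ((i1 I).const_mul I), ← integral_div]
    congr 1; ext z; unfold dbar; ring
  have e2 : ∫ z, F z * ((chi ρ (z - ζ) : ℝ) : ℂ)
      = ((∫ z, F z * ckv ρ 1 (z - ζ)) + I * ∫ z, F z * ckv ρ I (z - ζ)) / 2 := by
    rw [← integral_const_mul, ← integral_add (i2 1) ((i2 I).const_mul I), ← integral_div]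
    congr 1; ext z; rw [chi_eq hρ]; ring
  rw [e1, e2, key 1, key I]
  ring

theorem integral_eq_zero_of_muhat (ν : Measure ℂ) [IsFiniteMeasure ν] {u : ℂ → ℂ} (mu : Measurable u)
    (hu : ∀ ζ, ‖u ζ‖ ≤ 1) (hmu : ∀ᵐ z : ℂ, muhat ν u z = 0) {F : ℂ → ℂ} (hF : ContDiff ℝ 1 F)
    (hc : HasCompactSupport F) : ∫ ζ, F ζ * u ζ ∂ν = 0 := by
  have hdc := continuous_dbar hF
  have hds := hasCompactSupport_dbar hc
  have hdi : Integrable (dbar F) := hdc.integrable_of_hasCompactSupport hds
  obtain ⟨M, hM⟩ : ∃ M, ∀ z, ‖dbar F z‖ ≤ M := hdc.bounded_above_of_compact_support hds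
  obtain ⟨N, hN⟩ : ∃ N, ∀ z, ‖F z‖ ≤ N := hF.continuous.bounded_above_of_compact_support hc
  have hM0 : 0 ≤ M := (norm_nonneg _).trans (hM 0)
  set ρ : ℕ → ℝ := fun n => 1 / ((n : ℝ) + 1) with hρdef
  have hρ : ∀ n, 0 < ρ n := fun n => by simp only [hρdef]; positivity
  set H : ℂ × ℂ → ℂ := fun p => dbar F p.1 * (u p.2 * (p.1 - p.2)⁻¹) with hH
  set Hn : ℕ → ℂ × ℂ → ℂ := fun n p => dbar F p.1 * (u p.2 * ck (ρ n) (p.1 - p.2)) with hHn
  have mHn : ∀ n, Measurable (Hn n) := fun n =>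
    (hdc.measurable.comp measurable_fst).mul ((mu.comp measurable_snd).mul
      ((continuous_ck (ρ n)).measurable.comp (measurable_fst.sub measurable_snd)))
  set bnd : ℂ × ℂ → ℝ := fun p => ‖dbar F p.1‖ * 6 + 6 * M * k1 (p.1 - p.2) with hbnd
  have hbi : Integrable bnd (volume.prod ν) :=
    (hdi.norm.mul_prod (integrable_const (6 : ℝ))).add ((integrable_k1_prod ν).const_mul (6 * M))
  have hb : ∀ n p, ‖Hn n p‖ ≤ bnd p := by
    intro n p
    simp only [hHn, hbnd, norm_mul]
    have h1 := norm_ck_le_inv (hρ n) (p.1 - p.2)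
    have h2 := inv_norm_le (p.1 - p.2)
    have h3 : 0 ≤ k1 (p.1 - p.2) := k1_nonneg _
    calc ‖dbar F p.1‖ * (‖u p.2‖ * ‖ck (ρ n) (p.1 - p.2)‖)
        ≤ ‖dbar F p.1‖ * (1 * (6 * (1 + k1 (p.1 - p.2)))) := by
          gcongr
          · exact hu _
          · exact h1.trans (by gcongr)
      _ = ‖dbar F p.1‖ * 6 + 6 * ‖dbar F p.1‖ * k1 (p.1 - p.2) := by ring
      _ ≤ _ := by
          gcongr
          exact hM _
  have hHni : ∀ n, Integrable (Hn n) (volume.prod ν) := fun n =>
    hbi.mono' (mHn n).aestronglyMeasurable (Eventually.of_forall (hb n))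
  have mH : Measurable H :=
    (hdc.measurable.comp measurable_fst).mul ((mu.comp measurable_snd).mul
      ((measurable_fst.sub measurable_snd).inv))
  have hlim : ∀ p, Tendsto (fun n => Hn n p) atTop (𝓝 (H p)) := fun p =>
    ((tendsto_ck (p.1 - p.2)).const_mul (u p.2)).const_mul (dbar F p.1)
  have hHi : Integrable H (volume.prod ν) :=
    hbi.mono' mH.aestronglyMeasurable (Eventually.of_forall fun p =>
      le_of_tendsto (hlim p).norm (Eventually.of_forall fun n => hb n p))
  have T1 : Tendsto (fun n => ∫ p, Hn n p ∂(volume.prod ν)) atTop (𝓝 (∫ p, H p ∂(volume.prod ν))) :=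
    tendsto_integral_of_dominated_convergence bnd (fun n => (mHn n).aestronglyMeasurable) hbi
      (fun n => Eventually.of_forall (hb n)) (Eventually.of_forall hlim)
  have H0 : ∫ p, H p ∂(volume.prod ν) = 0 := by
    rw [integral_prod _ hHi]
    have : ∀ᵐ z : ℂ, ∫ ζ, H (z, ζ) ∂ν = 0 := by
      filter_upwards [hmu] with z hz
      simp only [hH]
      rw [integral_const_mul]
      have : ∫ ζ, u ζ * (z - ζ)⁻¹ ∂ν = - muhat ν u z := by
        unfold muhat
        rw [← integral_neg]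
        congr 1; ext ζ
        rw [div_eq_mul_inv, ← neg_sub ζ z, inv_neg]; ring
      rw [this, hz]; simp
    rw [integral_congr_ae this]; simp
  have E : ∀ n, ∫ p, Hn n p ∂(volume.prod ν)
      = - ∫ ζ, u ζ * (∫ v, F (ζ + ρ n • v) * ((chi 1 v : ℝ) : ℂ)) ∂ν := by
    intro n
    rw [integral_prod_symm _ (hHni n), ← integral_neg]
    congr 1; ext ζ
    simp only [hHn]
    have : ∫ z, dbar F z * (u ζ * ck (ρ n) (z - ζ)) = u ζ * ∫ z, dbar F z * ck (ρ n) (z - ζ) := by
      rw [← integral_const_mul]; congr 1; ext z; ring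
    rw [this, dbar_ibp hF hc (hρ n), conv_chi (hρ n)]
    ring
  have hchi : Integrable (fun v => ((chi 1 v : ℝ) : ℂ)) := integrable_chi_one.ofReal
  have Jlim : ∀ ζ, Tendsto (fun n => ∫ v, F (ζ + ρ n • v) * ((chi 1 v : ℝ) : ℂ)) atTop
      (𝓝 (F ζ * (mass : ℂ))) := by
    intro ζ
    have e : F ζ * (mass : ℂ) = ∫ v, F ζ * ((chi 1 v : ℝ) : ℂ) := by
      rw [integral_const_mul, integral_complex_ofReal]; rfl
    rw [e]
    refine tendsto_integral_of_dominated_convergence (fun v => N * chi 1 v) ?_ ?_ ?_ ?_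
    · intro n
      exact ((hF.continuous.comp (by fun_prop)).mul
        (Complex.continuous_ofReal.comp (continuous_chi 1))).aestronglyMeasurable
    · exact integrable_chi_one.const_mul N
    · intro n
      refine Eventually.of_forall fun v => ?_
      rw [norm_mul, Complex.norm_real, Real.norm_of_nonneg (chi_nonneg v)]
      gcongr
      · exact chi_nonneg v
      · exact hN _
    · refine Eventually.of_forall fun v => ?_
      have h0 : Tendsto ρ atTop (𝓝 0) := tendsto_one_div_add_atTop_nhds_zero_nat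
      have h1 : Tendsto (fun n => ζ + ρ n • v) atTop (𝓝 ζ) := by
        have := (h0.smul_const v).const_add ζ
        simpa using this
      exact ((hF.continuous.tendsto ζ).comp h1).mul_const _
  have Jb : ∀ n ζ, ‖∫ v, F (ζ + ρ n • v) * ((chi 1 v : ℝ) : ℂ)‖ ≤ N * mass := by
    intro n ζ
    have : N * mass = ∫ v, N * chi 1 v := by rw [integral_const_mul]; rfl
    rw [this]
    refine norm_integral_le_of_norm_le (integrable_chi_one.const_mul N) (Eventually.of_forall fun v => ?_)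
    rw [norm_mul, Complex.norm_real, Real.norm_of_nonneg (chi_nonneg v)]
    gcongr
    · exact chi_nonneg v
    · exact hN _
  have mJ : ∀ n, StronglyMeasurable (fun ζ => ∫ v, F (ζ + ρ n • v) * ((chi 1 v : ℝ) : ℂ)) := by
    intro n
    have : Measurable (Function.uncurry fun ζ v : ℂ => F (ζ + ρ n • v) * ((chi 1 v : ℝ) : ℂ)) := by
      apply Measurable.mul
      · exact hF.continuous.measurable.comp (by fun_prop)
      · exact Complex.measurable_ofReal.comp ((continuous_chi 1).measurable.comp measurable_snd)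
    exact this.stronglyMeasurable.integral_prod_right
  have T2 : Tendsto (fun n => ∫ ζ, u ζ * (∫ v, F (ζ + ρ n • v) * ((chi 1 v : ℝ) : ℂ)) ∂ν) atTop
      (𝓝 (∫ ζ, u ζ * (F ζ * (mass : ℂ)) ∂ν)) := by
    refine tendsto_integral_of_dominated_convergence (fun _ => N * mass) ?_ (integrable_const _) ?_ ?_
    · intro n; exact (mu.aestronglyMeasurable).mul (mJ n).aestronglyMeasurable
    · intro n
      refine Eventually.of_forall fun ζ => ?_
      rw [norm_mul]
      calc ‖u ζ‖ * ‖∫ v, F (ζ + ρ n • v) * ((chi 1 v : ℝ) : ℂ)‖ ≤ 1 * (N * mass) := by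
            gcongr
            · exact hu ζ
            · exact Jb n ζ
        _ = _ := one_mul _
    · exact Eventually.of_forall fun ζ => (Jlim ζ).const_mul (u ζ)
  have T1' := T1
  simp_rw [E, H0] at T1'
  have T3 := tendsto_nhds_unique T1' T2.neg
  have h4 : ∫ ζ, u ζ * (F ζ * (mass : ℂ)) ∂ν = (mass : ℂ) * ∫ ζ, F ζ * u ζ ∂ν := by
    rw [← integral_const_mul]; congr 1; ext ζ; ring
  rw [h4] at T3
  have hm : (mass : ℂ) ≠ 0 := by exact_mod_cast mass_pos.ne'
  have h5 : (mass : ℂ) * ∫ ζ, F ζ * u ζ ∂ν = 0 := by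
    have := T3.symm
    rwa [neg_eq_zero] at this
  exact (mul_eq_zero.1 h5).resolve_left hm

end

end Pool.Agent.RX
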