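import Mathlib

set_option autoImplicit false

open MeasureTheory Set Filter Topology
open scoped ComplexConjugate NNReal ENNReal BoundedContinuousFunction CompactlySupported

namespace Pool.Agent.RX

noncomputable section

variable {Y : Type*} [TopologicalSpace Y] [CompactSpace Y] [T2Space Y]

/-- the variation functional -/
def varSet (φ : (Y →ᵇ ℂ) →L[ℂ] ℂ) (f : Y → ℝ≥0) : Set ℝ :=
  {t | ∃ g : Y →ᵇ ℂ, (∀ x, ‖g x‖ ≤ f x) ∧ t = ‖φ g‖}

def varL (φ : (Y →ᵇ ℂ) →L[ℂ] ℂ) (f : Y → ℝ≥0) : ℝ := sSup (varSet φ f)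

lemma varSet_nonempty (φ : (Y →ᵇ ℂ) →L[ℂ] ℂ) (f : Y → ℝ≥0) : (varSet φ f).Nonempty :=
  ⟨0, 0, by simp, by simp⟩

lemma varSet_bdd (φ : (Y →ᵇ ℂ) →L[ℂ] ℂ) {f : Y → ℝ≥0} (hf : Continuous f) : BddAbove (varSet φ f) := by
  obtain ⟨C, hC⟩ : ∃ C : ℝ, ∀ x, (f x : ℝ) ≤ C := by
    rcases isEmpty_or_nonempty Y with hY | hY
    · exact ⟨0, fun x => (IsEmpty.false x).elim⟩
    · obtain ⟨x0, -, hx0⟩ := isCompact_univ.exists_isMaxOn univ_nonempty
        (f := fun x => (f x : ℝ)) (by fun_prop)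
      exact ⟨f x0, fun x => hx0 (mem_univ x)⟩
  refine ⟨‖φ‖ * max C 0, ?_⟩
  rintro t ⟨g, hg, rfl⟩
  refine (φ.le_opNorm g).trans ?_
  gcongr
  rw [BoundedContinuousFunction.norm_le (le_max_right _ _)]
  intro x
  exact (hg x).trans ((hC x).trans (le_max_left _ _))

lemma le_varL (φ : (Y →ᵇ ℂ) →L[ℂ] ℂ) {f : Y → ℝ≥0} (hf : Continuous f) {g : Y →ᵇ ℂ}
    (hg : ∀ x, ‖g x‖ ≤ f x) : ‖φ g‖ ≤ varL φ f :=
  le_csSup (varSet_bdd φ hf) ⟨g, hg, rfl⟩

lemma varL_le (φ : (Y →ᵇ ℂ) →L[ℂ] ℂ) {f : Y → ℝ≥0} {c : ℝ}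
    (h : ∀ g : Y →ᵇ ℂ, (∀ x, ‖g x‖ ≤ f x) → ‖φ g‖ ≤ c) : varL φ f ≤ c := by
  apply csSup_le (varSet_nonempty φ f)
  rintro t ⟨g, hg, rfl⟩
  exact h g hg

lemma varL_nonneg (φ : (Y →ᵇ ℂ) →L[ℂ] ℂ) {f : Y → ℝ≥0} (hf : Continuous f) : 0 ≤ varL φ f := by
  have := le_varL φ hf (g := 0) (by simp)
  simpa using this

lemma varL_add_le (φ : (Y →ᵇ ℂ) →L[ℂ] ℂ) {f1 f2 : Y → ℝ≥0} (h1 : Continuous f1) (h2 : Continuous f2) :
    varL φ (fun x => f1 x + f2 x) ≤ varL φ f1 + varL φ f2 := by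
  apply varL_le
  intro g hg
  apply le_of_forall_pos_le_add
  intro e he
  set η : ℝ := e / (‖φ‖ + 1) with hη
  have hη0 : 0 < η := by positivity
  have hc1 : Continuous (fun x => (f1 x : ℝ)) := by fun_prop
  have hc2 : Continuous (fun x => (f2 x : ℝ)) := by fun_prop
  have hpos : ∀ x, 0 < (f1 x : ℝ) + f2 x + η := fun x => by positivity
  let g1 : Y →ᵇ ℂ := BoundedContinuousFunction.mkOfCompact
    ⟨fun x => g x * (((f1 x : ℝ) / ((f1 x : ℝ) + f2 x + η) : ℝ) : ℂ), by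
      have : Continuous (fun x => (f1 x : ℝ) / ((f1 x : ℝ) + f2 x + η)) :=
        hc1.div (by fun_prop) (fun x => (hpos x).ne')
      fun_prop⟩
  let g2 : Y →ᵇ ℂ := BoundedContinuousFunction.mkOfCompact
    ⟨fun x => g x * (((f2 x : ℝ) / ((f1 x : ℝ) + f2 x + η) : ℝ) : ℂ), by
      have : Continuous (fun x => (f2 x : ℝ) / ((f1 x : ℝ) + f2 x + η)) :=
        hc2.div (by fun_prop) (fun x => (hpos x).ne')
      fun_prop⟩
  have b1 : ∀ x, ‖g1 x‖ ≤ f1 x := by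
    intro x
    have := hpos x
    have hgx := hg x
    push_cast at hgx
    simp only [g1, BoundedContinuousFunction.mkOfCompact_apply, ContinuousMap.coe_mk, norm_mul,
      Complex.norm_real]
    rw [Real.norm_of_nonneg (by positivity), mul_div_assoc', div_le_iff₀ this]
    have h0 : (0 : ℝ) ≤ f1 x := (f1 x).2
    nlinarith
  have b2 : ∀ x, ‖g2 x‖ ≤ f2 x := by
    intro x
    have := hpos x
    have hgx := hg x
    push_cast at hgx
    simp only [g2, BoundedContinuousFunction.mkOfCompact_apply, ContinuousMap.coe_mk, norm_mul,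
      Complex.norm_real]
    rw [Real.norm_of_nonneg (by positivity), mul_div_assoc', div_le_iff₀ this]
    have h0 : (0 : ℝ) ≤ f2 x := (f2 x).2
    nlinarith
  have b3 : ‖g - (g1 + g2)‖ ≤ η := by
    rw [BoundedContinuousFunction.norm_le hη0.le]
    intro x
    have := hpos x
    have hgx := hg x
    push_cast at hgx
    have e1 : (g - (g1 + g2)) x = g x * (((η / ((f1 x : ℝ) + f2 x + η)) : ℝ) : ℂ) := by
      simp only [BoundedContinuousFunction.coe_sub, BoundedContinuousFunction.coe_add, Pi.sub_apply,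
        Pi.add_apply, g1, g2, BoundedContinuousFunction.mkOfCompact_apply, ContinuousMap.coe_mk]
      have hne : (((f1 x : ℝ) + f2 x + η : ℝ) : ℂ) ≠ 0 := by exact_mod_cast this.ne'
      push_cast at hne ⊢
      field_simp
      ring
    rw [e1, norm_mul, Complex.norm_real, Real.norm_of_nonneg (by positivity), mul_div_assoc',
      div_le_iff₀ this]
    have h0 : (0 : ℝ) ≤ f1 x := (f1 x).2
    have h0' : (0 : ℝ) ≤ f2 x := (f2 x).2
    nlinarith
  have key : ‖φ g‖ ≤ ‖φ g1‖ + ‖φ g2‖ + ‖φ‖ * η := by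
    have : φ g = φ g1 + φ g2 + φ (g - (g1 + g2)) := by
      rw [map_sub, map_add]; ring
    rw [this]
    refine (norm_add_le _ _).trans (add_le_add (norm_add_le _ _) ?_)
    exact (φ.le_opNorm _).trans (by gcongr)
  have k1 := le_varL φ h1 b1
  have k2 := le_varL φ h2 b2
  have k3 : ‖φ‖ * η ≤ e := by
    rw [hη, mul_div_assoc', div_le_iff₀ (by positivity)]
    nlinarith [norm_nonneg φ]
  linarith

lemma varL_add_ge (φ : (Y →ᵇ ℂ) →L[ℂ] ℂ) {f1 f2 : Y → ℝ≥0} (h1 : Continuous f1) (h2 : Continuous f2) :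
    varL φ f1 + varL φ f2 ≤ varL φ (fun x => f1 x + f2 x) := by
  have key : ∀ g1 g2 : Y →ᵇ ℂ, (∀ x, ‖g1 x‖ ≤ f1 x) → (∀ x, ‖g2 x‖ ≤ f2 x) →
      ‖φ g1‖ + ‖φ g2‖ ≤ varL φ (fun x => f1 x + f2 x) := by
    intro g1 g2 b1 b2
    obtain ⟨c1, hc1, e1⟩ := Complex.exists_norm_eq_mul_self (φ g1)
    obtain ⟨c2, hc2, e2⟩ := Complex.exists_norm_eq_mul_self (φ g2)
    have hb : ∀ x, ‖(c1 • g1 + c2 • g2) x‖ ≤ ((f1 x + f2 x : ℝ≥0) : ℝ) := by
      intro x
      simp only [BoundedContinuousFunction.coe_add, BoundedContinuousFunction.coe_smul, Pi.add_apply]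
      refine (norm_add_le _ _).trans ?_
      rw [norm_smul, norm_smul, hc1, hc2, one_mul, one_mul]
      push_cast
      exact add_le_add (b1 x) (b2 x)
    have := le_varL φ (f := fun x => f1 x + f2 x) (by fun_prop) hb
    have e3 : ‖φ (c1 • g1 + c2 • g2)‖ = ‖φ g1‖ + ‖φ g2‖ := by
      rw [map_add, map_smul, map_smul, smul_eq_mul, smul_eq_mul, ← e1, ← e2, ← Complex.ofReal_add,
        Complex.norm_real, Real.norm_of_nonneg (by positivity)]
    rwa [e3] at this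
  have k1 : varL φ f1 ≤ varL φ (fun x => f1 x + f2 x) - varL φ f2 := by
    apply varL_le
    intro g1 b1
    have : varL φ f2 ≤ varL φ (fun x => f1 x + f2 x) - ‖φ g1‖ := by
      apply varL_le
      intro g2 b2
      linarith [key g1 g2 b1 b2]
    linarith
  linarith

lemma varL_smul_le (φ : (Y →ᵇ ℂ) →L[ℂ] ℂ) (c : ℝ≥0) {f : Y → ℝ≥0} (hf : Continuous f) :
    varL φ (fun x => c * f x) ≤ c * varL φ f := by
  rcases eq_or_ne c 0 with rfl | hc
  · apply varL_le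
    intro g hg
    have : g = 0 := by
      ext x
      have := hg x
      simpa using this
    rw [this]; simp
  · apply varL_le
    intro g hg
    have hc' : (0 : ℝ) < c := by positivity
    have hb : ∀ x, ‖(((c : ℝ) : ℂ)⁻¹ • g) x‖ ≤ f x := by
      intro x
      simp only [BoundedContinuousFunction.coe_smul]
      rw [norm_smul, norm_inv, Complex.norm_real, Real.norm_of_nonneg hc'.le]
      have := hg x
      push_cast at this
      rw [inv_mul_le_iff₀ hc']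
      exact this
    have := le_varL φ hf hb
    rw [map_smul, norm_smul, norm_inv, Complex.norm_real, Real.norm_of_nonneg hc'.le,
      inv_mul_le_iff₀ hc'] at this
    exact this

lemma varL_smul (φ : (Y →ᵇ ℂ) →L[ℂ] ℂ) (c : ℝ≥0) {f : Y → ℝ≥0} (hf : Continuous f) :
    varL φ (fun x => c * f x) = c * varL φ f := by
  refine le_antisymm (varL_smul_le φ c hf) ?_
  rcases eq_or_ne c 0 with rfl | hc
  · simpa using varL_nonneg φ (f := fun x => 0 * f x) (by fun_prop)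
  · have hc' : (0 : ℝ) < c := by positivity
    have := varL_smul_le φ c⁻¹ (f := fun x => c * f x) (by fun_prop)
    have e : (fun x => c⁻¹ * (c * f x)) = f := by
      ext x; simp [hc]
    rw [e] at this
    push_cast at this
    rwa [← div_eq_inv_mul, le_div_iff₀ hc', mul_comm] at this

/-- the variation as an additive functional on nonnegative functions -/
def varLin (φ : (Y →ᵇ ℂ) →L[ℂ] ℂ) : C_c(Y, ℝ≥0) →ₗ[ℝ≥0] ℝ≥0 where
  toFun f := ⟨varL φ f, varL_nonneg φ f.continuous⟩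
  map_add' f1 f2 := by
    apply NNReal.eq
    have h1 := varL_add_le φ f1.continuous f2.continuous
    have h2 := varL_add_ge φ f1.continuous f2.continuous
    have : varL φ (⇑(f1 + f2)) = varL φ f1 + varL φ f2 := le_antisymm h1 h2
    exact this
  map_smul' c f := by
    apply NNReal.eq
    have := varL_smul φ c f.continuous
    exact this

theorem exists_var_measure [MeasurableSpace Y] [BorelSpace Y] (φ : (Y →ᵇ ℂ) →L[ℂ] ℂ) :
    ∃ ν : Measure Y, IsFiniteMeasure ν ∧ ∀ g : Y →ᵇ ℂ, ENNReal.ofReal ‖φ g‖ ≤ ∫⁻ x, ‖g x‖₊ ∂ν := by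
  have fin : IsFiniteMeasure (NNRealRMK.rieszMeasure (varLin φ)) := by
    constructor
    let one : C_c(Y, ℝ≥0) := ⟨⟨fun _ => 1, continuous_const⟩, HasCompactSupport.of_compactSpace _⟩
    have := NNRealRMK.lintegral_rieszMeasure (varLin φ) one
    simp only [one, CompactlySupportedContinuousMap.coe_mk, ContinuousMap.coe_mk, ENNReal.coe_one,
      lintegral_const, one_mul] at this
    rw [this]
    exact ENNReal.coe_lt_top
  refine ⟨NNRealRMK.rieszMeasure (varLin φ), fin, fun g => ?_⟩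
  let ag : C_c(Y, ℝ≥0) := ⟨⟨fun x => ‖g x‖₊, by fun_prop⟩, HasCompactSupport.of_compactSpace _⟩
  have := NNRealRMK.lintegral_rieszMeasure (varLin φ) ag
  have e : ∫⁻ x, (ag x : ℝ≥0∞) ∂(NNRealRMK.rieszMeasure (varLin φ)) = ∫⁻ x, ‖g x‖₊ ∂(NNRealRMK.rieszMeasure (varLin φ)) := rfl
  rw [← e, this]
  have h1 : ‖φ g‖ ≤ varL φ ag := le_varL φ ag.continuous (fun x => le_rfl)
  have h2 : ENNReal.ofReal (varL φ ag) = ((varLin φ ag : ℝ≥0) : ℝ≥0∞) := by
    rw [ENNReal.ofReal]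
    congr 1
    apply NNReal.eq
    have h0 : 0 ≤ varL φ (⇑ag) := varL_nonneg φ ag.continuous
    rw [Real.coe_toNNReal _ h0]
    rfl
  rw [← h2]
  exact ENNReal.ofReal_le_ofReal h1

lemma exists_vec {H E : Type*} [NormedAddCommGroup H] [InnerProductSpace ℂ H] [CompleteSpace H]
    [AddCommGroup E] [Module ℂ E] (T : E →ₗ[ℂ] H) (φ : E →ₗ[ℂ] ℂ) (C : ℝ)
    (h : ∀ g, ‖φ g‖ ≤ C * ‖T g‖) : ∃ v : H, ∀ g, φ g = inner ℂ v (T g) := by
  have hker : LinearMap.ker T ≤ LinearMap.ker φ := by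
    intro g hg
    rw [LinearMap.mem_ker] at hg ⊢
    have := h g
    rw [hg] at this
    simpa using this
  let ψ : LinearMap.range T →ₗ[ℂ] ℂ :=
    ((LinearMap.ker T).liftQ φ hker) ∘ₗ (T.quotKerEquivRange.symm : LinearMap.range T →ₗ[ℂ] _)
  have hψ : ∀ g, ψ ⟨T g, LinearMap.mem_range_self T g⟩ = φ g := by
    intro g
    have : T.quotKerEquivRange.symm ⟨T g, LinearMap.mem_range_self T g⟩ = Submodule.Quotient.mk g := by
      rw [LinearEquiv.symm_apply_eq]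
      rfl
    simp only [ψ, LinearMap.comp_apply, LinearEquiv.coe_coe, this]
    simp
  let ψc : LinearMap.range T →L[ℂ] ℂ := ψ.mkContinuous C (by
    rintro ⟨_, g, rfl⟩
    rw [hψ g]
    exact h g)
  obtain ⟨Φ, hΦ, -⟩ := exists_extension_norm_eq (LinearMap.range T) ψc
  refine ⟨(InnerProductSpace.toDual ℂ H).symm Φ, fun g => ?_⟩
  rw [InnerProductSpace.toDual_symm_apply]
  rw [← hψ g]
  exact (hΦ ⟨T g, LinearMap.mem_range_self T g⟩).symm

theorem exists_L2_rep [MeasurableSpace Y] [BorelSpace Y] (φ : (Y →ᵇ ℂ) →L[ℂ] ℂ) :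
    ∃ (ν : Measure Y) (h : Y → ℂ), IsFiniteMeasure ν ∧ MemLp h 2 ν ∧
      ∀ g : Y →ᵇ ℂ, φ g = ∫ x, g x * h x ∂ν := by
  obtain ⟨ν, hν, hb⟩ := exists_var_measure φ
  set T : (Y →ᵇ ℂ) →L[ℂ] Lp ℂ 2 ν := BoundedContinuousFunction.toLp 2 ν ℂ with hT
  have hbound : ∀ g : Y →ᵇ ℂ, ‖φ g‖ ≤ (ν univ ^ (1 / (1 : ℝ≥0∞).toReal - 1 / (2 : ℝ≥0∞).toReal)).toReal * ‖T g‖ := by
    intro g
    have h1 : ENNReal.ofReal ‖φ g‖ ≤ eLpNorm g 1 ν := by
      refine (hb g).trans (le_of_eq ?_)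
      rw [eLpNorm_one_eq_lintegral_enorm]
      rfl
    have h2 := eLpNorm_le_eLpNorm_mul_rpow_measure_univ (μ := ν) (p := 1) (q := 2) (by norm_num)
      (f := g) g.continuous.aestronglyMeasurable
    have h3 : eLpNorm g 2 ν = eLpNorm (T g) 2 ν :=
      eLpNorm_congr_ae (BoundedContinuousFunction.coeFn_toLp (E := ℂ) (𝕜 := ℂ) (p := 2) ν g).symm
    have h4 : eLpNorm (T g) 2 ν ≠ ⊤ := (Lp.memLp (T g)).2.ne
    have h5 : ν univ ^ (1 / (1 : ℝ≥0∞).toReal - 1 / (2 : ℝ≥0∞).toReal) ≠ ⊤ := by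
      apply ENNReal.rpow_ne_top_of_nonneg _ (measure_ne_top _ _)
      norm_num
    have h6 := h1.trans h2
    rw [h3] at h6
    have h7 := ENNReal.toReal_mono (ENNReal.mul_ne_top h4 h5) h6
    rw [ENNReal.toReal_ofReal (norm_nonneg _), ENNReal.toReal_mul, ← Lp.norm_def, mul_comm] at h7
    exact h7
  obtain ⟨v, hv⟩ := exists_vec (T : (Y →ᵇ ℂ) →ₗ[ℂ] Lp ℂ 2 ν) (φ : (Y →ᵇ ℂ) →ₗ[ℂ] ℂ) _ hbound
  refine ⟨ν, fun x => conj ((v : Y → ℂ) x), hν, (Lp.memLp v).star, fun g => ?_⟩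
  have h1 := hv g
  simp only [ContinuousLinearMap.coe_coe] at h1
  rw [h1, L2.inner_def]
  apply integral_congr_ae
  filter_upwards [BoundedContinuousFunction.coeFn_toLp (E := ℂ) (𝕜 := ℂ) (p := 2) ν g] with x hx
  rw [hT, hx]
  simp [RCLike.inner_apply]

theorem exists_rep [MeasurableSpace Y] [BorelSpace Y] (φ : (Y →ᵇ ℂ) →L[ℂ] ℂ) :
    ∃ (ν : Measure Y) (u : Y → ℂ), IsFiniteMeasure ν ∧ Measurable u ∧ (∀ x, ‖u x‖ ≤ 1) ∧
      ∀ g : Y →ᵇ ℂ, φ g = ∫ x, g x * u x ∂ν := by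
  obtain ⟨ν, h0, hν, hh, hrep⟩ := exists_L2_rep φ
  have hae := hh.1.ae_eq_mk
  set h : Y → ℂ := hh.1.mk h0 with hdef
  have hm : Measurable h := hh.1.stronglyMeasurable_mk.measurable
  have hh2 : MemLp h 2 ν := (memLp_congr_ae hae).1 hh
  have hi : Integrable h ν := hh2.integrable (by norm_num)
  have hnn : Measurable (fun x => ‖h x‖₊) := hm.nnnorm
  refine ⟨ν.withDensity (fun x => (‖h x‖₊ : ℝ≥0∞)), fun x => h x / (‖h x‖ : ℂ), ?_, ?_, ?_, ?_⟩
  · constructor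
    rw [withDensity_apply _ MeasurableSet.univ, Measure.restrict_univ]
    exact hi.2
  · exact hm.div (Complex.measurable_ofReal.comp hm.norm)
  · intro x
    rw [norm_div, Complex.norm_real, norm_norm]
    exact div_self_le_one _
  · intro g
    rw [hrep g, integral_withDensity_eq_integral_smul hnn]
    apply integral_congr_ae
    filter_upwards [hae] with x hx
    rw [hx]
    rcases eq_or_ne (h x) 0 with h0 | h0
    · rw [h0]; simp
    · have : ((‖h x‖ : ℝ) : ℂ) ≠ 0 := by exact_mod_cast (norm_ne_zero_iff.2 h0)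
      rw [NNReal.smul_def, coe_nnnorm, Complex.real_smul]
      field_simp

end

end Pool.Agent.RX
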