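import Pool.Agent.Lib_helper42.RXMain2
import Pool.Agent.Lib_helper42.RXRiesz

set_option autoImplicit false

open MeasureTheory Complex Set Filter Topology
open scoped ComplexConjugate ENNReal NNReal BoundedContinuousFunction

namespace Pool.Agent.RX

noncomputable section

theorem exists_annihilator {E : Type*} [NormedAddCommGroup E] [NormedSpace ℂ E] (S : Submodule ℂ E)
    (hS : IsClosed (S : Set E)) {f0 : E} (h0 : f0 ∉ S) :
    ∃ φ : E →L[ℂ] ℂ, (∀ s ∈ S, φ s = 0) ∧ φ f0 ≠ 0 := by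
  haveI := hS
  letI : NormedAddCommGroup (E ⧸ S) := Submodule.Quotient.normedAddCommGroup S
  have hx : ‖(Submodule.Quotient.mk f0 : E ⧸ S)‖ ≠ 0 := by
    rw [norm_ne_zero_iff]
    intro h
    exact h0 ((Submodule.Quotient.mk_eq_zero S).1 h)
  obtain ⟨g, -, hg⟩ := exists_dual_vector ℂ (Submodule.Quotient.mk f0 : E ⧸ S) hx
  let π : E →L[ℂ] (E ⧸ S) := (S.mkQ).mkContinuous 1 (fun x => by
    rw [one_mul]; exact Submodule.Quotient.norm_mk_le S x)
  refine ⟨g.comp π, fun s hs => ?_, ?_⟩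
  · have : π s = 0 := (Submodule.Quotient.mk_eq_zero S).2 hs
    simp [this]
  · have : (g.comp π) f0 = ((‖(Submodule.Quotient.mk f0 : E ⧸ S)‖ : ℝ) : ℂ) := hg
    rw [this]
    exact_mod_cast hx

/-- the star subalgebra of restrictions of `C¹` functions -/
def smoothStar (X : Set ℂ) : StarSubalgebra ℂ C(↥X, ℂ) where
  carrier := {f | ∃ F : ℂ → ℂ, ContDiff ℝ 1 F ∧ ∀ x : ↥X, f x = F x}
  mul_mem' := by
    rintro f g ⟨F, hF, h1⟩ ⟨G, hG, h2⟩
    exact ⟨fun z => F z * G z, hF.mul hG, fun x => by simp [h1, h2]⟩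
  one_mem' := ⟨fun _ => 1, contDiff_const, fun x => by simp⟩
  add_mem' := by
    rintro f g ⟨F, hF, h1⟩ ⟨G, hG, h2⟩
    exact ⟨fun z => F z + G z, hF.add hG, fun x => by simp [h1, h2]⟩
  zero_mem' := ⟨fun _ => 0, contDiff_const, fun x => by simp⟩
  algebraMap_mem' := by
    intro c
    exact ⟨fun _ => c, contDiff_const, fun x => by simp⟩
  star_mem' := by
    rintro f ⟨F, hF, h1⟩
    refine ⟨fun z => conj (F z), ?_, fun x => by simp [h1]⟩
    exact conjCLE.contDiff.comp hF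

theorem eq_zero_of_smooth {X : Set ℂ} [CompactSpace ↥X] (φ : (↥X →ᵇ ℂ) →L[ℂ] ℂ)
    (h : ∀ F : ℂ → ℂ, ContDiff ℝ 1 F → ∀ g : ↥X →ᵇ ℂ, (∀ x : ↥X, g x = F x) → φ g = 0) : φ = 0 := by
  have hsep : (smoothStar X).SeparatesPoints := by
    intro x y hxy
    refine ⟨fun z : ↥X => (z : ℂ), ⟨⟨fun z : ↥X => (z : ℂ), continuous_subtype_val⟩, ?_, rfl⟩, ?_⟩
    · exact ⟨fun z => z, contDiff_id, fun x => rfl⟩
    · intro h; exact hxy (Subtype.ext h)
  have htop := ContinuousMap.starSubalgebra_topologicalClosure_eq_top_of_separatesPoints (smoothStar X) hsep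
  set J := ContinuousMap.linearIsometryBoundedOfCompact (↥X) ℂ ℂ with hJ
  have hcl : IsClosed {f : C(↥X, ℂ) | φ (J f) = 0} :=
    isClosed_eq (φ.continuous.comp J.continuous) continuous_const
  have hsub : ((smoothStar X : StarSubalgebra ℂ C(↥X, ℂ)) : Set C(↥X, ℂ)) ⊆ {f : C(↥X, ℂ) | φ (J f) = 0} := by
    rintro f ⟨F, hF, h1⟩
    exact h F hF (J f) (fun x => by rw [← h1 x]; rfl)
  have hall : ∀ f : C(↥X, ℂ), φ (J f) = 0 := by
    intro f
    have hf : f ∈ (smoothStar X).topologicalClosure := by rw [htop]; trivial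
    have hf' : f ∈ closure ((smoothStar X : StarSubalgebra ℂ C(↥X, ℂ)) : Set C(↥X, ℂ)) := hf
    exact hcl.closure_subset_iff.2 hsub hf'
  ext g
  have := hall (J.symm g)
  simpa using this

/-- extension by zero -/
def ext0 {X : Set ℂ} (f : ↥X → ℂ) : ℂ → ℂ := Function.extend Subtype.val f (fun _ => 0)

lemma ext0_apply {X : Set ℂ} (f : ↥X → ℂ) (x : ↥X) : ext0 f x = f x :=
  Subtype.val_injective.extend_apply _ _ _

lemma ext0_apply' {X : Set ℂ} (f : ↥X → ℂ) {z : ℂ} (hz : z ∈ X) : ext0 f z = f ⟨z, hz⟩ :=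
  ext0_apply f ⟨z, hz⟩

lemma ext0_off {X : Set ℂ} (f : ↥X → ℂ) {z : ℂ} (hz : z ∉ X) : ext0 f z = 0 := by
  unfold ext0
  rw [Function.extend_apply']
  rintro ⟨x, rfl⟩
  exact hz x.2

lemma measurable_ext0 {X : Set ℂ} (hX : MeasurableSet X) {f : ↥X → ℂ} (hf : Measurable f) :
    Measurable (ext0 f) :=
  (MeasurableEmbedding.subtype_coe hX).measurable_extend hf measurable_const

/-- everything we need about an annihilating functional -/
theorem exists_data {X : Set ℂ} (hX : IsCompact X) (A : Subalgebra ℂ (↥X →ᵇ ℂ))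
    (hcl : IsClosed (A : Set (↥X →ᵇ ℂ)))
    (hrat : ∀ (g : ↥X →ᵇ ℂ) (p q : Polynomial ℂ), (∀ z ∈ X, q.eval z ≠ 0) →
      (∀ z : ↥X, g z = p.eval (z : ℂ) / q.eval (z : ℂ)) → g ∈ A)
    (hA : A ≠ ⊤) :
    ∃ (ν : Measure ℂ) (u : ℂ → ℂ), IsFiniteMeasure ν ∧ Measurable u ∧ (∀ ζ, ‖u ζ‖ ≤ 1) ∧
      (∀ ζ, ζ ∉ X → u ζ = 0) ∧
      (∀ p q : Polynomial ℂ, (∀ z ∈ X, q.eval z ≠ 0) → ∫ ζ, p.eval ζ / q.eval ζ * u ζ ∂ν = 0) ∧
      ¬ (∀ᵐ z : ℂ, muhat ν u z = 0) := by
  haveI : CompactSpace ↥X := isCompact_iff_compactSpace.1 hX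
  obtain ⟨f0, hf0⟩ : ∃ f0, f0 ∉ A := by
    by_contra hcon
    push Not at hcon
    exact hA (eq_top_iff.2 fun x _ => hcon x)
  obtain ⟨φ, hφ, hφ0⟩ := exists_annihilator (Subalgebra.toSubmodule A) hcl (f0 := f0) hf0
  obtain ⟨ν', u', hν', mu', hu', hrep⟩ := exists_rep φ
  have hXm : MeasurableSet X := hX.measurableSet
  have hemb := MeasurableEmbedding.subtype_coe hXm
  refine ⟨ν'.map Subtype.val, ext0 u', Measure.isFiniteMeasure_map ν' _, measurable_ext0 hXm mu', ?_, ?_, ?_, ?_⟩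
  · intro ζ
    by_cases hζ : ζ ∈ X
    · rw [ext0_apply' u' hζ]; exact hu' _
    · rw [ext0_off u' hζ]; simp
  · intro ζ hζ; exact ext0_off u' hζ
  · intro p q hq
    rw [hemb.integral_map]
    have hc : Continuous (fun z : ↥X => p.eval (z : ℂ) / q.eval (z : ℂ)) :=
      (p.continuous.comp continuous_subtype_val).div (q.continuous.comp continuous_subtype_val)
        (fun x => hq x x.2)
    let g : ↥X →ᵇ ℂ := BoundedContinuousFunction.mkOfCompact ⟨_, hc⟩
    have hg : g ∈ A := hrat g p q hq (fun z => rfl)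
    have h1 := hφ g hg
    rw [hrep g] at h1
    simp_rw [ext0_apply]
    exact h1
  · intro hmu
    apply hφ0
    have : φ = 0 := by
      apply eq_zero_of_smooth
      intro F hF g hg
      obtain ⟨D, hD⟩ := hX.isBounded.exists_norm_le
      let bump : ContDiffBump (0 : ℂ) := ⟨|D| + 1, |D| + 2, by positivity, by linarith⟩
      have hb1 : ∀ z ∈ X, bump z = 1 := by
        intro z hz
        apply bump.one_of_mem_closedBall
        rw [Metric.mem_closedBall, dist_zero_right]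
        have := hD z hz
        have h2 := le_abs_self D
        show ‖z‖ ≤ |D| + 1
        linarith
      have hF2 : ContDiff ℝ 1 (fun z => ((bump z : ℝ) : ℂ) * F z) := by
        have hb : ContDiff ℝ 1 (fun z : ℂ => ((bump z : ℝ) : ℂ)) :=
          Complex.ofRealCLM.contDiff.comp bump.contDiff
        exact hb.mul hF
      have hc2 : HasCompactSupport (fun z => ((bump z : ℝ) : ℂ) * F z) := by
        have : HasCompactSupport (fun z : ℂ => ((bump z : ℝ) : ℂ)) :=
          bump.hasCompactSupport.comp_left (g := fun t : ℝ => (t : ℂ)) (by simp)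
        exact this.mul_right
      have key := integral_eq_zero_of_muhat (ν'.map Subtype.val) (u := ext0 u')
        (measurable_ext0 hXm mu') (by
          intro ζ
          by_cases hζ : ζ ∈ X
          · rw [ext0_apply' u' hζ]; exact hu' _
          · rw [ext0_off u' hζ]; simp) hmu hF2 hc2
      rw [hemb.integral_map] at key
      rw [hrep g, ← key]
      congr 1; ext x
      rw [hb1 x x.2, hg x, ext0_apply]
      simp
    rw [this]; rfl

end

end Pool.Agent.RX
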